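import Pool.Agent.MP_154433_an.t7.Mat0

/-! Exponential forms of the trace moment bound, and the union bound. -/

set_option autoImplicit false
set_option linter.unusedVariables false
set_option linter.unusedSectionVars false

open Finset Matrix
open scoped BigOperators ComplexConjugate

noncomputable section

namespace T7M

variable {ι : Type} [Fintype ι] [DecidableEq ι]

open Classical in
/-- probability of an event for the product weight -/
def Pr (s : ι → ℝ) (E : (ι → Bool) → Prop) : ℝ := ∑ x : ι → Bool, (if E x then wt s x else 0)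

lemma Pr_nonneg {s : ι → ℝ} (hs : ∀ d, 0 ≤ s d ∧ s d ≤ 1) (E : (ι → Bool) → Prop) :
    0 ≤ Pr s E := sum_nonneg fun x _ => by
  split_ifs
  · exact wt_nonneg hs x
  · exact le_rfl

lemma Pr_mono {s : ι → ℝ} (hs : ∀ d, 0 ≤ s d ∧ s d ≤ 1) {E F : (ι → Bool) → Prop}
    (h : ∀ x, E x → F x) : Pr s E ≤ Pr s F := sum_le_sum fun x _ => by
  by_cases hE : E x
  · rw [if_pos hE, if_pos (h x hE)]
  · rw [if_neg hE]
    split_ifs
    · exact wt_nonneg hs x
    · exact le_rfl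

lemma Pr_le_one {s : ι → ℝ} (hs : ∀ d, 0 ≤ s d ∧ s d ≤ 1) (E : (ι → Bool) → Prop) :
    Pr s E ≤ 1 := by
  rw [← wt_sum s]
  refine sum_le_sum fun x _ => ?_
  split_ifs
  · exact le_rfl
  · exact wt_nonneg hs x

lemma Pr_false (s : ι → ℝ) {E : (ι → Bool) → Prop} (h : ∀ x, ¬ E x) : Pr s E = 0 :=
  sum_eq_zero fun x _ => if_neg (h x)

lemma Pr_or {s : ι → ℝ} (hs : ∀ d, 0 ≤ s d ∧ s d ≤ 1) (E F : (ι → Bool) → Prop) :
    Pr s (fun x => E x ∨ F x) ≤ Pr s E + Pr s F := by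
  rw [Pr, Pr, Pr, ← sum_add_distrib]
  refine sum_le_sum fun x _ => ?_
  have := wt_nonneg hs x
  by_cases hE : E x <;> by_cases hF : F x <;> simp [hE, hF, this]

lemma Pr_union {s : ι → ℝ} (hs : ∀ d, 0 ≤ s d ∧ s d ≤ 1) {K : Type} (F : Finset K)
    (E : K → (ι → Bool) → Prop) :
    Pr s (fun x => ∃ k ∈ F, E k x) ≤ ∑ k ∈ F, Pr s (E k) := by
  simp only [Pr]
  rw [sum_comm]
  refine sum_le_sum fun x _ => ?_
  have h0 : ∀ k ∈ F, 0 ≤ (open Classical in if E k x then wt s x else 0) := fun k _ => by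
    split_ifs
    · exact wt_nonneg hs x
    · exact le_rfl
  split_ifs with h
  · obtain ⟨k, hk, hE⟩ := h
    refine le_trans ?_ (single_le_sum h0 hk)
    rw [if_pos hE]
  · exact sum_nonneg h0

lemma Pr_union_le {s : ι → ℝ} (hs : ∀ d, 0 ≤ s d ∧ s d ≤ 1) {K : Type} (F : Finset K)
    (E : K → (ι → Bool) → Prop) {b : ℝ} (h : ∀ k ∈ F, Pr s (E k) ≤ b) :
    Pr s (fun x => ∃ k ∈ F, E k x) ≤ F.card * b :=
  (Pr_union hs F E).trans (by simpa using sum_le_card_nsmul F _ b h)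

lemma exp_four : Real.exp 4 ≤ 55 := by
  have h := Real.exp_one_lt_d9
  have e : Real.exp 4 = Real.exp 1 ^ 4 := by rw [← Real.exp_nat_mul]; norm_num
  rw [e]
  have h2 := pow_le_pow_left₀ (Real.exp_pos 1).le h.le 4
  refine h2.trans (by norm_num)

variable {n : Type} [Fintype n] [DecidableEq n]

theorem mat_exp {s : ι → ℝ} (hs : ∀ d, 0 ≤ s d ∧ s d ≤ 1) (A : ι → Matrix n n ℂ)
    (hA : ∀ d, Row (A d)) (hA' : ∀ d, Row (A d)ᴴ) {W τ : ℝ} (hW : ∑ d, s d ≤ W) (hτ : 0 < τ)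
    (hτW : τ ≤ W) :
    Pr s (fun x => ∃ v : n → ℂ, τ ^ 2 * N2 v < N2 (YY s A x *ᵥ v)) ≤
      110 * Fintype.card n * Real.exp (-(τ ^ 2 / (55 * W))) := by
  have hW0 : 0 < W := hτ.trans_le hτW
  set u : ℝ := τ ^ 2 / (55 * W) with hu
  have hu0 : 0 < u := by positivity
  have huW : u * (55 * W) = τ ^ 2 := by rw [hu]; field_simp
  set q : ℕ := ⌊u / 4⌋₊ with hq
  have hq1 : (q : ℝ) ≤ u / 4 := Nat.floor_le (by positivity)
  have hq2 : u / 4 < q + 1 := Nat.lt_floor_add_one _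
  have hex : Real.exp (-(4 * q : ℝ)) ≤ 55 * Real.exp (-u) := by
    calc Real.exp (-(4 * q : ℝ)) ≤ Real.exp (4 + -u) := Real.exp_le_exp.mpr (by linarith)
      _ = Real.exp 4 * Real.exp (-u) := Real.exp_add _ _
      _ ≤ 55 * Real.exp (-u) := mul_le_mul_of_nonneg_right exp_four (Real.exp_pos _).le
  rcases Nat.eq_zero_or_pos q with h0 | h0
  · rcases isEmpty_or_nonempty n with hn | hn
    · rw [Pr_false]
      · positivity
      · rintro x ⟨v, hv⟩
        simp [N2] at hv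
    · have h1 : (1 : ℝ) ≤ Fintype.card n := by exact_mod_cast Fintype.card_pos
      rw [h0] at hex
      simp only [Nat.cast_zero, mul_zero, neg_zero, Real.exp_zero] at hex
      have := Pr_le_one hs (fun x => ∃ v : n → ℂ, τ ^ 2 * N2 v < N2 (YY s A x *ᵥ v))
      nlinarith [Real.exp_pos (-u)]
  · have hq0 : (0 : ℝ) < 4 * q := by positivity
    set m : ℝ := 4 * q with hm
    have hmu : m ≤ u := by linarith
    have hmW : m ≤ W := by nlinarith
    set t : ℝ := Real.sqrt (m / W) with ht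
    have ht0 : 0 < t := Real.sqrt_pos.mpr (by positivity)
    have ht2 : t ^ 2 = m / W := Real.sq_sqrt (by positivity)
    have ht1 : t ≤ 1 := Real.sqrt_le_one.mpr ((div_le_one hW0).mpr hmW)
    have h := mat_tail hs A hA hA' h0 ht0 ht1 hW hτ
    have e1 : W * t ^ 2 = m := by rw [ht2]; field_simp
    rw [e1] at h
    have hf : ((4 * q).factorial : ℝ) ≤ m ^ (4 * q) := by
      have := Nat.factorial_le_pow (4 * q)
      rw [hm]; exact_mod_cast this
    have hk : m * Real.exp 2 ≤ t * τ := by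
      refine (pow_le_pow_iff_left₀ (by positivity) (by positivity) two_ne_zero).mp ?_
      have e2 : Real.exp 2 ^ 2 = Real.exp 4 := by rw [← Real.exp_nat_mul]; norm_num
      rw [mul_pow m, mul_pow t, e2, ht2, ← huW]
      have e3 : m / W * (u * (55 * W)) = m * u * 55 := by field_simp
      rw [e3]
      have := exp_four
      have h5 : m ^ 2 * Real.exp 4 ≤ m ^ 2 * 55 := mul_le_mul_of_nonneg_left this (sq_nonneg _)
      nlinarith
    have hk2 : m ^ (4 * q) * Real.exp (2 * m) ≤ (t * τ) ^ (4 * q) := by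
      have e4 : Real.exp (2 * m) = Real.exp 2 ^ (4 * q) := by
        rw [← Real.exp_nat_mul, hm]; push_cast; ring_nf
      rw [e4, ← mul_pow]
      exact pow_le_pow_left₀ (by positivity) hk _
    have hb : 2 * ((4 * q).factorial : ℝ) * Real.exp m / (t * τ) ^ (4 * q) ≤
        2 * Real.exp (-m) := by
      rw [div_le_iff₀ (by positivity)]
      have e5 : Real.exp (-m) * Real.exp (2 * m) = Real.exp m := by
        rw [← Real.exp_add]; ring_nf
      calc 2 * ((4 * q).factorial : ℝ) * Real.exp m ≤ 2 * m ^ (4 * q) * Real.exp m := by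
            gcongr
        _ = 2 * Real.exp (-m) * (m ^ (4 * q) * Real.exp (2 * m)) := by rw [← e5]; ring
        _ ≤ 2 * Real.exp (-m) * (t * τ) ^ (4 * q) := by gcongr
    have hc : (0 : ℝ) ≤ Fintype.card n := Nat.cast_nonneg _
    calc Pr s (fun x => ∃ v : n → ℂ, τ ^ 2 * N2 v < N2 (YY s A x *ᵥ v))
        ≤ Fintype.card n * (2 * Real.exp (-m)) := h.trans (mul_le_mul_of_nonneg_left hb hc)
      _ ≤ Fintype.card n * (2 * (55 * Real.exp (-u))) := by gcongr
      _ = 110 * Fintype.card n * Real.exp (-u) := by ring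

lemma bil_eq (s : ι → ℝ) (A : ι → Matrix n n ℂ) (x : ι → Bool) (G H : n → ℂ) :
    ∑ d, ((rr s x d : ℝ) : ℂ) * ∑ i, ∑ j, G i * A d i j * H j = ∑ i, G i * (YY s A x *ᵥ H) i := by
  simp only [YY, mulVec, dotProduct, Matrix.sum_apply, Matrix.smul_apply, smul_eq_mul, mul_sum,
    sum_mul]
  rw [sum_comm]
  refine sum_congr rfl fun i _ => ?_
  rw [sum_comm]
  exact sum_congr rfl fun j _ => sum_congr rfl fun d _ => by ring

lemma N2_le_card {v : n → ℂ} (hv : ∀ i, ‖v i‖ ≤ 1) : N2 v ≤ Fintype.card n := by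
  calc N2 v ≤ ∑ _i : n, (1 : ℝ) := sum_le_sum fun i _ => pow_le_one₀ (norm_nonneg _) (hv i)
    _ = Fintype.card n := by simp

/-- bilinear form with bounded test vectors -/
theorem bil_exp {s : ι → ℝ} (hs : ∀ d, 0 ≤ s d ∧ s d ≤ 1) (A : ι → Matrix n n ℂ)
    (hA : ∀ d, Row (A d)) (hA' : ∀ d, Row (A d)ᴴ) {W τ : ℝ} (hW : ∑ d, s d ≤ W) (hτ : 0 < τ)
    (hτW : τ ≤ W) :
    Pr s (fun x => ∃ G H : n → ℂ, (∀ i, ‖G i‖ ≤ 1) ∧ (∀ i, ‖H i‖ ≤ 1) ∧ τ * Fintype.card n <
      ‖∑ d, ((rr s x d : ℝ) : ℂ) * ∑ i, ∑ j, G i * A d i j * H j‖) ≤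
      110 * Fintype.card n * Real.exp (-(τ ^ 2 / (55 * W))) := by
  refine le_trans (Pr_mono hs ?_) (mat_exp hs A hA hA' hW hτ hτW)
  rintro x ⟨G, H, hG, hH, h⟩
  refine ⟨H, ?_⟩
  by_contra hc
  rw [not_lt] at hc
  rw [bil_eq] at h
  have h1 := cs G (YY s A x *ᵥ H)
  have h2 := N2_le_card hG
  have h3 := N2_le_card hH
  have hn : (0 : ℝ) ≤ Fintype.card n := Nat.cast_nonneg _
  have h4 : N2 G * N2 (YY s A x *ᵥ H) ≤ Fintype.card n * (τ ^ 2 * Fintype.card n) :=
    mul_le_mul h2 (hc.trans (mul_le_mul_of_nonneg_left h3 (sq_nonneg _))) (N2_nonneg _) hn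
  have h5 := pow_lt_pow_left₀ h (by positivity) (two_ne_zero)
  nlinarith

/-- scalar sums with complex coefficients -/
theorem sca_exp {s : ι → ℝ} (hs : ∀ d, 0 ≤ s d ∧ s d ≤ 1) (c : ι → ℂ) (hc : ∀ d, ‖c d‖ ≤ 1)
    {W τ : ℝ} (hW : ∑ d, s d ≤ W) (hτ : 0 < τ) (hτW : τ ≤ W) :
    Pr s (fun x => τ < ‖∑ d, ((rr s x d : ℝ) : ℂ) * c d‖) ≤
      110 * Real.exp (-(τ ^ 2 / (55 * W))) := by
  have h := bil_exp (n := Unit) hs (fun d => Matrix.of fun _ _ => c d)
    (fun d i => by simpa using hc d) (fun d i => by simpa using hc d) hW hτ hτW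
  simp only [Fintype.card_unit, Nat.cast_one, mul_one] at h
  refine le_trans (Pr_mono hs fun x hx => ⟨fun _ => 1, fun _ => 1, by simp, by simp, ?_⟩) h
  simpa using hx

end T7M

end
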