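import Pool.Agent.MP_154433_an.t7.Block

/-! Almost surely the weights do not see the atoms. -/

set_option autoImplicit false
set_option linter.unusedVariables false

open MeasureTheory ProbabilityTheory Filter Topology Finset
open scoped BigOperators

noncomputable section

namespace Pool.Agent.MP_154433_an.T7

open T3S (Wt yw ind)

namespace AeL

lemma bc {Ω : Type} [MeasurableSpace Ω] (P : Measure Ω) [IsProbabilityMeasure P] (A : ℕ → Set Ω)
    {K : ℝ} (hK : 0 ≤ K) (h : ∀ᶠ j : ℕ in atTop, P.real (A j) ≤ K / (j : ℝ) ^ 2) :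
    ∀ᵐ ω ∂P, ∀ᶠ j in atTop, ω ∉ A j := by
  obtain ⟨j0, hj0⟩ := eventually_atTop.mp h
  have hs : Summable fun j : ℕ => K / (j : ℝ) ^ 2 := by
    simpa [div_eq_mul_inv] using (Real.summable_nat_pow_inv.mpr one_lt_two).mul_left K
  have h1 : ∀ j : ℕ, P (if j0 ≤ j then A j else ∅) ≤ ENNReal.ofReal (K / (j : ℝ) ^ 2) := by
    intro j
    split_ifs with hj
    · rw [← ofReal_measureReal (μ := P) (s := A j)]
      exact ENNReal.ofReal_le_ofReal (hj0 j hj)
    · simp
  have h2 : (∑' j : ℕ, P (if j0 ≤ j then A j else ∅)) ≠ ⊤ := by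
    refine ne_top_of_le_ne_top ?_ (ENNReal.tsum_le_tsum h1)
    rw [← ENNReal.ofReal_tsum_of_nonneg (fun j => by positivity) hs]
    exact ENNReal.ofReal_ne_top
  filter_upwards [ae_eventually_notMem h2] with ω hω
  filter_upwards [hω, eventually_ge_atTop j0] with j h3 h4
  rwa [if_pos h4] at h3

lemma wt_top {σ : ℕ → ℝ} (ha : Antitone σ)
    (h : Tendsto (fun n : ℕ => (n : ℝ) * σ n) atTop atTop) : Tendsto (Wt σ) atTop atTop := by
  refine tendsto_atTop_mono (fun n => ?_) h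
  have := card_nsmul_le_sum (range n) σ (σ n) fun k hk => ha (mem_range.mp hk).le
  simpa [Wt] using this

open Classical in
lemma ind_eq (p : ℕ → Prop) (a L : ℕ) (d : Fin L) :
    ind p (a + d) = xb (fun i : Fin L => decide (p (a + i))) d := by
  unfold ind xb
  by_cases h : p (a + d) <;> simp [h]

lemma count {L j : ℕ} (s : Fin L → ℝ) (hs : ∀ i, 0 ≤ s i ∧ s i ≤ 1) (hj : 1 ≤ j)
    (hk : (j : ℝ) ^ 2 ≤ ∑ i, s i) :
    ∑ β : Fin L → Bool, bw s β * oi (2 * ∑ i, s i < ∑ i, xb β i) ≤ 6050 / (j : ℝ) ^ 2 := by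
  have hj0 : (0 : ℝ) < (j : ℝ) ^ 2 := by positivity
  set k := ∑ i, s i with hkd
  have hk0 : 0 < k := hj0.trans_le hk
  have h := BlockP.sca s (fun _ => 1) (fun _ => by simp) hs le_rfl hk0 le_rfl
  rw [BlockP.sum_eq_Pr]
  refine le_trans (T7M.Pr_mono hs fun β hβ => ?_) (h.trans ?_)
  · simp only [mul_one]
    rw [← Complex.ofReal_sum, Complex.norm_real, sum_sub_distrib, ← hkd]
    exact lt_of_lt_of_le (by linarith) (le_abs_self _)
  · have e : k ^ 2 / (55 * k) = k / 55 := by field_simp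
    rw [e, Real.exp_neg, ← div_eq_mul_inv, div_le_div_iff₀ (Real.exp_pos _) hj0]
    linarith [Real.add_one_le_exp (k / 55)]

end AeL

open AeL in
theorem ae (hGeo : GeoS) (hBlock : BlockS) (hTr : TrS) (hSum : SumS) (hGr : GrS) : AeS := by
  classical
  intro σ hσ ha hP Ω _ P _ E hE hi hPE
  have h0 : ∀ n, 0 ≤ σ n := fun n => (hσ n).1
  obtain ⟨a, h, hB, hev⟩ := hGeo σ h0 ha hP
  have T := hTr σ hσ Ω P E hE hi hPE
  have A1 := bc P (fun j => {ω | 2 * mass σ a j <
      ∑ d : Fin (len a j), ind (fun m => ω ∈ E m) (a j + d)}) (K := 6050) (by norm_num) (by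
    filter_upwards [hev, eventually_ge_atTop 1] with j hj hj1
    have := T (a j) (len a j) (fun β => 2 * mass σ a j < ∑ i, xb β i)
    simp only [ind_eq]
    exact this.le.trans (count _ (fun i => hσ _) hj1 hj.2.1))
  have A2 : ∀ n : ℕ, ∀ᵐ ω ∂P, ∀ᶠ j in atTop, ω ∉ {ω | σ (a j) * len a j ≤ 2 * mass σ a j ∧
      ∃ α, Atom α ∧ 1 / ((n : ℝ) + 1) * mass σ a j < ‖∑ d : Fin (len a j),
        ((ind (fun m => ω ∈ E m) (a j + d) - σ (a j + d) : ℝ) : ℂ) * win (len a j) α d‖} := by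
    intro n
    obtain ⟨L0, hL0⟩ := hBlock h (1 / ((n : ℝ) + 1)) (by positivity)
    refine bc P _ (K := 1) zero_le_one ?_
    filter_upwards [hev, eventually_ge_atTop 1, eventually_ge_atTop L0] with j hj hj1 hj2
    by_cases hf : σ (a j) * len a j ≤ 2 * mass σ a j
    · have := T (a j) (len a j) (fun β => ∃ α, Atom α ∧ 1 / ((n : ℝ) + 1) * mass σ a j <
        ‖∑ d : Fin (len a j), ((xb β d - σ (a j + d) : ℝ) : ℂ) * win (len a j) α d‖)
      simp only [ind_eq, hf, true_and]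
      refine this.le.trans ((hL0 (len a j) (fun i => σ (a j + i)) (hj2.trans hj.1) (fun i => hσ _)
        (fun i => le_trans (mul_le_mul_of_nonneg_right (ha (Nat.le_add_right _ _))
          (Nat.cast_nonneg _)) hf) hj.2.2).trans ?_)
      have h1 : (j : ℝ) ≤ len a j := by exact_mod_cast hj.1
      have h2 : (0 : ℝ) < j := by exact_mod_cast hj1
      gcongr
    · simp [hf]
  filter_upwards [A1, ae_all_iff.mpr A2] with ω h1 h2
  refine hSum σ _ a h0 ha (wt_top ha (hGr σ h0 hP)) hB (h1.mono fun j hj => not_lt.mp hj) ?_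
  intro δ hδ
  obtain ⟨n, hn⟩ := exists_nat_one_div_lt hδ
  filter_upwards [h2 n] with j hj hf α hα
  have h3 : 0 ≤ mass σ a j := sum_nonneg fun _ _ => h0 _
  by_contra hc
  exact hj ⟨hf, α, hα, lt_of_le_of_lt (mul_le_mul_of_nonneg_right hn.le h3) (not_le.mp hc)⟩

end Pool.Agent.MP_154433_an.T7

end
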