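import Pool.Agent.MP_154433_an.t7.SpecE

/-! The functions approximated by the bipolar of the atoms form an invariant algebra. -/

set_option autoImplicit false
set_option linter.unusedVariables false

noncomputable section

namespace Pool.Agent.MP_154433_an.T7

open MeasureTheory ProbabilityTheory Filter Topology Function Finset
open scoped BigOperators ComplexConjugate
open T3S (B1 MB1)
open T4S (Gm Act)

namespace AlgL

variable {X : Type} [MeasurableSpace X] {l : ℕ} {μ : Measure X} {A : Gm l → X → X} {a b : Gm l}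

lemma atom {G u : ℕ → ℕ → ℂ} (hG : B2 G) (hu : B2 u) : Atom fun n m d => G n m * u n (m + d) :=
  ⟨G, u, fun _ => 0, fun _ => 0, hG, hu, fun n m d => by simp [ee]⟩

lemma bd (hK : KcalS) (hA : Act μ A) {N : ℕ} {C : ℝ} {u : X → ℂ} (hu : u ∈ KX A a b N C) (x : X) :
    ‖u x‖ ≤ C := by
  have h := hK.bound _ _ _ (hu.2 x) 0 N.succ_pos 0 N.succ_pos 0 N.succ_pos
  simpa [Orb, hA.zero] using h

lemma intg [IsProbabilityMeasure μ] {f u : X → ℂ} {K C : ℝ} (hf : Measurable f)
    (hK : ∀ x, ‖f x‖ ≤ K) (hu : Measurable u) (hC : ∀ x, ‖u x‖ ≤ C) :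
    Integrable (fun x => ‖f x - u x‖) μ :=
  ((Integrable.of_bound hf.aestronglyMeasurable K (Eventually.of_forall hK)).sub
    (Integrable.of_bound hu.aestronglyMeasurable C (Eventually.of_forall hC))).norm

lemma exact (hA : Act μ A) {f : X → ℂ} (hf : MB1 f) {e : Gm l}
    (h : (fun x => f (A e x)) =ᵐ[μ] f) :
    ∃ u, MB1 u ∧ f =ᵐ[μ] u ∧ ∀ (k : ℕ) v x, u (A ((k : ℤ) • e + v) x) = u (A v x) := by
  let S : Set X := {x | ∀ v, f (A (e + v) x) = f (A v x)}
  have hm : MeasurableSet S := by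
    simp only [S, Set.ofPred_forall]
    exact MeasurableSet.iInter fun v =>
      measurableSet_eq_fun (hf.1.comp (hA.meas _)) (hf.1.comp (hA.meas _))
  have h1 : ∀ w x, x ∈ S → A w x ∈ S := fun w x hx v => by
    rw [← hA.add, ← hA.add, add_assoc]
    exact hx _
  have h2 : ∀ x, S.indicator f (A e x) = S.indicator f x := fun x => by
    by_cases hx : x ∈ S
    · rw [Set.indicator_of_mem hx, Set.indicator_of_mem (h1 e x hx)]
      simpa [hA.zero] using hx 0
    · rw [Set.indicator_of_notMem hx, Set.indicator_of_notMem]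
      intro h3
      have h4 := h1 (-e) _ h3
      rw [← hA.add, neg_add_cancel, hA.zero] at h4
      exact hx h4
  refine ⟨S.indicator f, ⟨hf.1.indicator hm, fun x => (norm_indicator_le_norm_self _ _).trans
    (hf.2 x)⟩, ?_, fun k v x => ?_⟩
  · have h3 : ∀ᵐ x ∂μ, ∀ v, f (A e (A v x)) = f (A v x) :=
      ae_all_iff.2 fun v => (hA.mp v).quasiMeasurePreserving.ae h
    filter_upwards [h3] with x hx
    rw [Set.indicator_of_mem]
    intro v
    rw [hA.add]
    exact hx v
  · induction k with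
    | zero => simp
    | succ k ih =>
      rw [Nat.cast_succ, add_comm (k : ℤ), add_smul, one_smul, add_assoc, hA.add, h2, ih]

end AlgL

open AlgL

theorem alg (hKcal : KcalS) : AlgS := by
  intro l X _ μ _ A hA a b
  have b1 : B2 fun _ _ : ℕ => (1 : ℂ) := fun _ _ => by simp
  refine ⟨fun z => ?_, ?_, ?_, ?_, ?_, fun f hf h => ?_⟩
  · refine ⟨measurable_const, ⟨‖z‖, fun _ => le_rfl⟩, ‖z‖ * 1, fun N ε hε =>
      ⟨fun _ => z, ⟨measurable_const, fun x => ?_⟩, by simpa using hε.le⟩⟩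
    exact hKcal.congr _ _ _ _ (fun n _ m _ d _ => by simp [Orb])
      (hKcal.smul _ _ _ z (hKcal.atom _ _ (atom b1 b1)))
  · rintro f ⟨m, ⟨K, hK⟩, C, h⟩ f' ⟨m', ⟨K', hK'⟩, C', h'⟩
    refine ⟨m.add m', ⟨K + K', fun x => norm_add_le_of_le (hK x) (hK' x)⟩, C + C',
      fun N ε hε => ?_⟩
    obtain ⟨u, hu, e⟩ := h N _ (half_pos hε)
    obtain ⟨u', hu', e'⟩ := h' N _ (half_pos hε)
    refine ⟨fun x => u x + u' x, ⟨hu.1.add hu'.1, fun x =>
      hKcal.add _ _ _ _ _ (hu.2 x) (hu'.2 x)⟩, ?_⟩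
    have i1 := intg (μ := μ) m hK hu.1 (bd hKcal hA hu)
    have i2 := intg (μ := μ) m' hK' hu'.1 (bd hKcal hA hu')
    refine (integral_mono_of_nonneg (Eventually.of_forall fun x => norm_nonneg _) (i1.add i2)
      (Eventually.of_forall fun x => ?_)).trans ?_
    · exact (congrArg norm (add_sub_add_comm _ _ _ _)).trans_le (norm_add_le _ _)
    · rw [integral_add' i1 i2]
      linarith
  · rintro f ⟨m, ⟨K, hK⟩, C, h⟩ f' ⟨m', ⟨K', hK'⟩, C', h'⟩
    refine ⟨m.mul m', ⟨K * K', fun x => norm_mul_le_of_le (hK x) (hK' x)⟩, C * C',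
      fun N ε hε => ?_⟩
    have hδ : 0 < ε / (|K| + |C'| + 1) := by positivity
    obtain ⟨u, hu, e⟩ := h N _ hδ
    obtain ⟨u', hu', e'⟩ := h' N _ hδ
    refine ⟨fun x => u x * u' x, ⟨hu.1.mul hu'.1, fun x =>
      hKcal.mul _ _ _ _ _ (hu.2 x) (hu'.2 x)⟩, ?_⟩
    have i1 := (intg (μ := μ) m hK hu.1 (bd hKcal hA hu)).const_mul |C'|
    have i2 := (intg (μ := μ) m' hK' hu'.1 (bd hKcal hA hu')).const_mul |K|
    refine (integral_mono_of_nonneg (Eventually.of_forall fun x => norm_nonneg _) (i1.add i2)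
      (Eventually.of_forall fun x => ?_)).trans ?_
    · have e1 : f x * f' x - u x * u' x = u' x * (f x - u x) + f x * (f' x - u' x) := by ring
      exact (congrArg norm e1).trans_le (norm_add_le_of_le
        (norm_mul_le_of_le ((bd hKcal hA hu' x).trans (le_abs_self _)) le_rfl)
        (norm_mul_le_of_le ((hK x).trans (le_abs_self _)) le_rfl))
    · rw [integral_add' i1 i2, integral_const_mul, integral_const_mul]
      have h1 := mul_le_mul_of_nonneg_left e (abs_nonneg C')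
      have h2 := mul_le_mul_of_nonneg_left e' (abs_nonneg K)
      have h3 : (|K| + |C'| + 1) * (ε / (|K| + |C'| + 1)) = ε := by field_simp
      nlinarith
  · rintro f ⟨m, ⟨K, hK⟩, C, h⟩
    refine ⟨Complex.continuous_conj.measurable.comp m, ⟨K, fun x => by simpa using hK x⟩, C,
      fun N ε hε => ?_⟩
    obtain ⟨u, hu, e⟩ := h N _ hε
    refine ⟨fun x => conj (u x), ⟨Complex.continuous_conj.measurable.comp hu.1, fun x =>
      hKcal.cj _ _ _ (hu.2 x)⟩, ?_⟩
    simpa only [← map_sub, Complex.norm_conj] using e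
  · rintro f ⟨m, ⟨K, hK⟩, C, h⟩ v
    refine ⟨m.comp (hA.meas v), ⟨K, fun x => hK _⟩, C, fun N ε hε => ?_⟩
    obtain ⟨u, hu, e⟩ := h N _ hε
    refine ⟨fun x => u (A v x), ⟨hu.1.comp (hA.meas v), fun x => hKcal.congr _ _ _ _
      (fun n _ m _ d _ => ?_) (hu.2 (A v x))⟩, ?_⟩
    · simp only [Orb, hA.comm v]
    · exact (hA.integral v (m.sub hu.1).norm.aestronglyMeasurable).trans_le e
  · have key : ∃ u, MB1 u ∧ f =ᵐ[μ] u ∧ ∀ x, Atom (Orb A a b u x) := by
      rcases h with h | h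
      · obtain ⟨u, hu, e, hi⟩ := exact hA hf h
        refine ⟨u, hu, e, fun x => ?_⟩
        convert atom (G := fun n m => u (A ((m : ℤ) • b) x)) (fun _ _ => hu.2 _) b1 using 4
        rw [Orb, hi, mul_one]
      · obtain ⟨u, hu, e, hi⟩ := exact hA hf h
        refine ⟨u, hu, e, fun x => ?_⟩
        convert atom (u := fun n k => u (A (((n + k : ℕ) : ℤ) • a) x)) b1 (fun _ _ => hu.2 _)
          using 4 with n m d
        rw [Orb, ← hi m, one_mul]
        congr 2
        push_cast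
        module
    obtain ⟨u, hu, e, ha⟩ := key
    refine ⟨hf.1, ⟨1, hf.2⟩, 1, fun N ε hε => ⟨u, ⟨hu.1, fun x => hKcal.atom _ _ (ha x)⟩, ?_⟩⟩
    rw [integral_eq_zero_of_ae]
    · exact hε.le
    · filter_upwards [e] with x hx
      simp [hx]

end Pool.Agent.MP_154433_an.T7

end
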