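import Pool.Agent.MP_154433_an.t7.SpecE

/-! Row Blk: the cubes along an orbit lie in the bipolar of the atoms. -/

set_option autoImplicit false

noncomputable section

namespace Pool.Agent.MP_154433_an.T7

open MeasureTheory Filter
open T4S (Gm Act)

namespace BlkL

theorem shift (L : ℕ) (φ : ℤ → ℤ → ℂ) (y k : ℤ) :
    cube L (fun y' k' => φ (y + y') (k + k')) 0 0 = cube L φ y k := by
  simp only [cube, zero_add, add_zero, add_assoc]

theorem orb {X : Type} [MeasurableSpace X] {μ : Measure X} {l : ℕ} {A : Gm l → X → X}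
    (hA : Act μ A) (u w : Gm l) (L : ℕ) (g : X → ℂ) (x : X) (y k : ℤ) :
    bk A u w L g (A (y • u + k • w) x) = cube L (fun y k => g (A (y • u + k • w) x)) y k := by
  rw [← shift L _ y k, bk]
  congr 1
  funext y' k'
  rw [← hA.add]
  congr 2
  module

end BlkL

open BlkL in
theorem blk (hCub : CubS) (hLink : LinkS) : BlkS := by
  intro l X _ μ _ A hA a b g hg N
  filter_upwards [hCub (N + 1)] with L hL
  refine ⟨⟨(hLink l X μ A hA _ _ L g hg).1.1, fun x => ?_⟩,
    ⟨(hLink l X μ A hA _ _ L g hg).1.1, fun x => ?_⟩⟩
  · have h := (hL (fun y k => g (A (y • a + k • (a - b)) x)) fun _ _ => hg.2 _).1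
    simp only [← orb hA] at h
    refine (congrArg (InK (N + 1) 5) (funext fun n => funext fun m => funext fun d => ?_)).mp h
    rw [Orb]
    congr 2
    push_cast
    module
  · have h := (hL (fun y k => g (A (y • (a - b) + k • a) x)) fun _ _ => hg.2 _).2
    simp only [← orb hA] at h
    refine (congrArg (InK (N + 1) 5) (funext fun n => funext fun m => funext fun d => ?_)).mp h
    rw [Orb]
    congr 2
    push_cast
    module

end Pool.Agent.MP_154433_an.T7

end
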