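import Pool.Agent.MP_154433_an.t7.SpecF
import Pool.Agent.MP_154433_an.t7.Mat1

/-! One block: the union bound. -/

set_option autoImplicit false
set_option linter.unusedVariables false

open Finset Matrix
open scoped BigOperators ComplexConjugate

noncomputable section

namespace Pool.Agent.MP_154433_an.T7.BlockP

open T3S (B1)

lemma sum_eq_Pr {I : Type} [Fintype I] [DecidableEq I] (s : I → ℝ) (P : (I → Bool) → Prop) :
    ∑ ω : I → Bool, bw s ω * oi (P ω) = T7M.Pr s P := by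
  refine sum_congr rfl fun ω _ => ?_
  unfold oi
  split_ifs
  · rw [mul_one]; rfl
  · rw [mul_zero]

lemma mat (S : St) [DecidableEq S.I] (s : S.I → ℝ) (c : S.A → S.I → ℂ) {W τ : ℝ} (hc : B2 c)
    (hs : ∀ i, 0 ≤ s i ∧ s i ≤ 1) (hW : ∑ i, s i ≤ W) (hτ : 0 < τ) (hτW : τ ≤ W) :
    T7M.Pr s (fun ω => ¬ S.Opb (fun i => xb ω i - s i) c τ) ≤
      110 * S.n * Real.exp (-(τ ^ 2 / (55 * W))) := by
  classical
  have h := T7M.bil_exp hs
    (fun i => Matrix.of fun (y y' : S.A) => if y' = y + S.ι i then c y i else 0)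
    (fun i y => by
      have : ∀ y' : S.A, ‖(if y' = y + S.ι i then c y i else 0)‖ =
          if y' = y + S.ι i then ‖c y i‖ else 0 := fun y' => by split_ifs <;> simp
      simp only [Matrix.of_apply, this, sum_ite_eq', mem_univ, if_true]
      exact hc _ _)
    (fun i y' => by
      have : ∀ y : S.A, ‖star (if y' = y + S.ι i then c y i else 0)‖ =
          if y = y' - S.ι i then ‖c y i‖ else 0 := fun y => by
        by_cases e : y' = y + S.ι i
        · rw [if_pos e, if_pos (by rw [e]; simp), norm_star]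
        · rw [if_neg e, if_neg (fun e' => e (by rw [e']; simp))]; simp
      simp only [conjTranspose_apply, Matrix.of_apply, this, sum_ite_eq', mem_univ, if_true]
      exact hc _ _) hW hτ hτW
  refine le_trans (T7M.Pr_mono hs fun ω hω => ?_) h
  simp only [St.Opb, not_forall, not_le] at hω
  obtain ⟨G, H, hG, hH, hlt⟩ := hω
  refine ⟨G, H, hG, hH, ?_⟩
  have e : S.form (fun i => xb ω i - s i) G H c = ∑ d, ((T7M.rr s ω d : ℝ) : ℂ) * ∑ y, ∑ y',
      G y * (Matrix.of fun (y y' : S.A) => if y' = y + S.ι d then c y d else 0) y y' * H y' := by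
    rw [St.form, sum_comm]
    refine sum_congr rfl fun d _ => ?_
    rw [mul_sum]
    refine sum_congr rfl fun y _ => ?_
    have e2 : ∀ y' : S.A, G y * (if y' = y + S.ι d then c y d else 0) * H y' =
        if y' = y + S.ι d then G y * c y d * H y' else 0 := fun y' => by split_ifs <;> simp
    simp only [Matrix.of_apply, e2, sum_ite_eq', mem_univ, if_true]
    have e3 : T7M.rr s ω d = xb ω d - s d := rfl
    rw [e3]; ring
  rw [← e]
  exact hlt

lemma sca {I : Type} [Fintype I] [DecidableEq I] (s : I → ℝ) (c : I → ℂ) {W τ : ℝ}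
    (hc : ∀ i, ‖c i‖ ≤ 1) (hs : ∀ i, 0 ≤ s i ∧ s i ≤ 1) (hW : ∑ i, s i ≤ W) (hτ : 0 < τ)
    (hτW : τ ≤ W) :
    T7M.Pr s (fun ω => τ < ‖∑ i, ((xb ω i - s i : ℝ) : ℂ) * c i‖) ≤
      110 * Real.exp (-(τ ^ 2 / (55 * W))) := T7M.sca_exp hs c hc hW hτ hτW

lemma exp_seven : 440 * Real.exp (-7) ≤ 1 := by
  have h := Real.exp_one_gt_d9
  have e : Real.exp 7 = Real.exp 1 ^ 7 := by rw [← Real.exp_nat_mul]; norm_num
  have h2 := pow_le_pow_left₀ (by norm_num) h.le 7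
  have h3 : (440 : ℝ) ≤ Real.exp 7 := by rw [e]; exact le_trans (by norm_num) h2
  rw [Real.exp_neg, ← div_eq_mul_inv, div_le_one (Real.exp_pos _)]
  exact h3

/-- the final estimate -/
lemma fin_est {L z a b C t : ℝ} (hL : 0 < L) (hLz : L ≤ Real.exp z) (ha : a ≤ Real.exp z)
    (hb : b ≤ Real.exp z) (hb0 : 0 ≤ b) (hz : 35200 ≤ z) (hC : 0 ≤ C) (ht : 0 < t)
    (hz2 : 55 * (10 + C) / t ^ 2 ≤ z) :
    a * (110 * Real.exp (-(z ^ 6 / 3520))) + b * (110 * Real.exp (-(z ^ 6 / 3520))) +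
      Real.exp (C * z ^ 5) * (110 * b * Real.exp (-(t ^ 2 * z ^ 8 / 55))) ≤ 1 / L ^ 2 := by
  have hz1 : 1 ≤ z := by linarith
  have p5 : z ≤ z ^ 5 := le_self_pow₀ hz1 (by norm_num)
  have p3 : z ≤ z ^ 3 := le_self_pow₀ hz1 (by norm_num)
  have h1 : 3 * z - z ^ 6 / 3520 ≤ -7 := by
    have : z ^ 6 = z * z ^ 5 := by ring
    nlinarith
  have h2 : 3 * z + C * z ^ 5 - t ^ 2 * z ^ 8 / 55 ≤ -7 := by
    rw [div_le_iff₀ (by positivity)] at hz2
    have e : t ^ 2 * z ^ 8 / 55 = (z ^ 3 * t ^ 2 / 55) * z ^ 5 := by ring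
    have h3 : 10 + C ≤ z ^ 3 * t ^ 2 / 55 := by
      have := mul_le_mul_of_nonneg_right p3 (sq_nonneg t)
      linarith
    have h4 := mul_le_mul_of_nonneg_right h3 (by positivity : (0 : ℝ) ≤ z ^ 5)
    rw [e]
    nlinarith
  have hL2 : L ^ 2 ≤ Real.exp (2 * z) := by
    have e : Real.exp (2 * z) = Real.exp z ^ 2 := by rw [← Real.exp_nat_mul]; norm_num
    rw [e]; exact pow_le_pow_left₀ hL.le hLz 2
  have k1 : Real.exp z * Real.exp (-(z ^ 6 / 3520)) * Real.exp (2 * z) ≤ Real.exp (-7) := by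
    rw [← Real.exp_add, ← Real.exp_add]
    exact Real.exp_le_exp.mpr (by linarith)
  have k2 : Real.exp (C * z ^ 5) * (Real.exp z * Real.exp (-(t ^ 2 * z ^ 8 / 55))) *
      Real.exp (2 * z) ≤ Real.exp (-7) := by
    rw [← Real.exp_add, ← Real.exp_add, ← Real.exp_add]
    exact Real.exp_le_exp.mpr (by linarith)
  rw [le_div_iff₀ (by positivity)]
  have k3 := exp_seven
  calc (a * (110 * Real.exp (-(z ^ 6 / 3520))) + b * (110 * Real.exp (-(z ^ 6 / 3520))) +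
      Real.exp (C * z ^ 5) * (110 * b * Real.exp (-(t ^ 2 * z ^ 8 / 55)))) * L ^ 2
      ≤ (Real.exp z * (110 * Real.exp (-(z ^ 6 / 3520))) +
          Real.exp z * (110 * Real.exp (-(z ^ 6 / 3520))) +
          Real.exp (C * z ^ 5) * (110 * Real.exp z * Real.exp (-(t ^ 2 * z ^ 8 / 55)))) *
            Real.exp (2 * z) := by gcongr
    _ = 220 * (Real.exp z * Real.exp (-(z ^ 6 / 3520)) * Real.exp (2 * z)) +
          110 * (Real.exp (C * z ^ 5) * (Real.exp z * Real.exp (-(t ^ 2 * z ^ 8 / 55))) *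
            Real.exp (2 * z)) := by ring
    _ ≤ 1 := by linarith [Real.exp_pos (-7)]

/-- the parameters -/
lemma param (h Q e : ℕ) (Y : ℝ) : ∃ L0 : ℕ, 1 ≤ L0 ∧ ∀ (L : ℕ) (k : ℝ), L0 ≤ L → 0 ≤ k →
    (L : ℝ) ≤ k ^ h → ∃ x z : ℝ, 1 ≤ x ∧ x ≤ z ∧ Y ≤ z ∧ x ^ e ≤ z ∧ z ^ 8 = k ∧
      (3 * L * Q : ℝ) ≤ Real.exp x := by
  set N : ℕ := (e + 1) * 8 with hN
  set m : ℕ := N * h with hm
  set Y0 : ℝ := 1 + |Y| + 3 * Q * ((m + 1).factorial : ℝ) with hY0
  have hf : (0 : ℝ) < (m + 1).factorial := by exact_mod_cast (m + 1).factorial_pos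
  have hQ : (0 : ℝ) ≤ 3 * Q * ((m + 1).factorial : ℝ) := by positivity
  have hY1 : 1 ≤ Y0 := by linarith [abs_nonneg Y]
  refine ⟨⌈Y0 ^ m⌉₊ + 1, by omega, fun L k hL hk hLk => ?_⟩
  have hN0 : N ≠ 0 := by omega
  set x : ℝ := k ^ ((N : ℝ)⁻¹) with hx
  have hx0 : 0 ≤ x := Real.rpow_nonneg hk _
  have hxN : x ^ N = k := Real.rpow_inv_natCast_pow hk hN0
  have hLx : (L : ℝ) ≤ x ^ m := by rw [hm, pow_mul, hxN]; exact hLk
  have hY : Y0 ≤ x := by
    by_contra hc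
    have h1 : x ^ m ≤ Y0 ^ m := pow_le_pow_left₀ hx0 (not_le.mp hc).le m
    have h2 : Y0 ^ m ≤ ⌈Y0 ^ m⌉₊ := Nat.le_ceil _
    have h3 : ((⌈Y0 ^ m⌉₊ + 1 : ℕ) : ℝ) ≤ L := by exact_mod_cast hL
    push_cast at h3
    linarith
  have hx1 : 1 ≤ x := hY1.trans hY
  have hxz : x ≤ x ^ (e + 1) := le_self_pow₀ hx1 (by omega)
  refine ⟨x, x ^ (e + 1), hx1, hxz, ?_, pow_le_pow_right₀ hx1 (by omega), ?_, ?_⟩
  · linarith [le_abs_self Y]
  · rw [← pow_mul, hxN]
  · have h1 := Real.pow_div_factorial_le_exp x hx0 (m + 1)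
    refine le_trans ?_ h1
    rw [le_div_iff₀ hf, pow_succ]
    have h2 : 3 * Q * ((m + 1).factorial : ℝ) ≤ x := by linarith [abs_nonneg Y]
    calc (3 * L * Q : ℝ) * ((m + 1).factorial : ℝ) = L * (3 * Q * ((m + 1).factorial : ℝ)) := by
          ring
      _ ≤ x ^ m * x := mul_le_mul hLx h2 hQ (by positivity)

theorem block (hD : DetBS) : BlockS := by
  intro h δ hδ
  obtain ⟨Q, hQ, η0, τ, C, e, hη, hτ, hC, H⟩ := hD δ (8 * h + 1) hδ
  set t : ℝ := min τ 1 with htd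
  have ht : 0 < t := lt_min hτ one_pos
  have ht1 : t ≤ 1 := min_le_right _ _
  have htτ : t ≤ τ := min_le_left _ _
  obtain ⟨L0, hL0, HP⟩ := param h Q e (35200 + 55 * (10 + C) / t ^ 2 + 1 / η0)
  refine ⟨L0, fun L s hL hs hflat hLk => ?_⟩
  have : NeZero L := ⟨by omega⟩
  set k : ℝ := ∑ i, s i with hkd
  have hk0 : 0 ≤ k := sum_nonneg fun i _ => (hs i).1
  obtain ⟨x, z, hx1, hxz, hY, hxe, hzk, hex⟩ := HP L k hL hk0 hLk
  have a1 : 0 ≤ 55 * (10 + C) / t ^ 2 := by positivity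
  have a2 : 0 < 1 / η0 := by positivity
  have hz : 35200 ≤ z := by linarith
  have hz0 : 0 < z := by linarith
  have hz1 : 1 ≤ z := by linarith
  have hk : 0 < k := by rw [← hzk]; positivity
  have hLpos : (1 : ℝ) ≤ L := by exact_mod_cast (by omega : 1 ≤ L)
  have hQpos : (1 : ℝ) ≤ Q := by exact_mod_cast Nat.pos_of_ne_zero hQ.out
  have hexz : Real.exp x ≤ Real.exp z := Real.exp_le_exp.mpr hxz
  have s1 : (3 * L : ℝ) ≤ Real.exp x := by nlinarith
  have s2 : (L : ℝ) ≤ Real.exp x := by nlinarith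
  have s3 : (L * Q : ℝ) ≤ Real.exp x := by nlinarith
  have cA : (Fintype.card (ZMod (3 * L)) : ℝ) = 3 * L := by rw [ZMod.card]; push_cast; ring
  have cT : (Fintype.card (ZMod (L * Q)) : ℝ) = L * Q := by rw [ZMod.card]; push_cast; ring
  have hSz : (st L Q).Sz x := by
    refine ⟨hx1, ?_, ?_, ?_⟩
    · exact cA.le.trans s1
    · have cI : (Fintype.card (Fin L) : ℝ) = L := by rw [Fintype.card_fin]
      exact cI.le.trans s2
    · exact cT.le.trans s3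
  set k0 : ℕ := ⌊z ^ 2⌋₊ with hk0d
  have b1 : (k0 : ℝ) ≤ z ^ 2 := Nat.floor_le (by positivity)
  have b2 : z ^ 2 < k0 + 1 := Nat.lt_floor_add_one _
  have b3 : 2 * z ≤ k0 := by nlinarith
  have b4 : 1 ≤ k0 := by
    have : (1 : ℝ) ≤ k0 := by linarith
    exact_mod_cast this
  have b5 : (2 : ℝ) ^ 2 ^ (8 * h + 1) * (3 * L) ≤ (k0 : ℝ) ^ 2 ^ (8 * h + 1) := by
    have c1 : (3 * L : ℝ) ≤ z ^ 2 ^ (8 * h + 1) := by
      have c2 : (L : ℝ) ≤ z ^ (8 * h) := by rw [pow_mul, hzk]; exact hLk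
      have c3 : z ^ (8 * h + 1) ≤ z ^ 2 ^ (8 * h + 1) :=
        pow_le_pow_right₀ hz1 (Nat.lt_two_pow_self).le
      have c4 : (0 : ℝ) ≤ z ^ (8 * h) := by positivity
      rw [pow_succ] at c3
      nlinarith
    calc (2 : ℝ) ^ 2 ^ (8 * h + 1) * (3 * L)
        ≤ (2 : ℝ) ^ 2 ^ (8 * h + 1) * z ^ 2 ^ (8 * h + 1) := by gcongr
      _ = (2 * z) ^ 2 ^ (8 * h + 1) := (mul_pow _ _ _).symm
      _ ≤ (k0 : ℝ) ^ 2 ^ (8 * h + 1) := pow_le_pow_left₀ (by positivity) b3 _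
  obtain ⟨𝓒, hB, hcard, HD⟩ := H L x k0 hSz b4 b5
  set ρ : ℝ := 1 / (8 * z) with hρd
  have hρ : 0 < ρ := by positivity
  have hρη : ρ ≤ η0 := by
    rw [hρd, div_le_iff₀ (by positivity)]
    have : 1 / η0 ≤ z := by linarith
    rw [div_le_iff₀ hη] at this
    nlinarith
  have hρ1 : ρ ≤ 1 := by
    rw [hρd, div_le_one (by positivity)]; linarith
  have hρk : (k0 : ℝ) * (64 * ρ ^ 2) ≤ 1 := by
    have e1 : 64 * ρ ^ 2 = 1 / z ^ 2 := by rw [hρd]; field_simp; norm_num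
    rw [e1, mul_one_div, div_le_one (by positivity)]
    exact b1
  have e1 : (ρ * k) ^ 2 / (55 * k) = z ^ 6 / 3520 := by
    rw [hρd, ← hzk]; field_simp; norm_num
  have e2 : (t * k) ^ 2 / (55 * k) = t ^ 2 * z ^ 8 / 55 := by
    rw [← hzk]; field_simp
  have r1 : ρ * k ≤ k := mul_le_of_le_one_left hk0 hρ1
  have r2 : t * k ≤ k := mul_le_of_le_one_left hk0 ht1
  have P1 := T7M.Pr_union_le hs (univ : Finset (ZMod (L * Q)))
    (fun θ ω => ρ * k < ‖∑ i, ((xb ω i - s i : ℝ) : ℂ) * (st L Q).χ i θ‖)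
    (fun θ _ => sca s (fun i => (st L Q).χ i θ) (fun i => (AddChar.norm_apply _ _).le) hs le_rfl
      (mul_pos hρ hk) r1)
  have P2 := T7M.Pr_union_le hs (univ : Finset (AddChar (ZMod (3 * L)) ℂ))
    (fun ψ ω => ρ * k < ‖∑ i : Fin L, ((xb ω i - s i : ℝ) : ℂ) * ψ ((i : ℕ) : ZMod (3 * L))‖)
    (fun ψ _ => sca s (fun i => ψ ((i : ℕ) : ZMod (3 * L))) (fun i => (AddChar.norm_apply _ _).le)
      hs le_rfl (mul_pos hρ hk) r1)
  have P3 := T7M.Pr_union_le hs 𝓒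
    (fun c ω => ¬ (st L Q).Opb (fun i => xb ω i - s i) c (t * k))
    (fun c hc => @mat (st L Q) (instDecidableEqFin L) s c k (t * k) (hB c hc) hs le_rfl
      (mul_pos ht hk) r2)
  rw [card_univ, cT, e1] at P1
  rw [card_univ, AddChar.card_eq, cA, e1] at P2
  have en : (st L Q).n = 3 * L := cA
  rw [en, e2] at P3
  have hc2 : (𝓒.card : ℝ) ≤ Real.exp (C * z ^ 5) := by
    refine hcard.trans (Real.exp_le_exp.mpr (mul_le_mul_of_nonneg_left ?_ hC))
    calc (k0 : ℝ) ^ 2 * x ^ e ≤ (z ^ 2) ^ 2 * z := by gcongr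
      _ = z ^ 5 := by ring
  have P4 := P3.trans (mul_le_mul_of_nonneg_right hc2 (by positivity))
  have F := fin_est (L := L) (z := z) (a := L * Q) (b := 3 * L) (C := C) (t := t) (by linarith)
    (s2.trans hexz) (s3.trans hexz) (s1.trans hexz) (by positivity) hz hC ht (by linarith)
  rw [sum_eq_Pr]
  refine le_trans (T7M.Pr_mono hs ?_) (((T7M.Pr_or hs _ _).trans
    (add_le_add ((T7M.Pr_or hs _ _).trans (add_le_add P1 P2)) P4)).trans F)
  rintro ω ⟨α, hα, hlt⟩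
  by_contra hc
  simp only [not_or, not_exists, not_and, not_lt, mem_univ, true_implies, not_not] at hc
  obtain ⟨⟨h1, h2⟩, h3⟩ := hc
  refine absurd (HD s ω ρ (fun i => (hs i).1) hk hflat hρ.le hρη hρk h1 h2 (fun c hc G W hG hW =>
    (h3 c hc G W hG hW).trans ?_) α hα) (not_le.mpr hlt)
  rw [en]
  gcongr

end Pool.Agent.MP_154433_an.T7.BlockP

theorem Pool.Agent.MP_154433_an.T7.block (hD : Pool.Agent.MP_154433_an.T7.DetBS) :
    Pool.Agent.MP_154433_an.T7.BlockS := Pool.Agent.MP_154433_an.T7.BlockP.block hD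

end
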