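import Mathlib
import Pool.Agent.MP_154433_an.t3s.Basic

/-! Finite part and probability for pairs of commuting maps (note 154433_PAIR_h92):
definitions and statements of the rows. -/

set_option autoImplicit false
set_option linter.unusedVariables false
set_option warn.classDefReducibility false

open MeasureTheory ProbabilityTheory Filter Topology Function Finset
open scoped BigOperators ComplexConjugate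

noncomputable section

namespace Pool.Agent.MP_154433_an.T7

open T3S (B1 Wt yw ind Near)

def ee (t : ℝ) : ℂ := Complex.exp (((2 * Real.pi * t : ℝ) : ℂ) * Complex.I)

open Classical in
def oi (p : Prop) : ℝ := if p then 1 else 0

def cnt {α : Type} [Fintype α] (p : α → Prop) : ℝ := ∑ a, oi (p a)

def one {α : Type} (E : Set α) : α → ℂ := fun a => (oi (a ∈ E) : ℂ)

def B2 {α β : Type} (f : α → β → ℂ) : Prop := ∀ a b, ‖f a b‖ ≤ 1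

def PV {I : Type} [Fintype I] (π : I → ℝ) : Prop := (∀ i, 0 ≤ π i) ∧ ∑ i, π i = 1

def wt {I T : Type} [Fintype T] (π : I → ℝ) (J : T → I) : ℝ := ∏ t, π (J t)

/-- collisions of sub-sums -/
def Col {A I T : Type} [AddCommGroup A] [Fintype A] [Fintype I] [Fintype T] [DecidableEq T]
    (π : I → ℝ) (e : T → I → A) (C ρ : ℝ) : Prop := ∀ F : Finset T, F.Nonempty →
  ∑ J : T → I, ∑ J' : T → I, wt π J * wt π J' *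
    oi (∑ t ∈ F, e t (J t) = ∑ t ∈ F, e t (J' t)) ≤ C / Fintype.card A + ρ ^ F.card

/-- positions, labels, frequencies -/
structure St where
  A : Type
  I : Type
  Θ : Type
  [gA : AddCommGroup A]
  [fA : Fintype A]
  [fI : Fintype I]
  [gΘ : AddCommGroup Θ]
  [fΘ : Fintype Θ]
  ι : I → A
  χ : I → AddChar Θ ℂ

attribute [instance] St.gA St.fA St.fI St.gΘ St.fΘ

namespace St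

variable (S : St)

def n : ℝ := Fintype.card S.A

def Sz (x : ℝ) : Prop := 1 ≤ x ∧ (Fintype.card S.A : ℝ) ≤ Real.exp x ∧
  (Fintype.card S.I : ℝ) ≤ Real.exp x ∧ (Fintype.card S.Θ : ℝ) ≤ Real.exp x

def form (v : S.I → ℝ) (G W : S.A → ℂ) (c : S.A → S.I → ℂ) : ℂ :=
  ∑ y, ∑ i, (v i : ℂ) * (G y * W (y + S.ι i) * c y i)

def tw (φ : S.A → S.Θ) (c : S.A → S.I → ℂ) : S.A → S.I → ℂ :=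
  fun y i => S.χ i (φ (y + S.ι i)) * c y i

def Opb (v : S.I → ℝ) (c : S.A → S.I → ℂ) (τ : ℝ) : Prop :=
  ∀ G W : S.A → ℂ, B1 G → B1 W → ‖S.form v G W c‖ ≤ τ * S.n

def Sp (π : S.I → ℝ) (B η0 : ℝ) : Prop :=
  ∀ η : ℝ, η0 ≤ η → cnt (fun θ : S.Θ => η < ‖∑ i, (π i : ℂ) * S.χ i θ‖) ≤ B / η ^ 2

def Ok (π : S.I → ℝ) (B η0 C : ℝ) (t k0 : ℕ) : Prop := PV π ∧ S.Sp π B η0 ∧
  ∃ ρ : ℝ, 0 ≤ ρ ∧ k0 * ρ ≤ 1 ∧ ∀ (T : Type) [Fintype T] [DecidableEq T], Fintype.card T = t →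
    Col π (fun (_ : T) i => -S.ι i) C ρ

/-- the frequency is predicted from an ancestor -/
def RR {T : Type} [Fintype T] [DecidableEq T] (π : S.I → ℝ) (𝓕 : Finset ((T → S.I) → S.Θ))
    (E : Set S.A) (φ : S.A → S.Θ) (δ : ℝ) : Prop :=
  ∃ Λ : S.A → (T → S.I) → S.Θ, (∀ w, Λ w ∈ 𝓕) ∧ δ * S.n ≤ ∑ w, ∑ J : T → S.I, wt π J *
    oi (w - ∑ t, S.ι (J t) ∈ E ∧ φ (w - ∑ t, S.ι (J t)) = Λ w J)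

def Pred (π : S.I → ℝ) (c : S.A → S.I → ℂ) (𝓗 : Finset (S.A → S.Θ)) (δ δ' : ℝ) : Prop :=
  ∀ (G : S.A → ℂ) (E : Set S.A) (φ : S.A → S.Θ), B1 G →
    δ * S.n ≤ ‖S.form π G (one E) (S.tw φ c)‖ →
    ∃ ψ ∈ 𝓗, δ' * S.n ≤ cnt fun z => z ∈ E ∧ φ z = ψ z

def form2 (v : S.I → ℝ) (G u : S.A → S.A → ℂ) (ξ γ : S.A → S.Θ) : ℂ :=
  ∑ a, ∑ m, ∑ i, (v i : ℂ) *
    (G a m * u a (m + S.ι i) * S.χ i (ξ m) * S.χ i (γ (a + m + S.ι i)))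

def PredG (π : S.I → ℝ) (𝓠 : Finset (S.A → S.Θ)) (δ δ' : ℝ) : Prop :=
  ∀ (G : S.A → S.A → ℂ) (E : Set (S.A × S.A)) (ξ γ : S.A → S.Θ) (U : Set S.A), B2 G →
    (∀ p ∈ E, p.1 + p.2 ∈ U) → δ * S.n ^ 2 ≤ ‖S.form2 π G (fun a z => one E (a, z)) ξ γ‖ →
    ∃ ψ ∈ 𝓠, δ' * S.n ≤ cnt fun z => z ∈ U ∧ γ z = ψ z

end St

/-- the number of steps whose increment is predicted -/
def edg {A Θ : Type} [AddCommGroup A] [Fintype A] [AddCommGroup Θ] (ψ : A → A → Θ) (U : Set A)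
    (γ : A → Θ) : ℝ := cnt fun p : A × A => p.2 + p.1 ∈ U ∧ γ (p.2 + p.1) - γ p.2 = ψ p.1 p.2

/-! ### finite part -/

def SampS : Prop := ∀ η : ℝ, 0 < η → ∃ C : ℝ, 1 ≤ C ∧ ∀ (X Φ : Type) [Fintype X] [Fintype Φ]
  (π : X → ℝ) (f : Φ → X → ℝ) (y : ℝ) (s : ℕ), PV π → (∀ φ x, |f φ x| ≤ 1) → 1 ≤ y →
  (Fintype.card Φ : ℝ) ≤ Real.exp y → C * y ≤ s →
  ∃ a : Fin s → X, ∀ φ, |∑ x, π x * f φ x - (s : ℝ)⁻¹ * ∑ j, f φ (a j)| ≤ η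

def ListS : Prop := ∀ (S : St) (π : S.I → ℝ) (B η0 ρ : ℝ) (a : S.I → ℂ), PV π → S.Sp π B η0 →
  0 < ρ → η0 ≤ ρ ^ 2 / 2 → B1 a →
  cnt (fun θ : S.Θ => ρ ≤ ‖∑ i, (π i : ℂ) * (a i * S.χ i θ)‖) ≤ 8 * B / ρ ^ 6

def R0S : Prop := ∀ δ : ℝ, 0 < δ → ∀ B : ℝ, ∃ η0 δ1 C : ℝ, 0 < η0 ∧ 0 < δ1 ∧ 0 ≤ C ∧
  ∀ (S : St) (x : ℝ) (c : S.A → S.I → ℂ), S.Sz x → B2 c →
  ∃ 𝓕 : Finset ((Unit → S.I) → S.Θ), (𝓕.card : ℝ) ≤ Real.exp (C * x ^ 2) ∧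
    ∀ (π : S.I → ℝ) (G : S.A → ℂ) (E : Set S.A) (φ : S.A → S.Θ), PV π → S.Sp π B η0 → B1 G →
      δ * S.n ≤ ‖S.form π G (one E) (S.tw φ c)‖ → S.RR π 𝓕 E φ δ1

def SymS : Prop := ∀ η : ℝ, 0 < η → ∃ (C : ℝ) (m : ℕ), 0 ≤ C ∧ 1 ≤ m ∧
  ∀ (X Θ : Type) [Fintype X] (𝓕 : Finset (X → Θ)) (y : ℝ), 1 ≤ y →
  (Fintype.card X : ℝ) ≤ Real.exp y → (𝓕.card : ℝ) ≤ Real.exp y →
  ∃ 𝓖 : Finset (X → X → Θ), (𝓖.card : ℝ) ≤ Real.exp (C * y ^ 2) ∧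
    ∀ (π : X → ℝ) (Λ : X → X → Θ) (Gd : X → X → Prop), PV π → (∀ J, Λ J ∈ 𝓕) →
      (∀ J J', Gd J J' → Λ J' J = Λ J J') →
      ∃ μ ∈ 𝓖, (∑ J, ∑ J', π J * π J' * oi (Gd J J') - η) / m ≤
        ∑ J, ∑ J', π J * π J' * oi (Gd J J' ∧ μ J J' = Λ J' J)

def DblS : Prop := ∀ δ : ℝ, 0 < δ → ∃ δ' C : ℝ, 0 < δ' ∧ 0 ≤ C ∧
  ∀ (S : St) (T : Type) [Fintype T] [DecidableEq T] (𝓕 : Finset ((T → S.I) → S.Θ)) (y : ℝ),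
  1 ≤ y → (Fintype.card (T → S.I) : ℝ) ≤ Real.exp y → (𝓕.card : ℝ) ≤ Real.exp y →
  ∃ 𝓖 : Finset ((T ⊕ T → S.I) → S.Θ), (𝓖.card : ℝ) ≤ Real.exp (C * y ^ 2) ∧
    ∀ (π : S.I → ℝ) (E : Set S.A) (φ : S.A → S.Θ), PV π → S.RR π 𝓕 E φ δ → S.RR π 𝓖 E φ δ'

def IterS : Prop := ∀ δ : ℝ, 0 < δ → ∀ B : ℝ, ∃ η0 : ℝ, 0 < η0 ∧ ∀ r : ℕ,
  ∃ (δ' C : ℝ) (e : ℕ), 0 < δ' ∧ 0 ≤ C ∧ ∀ (S : St) (x : ℝ) (c : S.A → S.I → ℂ), S.Sz x → B2 c →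
  ∃ (T : Type) (_ : Fintype T) (_ : DecidableEq T) (𝓕 : Finset ((T → S.I) → S.Θ)),
    Fintype.card T = 2 ^ r ∧ (𝓕.card : ℝ) ≤ Real.exp (C * x ^ e) ∧
    ∀ (π : S.I → ℝ) (G : S.A → ℂ) (E : Set S.A) (φ : S.A → S.Θ), PV π → S.Sp π B η0 → B1 G →
      δ * S.n ≤ ‖S.form π G (one E) (S.tw φ c)‖ → S.RR π 𝓕 E φ δ'

/-- independent samples in each position keep the good weight and have small energy -/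
def EnS : Prop := ∀ (A I T : Type) [AddCommGroup A] [Fintype A] [Fintype I] [Fintype T]
  [DecidableEq T] (k0 : ℕ) (π : I → ℝ) (e : T → I → A) (C ρ δ : ℝ) (Gd : (T → I) → Prop),
  PV π → 0 ≤ C → 0 ≤ ρ → 0 < δ → 1 ≤ k0 → k0 * ρ ≤ 1 → Col π e C ρ →
  (2 : ℝ) ^ Fintype.card T * Fintype.card A ≤ (k0 : ℝ) ^ Fintype.card T →
  δ ≤ ∑ J : T → I, wt π J * oi (Gd J) →
  ∃ s : T → Fin k0 → I,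
    δ / 2 * (k0 : ℝ) ^ Fintype.card T ≤ cnt (fun a : T → Fin k0 => Gd fun t => s t (a t)) ∧
    cnt (fun p : (T → Fin k0) × (T → Fin k0) =>
      ∑ t, e t (s t (p.1 t)) = ∑ t, e t (s t (p.2 t))) ≤
      2 * (C + 1) / δ * ((k0 : ℝ) ^ Fintype.card T) ^ 2 / Fintype.card A

/-- popular values -/
def PopS : Prop := ∀ δ K : ℝ, 0 < δ → 0 < K → ∃ (δ' : ℝ) (m : ℕ), 0 < δ' ∧ 1 ≤ m ∧
  ∀ (A Θ X : Type) [Fintype A] [Nonempty Θ] [Fintype X] [Nonempty X],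
  ∃ pop : Fin m → (X → A × Θ) → A → Θ, ∀ (v : X → A × Θ) (E : Set A) (φ : A → Θ),
    δ * Fintype.card X ≤ cnt (fun a : X => (v a).1 ∈ E ∧ φ (v a).1 = (v a).2) →
    cnt (fun p : X × X => (v p.1).1 = (v p.2).1) ≤
      K * (Fintype.card X : ℝ) ^ 2 / Fintype.card A →
    ∃ u, δ' * Fintype.card A ≤ cnt fun z => z ∈ E ∧ φ z = pop u v z

def WrapS : Prop := ∀ δ C : ℝ, 0 < δ → 0 ≤ C → ∃ (δ' : ℝ) (m : ℕ), 0 < δ' ∧ 1 ≤ m ∧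
  ∀ (A Θ T : Type) [AddCommGroup A] [Fintype A] [Nonempty Θ] [Fintype T] [DecidableEq T] (k0 : ℕ),
  1 ≤ k0 → (2 : ℝ) ^ Fintype.card T * Fintype.card A ≤ (k0 : ℝ) ^ Fintype.card T →
  ∃ pop : Fin m → ((T → Fin k0) → A × Θ) → A → Θ,
    ∀ (I : Type) [Fintype I] (π : I → ℝ) (e : T → I → A) (ρ : ℝ) (w : A) (lam : (T → I) → Θ)
      (E : Set A) (φ : A → Θ), PV π → 0 ≤ ρ → k0 * ρ ≤ 1 → Col π e C ρ →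
      δ ≤ ∑ J : T → I, wt π J *
        oi (w + ∑ t, e t (J t) ∈ E ∧ φ (w + ∑ t, e t (J t)) = lam J) →
      ∃ (s : T → Fin k0 → I) (u : Fin m), δ' * Fintype.card A ≤ cnt fun z => z ∈ E ∧
        φ z = pop u (fun a => (w + ∑ t, e t (s t (a t)), lam fun t => s t (a t))) z

def PredS : Prop := ∀ δ : ℝ, 0 < δ → ∀ B : ℝ, ∃ η0 : ℝ, 0 < η0 ∧ ∀ (C1 : ℝ) (r : ℕ), 0 ≤ C1 →
  ∃ (δ' C : ℝ) (e : ℕ), 0 < δ' ∧ 0 ≤ C ∧ ∀ (S : St) (x : ℝ) (c : S.A → S.I → ℂ) (k0 : ℕ),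
  S.Sz x → B2 c → 1 ≤ k0 → (2 : ℝ) ^ 2 ^ r * S.n ≤ (k0 : ℝ) ^ 2 ^ r →
  ∃ 𝓗 : Finset (S.A → S.Θ), (𝓗.card : ℝ) ≤ Real.exp (C * (k0 * x ^ e)) ∧
    ∀ π : S.I → ℝ, S.Ok π B η0 C1 (2 ^ r) k0 → S.Pred π c 𝓗 δ δ'

def StS : Prop := ∀ (S : St) (π π' : S.I → ℝ) (c : S.A → S.I → ℂ) (𝓗 : Finset (S.A → S.Θ))
  (δ δ' τ : ℝ), 0 < δ → 0 < δ' → 0 ≤ τ → S.Pred π c 𝓗 δ δ' → S.Pred π' c 𝓗 δ δ' →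
  (∀ ψ ∈ 𝓗, S.Opb (π - π') (S.tw ψ c) τ) → ∀ φ, S.Opb (π - π') (S.tw φ c) (8 * δ + τ / δ')

def CsgS : Prop := ∀ (S : St) (π : S.I → ℝ) (𝓗 : Finset (S.A → S.Θ)) (δ δ1 : ℝ), PV π → 0 < δ →
  0 < δ1 → S.Pred π (fun _ _ => 1) 𝓗 (δ ^ 2 / 2) δ1 →
  ∀ (G : S.A → S.A → ℂ) (E : Set (S.A × S.A)) (ξ γ : S.A → S.Θ) (U : Set S.A), B2 G →
    (∀ p ∈ E, p.1 + p.2 ∈ U) → δ * S.n ^ 2 ≤ ‖S.form2 π G (fun a z => one E (a, z)) ξ γ‖ →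
    ∃ ψ : S.A → S.A → S.Θ, (∀ h, ∃ a : S.A, ∃ φ ∈ 𝓗, ψ h = fun x => φ (x - a)) ∧
      δ ^ 2 / 2 * δ1 * S.n ^ 2 ≤ edg ψ U γ

def WalkS : Prop := ∀ (r : ℕ) (A Θ : Type) [AddCommGroup A] [Fintype A] [AddCommGroup Θ],
  ∃ (T : Type) (_ : Fintype T) (_ : DecidableEq T) (e : T → A → A)
    (Δ : (T → A) → (T → A → Θ) → A → Θ), Fintype.card T = 2 ^ r ∧
    (∀ t, e t = (fun a => a) ∨ e t = fun a => -a) ∧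
    ∀ (ψ : A → A → Θ) (U : Set A) (γ : A → Θ) (δ : ℝ), 0 ≤ δ →
      δ * (Fintype.card A : ℝ) ^ 2 ≤ edg ψ U γ →
      δ ^ 2 ^ r * Fintype.card A * Fintype.card (T → A) ≤ cnt fun p : A × (T → A) =>
        p.1 + ∑ t, e t (p.2 t) ∈ U ∧
          γ (p.1 + ∑ t, e t (p.2 t)) - γ p.1 = Δ p.2 (fun t => ψ (p.2 t)) p.1

def GamS : Prop := ∀ δ : ℝ, 0 < δ → ∀ r : ℕ, ∃ δ' C : ℝ, 0 < δ' ∧ 0 ≤ C ∧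
  ∀ (S : St) (x y : ℝ) (𝓗 : Finset (S.A → S.Θ)) (k0 : ℕ), S.Sz x → 0 ≤ y →
  (𝓗.card : ℝ) ≤ Real.exp y → 1 ≤ k0 → (2 : ℝ) ^ 2 ^ r * S.n ≤ (k0 : ℝ) ^ 2 ^ r →
  ∃ 𝓠 : Finset (S.A → S.Θ), (𝓠.card : ℝ) ≤ Real.exp (C * (k0 * (x + y))) ∧
    ∀ (ψ : S.A → S.A → S.Θ) (U : Set S.A) (γ : S.A → S.Θ),
      (∀ h, ∃ a : S.A, ∃ φ ∈ 𝓗, ψ h = fun x => φ (x - a)) → δ * S.n ^ 2 ≤ edg ψ U γ →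
      ∃ ψ' ∈ 𝓠, δ' * S.n ≤ cnt fun z => z ∈ U ∧ γ z = ψ' z

def LoopS : Prop := ∀ (S : St) (π π' : S.I → ℝ) (𝓠 : Finset (S.A → S.Θ)) (δ δ' τ : ℝ), 0 < δ →
  0 < δ' → 0 ≤ τ → S.PredG π 𝓠 δ δ' → S.PredG π' 𝓠 δ δ' →
  (∀ ψ ∈ 𝓠, ∀ G u ξ, B2 G → B2 u → ‖S.form2 (π - π') G u ξ ψ‖ ≤ τ * S.n ^ 2) →
  ∀ G u ξ γ, B2 G → B2 u → ‖S.form2 (π - π') G u ξ γ‖ ≤ (8 * δ + τ / δ') * S.n ^ 2

def ReflS : Prop := ∀ (S : St) (v : S.I → ℝ) (γ : S.A → S.Θ) (τ : ℝ),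
  (∀ (a : S.A) (φ : S.A → S.Θ), S.Opb v (S.tw φ fun y i => S.χ i (γ (a - y))) τ) →
  ∀ G u ξ, B2 G → B2 u → ‖S.form2 v G u ξ γ‖ ≤ τ * S.n ^ 2

def FinS : Prop := ∀ (δ B C1 : ℝ) (r : ℕ), 0 < δ → 0 ≤ C1 → ∃ (η0 τ C : ℝ) (e : ℕ),
  0 < η0 ∧ 0 < τ ∧ 0 ≤ C ∧ ∀ (S : St) (x : ℝ) (k0 : ℕ), S.Sz x → 1 ≤ k0 →
  (2 : ℝ) ^ 2 ^ r * S.n ≤ (k0 : ℝ) ^ 2 ^ r →
  ∃ 𝓒 : Finset (S.A → S.I → ℂ), (∀ c ∈ 𝓒, B2 c) ∧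
    (𝓒.card : ℝ) ≤ Real.exp (C * ((k0 : ℝ) ^ 2 * x ^ e)) ∧
    ∀ π π' : S.I → ℝ, S.Ok π B η0 C1 (2 ^ r) k0 → S.Ok π' B η0 C1 (2 ^ r) k0 →
      (∀ c ∈ 𝓒, S.Opb (π - π') c τ) →
      ∀ G u ξ γ, B2 G → B2 u → ‖S.form2 (π - π') G u ξ γ‖ ≤ δ * S.n ^ 2

/-! ### atoms and weights -/

def Atom (α : ℕ → ℕ → ℕ → ℂ) : Prop := ∃ (G u : ℕ → ℕ → ℂ) (ξ γ : ℕ → ℝ), B2 G ∧ B2 u ∧
  ∀ n m d, α n m d = G n m * u n (m + d) * ee (d * ξ m + d * γ (n + m + d))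

def win (L : ℕ) (α : ℕ → ℕ → ℕ → ℂ) (d : ℕ) : ℂ := 𝔼 n ∈ range L, 𝔼 m ∈ range L, α n m d

/-- the weights do not see the atoms -/
def RF (w : ℕ → ℕ → ℝ) : Prop := ∀ δ : ℝ, 0 < δ → ∀ᶠ M in atTop, ∃ L : ℕ → ℕ, (∀ d, 1 ≤ L d) ∧
  ∀ α, Atom α → ‖∑ d ∈ range M, (w M d : ℂ) * win (L d) α d‖ ≤ δ

def st (L Q : ℕ) [NeZero L] [NeZero Q] : St where
  A := ZMod (3 * L)
  I := Fin L
  Θ := ZMod (L * Q)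
  ι := fun i => ((i : ℕ) : ZMod (3 * L))
  χ := fun i => (ZMod.stdAddChar (N := L * Q)).mulShift ((i : ℕ) : ZMod (L * Q))

def EmbS : Prop := ∀ (L Q : ℕ) [NeZero L] [NeZero Q] (v : Fin L → ℝ) (τ : ℝ),
  (∀ G u ξ γ, B2 G → B2 u → ‖(st L Q).form2 v G u ξ γ‖ ≤ τ * (st L Q).n ^ 2) →
  ∀ α, Atom α → ‖∑ d : Fin L, (v d : ℂ) * win L α d‖ ≤ 9 * τ + 13 / Q * ∑ d, |v d|

def OkS : Prop := ∀ (L Q : ℕ) [NeZero L] [NeZero Q] (t k0 : ℕ) (π π' : Fin L → ℝ) (ρ η0 : ℝ),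
  PV π → PV π' → (∀ i, π' i * L ≤ 2) → 0 ≤ ρ → 0 < η0 → 2 * ρ ≤ η0 → k0 * (4 * ρ ^ 2) ≤ 1 →
  (∀ θ : ZMod (L * Q), ‖∑ i, ((π i - π' i : ℝ) : ℂ) * (st L Q).χ i θ‖ ≤ ρ) →
  (∀ ψ : AddChar (ZMod (3 * L)) ℂ,
    ‖∑ i : Fin L, ((π i - π' i : ℝ) : ℂ) * ψ ((i : ℕ) : ZMod (3 * L))‖ ≤ ρ) →
  (st L Q).Ok π (8 * Q) η0 (6 * 4 ^ t) t k0

/-! ### probability -/

def bw {I : Type} [Fintype I] (s : I → ℝ) (ω : I → Bool) : ℝ := ∏ i, if ω i then s i else 1 - s i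

def xb {I : Type} (ω : I → Bool) (i : I) : ℝ := if ω i then 1 else 0

def MomS : Prop := ∀ (I : Type) [Fintype I] [DecidableEq I] (s : I → ℝ) (q : ℕ),
  (∀ i, 0 ≤ s i ∧ s i ≤ 1) → 1 ≤ ∑ i, s i →
  ∑ w : Fin (2 * q) → I, |∑ ω : I → Bool, bw s ω * ∏ j, (xb ω (w j) - s (w j))| ≤
    (q + 1) * ((2 * q : ℝ) ^ 2 * ∑ i, s i) ^ q

def MatS : Prop := ∀ (S : St) [DecidableEq S.I] (s : S.I → ℝ) (c : S.A → S.I → ℂ) (j : ℕ) (τ : ℝ),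
  B2 c → (∀ i, 0 ≤ s i ∧ s i ≤ 1) → 1 ≤ ∑ i, s i → 0 < τ →
  ∑ ω : S.I → Bool, bw s ω * oi (¬ S.Opb (fun i => xb ω i - s i) c τ) ≤
    S.n * ((2 ^ j + 1) * ((2 * 2 ^ j : ℝ) ^ 2 * (∑ i, s i) / τ ^ 2) ^ 2 ^ j)

def ScalS : Prop := ∀ (I : Type) [Fintype I] [DecidableEq I] (s : I → ℝ) (c : I → ℂ) (j : ℕ)
  (τ : ℝ), B1 c → (∀ i, 0 ≤ s i ∧ s i ≤ 1) → 1 ≤ ∑ i, s i → 0 < τ →
  ∑ ω : I → Bool, bw s ω * oi (τ < ‖∑ i, ((xb ω i - s i : ℝ) : ℂ) * c i‖) ≤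
    (2 ^ j + 1) * ((2 * 2 ^ j : ℝ) ^ 2 * (∑ i, s i) / τ ^ 2) ^ 2 ^ j

/-- the deterministic content of one block: `τ1` bounds the Fourier coefficients -/
def DetBS : Prop := ∀ (δ : ℝ) (r : ℕ), 0 < δ → ∃ (Q : ℕ) (_ : NeZero Q) (η0 τ C : ℝ) (e : ℕ),
  0 < η0 ∧ 0 < τ ∧ 0 ≤ C ∧ ∀ (L : ℕ) [NeZero L] (x : ℝ) (k0 : ℕ), (st L Q).Sz x → 1 ≤ k0 →
  (2 : ℝ) ^ 2 ^ r * (3 * L) ≤ (k0 : ℝ) ^ 2 ^ r →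
  ∃ 𝓒 : Finset (ZMod (3 * L) → Fin L → ℂ), (∀ c ∈ 𝓒, B2 c) ∧
    (𝓒.card : ℝ) ≤ Real.exp (C * ((k0 : ℝ) ^ 2 * x ^ e)) ∧
    ∀ (s : Fin L → ℝ) (ω : Fin L → Bool) (ρ : ℝ), (∀ i, 0 ≤ s i) → 0 < ∑ i, s i →
      (∀ i, s i * L ≤ 2 * ∑ i, s i) → 0 ≤ ρ → ρ ≤ η0 → k0 * (64 * ρ ^ 2) ≤ 1 →
      (∀ θ : ZMod (L * Q),
        ‖∑ i, ((xb ω i - s i : ℝ) : ℂ) * (st L Q).χ i θ‖ ≤ ρ * ∑ i, s i) →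
      (∀ ψ : AddChar (ZMod (3 * L)) ℂ,
        ‖∑ i : Fin L, ((xb ω i - s i : ℝ) : ℂ) * ψ ((i : ℕ) : ZMod (3 * L))‖ ≤ ρ * ∑ i, s i) →
      (∀ c ∈ 𝓒, (st L Q).Opb (fun i => xb ω i - s i) c (τ * ∑ i, s i)) →
      ∀ α, Atom α → ‖∑ d : Fin L, ((xb ω d - s d : ℝ) : ℂ) * win L α d‖ ≤ δ * ∑ i, s i

/-- the choice of the parameters of one block -/
def AsyS : Prop := ∀ h : ℕ, ∃ r j1 : ℕ, ∀ (Q e : ℕ) (η0 τ C : ℝ), 1 ≤ Q → 0 < η0 → 0 < τ → 0 ≤ C →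
  ∃ L0 : ℕ, ∀ (L : ℕ) (k : ℝ), L0 ≤ L → 0 ≤ k → k ≤ L → (L : ℝ) ≤ k ^ h →
  ∃ (x ρ : ℝ) (k0 j : ℕ), 1 ≤ k ∧ 1 ≤ x ∧ (3 * L * Q : ℝ) ≤ Real.exp x ∧ 1 ≤ k0 ∧
    (2 : ℝ) ^ 2 ^ r * (3 * L) ≤ (k0 : ℝ) ^ 2 ^ r ∧ 0 < ρ ∧ ρ ≤ η0 ∧ k0 * (64 * ρ ^ 2) ≤ 1 ∧
    (L * Q + 3 * L : ℝ) * ((2 ^ j1 + 1) * ((2 * 2 ^ j1 : ℝ) ^ 2 * k / (ρ * k) ^ 2) ^ 2 ^ j1) +
      Real.exp (C * ((k0 : ℝ) ^ 2 * x ^ e)) *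
        (3 * L * ((2 ^ j + 1) * ((2 * 2 ^ j : ℝ) ^ 2 * k / (τ * k) ^ 2) ^ 2 ^ j)) ≤ 1 / (L : ℝ) ^ 2

def BlockS : Prop := ∀ (h : ℕ) (δ : ℝ), 0 < δ → ∃ L0 : ℕ, ∀ (L : ℕ) (s : Fin L → ℝ), L0 ≤ L →
  (∀ i, 0 ≤ s i ∧ s i ≤ 1) → (∀ i, s i * L ≤ 2 * ∑ i, s i) → (L : ℝ) ≤ (∑ i, s i) ^ h →
  ∑ ω : Fin L → Bool, bw s ω * oi (∃ α, Atom α ∧
    δ * ∑ i, s i < ‖∑ d : Fin L, ((xb ω d - s d : ℝ) : ℂ) * win L α d‖) ≤ 1 / (L : ℝ) ^ 2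

open Classical in
def TrS : Prop := ∀ σ : ℕ → ℝ, (∀ n, 0 ≤ σ n ∧ σ n ≤ 1) →
  ∀ (Ω : Type) [MeasurableSpace Ω] (P : Measure Ω) [IsProbabilityMeasure P] (E : ℕ → Set Ω),
  (∀ n, MeasurableSet (E n)) → iIndepSet E P → (∀ n, P (E n) = ENNReal.ofReal (σ n)) →
  ∀ (a L : ℕ) (bad : (Fin L → Bool) → Prop),
    P.real {ω | bad fun i => decide (ω ∈ E (a + i))} =
      ∑ β : Fin L → Bool, bw (fun i : Fin L => σ (a + i)) β * oi (bad β)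

/-- the growth hypothesis of the theorem -/
def Poly (σ : ℕ → ℝ) : Prop :=
  ∃ a : ℝ, a < 1 ∧ Tendsto (fun n : ℕ => (n : ℝ) ^ a * σ n) atTop atTop

/-- length and mass of a block -/
def len (a : ℕ → ℕ) (j : ℕ) : ℕ := a (j + 1) - a j

def mass (σ : ℕ → ℝ) (a : ℕ → ℕ) (j : ℕ) : ℝ := ∑ d : Fin (len a j), σ (a j + d)

structure Blocks (a : ℕ → ℕ) : Prop where
  zero : a 0 = 0
  mono : StrictMono a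
  short : ∀ η : ℝ, 0 < η → ∀ᶠ j in atTop, (len a j : ℝ) ≤ η * a j
  slow : ∀ η : ℝ, 0 < η → ∀ᶠ j in atTop, (len a (j + 1) : ℝ) ≤ (1 + η) * len a j

def GeoS : Prop := ∀ σ : ℕ → ℝ, (∀ n, 0 ≤ σ n) → Antitone σ → Poly σ →
  ∃ (a : ℕ → ℕ) (h : ℕ), Blocks a ∧ ∀ᶠ j : ℕ in atTop, j ≤ len a j ∧ (j : ℝ) ^ 2 ≤ mass σ a j ∧
    (len a j : ℝ) ≤ mass σ a j ^ h

def SumS : Prop := ∀ (σ : ℕ → ℝ) (p : ℕ → Prop) (a : ℕ → ℕ), (∀ n, 0 ≤ σ n) → Antitone σ →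
  Tendsto (Wt σ) atTop atTop → Blocks a →
  (∀ᶠ j in atTop, ∑ d : Fin (len a j), ind p (a j + d) ≤ 2 * mass σ a j) →
  (∀ δ : ℝ, 0 < δ → ∀ᶠ j in atTop, σ (a j) * len a j ≤ 2 * mass σ a j → ∀ α, Atom α →
    ‖∑ d : Fin (len a j), ((ind p (a j + d) - σ (a j + d) : ℝ) : ℂ) * win (len a j) α d‖ ≤
      δ * mass σ a j) → RF (yw σ p)

def AeS : Prop := ∀ σ : ℕ → ℝ, (∀ n, 0 ≤ σ n ∧ σ n ≤ 1) → Antitone σ → Poly σ →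
  ∀ (Ω : Type) [MeasurableSpace Ω] (P : Measure Ω) [IsProbabilityMeasure P] (E : ℕ → Set Ω),
  (∀ n, MeasurableSet (E n)) → iIndepSet E P → (∀ n, P (E n) = ENNReal.ofReal (σ n)) →
  ∀ᵐ ω ∂P, RF (yw σ fun m => ω ∈ E m)

def NearS : Prop := ∀ w w' : ℕ → ℕ → ℝ, Near w w' → RF w' → RF w

def GrS : Prop := ∀ σ : ℕ → ℝ, (∀ n, 0 ≤ σ n) → Poly σ →
  Tendsto (fun n : ℕ => (n : ℝ) * σ n) atTop atTop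

end Pool.Agent.MP_154433_an.T7

end
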