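import Pool.Agent.MP_154433_an.p4.S1
import Pool.Agent.MP_154433_an.p4.S2
import Pool.Agent.MP_154433_an.p4.S3
import Pool.Agent.MP_154433_an.t3s.All
import Pool.Agent.MP_154433_an.t3u.Gr
import Pool.Agent.MP_154433_an.t7.SpecF

/-! From a deterministic theorem for the lattice to the statement for commuting maps. -/

set_option autoImplicit false
set_option linter.unusedVariables false

open MeasureTheory ProbabilityTheory Filter Topology Function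
open scoped BigOperators

noncomputable section

namespace Pool.Agent.MP_154433_an.T7

open T3S (PW AsInv Erg Mix Near Gr MB1 nu nb yw)
open T4S (Gm Spr Act Van Concl)

/-- the deterministic theorem for `l` maps under a hypothesis `R` on the difference -/
def DetG (l : ℕ) (R : (ℕ → ℕ → ℝ) → Prop) : Prop := ∀ ν ν' : ℕ → ℕ → ℝ, PW ν → PW ν' →
  Erg ν → Erg ν' → Spr ν → Spr ν' → AsInv ν' → R (fun M d => ν M d - ν' M d) →
  ∀ (X : Type) [MeasurableSpace X] (μ : Measure X) [IsProbabilityMeasure μ] (A : Gm l → X → X),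
  Act μ A → ∀ f : Fin l → X → ℂ, (∀ i, MB1 (f i)) →
  Van μ A (fun M d => ν M d - ν' M d) (fun i => Pi.single i 1) f

theorem mainG {l : ℕ} {R : (ℕ → ℕ → ℝ) → Prop} (hN : ∀ w w', Near w w' → R w' → R w)
    (hD : DetG l R) (σ : ℕ → ℝ) (hσ : ∀ n, 0 ≤ σ n ∧ σ n ≤ 1) (ha : Antitone σ) (hg : Gr σ 1)
    (Ω : Type) [MeasurableSpace Ω] (P : Measure Ω) [IsProbabilityMeasure P] (E : ℕ → Set Ω)
    (hE : ∀ n, MeasurableSet (E n)) (hind : iIndepSet E P)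
    (hP : ∀ n, P (E n) = ENNReal.ofReal (σ n)) (hR : ∀ᵐ ω ∂P, R (yw σ fun m => ω ∈ E m)) :
    ∀ᵐ ω ∂P, ∀ (X : Type) [MeasurableSpace X] (μ : Measure X) [IsProbabilityMeasure μ]
      (T : Fin l → X ≃ᵐ X) (f : Fin l → X → ℝ),
      (∀ i, MeasurePreserving (⇑(T i)) μ μ) → (∀ i j, Function.Commute ⇑(T i) ⇑(T j)) →
      (∀ i, MemLp (f i) ⊤ μ) → Concl (fun m => ω ∈ E m) μ T f := by
  have h0 : ∀ n, 0 ≤ σ n := fun n => (hσ n).1
  have hW := T3S.Asm.wt_tendsto h0 hg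
  filter_upwards [hR, T3S.aeAll σ hσ Ω P E hE hind hP hg,
    T4S.clsr T3S.ub T4S.cnt σ hσ Ω P E hE hind hP hg] with ω hω hω' hω'' X _ μ _ T f hT hC hf
  obtain ⟨a1, a2, a3, a4, a5⟩ := T3S.nrm.1 σ _ h0 hW hω'.1
  have hi := T3S.nrm.2.2.2 σ h0 ha hW
  have e2 : Erg (nb σ) := (T3S.erg T3S.vn).1 _ a2 hi
  have e1 : Erg (nu fun m => ω ∈ E m) :=
    (T3S.erg T3S.vn).2 _ _ e2 (T3S.nrm.2.1 _ _ a4 hω'.1)
  obtain ⟨s1, s2⟩ := T4S.spr _ _ _ a2 hi a4 hω''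
  refine T4S.endr σ _ h0 ha hW a5 l X μ T hT hC (fun g hg => ?_) f hf
  obtain ⟨A, hA, h1, -, -⟩ := T4S.act l X μ T hT hC
  refine (T4S.Red.near hA a4 hg (hD _ _ a1 a2 e1 e2 s1 s2 hi (hN _ _ a4 hω) X μ A hA g hg)).congr
    fun M => ?_
  simp only [T4S.wavg, h1]

/-- the deterministic theorem for pairs -/
def DetP : Prop := DetG 2 RF

def MainP : Prop := ∀ (σ : ℕ → ℝ), (∀ n, 0 ≤ σ n ∧ σ n ≤ 1) → Antitone σ → Poly σ →
  ∀ (Ω : Type) [MeasurableSpace Ω] (P : Measure Ω) [IsProbabilityMeasure P]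
    (E : ℕ → Set Ω), (∀ n, MeasurableSet (E n)) → iIndepSet E P →
    (∀ n, P (E n) = ENNReal.ofReal (σ n)) →
  ∀ᵐ ω ∂P, ∀ (X : Type) [MeasurableSpace X] (μ : Measure X) [IsProbabilityMeasure μ]
    (T : Fin 2 → X ≃ᵐ X) (f : Fin 2 → X → ℝ),
    (∀ i, MeasurePreserving (⇑(T i)) μ μ) → (∀ i j, Function.Commute ⇑(T i) ⇑(T j)) →
    (∀ i, MemLp (f i) ⊤ μ) → Concl (fun m => ω ∈ E m) μ T f

theorem mainP (hD : DetP) (hA : AeS) (hN : NearS) (hG : GrS) : MainP :=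
  fun σ hσ ha hp Ω _ P _ E hE hind hP =>
    mainG hN hD σ hσ ha (T3u.gr_one (fun n => (hσ n).1) (hG σ (fun n => (hσ n).1) hp)) Ω P E hE
      hind hP (hA σ hσ ha hp Ω P E hE hind hP)

end Pool.Agent.MP_154433_an.T7

end
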