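import Pool.Agent.MP_154433_an.t7.SpecE
import Pool.Agent.MP_154433_an.t7.Main

/-! The deterministic theorem for pairs in the vocabulary of the probabilistic part. -/

set_option autoImplicit false
set_option linter.unusedVariables false
set_option warn.classDefReducibility false

open MeasureTheory ProbabilityTheory Filter Topology Function
open scoped BigOperators ComplexConjugate

noncomputable section

namespace Pool.Agent.MP_154433_an.T7

open T3S (PW MB1 Erg)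
open T3S.Bridge (toWt av_eq erg_to exists_MB1)
open T4S (Gm Act wavg Van)
open T4S.Bridge (grp spr_to wavg_sub wavg_congr)

theorem detOf (h : ∀ G : T4x.Grp, @T4x.DETP G) : DetS := by
  intro ν ν' h1 h2 e1 e2 s1 s2 l r hB X _ μ _ A hA f hf
  let _ := grp r
  have avg_eq : ∀ {w : ℕ → ℕ → ℝ} (hw : PW w) {M : ℕ}, ∑ d ∈ Finset.range M, w M d = 1 →
      ∀ (Z : T4x.Sys) (g : Fin 2 → Z.X → ℂ) (x : Z.X),
      T4x.avg (toWt w hw) M Z r g x = wavg Z.Tz w r g M x := fun hw M e Z g x => by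
    rw [T4x.avg, av_eq hw e]
    exact Finset.sum_congr rfl fun d _ => Complex.real_smul
  have van_iff : ∀ (Z : T4x.Sys) (g : Fin 2 → Z.X → ℂ),
      Van Z.μ Z.Tz (fun M d => ν M d - ν' M d) r g ↔ Tendsto (fun M => ∫ x,
        ‖T4x.avg (toWt ν h1) M Z r g x - T4x.avg (toWt ν' h2) M Z r g x‖ ^ 2 ∂Z.μ)
        atTop (𝓝 0) := fun Z g => by
    refine tendsto_congr' ?_
    filter_upwards [h1.2, h2.2] with M e e'
    simp only [avg_eq h1 e, avg_eq h2 e', wavg_sub]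
  let Y : T4x.Sys := { X := X, μ := μ, Tz := A, mp := hA.mp, zero := hA.zero, add := hA.add }
  refine (van_iff Y f).2 (h (grp r) _ _ (Fin 2) r (fun i => {u | u = r i ∨ u = r i - r i.rev})
    (erg_to h1 e1) (erg_to h2 e2) (spr_to h1 s1) (spr_to h2 s2)
    ⟨fun i => Or.inl ⟨i, rfl⟩, fun i j hij => Or.inr ⟨i, j, hij, rfl⟩⟩ ?_ ?_ Y f
    fun i => ⟨(hf i).1.aestronglyMeasurable, 1, Eventually.of_forall (hf i).2⟩)
  · rintro u (⟨i, rfl⟩ | ⟨i, j, hij, rfl⟩)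
    · exact ⟨i, Or.inl rfl⟩
    · have : j = i.rev := by
        revert i j
        decide
      exact ⟨i, Or.inr (this ▸ rfl)⟩
  intro Z i
  have hZA := T4S.Bridge.act r Z
  have hnull : ∀ (S : Set Z.X) (v : Gm l), MeasurableSet S → Z.μ S = 0 →
      Z.Tz v ⁻¹' S =ᵐ[Z.μ] S := fun S v k1 k2 => by
    have h3 : Z.μ (Z.Tz v ⁻¹' S) = 0 := by
      rw [(Z.mp _).measure_preimage k1.nullMeasurableSet]
      exact k2
    exact (ae_eq_empty.2 h3).trans (ae_eq_empty.2 k2).symm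
  have hcong : ∀ (g g' : Z.X → ℂ) (v : Gm l), g =ᵐ[Z.μ] g' →
      ∀ᵐ y ∂Z.μ, g (Z.Tz v y) = g' (Z.Tz v y) := fun g g' v k =>
    (Z.mp v).quasiMeasurePreserving.ae_eq_comp k
  obtain ⟨B, b⟩ := hB Z.X Z.μ Z.Tz hZA i
  refine ⟨B, ⟨b.sub.1, MeasurableSpace.generateFrom_le fun S hS =>
    b.own _ (Or.inl rfl) S hS.1 (hnull S _ hS.1 hS.2), ?_⟩,
    fun u hu S hS => b.own u hu S hS.1 (hS.2 u rfl), fun g hg => (van_iff Z g).1 ?_, ?_⟩
  · rintro v _ ⟨S, hS, rfl⟩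
    exact b.sub.2 v S hS
  · have hi := hg i
    rw [update_self] at hi
    refine b.good g (fun j => ?_) hi
    rcases eq_or_ne j i with rfl | hj
    · exact hi.mono b.sub.1
    · have := hg j
      rwa [update_of_ne hj] at this
  · intro u hu g hg hg1 hg0 ε hε
    obtain ⟨g', m1, a1⟩ := @exists_MB1 Z.X Z.ms Z.μ g hg.1 hg1
    obtain ⟨H, a, hH, ha, hb⟩ := b.unif u hu g' m1 ((condExp_congr_ae a1).symm.trans hg0) ε hε
    refine ⟨H, a, hH, ha, fun C hC m m' c η hc hc1 hc0 hη => ?_⟩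
    choose c' m2 a2 using fun i => @exists_MB1 Z.X Z.ms Z.μ (c i) (hc i).1 (hc1 i)
    have k : c' i =ᵐ[Z.μ] Z.μ[fun y =>
        g' (Z.Tz ((m : ℤ) • u) y) * conj (g' (Z.Tz ((m' : ℤ) • u) y)) | C] := by
      refine (a2 i).symm.trans (hc0.trans (condExp_congr_ae ?_))
      filter_upwards [hcong g g' ((m : ℤ) • u) a1, hcong g g' ((m' : ℤ) • u) a1] with y k1 k2
      exact congrArg₂ (fun a b => a * conj b) k1 k2
    filter_upwards [hb C ⟨hC.le, fun v S hS => hC.inv v _ ⟨S, hS, rfl⟩⟩ m m' c' m2 k η hη, h2.2]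
      with M hM e
    refine le_of_eq_of_le (integral_congr_ae ?_) hM
    filter_upwards [@wavg_congr l Z.X Z.ms Z.μ Z.Tz hZA ν' (Fin 2) _ r c c' a2 M] with x hx
    rw [avg_eq h2 e, hx]

theorem own (h1 : FacS) (h2 : GoodS) (h3 : UnifS) {ν ν' : ℕ → ℕ → ℝ} (a1 : PW ν) (a2 : PW ν')
    (hi : T3S.AsInv ν') (hR : RF fun M d => ν M d - ν' M d) {l : ℕ} (r : Fin 2 → Gm l) (X : Type)
    [MeasurableSpace X] (μ : Measure X) [IsProbabilityMeasure μ] (A : Gm l → X → X) (hA : Act μ A)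
    (i : Fin 2) : Own (BB μ A (r i) (r i.rev)) μ A ν ν' r i :=
  have f := h1 l X μ A hA (r i) (r i.rev)
  ⟨f.1, f.2.2, h2 _ hR (T3S.Asm.bd_sub a1 a2) l X μ A hA r i, h3 ν' a2 hi l X μ A hA r i⟩

theorem detP (hD : DetS) (h1 : FacS) (h2 : GoodS) (h3 : UnifS) : DetP :=
  fun ν ν' a1 a2 e1 e2 s1 s2 hi hR => hD ν ν' a1 a2 e1 e2 s1 s2 2 _ fun X _ μ _ A hA i =>
    ⟨_, own h1 h2 h3 a1 a2 hi hR _ X μ A hA i⟩

theorem mainOf (h : ∀ G : T4x.Grp, @T4x.DETP G) (h1 : FacS) (h2 : GoodS) (h3 : UnifS) (hA : AeS)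
    (hN : NearS) (hG : GrS) : MainS := mainP (detP (detOf h) h1 h2 h3) hA hN hG

end Pool.Agent.MP_154433_an.T7

end
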