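import Pool.Agent.MP_154433_an.t7.SpecF

/-! Cauchy-Schwarz step: the increments of the second frequency are predicted. -/

set_option autoImplicit false
set_option linter.unusedVariables false

open Function Finset
open scoped BigOperators ComplexConjugate

noncomputable section

namespace Pool.Agent.MP_154433_an.T7

open T3S (B1)

namespace CsgL

theorem oi_nonneg (p : Prop) : 0 ≤ oi p := by
  unfold oi
  split_ifs <;> norm_num

theorem oi_mono {p q : Prop} (h : p → q) : oi p ≤ oi q := by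
  by_cases hp : p
  · simp [oi, hp, h hp]
  · simpa [oi, hp] using oi_nonneg q

theorem one_le {α : Type} (E : Set α) (a : α) : ‖one E a‖ ≤ 1 := by
  by_cases h : a ∈ E <;> simp [one, oi, h]

variable (S : St)

theorem n_pos : 0 < S.n := Nat.cast_pos.2 Fintype.card_pos

theorem form_le {π : S.I → ℝ} (hπ : PV π) {G : S.A → ℂ} (hG : B1 G) (E : Set S.A)
    (φ : S.A → S.Θ) : ‖S.form π G (one E) (S.tw φ fun _ _ => 1)‖ ≤ S.n := by
  refine (norm_sum_le_of_le (n := fun _ => (1 : ℝ)) _ fun y _ => ?_).trans (by simp [St.n])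
  refine (norm_sum_le_of_le (n := π) _ fun i _ => ?_).trans hπ.2.le
  rw [norm_mul, Complex.norm_real, Real.norm_of_nonneg (hπ.1 i)]
  refine mul_le_of_le_one_right (hπ.1 i) ?_
  simp only [St.tw, norm_mul, AddChar.norm_apply, mul_one]
  exact mul_le_one₀ (hG y) (norm_nonneg _) (one_le _ _)

/-- the form of a pair of rows -/
def fm (π : S.I → ℝ) (G : S.A → S.A → ℂ) (E : Set (S.A × S.A)) (γ : S.A → S.Θ) (h a : S.A) : ℂ :=
  S.form π (fun m => G (a + h) m * conj (G a m)) (one {z | (a + h, z) ∈ E ∧ (a, z) ∈ E})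
    (S.tw (fun z => γ (a + h + z) - γ (a + z)) fun _ _ => 1)

theorem cs {π : S.I → ℝ} (hπ : PV π) (G : S.A → S.A → ℂ) (E : Set (S.A × S.A))
    (ξ γ : S.A → S.Θ) :
    ‖S.form2 π G (fun a z => one E (a, z)) ξ γ‖ ^ 2 ≤ S.n * ∑ h, ∑ a, ‖fm S π G E γ h a‖ := by
  let Y : S.A → S.I → S.A → ℂ := fun m i a =>
    G a m * one E (a, m + S.ι i) * S.χ i (γ (a + (m + S.ι i)))
  have h1 : ‖S.form2 π G (fun a z => one E (a, z)) ξ γ‖ ≤
      ∑ p : S.A × S.I, π p.2 * ‖∑ a, Y p.1 p.2 a‖ := by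
    have e : S.form2 π G (fun a z => one E (a, z)) ξ γ =
        ∑ p : S.A × S.I, (π p.2 : ℂ) * (S.χ p.2 (ξ p.1) * ∑ a, Y p.1 p.2 a) := by
      simp only [Finset.mul_sum]
      rw [Finset.sum_comm]
      refine Finset.sum_congr rfl fun a _ => ?_
      rw [Fintype.sum_prod_type]
      refine Finset.sum_congr rfl fun m _ => Finset.sum_congr rfl fun i _ => ?_
      simp only [Y, add_assoc]
      ring
    rw [e]
    refine norm_sum_le_of_le _ fun p _ => ?_
    rw [norm_mul, norm_mul, AddChar.norm_apply, one_mul, Complex.norm_real,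
      Real.norm_of_nonneg (hπ.1 _)]
  have h2 : (∑ p : S.A × S.I, π p.2 * ‖∑ a, Y p.1 p.2 a‖) ^ 2 ≤
      (∑ p : S.A × S.I, π p.2) * ∑ p : S.A × S.I, π p.2 * ‖∑ a, Y p.1 p.2 a‖ ^ 2 :=
    Finset.sum_sq_le_sum_mul_sum_of_sq_le_mul _ (fun p _ => hπ.1 _)
      (fun p _ => mul_nonneg (hπ.1 _) (sq_nonneg _)) fun p _ => le_of_eq (by ring)
  have h3 : ∑ p : S.A × S.I, π p.2 = S.n := by
    rw [Fintype.sum_prod_type]
    simp [hπ.2, St.n]
  have h4 : ((∑ p : S.A × S.I, π p.2 * ‖∑ a, Y p.1 p.2 a‖ ^ 2 : ℝ) : ℂ) =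
      ∑ h, ∑ a, fm S π G E γ h a := by
    have e : ∀ m i, ((‖∑ a, Y m i a‖ ^ 2 : ℝ) : ℂ) = ∑ h, ∑ a, Y m i (a + h) * conj (Y m i a) := by
      intro m i
      rw [Complex.ofReal_pow, ← Complex.mul_conj', map_sum, Finset.sum_mul_sum, Finset.sum_comm,
        Finset.sum_comm (f := fun h a => Y m i (a + h) * conj (Y m i a))]
      exact Finset.sum_congr rfl fun a _ =>
        (Equiv.sum_comp (Equiv.addLeft a) fun b => Y m i b * conj (Y m i a)).symm
    simp only [Complex.ofReal_sum, Complex.ofReal_mul, e, Finset.mul_sum]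
    rw [Finset.sum_comm]
    refine Finset.sum_congr rfl fun h _ => ?_
    rw [Finset.sum_comm]
    refine Finset.sum_congr rfl fun a _ => ?_
    rw [Fintype.sum_prod_type]
    refine Finset.sum_congr rfl fun m _ => Finset.sum_congr rfl fun i _ => congrArg _ ?_
    simp only [Y, St.tw, map_mul, sub_eq_add_neg, AddChar.map_add_eq_mul, AddChar.map_neg_eq_conj]
    by_cases p1 : (a + h, m + S.ι i) ∈ E <;> by_cases p2 : (a, m + S.ι i) ∈ E <;>
      simp [one, oi, p1, p2]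
    ring
  have h5 : ∑ p : S.A × S.I, π p.2 * ‖∑ a, Y p.1 p.2 a‖ ^ 2 ≤ ∑ h, ∑ a, ‖fm S π G E γ h a‖ := by
    refine (le_abs_self _).trans ?_
    rw [← Real.norm_eq_abs, ← Complex.norm_real, h4]
    exact norm_sum_le_of_le _ fun h _ => norm_sum_le _ _
  refine (pow_le_pow_left₀ (norm_nonneg _) h1 2).trans (h2.trans ?_)
  rw [h3]
  exact mul_le_mul_of_nonneg_left h5 (n_pos S).le

end CsgL

open CsgL in
theorem csg : CsgS := by
  intro S π 𝓗 δ δ1 hπ hδ hδ1 hP G E ξ γ U hG hE hb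
  have hn := n_pos S
  have hG' : ∀ h a, B1 fun m => G (a + h) m * conj (G a m) := fun h a m => by
    rw [norm_mul, RCLike.norm_conj]
    exact mul_le_one₀ (hG _ _) (norm_nonneg _) (hG _ _)
  let gd : S.A → Prop := fun h => ∃ a, δ ^ 2 / 2 * S.n ≤ ‖fm S π G E γ h a‖
  have h1 : ∀ h a, ‖fm S π G E γ h a‖ ≤ oi (gd h) * S.n + δ ^ 2 / 2 * S.n := by
    intro h a
    by_cases c : gd h
    · have := form_le S hπ (hG' h a) {z | (a + h, z) ∈ E ∧ (a, z) ∈ E}
        fun z => γ (a + h + z) - γ (a + z)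
      simp only [oi, c, if_true, one_mul]
      exact this.trans (le_add_of_nonneg_right (by positivity))
    · simp only [oi, c, if_false, zero_mul, zero_add]
      exact (not_le.1 fun c' => c ⟨a, c'⟩).le
  have h2 : ∑ h, ∑ a, ‖fm S π G E γ h a‖ ≤ S.n ^ 2 * (cnt gd + δ ^ 2 / 2 * S.n) := by
    refine (Finset.sum_le_sum fun h _ => Finset.sum_le_sum fun a _ => h1 h a).trans (le_of_eq ?_)
    simp only [Finset.sum_const, Finset.card_univ, nsmul_eq_mul, Finset.sum_add_distrib,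
      ← Finset.mul_sum, ← Finset.sum_mul, cnt, St.n]
    ring
  have h3 : δ ^ 2 / 2 * S.n ≤ cnt gd := by
    have := ((pow_le_pow_left₀ (by positivity) hb 2).trans (cs S hπ G E ξ γ)).trans
      (mul_le_mul_of_nonneg_left h2 hn.le)
    have e : (δ ^ 2 / 2 * S.n) * S.n ^ 3 ≤ cnt gd * S.n ^ 3 := by nlinarith
    exact le_of_mul_le_mul_right e (by positivity)
  have h4 : ∀ h, gd h → ∃ a : S.A, ∃ φ ∈ 𝓗,
      δ1 * S.n ≤ ∑ x, oi (x + h ∈ U ∧ γ (x + h) - γ x = φ (x - a)) := by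
    rintro h ⟨a, ha⟩
    obtain ⟨φ, hφ, hc⟩ := hP _ _ _ (hG' h a) ha
    refine ⟨a, φ, hφ, hc.trans ?_⟩
    rw [← Equiv.sum_comp (Equiv.addLeft a)]
    refine Finset.sum_le_sum fun z _ => oi_mono fun hz => ?_
    simp only [Equiv.coe_addLeft, add_sub_cancel_left, add_right_comm a z h]
    exact ⟨hE _ hz.1.1, hz.2⟩
  obtain ⟨h0, hh0⟩ : ∃ h, gd h := by
    by_contra c
    have : cnt gd = 0 := Finset.sum_eq_zero fun h _ => if_neg fun c' => c ⟨h, c'⟩
    have p : 0 < δ ^ 2 / 2 * S.n := by positivity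
    linarith
  have h5 : ∀ h, ∃ ψ : S.A → S.Θ, (∃ a : S.A, ∃ φ ∈ 𝓗, ψ = fun x => φ (x - a)) ∧
      oi (gd h) * (δ1 * S.n) ≤ ∑ x, oi (x + h ∈ U ∧ γ (x + h) - γ x = ψ x) := by
    intro h
    by_cases c : gd h
    · obtain ⟨a, φ, hφ, hc⟩ := h4 h c
      exact ⟨_, ⟨a, φ, hφ, rfl⟩, by simpa only [oi, c, if_true, one_mul] using hc⟩
    · obtain ⟨a, φ, hφ, -⟩ := h4 h0 hh0
      refine ⟨_, ⟨a, φ, hφ, rfl⟩, ?_⟩
      rw [show oi (gd h) = 0 from if_neg c, zero_mul]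
      exact Finset.sum_nonneg fun x _ => oi_nonneg _
  choose ψ hψ hψ' using h5
  refine ⟨ψ, hψ, ?_⟩
  have h6 : cnt gd * (δ1 * S.n) ≤ edg ψ U γ := by
    rw [edg, cnt, cnt, Fintype.sum_prod_type, Finset.sum_mul]
    exact Finset.sum_le_sum fun h _ => hψ' h
  refine le_trans (le_of_eq (by ring)) ((mul_le_mul_of_nonneg_right h3 (by positivity)).trans h6)

end Pool.Agent.MP_154433_an.T7

end
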