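import Pool.Agent.MP_154433_an.t7.SpecE

/-! The dual cubes lie in the bipolar of the atoms. -/

set_option autoImplicit false
set_option linter.unusedVariables false

noncomputable section

namespace Pool.Agent.MP_154433_an.T7

open Filter Finset
open scoped BigOperators ComplexConjugate
open T3S (B1)

namespace CubL

def WW (L : ℕ) (φ : ℤ → ℤ → ℂ) (t y k : ℤ) : ℂ := dE L fun t1 => dE L fun t2 =>
  conj (φ t1 k * conj (φ t1 t)) * conj (φ t2 k * conj (φ t2 t)) *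
    (φ (t1 + t2 - y) k * conj (φ (t1 + t2 - y) t))

lemma core (hK : KcalS) (hS : ShiftS) {N L : ℕ} (hL : 18 * N ^ 4 + 1 ≤ L) {φ : ℤ → ℤ → ℂ}
    (hφ : B2 φ) (y k : ℕ → ℕ → ℕ → ℤ)
    (hb : ∀ n < N, ∀ m < N, ∀ d < N, |y n m d| ≤ 3 * N ∧ |k n m d| ≤ 3 * N)
    (h1 : ∀ t, InK N 1 fun n m d => conj (φ (y n m d) t))
    (h2 : ∀ t, InK N 4 fun n m d => WW L φ t (y n m d) (k n m d)) :
    InK N 5 fun n m d => cube L φ (y n m d) (k n m d) := by
  have hL1 : 1 ≤ L := by omega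
  have hLp : (0 : ℝ) < L := by exact_mod_cast hL1
  have : Nonempty (Fin L) := ⟨⟨0, hL1⟩⟩
  have hc : InK N (1 * 4) fun n m d => cu2 L φ (y n m d) (k n m d) :=
    hK.expect N _ (Fin L) _ fun h => hK.expect N _ (Fin L) _ fun h' =>
      hK.mul N _ _ _ _ (h1 (((h' : ℕ) : ℤ) - ((h : ℕ) : ℤ))) (h2 (((h' : ℕ) : ℤ) - ((h : ℕ) : ℤ)))
  have he := hK.small N (18 * N / L)
    (fun n m d => cube L φ (y n m d) (k n m d) - cu2 L φ (y n m d) (k n m d))
    fun n hn m hm d hd => (hS L φ _ _ hL1 hφ).trans (by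
      obtain ⟨a, b⟩ := hb n hn m hm d hd
      have a' : |(y n m d : ℝ)| ≤ 3 * N := by exact_mod_cast a
      have b' : |(k n m d : ℝ)| ≤ 3 * N := by exact_mod_cast b
      exact div_le_div_of_nonneg_right (by linarith) hLp.le)
  refine hK.congr N _ _ _ (fun n _ m _ d _ => by ring)
    (hK.mono N N _ 5 _ le_rfl ?_ (hK.add N _ _ _ _ hc he))
  have : (18 * N ^ 4 + 1 : ℝ) ≤ L := by exact_mod_cast hL
  have h3 : 18 * (N : ℝ) / L * N ^ 3 ≤ 1 := by
    rw [div_mul_eq_mul_div, div_le_one hLp]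
    linarith
  linarith

lemma b1 {φ : ℤ → ℤ → ℂ} (hφ : B2 φ) (k t : ℤ) : B1 fun s => φ s k * conj (φ s t) := fun s => by
  rw [norm_mul, Complex.norm_conj]
  exact mul_le_one₀ (hφ _ _) (norm_nonneg _) (hφ _ _)

lemma ee0 : ee 0 = 1 := by simp [ee]

end CubL

open CubL in
theorem cub (hKcal : KcalS) (hLine : LineS) (hWie : WieS) (hShift : ShiftS) : CubS := by
  intro N
  filter_upwards [eventually_ge_atTop (18 * N ^ 4 + 3 * N + 1)] with L hL φ hφ
  obtain ⟨θ, hθ⟩ := hWie L (by omega)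
  have hw : ∀ t k : ℤ, ∃ c : Fin (4 * L) → ℂ, ∑ i, ‖c i‖ ≤ 4 ∧ ∀ y : ℤ, |y| ≤ L →
      WW L φ t y k = ∑ i, c i * ee (y * θ i) := fun t k =>
    hθ (fun s => conj (φ s k * conj (φ s t))) (fun s => conj (φ s k * conj (φ s t)))
      (fun s => φ s k * conj (φ s t))
      (fun s => by rw [Complex.norm_conj]; exact b1 hφ k t s)
      (fun s => by rw [Complex.norm_conj]; exact b1 hφ k t s) (b1 hφ k t)
  choose c hc hcw using hw
  have hN : (3 * N : ℤ) ≤ L := by omega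
  have bd : ∀ n < N, ∀ m < N, ∀ d < N,
      |((n + m + d : ℕ) : ℤ)| ≤ 3 * N ∧ |(-(m : ℤ))| ≤ 3 * N := fun n hn m hm d hd => by
    rw [abs_neg, Nat.abs_cast, Nat.abs_cast]
    omega
  have cφ : ∀ a b, ‖conj (φ a b)‖ ≤ 1 := fun a b => by rw [Complex.norm_conj]; exact hφ a b
  constructor
  · refine CubL.core hKcal hShift (by omega) hφ _ _ bd (fun t => hKcal.atom N _
      ⟨fun _ _ => 1, fun n z => conj (φ ((n + z : ℕ) : ℤ) t), 0, 0, fun _ _ => by simp,
        fun _ _ => cφ _ _, fun n m d => by simp [ee0, add_assoc]⟩) fun t => ?_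
    refine hKcal.congr N _ _ _ (fun n hn m hm d hd => ?_)
      (hLine N 4 _ θ (fun m => c t (-(m : ℤ))) fun m => hc _ _).1
    rw [hcw t _ _ ((bd n hn m hm d hd).1.trans hN), Int.cast_natCast]
  · refine CubL.core hKcal hShift (by omega) hφ _ _ (fun n hn m hm d hd => (bd n hn m hm d hd).symm)
      (fun t => hKcal.atom N _
      ⟨fun _ m => conj (φ (-(m : ℤ)) t), fun _ _ => 1, 0, 0, fun _ _ => cφ _ _,
        fun _ _ => by simp, fun n m d => by simp [ee0]⟩) fun t => ?_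
    refine hKcal.congr N _ _ _ (fun n hn m hm d hd => ?_)
      (hLine N 4 _ θ (fun j => c t (j : ℤ)) fun m => hc _ _).2
    rw [hcw t _ _ ((bd n hn m hm d hd).2.trans hN), Int.cast_neg, Int.cast_natCast]

end Pool.Agent.MP_154433_an.T7

end
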