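import Pool.Agent.MP_154433_an.t7.SpecF

/-! Doubling of the depth of a prediction. -/

set_option autoImplicit false

open scoped BigOperators
open Finset

noncomputable section

namespace Pool.Agent.MP_154433_an.T7

namespace DblL

open Classical in
/-- two tuples with the same end point -/
theorem dbl0 {A X : Type} [AddCommGroup A] [Fintype A] [Fintype X] (σ : X → A) (π : X → ℝ)
    (P : A → X → Prop) {δ : ℝ} (hδ : 0 ≤ δ)
    (h : δ * Fintype.card A ≤ ∑ w, ∑ J, π J * if P (w - σ J) J then 1 else 0) :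
    δ ^ 2 * Fintype.card A ≤ ∑ w, ∑ J', ∑ J, π J' * (π J *
      if P (w - (σ J + σ J')) J ∧ P (w - (σ J + σ J')) J' then 1 else 0) := by
  have c0 : (0 : ℝ) < Fintype.card A := by exact_mod_cast Fintype.card_pos
  have e1 : ∑ w, ∑ J, π J * (if P (w - σ J) J then (1 : ℝ) else 0) =
      ∑ z, ∑ J, π J * if P z J then 1 else 0 := by
    rw [sum_comm, sum_comm (s := (univ : Finset A))]
    exact sum_congr rfl fun J _ =>
      (Equiv.subRight (σ J)).sum_comp fun z => π J * if P z J then (1 : ℝ) else 0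
  have e2 : ∑ w, ∑ J', ∑ J, π J' * (π J *
      if P (w - (σ J + σ J')) J ∧ P (w - (σ J + σ J')) J' then (1 : ℝ) else 0) =
      ∑ z, (∑ J, π J * if P z J then (1 : ℝ) else 0) ^ 2 := by
    have e3 : ∀ z, (∑ J, π J * if P z J then (1 : ℝ) else 0) ^ 2 =
        ∑ J', ∑ J, π J' * (π J * if P z J ∧ P z J' then (1 : ℝ) else 0) := fun z => by
      rw [sq, sum_mul_sum]
      refine sum_congr rfl fun J' _ => sum_congr rfl fun J _ => ?_
      by_cases g : P z J <;> by_cases g' : P z J' <;> simp [g, g']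
    simp only [e3]
    rw [sum_comm, sum_comm (s := (univ : Finset A))]
    refine sum_congr rfl fun J' _ => ?_
    rw [sum_comm, sum_comm (s := (univ : Finset A))]
    exact sum_congr rfl fun J _ => (Equiv.subRight (σ J + σ J')).sum_comp
      fun z => π J' * (π J * if P z J ∧ P z J' then (1 : ℝ) else 0)
  rw [e1] at h
  rw [e2]
  have h2 := sq_sum_le_card_mul_sum_sq (s := (univ : Finset A))
    (f := fun z => ∑ J, π J * if P z J then (1 : ℝ) else 0)
  rw [card_univ] at h2
  have h3 := pow_le_pow_left₀ (by positivity) h 2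
  refine le_of_mul_le_mul_left ?_ c0
  refine le_trans (le_of_eq (by ring)) (h3.trans h2)

end DblL

theorem dbl (hSym : SymS) : DblS := by
  classical
  intro δ δ0
  obtain ⟨C, m, C0, m1, H⟩ := hSym (δ ^ 2 / 2) (by positivity)
  have m3 : (0 : ℝ) < m := by exact_mod_cast m1
  refine ⟨δ ^ 2 / 2 / m, C, by positivity, C0, fun S T _ _ 𝓕 y y1 hX hF => ?_⟩
  obtain ⟨𝓖, hc, hG⟩ := H (T → S.I) S.Θ 𝓕 y y1 hX hF
  let gl : ((T → S.I) → (T → S.I) → S.Θ) → (T ⊕ T → S.I) → S.Θ := fun μ K =>
    μ (fun t => K (Sum.inl t)) fun t => K (Sum.inr t)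
  refine ⟨𝓖.image gl, le_trans (by exact_mod_cast card_image_le) hc, fun π E φ hπ hR => ?_⟩
  obtain ⟨Λ, hΛ, h⟩ := hR
  let σ : (T → S.I) → S.A := fun J => ∑ t, S.ι (J t)
  have w0 : ∀ J : T → S.I, 0 ≤ wt π J := fun J => prod_nonneg fun t _ => hπ.1 _
  have w1 : ∑ J : T → S.I, wt π J = 1 := by
    unfold wt
    rw [← Fintype.piFinset_univ, ← prod_univ_sum (fun _ => univ) fun _ i => π i]
    simp [hπ.2]
  let P : S.A → (T → S.I) → Prop := fun z J => z ∈ E ∧ φ z = Λ (z + σ J) J
  have h2 := DblL.dbl0 σ (wt π) P δ0.le (by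
    refine h.trans (le_of_eq (sum_congr rfl fun w _ => sum_congr rfl fun J _ => ?_))
    simp only [P, sub_add_cancel, oi, σ]
    congr)
  have q1 : ∀ (w : S.A) (J J' : T → S.I), w - (σ J + σ J') + σ J = w - σ J' := fun w J J' => by abel
  have q2 : ∀ (w : S.A) (J J' : T → S.I), w - (σ J + σ J') + σ J' = w - σ J := fun w J J' => by abel
  choose μ hμ hle using fun w : S.A => hG (wt π) (fun J => Λ (w - σ J))
    (fun J J' => P (w - (σ J + σ J')) J ∧ P (w - (σ J + σ J')) J') ⟨w0, w1⟩ (fun J => hΛ _)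
    fun J J' g => by
      have g1 := g.1.2
      have g2 := g.2.2
      rw [q1] at g1
      rw [q2] at g2
      exact g1.symm.trans g2
  refine ⟨fun w => gl (μ w), fun w => mem_image_of_mem _ (hμ w), ?_⟩
  have h3 := sum_le_sum (s := univ) fun w _ => hle w
  refine le_trans ?_ (h3.trans (sum_le_sum fun w _ => ?_))
  · have e : ∑ w, ∑ J', ∑ J, wt π J' * (wt π J *
        if P (w - (σ J + σ J')) J ∧ P (w - (σ J + σ J')) J' then (1 : ℝ) else 0) =
        ∑ w, ∑ J, ∑ J', wt π J * wt π J' *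
          oi (P (w - (σ J + σ J')) J ∧ P (w - (σ J + σ J')) J') := by
      refine sum_congr rfl fun w _ => ?_
      rw [sum_comm]
      refine sum_congr rfl fun J _ => sum_congr rfl fun J' _ => ?_
      unfold oi
      split_ifs <;> ring
    have h4 := h2.trans (le_of_eq (by convert e))
    rw [← sum_div, div_mul_eq_mul_div]
    refine div_le_div_of_nonneg_right ?_ m3.le
    rw [sum_sub_distrib, sum_const, card_univ, nsmul_eq_mul]
    unfold St.n
    linarith
  · rw [← (Equiv.sumArrowEquivProdArrow T T S.I).symm.sum_comp, Fintype.sum_prod_type]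
    refine sum_le_sum fun J _ => sum_le_sum fun J' _ => ?_
    have e1 : wt π ((Equiv.sumArrowEquivProdArrow T T S.I).symm (J, J')) = wt π J * wt π J' := by
      simp [wt, Fintype.prod_sum_type]
    have e2 : ∑ t, S.ι ((Equiv.sumArrowEquivProdArrow T T S.I).symm (J, J') t) = σ J + σ J' := by
      simp [σ, Fintype.sum_sum_type]
    have e3 : gl (μ w) ((Equiv.sumArrowEquivProdArrow T T S.I).symm (J, J')) = μ w J J' := rfl
    beta_reduce
    rw [e1, e2, e3]
    refine mul_le_mul_of_nonneg_left ?_ (mul_nonneg (w0 J) (w0 J'))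
    unfold oi
    split_ifs with g g'
    · exact le_rfl
    · refine absurd ⟨g.1.1.1, ?_⟩ g'
      have g1 := g.1.1.2
      rw [q1] at g1
      exact g1.trans g.2.symm
    · exact zero_le_one
    · exact le_rfl

end Pool.Agent.MP_154433_an.T7

end
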