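import Pool.Agent.MP_154433_an.t7.SpecF

set_option autoImplicit false
set_option linter.unusedVariables false

open MeasureTheory ProbabilityTheory Filter Topology Function Finset
open scoped BigOperators ComplexConjugate

noncomputable section

namespace Pool.Agent.MP_154433_an.T7

namespace DetBL

variable {I : Type} [Fintype I]

lemma pv_le {π : I → ℝ} (h : PV π) {f : I → ℂ} {b : ℝ} (hf : ∀ i, ‖f i‖ ≤ b) :
    ‖∑ i, (π i : ℂ) * f i‖ ≤ b := by
  refine (norm_sum_le _ _).trans ((sum_le_sum (g := fun i => π i * b) fun i _ => ?_).trans ?_)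
  · rw [norm_mul, Complex.norm_real, Real.norm_eq_abs, abs_of_nonneg (h.1 i)]
    exact mul_le_mul_of_nonneg_left (hf i) (h.1 i)
  · rw [← sum_mul, h.2, one_mul]

lemma split (x s : I → ℝ) {k D : ℝ} (hk : k ≠ 0) (hD : D ≠ 0) (f : I → ℂ) :
    ∑ i, ((x i - s i : ℝ) : ℂ) * f i = (k : ℂ) * ∑ i, ((x i / D - s i / k : ℝ) : ℂ) * f i +
      ((D - k : ℝ) : ℂ) * ∑ i, ((x i / D : ℝ) : ℂ) * f i := by
  have a : (k : ℂ) ≠ 0 := Complex.ofReal_ne_zero.2 hk
  have b : (D : ℂ) ≠ 0 := Complex.ofReal_ne_zero.2 hD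
  rw [mul_sum, mul_sum, ← sum_add_distrib]
  refine sum_congr rfl fun i _ => ?_
  push_cast
  field_simp
  ring

lemma form_eq (S : St) (v : S.I → ℝ) (G W : S.A → ℂ) (c : S.A → S.I → ℂ) :
    S.form v G W c = ∑ i, (v i : ℂ) * ∑ y, G y * W (y + S.ι i) * c y i := by
  rw [St.form, sum_comm]
  exact sum_congr rfl fun i _ => (mul_sum _ _ _).symm

lemma win_le (L : ℕ) {α : ℕ → ℕ → ℕ → ℂ} (h : Atom α) (d : ℕ) : ‖win L α d‖ ≤ 1 := by
  obtain ⟨G, u, ξ, γ, hG, hu, hα⟩ := h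
  refine T3S.norm_exp_le_of zero_le_one fun n _ => T3S.norm_exp_le_of zero_le_one fun m _ => ?_
  rw [hα, norm_mul, norm_mul, ee, Complex.norm_exp_ofReal_mul_I, mul_one]
  exact mul_le_one₀ (hG _ _) (norm_nonneg _) (hu _ _)

end DetBL

open DetBL in
theorem detB (hFin : FinS) (hEmb : EmbS) (hOk : OkS) : DetBS := by
  intro δ r hδ
  obtain ⟨Q, hQ⟩ := exists_nat_gt (104 / δ)
  have q0 : (0 : ℝ) < Q := lt_trans (by positivity) hQ
  have : NeZero Q := ⟨by rintro rfl; simp at q0⟩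
  obtain ⟨η0, τ, C, e, h0, hτ, hC, hF⟩ := hFin (δ / 36) (8 * Q) (6 * 4 ^ 2 ^ r) r
    (by positivity) (by positivity)
  refine ⟨Q, this, min (min (η0 / 8) (τ / 4)) (min (δ / 4) (1 / 8)), τ / 2, C, e, by positivity,
    by positivity, hC, fun L _ x k0 hx hk hb => ?_⟩
  have en : (st L Q).n = 3 * L := by
    change ((Fintype.card (ZMod (3 * L)) : ℕ) : ℝ) = _
    rw [ZMod.card]
    push_cast
    rfl
  obtain ⟨𝓒, c1, c2, c3⟩ := hF (st L Q) x k0 hx hk (by rwa [en])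
  refine ⟨𝓒, c1, c2, fun s ω ρ s0 hk0 hfl r0 r1 r2 f1 f2 f3 α hα => ?_⟩
  simp only [le_min_iff] at r1
  obtain ⟨⟨r3, r4⟩, r5, r6⟩ := r1
  set k := ∑ i, s i with hkk
  set D := ∑ i, xb ω i with hDD
  have hDk : |D - k| ≤ ρ * k := by
    have := f2 0
    simp only [AddChar.zero_apply, mul_one, ← Complex.ofReal_sum, Complex.norm_real,
      Real.norm_eq_abs, sum_sub_distrib] at this
    exact this
  have hD : 0 < D := by nlinarith [(abs_le.1 hDk).1]
  have p1 : PV fun i => xb ω i / D :=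
    ⟨fun i => div_nonneg (by unfold xb; split_ifs <;> norm_num) hD.le,
      by rw [← sum_div, div_self hD.ne']⟩
  have p2 : PV fun i => s i / k :=
    ⟨fun i => div_nonneg (s0 i) hk0.le, by rw [← sum_div, div_self hk0.ne']⟩
  have two : ∀ (f : Fin L → ℂ) (b : ℝ), (∀ i, ‖f i‖ ≤ b) →
      ‖((D - k : ℝ) : ℂ) * ∑ i, ((xb ω i / D : ℝ) : ℂ) * f i‖ ≤ ρ * k * b := fun f b hf => by
    rw [norm_mul, Complex.norm_real, Real.norm_eq_abs]
    exact mul_le_mul hDk (pv_le p1 hf) (norm_nonneg _) (by positivity)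
  have fw : ∀ (f : Fin L → ℂ) (b t : ℝ), (∀ i, ‖f i‖ ≤ b) →
      ‖∑ i, ((xb ω i - s i : ℝ) : ℂ) * f i‖ ≤ t * k →
      ‖∑ i, ((xb ω i / D - s i / k : ℝ) : ℂ) * f i‖ ≤ t + ρ * b := fun f b t hf h => by
    have e1 := eq_sub_of_add_eq (split (xb ω) s hk0.ne' hD.ne' f).symm
    have e2 := (norm_sub_le _ _).trans (add_le_add h (two f b hf))
    rw [← e1, norm_mul, Complex.norm_real, Real.norm_eq_abs, abs_of_pos hk0] at e2
    exact le_of_mul_le_mul_left (e2.trans (le_of_eq (by ring))) hk0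
  have fl : ∀ i, s i / k * L ≤ 2 := fun i => by
    rw [div_mul_eq_mul_div, div_le_iff₀ hk0]
    exact hfl i
  have k1 : (k0 : ℝ) * (4 * (2 * ρ) ^ 2) ≤ 1 := by
    have : (0 : ℝ) ≤ k0 * ρ ^ 2 := by positivity
    linarith
  have o1 := hOk L Q (2 ^ r) k0 _ _ (2 * ρ) η0 p1 p2 fl (by linarith) h0 (by linarith) k1
    (fun θ => (fw _ 1 ρ (fun i => (AddChar.norm_apply _ _).le) (f1 θ)).trans (by linarith))
    (fun ψ => (fw _ 1 ρ (fun i => (AddChar.norm_apply _ _).le) (f2 ψ)).trans (by linarith))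
  have o2 := hOk L Q (2 ^ r) k0 _ _ (2 * ρ) η0 p2 p2 fl (by linarith) h0 (by linarith) k1
    (fun θ => by simpa using r0) (fun ψ => by simpa using r0)
  have n0 : 0 ≤ (st L Q).n := Nat.cast_nonneg _
  have h4 := hEmb L Q _ _ (c3 _ _ o1 o2 fun c hc G W hG hW => by
    have h5 := f3 c hc G W hG hW
    rw [form_eq] at h5 ⊢
    refine (fw _ (st L Q).n (τ / 2 * (st L Q).n) (fun i => ?_)
      (h5.trans (le_of_eq (by ring)))).trans (by nlinarith)
    refine (norm_sum_le _ _).trans ((sum_le_card_nsmul _ _ 1 fun y _ => ?_).trans (by simp [St.n]))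
    rw [norm_mul, norm_mul]
    exact mul_le_one₀ (mul_le_one₀ (hG _) (norm_nonneg _) (hW _)) (norm_nonneg _) (c1 c hc _ _))
    α hα
  change ‖∑ d : Fin L, ((xb ω d / D - s d / k : ℝ) : ℂ) * win L α d‖ ≤
    9 * (δ / 36) + 13 / (Q : ℝ) * ∑ d : Fin L, |xb ω d / D - s d / k| at h4
  have h6 : ∑ d : Fin L, |xb ω d / D - s d / k| ≤ 2 := by
    refine (sum_le_sum (g := fun d => xb ω d / D + s d / k) fun d _ =>
      abs_le.2 ⟨by linarith [p1.1 d], by linarith [p2.1 d]⟩).trans ?_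
    rw [sum_add_distrib, p1.2, p2.2]
    norm_num
  have h7 : 13 / (Q : ℝ) * 2 ≤ δ / 4 := by
    rw [div_lt_iff₀ hδ] at hQ
    rw [div_mul_eq_mul_div, div_le_iff₀ q0]
    linarith
  have h8 : ‖∑ d : Fin L, ((xb ω d / D - s d / k : ℝ) : ℂ) * win L α d‖ ≤ δ / 2 :=
    h4.trans (by linarith [mul_le_mul_of_nonneg_left h6 (show 0 ≤ 13 / (Q : ℝ) by positivity)])
  rw [split (xb ω) s hk0.ne' hD.ne']
  refine (norm_add_le _ _).trans ?_
  have h9 := two (fun d => win L α d) 1 fun d => win_le L hα d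
  rw [norm_mul, Complex.norm_real, Real.norm_eq_abs, abs_of_pos hk0]
  nlinarith [mul_le_mul_of_nonneg_left h8 hk0.le]

end Pool.Agent.MP_154433_an.T7

end
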