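import Pool.Agent.MP_154433_an.t7.SpecE

/-! The hull induction with one factor for each slot. -/

set_option autoImplicit false
set_option linter.unusedVariables false

open MeasureTheory Filter Topology Function
open Fib27 (BM)

noncomputable section

namespace T4x

open T3x

variable [Grp]

lemma GoodP.anti {ν ν' : Wt} {X : Sys} {ι : Type} [Fintype ι] {r : ι → Γ}
    {A A' : ι → MeasurableSpace X.X} (h : GoodP ν ν' X r A) (hA : ∀ i, A' i ≤ A i) :
    GoodP ν ν' X r A' := fun f hf => h f fun i => (hf i).mono (hA i)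

theorem detP (F : Fd) (G : Gf) (GP : GfP) (hO : OwnP) (hF : ForP) (hT : TopS) : DETP := by
  intro ν ν' ι _ _ hι r O e1 e2 s1 s2 hr hO' hB X
  obtain ⟨X', e, hX, he, hf⟩ := F.nice0 X
  refine G.down ν ν' X X' e ι r he hf ?_
  choose B hB using hB X'
  obtain ⟨i0⟩ := hι
  have b1 := (hB i0).fac
  refine hT ν ν' X' ι r _ e1 e2 s1 s2 hr hX (F.h.kc X' (B i0) hX b1)
    (GoodP.anti (A := fun i => hull X' (B i0) ⊔ B i) (F.h.ind X' (B i0)
      (fun C => GoodP ν ν' X' r fun i => C ⊔ B i) hX b1 ?_ ?_ ?_) fun i => le_sup_left)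
  · refine (hB i0).good.anti fun i => ?_
    rcases eq_or_ne i i0 with rfl | h
    · simp
    · rw [update_of_ne h]
      exact sup_le b1.le (hB i).fac.le
  · intro u hu C c1 c2 c3
    obtain ⟨j, hj⟩ := hO' u hu
    have fa : ∀ i, Fac X' (C ⊔ B i) := fun i => F.t.fsup X' _ _ c1 (hB i).fac
    have h1 := hO ν ν' X' ι r _ (B j) (O j) j u hj hX fa (hB j) le_sup_right c3
    have h2 := hF ν ν' X' ι r _ (B j) (O j) j u hj hX (fun i => ?_) (hB j) ?_ h1
    · refine h2.anti fun i => ?_
      have k : KK X' u C ⊔ B i ≤ KK X' u (C ⊔ B i) :=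
        sup_le (F.kb.mono X' u _ _ hX c1 (fa i) le_sup_left)
          (le_sup_right.trans (F.kb.le X' u _ hX (fa i)))
      rcases eq_or_ne i j with rfl | h
      · simpa only [update_self] using k
      · simpa only [update_of_ne h] using k
    · rcases eq_or_ne i j with rfl | h
      · rw [update_self]
        exact F.kb.fac X' u _ hX (fa i)
      · rw [update_of_ne h]
        exact fa i
    · rw [update_self]
      exact le_sup_right.trans (F.kb.le X' u _ hX (fa j))
  · exact fun 𝒞 c1 c2 c3 => GP.chain ν ν' X' ι r B 𝒞 (fun i => (hB i).fac.le) c1 c2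
      fun C h => ⟨(c3 C h).1.le, (c3 C h).2.2⟩

end T4x

end
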