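import Pool.Agent.MP_154433_an.t7.SpecF

set_option autoImplicit false
set_option linter.unusedVariables false

open MeasureTheory ProbabilityTheory Filter Topology Function Finset
open scoped BigOperators ComplexConjugate

noncomputable section

namespace Pool.Agent.MP_154433_an.T7

namespace EmbL

lemma norm_ee (a : ℝ) : ‖ee a‖ = 1 := Complex.norm_exp_ofReal_mul_I _

lemma ee_add (a b : ℝ) : ee (a + b) = ee a * ee b := by
  simp only [ee, ← Complex.exp_add]
  congr 1
  push_cast
  ring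

lemma ee_sub (a b : ℝ) : ‖ee a - ee b‖ ≤ 2 * Real.pi * |a - b| := by
  have e : ee a - ee b = ee b * (ee (a - b) - 1) := by
    rw [mul_sub, ← ee_add, mul_one, add_sub_cancel]
  rw [e, norm_mul, norm_ee, one_mul, ee, mul_comm _ Complex.I]
  refine Real.norm_exp_I_mul_ofReal_sub_one_le.trans (le_of_eq ?_)
  rw [Real.norm_eq_abs, abs_mul, abs_of_nonneg (by positivity)]

lemma sum_val (N : ℕ) [NeZero N] (g : ℕ → ℂ) :
    ∑ a : ZMod N, g a.val = ∑ n ∈ range N, g n := by
  obtain ⟨k, rfl⟩ := Nat.exists_eq_succ_of_ne_zero (NeZero.ne N)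
  exact Fin.sum_univ_eq_sum_range g (k + 1)

lemma sum_cut (L : ℕ) [NeZero L] (g : ℕ → ℂ) :
    ∑ a : ZMod (3 * L), (if a.val < L then g a.val else 0) = ∑ n ∈ range L, g n := by
  rw [sum_val (3 * L) fun n => if n < L then g n else 0, ← sum_filter]
  congr 1
  ext n
  simp only [mem_filter, mem_range]
  omega

lemma chi (L Q : ℕ) [NeZero L] [NeZero Q] (i : Fin L) (z : ℤ) :
    (st L Q).χ i (z : ZMod (L * Q)) = ee ((i : ℕ) * ((z : ℝ) / (L * Q))) := by
  change ZMod.stdAddChar (((i : ℕ) : ZMod (L * Q)) * (z : ZMod (L * Q))) = _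
  rw [← Int.cast_natCast (R := ZMod (L * Q)), ← Int.cast_mul, ZMod.stdAddChar_coe, ee]
  congr 1
  push_cast
  ring

lemma rnd {L Q : ℕ} (hL : 0 < L) (hQ : 0 < Q) {d : ℕ} (hd : d < L) (x : ℝ) :
    |d * x - d * ((⌊x * (L * Q)⌋ : ℝ) / (L * Q))| ≤ 1 / Q := by
  have l0 : (0 : ℝ) < L := by exact_mod_cast hL
  have q0 : (0 : ℝ) < Q := by exact_mod_cast hQ
  have d1 : (d : ℝ) ≤ L := by exact_mod_cast hd.le
  have e : d * x - d * ((⌊x * (L * Q)⌋ : ℝ) / (L * Q)) = d / L * Int.fract (x * (L * Q)) / Q := by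
    rw [Int.fract]
    field_simp
  rw [e, abs_of_nonneg (div_nonneg (mul_nonneg (by positivity) (Int.fract_nonneg _)) q0.le)]
  exact div_le_div_of_nonneg_right (mul_le_one₀ ((div_le_one l0).2 d1) (Int.fract_nonneg _)
    (Int.fract_lt_one _).le) q0.le

end EmbL

open EmbL in
theorem emb : EmbS := by
  rintro L Q _ _ v τ h α ⟨G, u, ξ, γ, hG, hu, hα⟩
  have hL := NeZero.pos L
  have hQ := NeZero.pos Q
  have l0 : (0 : ℝ) < L := by exact_mod_cast hL
  have q0 : (0 : ℝ) < Q := by exact_mod_cast hQ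
  let r : ℝ → ℝ := fun x => (⌊x * (L * Q)⌋ : ℝ) / (L * Q)
  let β : ℕ → ℕ → ℕ → ℂ := fun n m d =>
    G n m * u n (m + d) * ee (d * r (ξ m) + d * r (γ (n + m + d)))
  have h1 := h (fun a m : ZMod (3 * L) => if a.val < L then (if m.val < L then G a.val m.val
      else 0) else 0) (fun a z : ZMod (3 * L) => u a.val z.val)
    (fun m : ZMod (3 * L) => ((⌊ξ m.val * (L * Q)⌋ : ℤ) : ZMod (L * Q)))
    (fun m : ZMod (3 * L) => ((⌊γ m.val * (L * Q)⌋ : ℤ) : ZMod (L * Q)))
    (fun a m => by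
      dsimp only
      split_ifs
      · exact hG _ _
      · simp
      · simp) (fun a z => hu _ _)
  have e1 : (st L Q).form2 v (fun a m : ZMod (3 * L) => if a.val < L then (if m.val < L then
      G a.val m.val else 0) else 0) (fun a z : ZMod (3 * L) => u a.val z.val)
      (fun m : ZMod (3 * L) => ((⌊ξ m.val * (L * Q)⌋ : ℤ) : ZMod (L * Q)))
      (fun m : ZMod (3 * L) => ((⌊γ m.val * (L * Q)⌋ : ℤ) : ZMod (L * Q))) =
      ∑ n ∈ range L, ∑ m ∈ range L, ∑ d : Fin L, (v d : ℂ) * β n m d := by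
    rw [← sum_cut]
    refine sum_congr rfl fun (a : ZMod (3 * L)) _ => ?_
    by_cases ha : a.val < L
    swap
    · simp [ha]
    rw [if_pos ha, ← sum_cut]
    refine sum_congr rfl fun (m : ZMod (3 * L)) _ => ?_
    by_cases hm : m.val < L
    swap
    · simp [hm]
    rw [if_pos hm]
    refine sum_congr rfl fun (d : Fin L) _ => ?_
    have hd := d.2
    have v0 : (((d : ℕ) : ZMod (3 * L))).val = d := ZMod.val_cast_of_lt (by omega)
    have v1 : (m + ((d : ℕ) : ZMod (3 * L))).val = m.val + d := by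
      rw [ZMod.val_add_of_lt (by omega), v0]
    have v2 : (a + m).val = a.val + m.val := ZMod.val_add_of_lt (by omega)
    have v3 : (a + m + ((d : ℕ) : ZMod (3 * L))).val = a.val + m.val + d := by
      rw [ZMod.val_add_of_lt (by omega), v0, v2]
    rw [chi, chi]
    change (v d : ℂ) * ((if a.val < L then (if m.val < L then G a.val m.val else 0) else 0) *
      u a.val (m + ((d : ℕ) : ZMod (3 * L))).val * _ *
      ee (_ * ((⌊γ (a + m + ((d : ℕ) : ZMod (3 * L))).val * (L * Q)⌋ : ℝ) / _))) = _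
    rw [if_pos ha, if_pos hm, v1, v3, mul_assoc (_ * _), ← ee_add]
  have e2 : (st L Q).n = 3 * L := by
    change ((Fintype.card (ZMod (3 * L)) : ℕ) : ℝ) = _
    rw [ZMod.card]
    push_cast
    rfl
  rw [e1, e2] at h1
  have e3 : ∑ d : Fin L, (v d : ℂ) * win L β d =
      (∑ n ∈ range L, ∑ m ∈ range L, ∑ d : Fin L, (v d : ℂ) * β n m d) / L / L := by
    simp only [win, expect_eq_sum_div_card, card_range, sum_div, mul_sum]
    rw [sum_comm]
    refine sum_congr rfl fun n _ => ?_
    rw [sum_comm]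
    exact sum_congr rfl fun m _ => sum_congr rfl fun d _ => by ring
  have h2 : ‖∑ d : Fin L, (v d : ℂ) * win L β d‖ ≤ 9 * τ := by
    rw [e3, norm_div, norm_div, Complex.norm_natCast, div_div, div_le_iff₀ (by positivity)]
    linarith
  have h3 : ∀ d : Fin L, ‖win L α d - win L β d‖ ≤ 13 / Q := fun d => by
    simp only [win, ← expect_sub_distrib]
    refine T3S.norm_exp_le_of (by positivity) fun n _ =>
      T3S.norm_exp_le_of (by positivity) fun m _ => ?_
    rw [hα, ← mul_sub, norm_mul, norm_mul]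
    refine (mul_le_of_le_one_left (norm_nonneg _)
      (mul_le_one₀ (hG _ _) (norm_nonneg _) (hu _ _))).trans ((ee_sub _ _).trans ?_)
    rw [add_sub_add_comm]
    have a1 := (abs_add_le _ _).trans
      (add_le_add (rnd hL hQ d.2 (ξ m)) (rnd hL hQ d.2 (γ (n + m + d))))
    refine (mul_le_mul_of_nonneg_left a1 (by positivity)).trans ?_
    rw [← add_div, ← mul_div_assoc]
    exact div_le_div_of_nonneg_right (by linarith [Real.pi_lt_d2]) q0.le
  have e4 : ∑ d : Fin L, (v d : ℂ) * win L α d = ∑ d : Fin L, (v d : ℂ) * win L β d +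
      ∑ d : Fin L, (v d : ℂ) * (win L α d - win L β d) := by
    rw [← sum_add_distrib]
    exact sum_congr rfl fun d _ => by ring
  rw [e4, mul_sum]
  refine (norm_add_le _ _).trans (add_le_add h2 ((norm_sum_le _ _).trans (sum_le_sum fun d _ => ?_)))
  rw [norm_mul, Complex.norm_real, Real.norm_eq_abs, mul_comm]
  exact mul_le_mul_of_nonneg_right (h3 d) (abs_nonneg _)

end Pool.Agent.MP_154433_an.T7

end
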