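import Pool.Agent.MP_154433_an.t7.SpecF

set_option autoImplicit false
set_option linter.unusedVariables false

open Function Finset
open scoped BigOperators

noncomputable section

namespace Pool.Agent.MP_154433_an.T7

namespace EnL

variable {I K L : Type} [Fintype I] [Fintype K] [DecidableEq K] [Fintype L] [DecidableEq L]
  {π : I → ℝ}

lemma oi0 (p : Prop) : 0 ≤ oi p := by unfold oi; split_ifs <;> norm_num

lemma oi1 (p : Prop) : oi p ≤ 1 := by unfold oi; split_ifs <;> norm_num

omit [Fintype I] [DecidableEq K] in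
lemma wt0 (h : ∀ i, 0 ≤ π i) (s : K → I) : 0 ≤ wt π s := prod_nonneg fun _ _ => h _

lemma wt1 (h : PV π) : ∑ s : K → I, wt π s = 1 := by
  unfold wt
  rw [← Fintype.piFinset_univ, ← prod_univ_sum]
  simp [h.2]

lemma marg (h : PV π) (ι : L → K) (hι : Injective ι) (g : (L → I) → ℝ) :
    ∑ s : K → I, wt π s * g (fun l => s (ι l)) = ∑ r : L → I, wt π r * g r := by
  classical
  have key : ∀ r : L → I, ∑ s : K → I, wt π s * (if (fun l => s (ι l)) = r then 1 else 0) =
      wt π r := by
    intro r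
    have e1 : ∀ s : K → I, wt π s * (if (fun l => s (ι l)) = r then 1 else 0) =
        ∏ k, (π (s k) * if ∀ l, ι l = k → s k = r l then 1 else 0) := by
      intro s
      rw [prod_mul_distrib, prod_boole]
      congr 2
      refine propext ⟨fun e k _ l hl => by rw [← hl, ← e], fun e => funext fun l => ?_⟩
      exact e _ (mem_univ _) l rfl
    simp_rw [e1]
    rw [← Fintype.piFinset_univ,
      ← prod_univ_sum (fun _ => univ) fun k i => π i * if ∀ l, ι l = k → i = r l then 1 else 0]
    refine (Fintype.prod_of_injective ι hι _ _ (fun k hk => ?_) fun l => ?_).symm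
    · have : ∀ i, ∀ l, ι l = k → i = r l := fun i l hl => absurd ⟨l, hl⟩ hk
      exact (sum_congr rfl fun i _ => by rw [if_pos (this i), mul_one]).trans h.2
    · have : ∀ i, (∀ l', ι l' = ι l → i = r l') ↔ i = r l :=
        fun i => ⟨fun e => e l rfl, fun e l' hl => by rw [e, hι hl]⟩
      simp [this]
  calc ∑ s : K → I, wt π s * g (fun l => s (ι l))
      = ∑ s : K → I, ∑ r : L → I, wt π s * (if (fun l => s (ι l)) = r then 1 else 0) * g r := by
        refine sum_congr rfl fun s _ => ?_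
        simp
    _ = ∑ r : L → I, wt π r * g r := by
        rw [sum_comm]
        exact sum_congr rfl fun r _ => by rw [← sum_mul, key]

lemma pair (g : (L → I) → (L → I) → ℝ) :
    ∑ r : L ⊕ L → I, wt π r * g (fun l => r (Sum.inl l)) (fun l => r (Sum.inr l)) =
      ∑ J : L → I, ∑ J' : L → I, wt π J * wt π J' * g J J' := by
  rw [← sum_product', univ_product_univ]
  refine Fintype.sum_equiv (Equiv.sumArrowEquivProdArrow L L I) _ _ fun r => ?_
  unfold wt
  rw [Fintype.prod_sum_type]
  rfl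

lemma col {A : Type} [AddCommGroup A] [Fintype A] {k : ℕ} (h : PV π) (e : L → I → A) {C ρ : ℝ}
    (hC : 0 ≤ C) (hc : Col π e C ρ) (a a' : L → Fin k) :
    ∑ s : L × Fin k → I, wt π s * oi (∑ t, e t (s (t, a t)) = ∑ t, e t (s (t, a' t))) ≤
      C / Fintype.card A + ∏ t, if a t ≠ a' t then ρ else 1 := by
  rw [prod_ite, prod_const, prod_const_one, mul_one]
  rcases (univ.filter fun t => a t ≠ a' t).eq_empty_or_nonempty with h0 | h0
  · rw [h0, card_empty, pow_zero]
    have h1 : ∑ s : L × Fin k → I, wt π s *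
        oi (∑ t, e t (s (t, a t)) = ∑ t, e t (s (t, a' t))) ≤ ∑ s : L × Fin k → I, wt π s :=
      sum_le_sum fun s _ => mul_le_of_le_one_right (wt0 h.1 s) (oi1 _)
    rw [wt1 h] at h1
    have : 0 ≤ C / Fintype.card A := by positivity
    linarith
  refine le_trans (le_of_eq ?_) (hc _ h0)
  obtain ⟨t0, ht0⟩ := h0
  have : Nontrivial (Fin k) := ⟨_, _, (mem_filter.1 ht0).2⟩
  have ex : ∀ t, ∃ b, a t ≠ b ∧ (a t ≠ a' t → b = a' t) := by
    intro t
    by_cases ht : a t = a' t
    · obtain ⟨b, hb⟩ := exists_ne (a t)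
      exact ⟨b, hb.symm, fun h => absurd ht h⟩
    · exact ⟨a' t, ht, fun _ => rfl⟩
  choose b hb hb' using ex
  have inj : Injective (Sum.elim (fun t => (t, a t)) fun t => (t, b t) : L ⊕ L → L × Fin k) := by
    rintro (t | t) (u | u) e <;> simp only [Sum.elim_inl, Sum.elim_inr, Prod.mk.injEq] at e
    · rw [e.1]
    · obtain ⟨rfl, e⟩ := e
      exact absurd e (hb t)
    · obtain ⟨rfl, e⟩ := e
      exact absurd e.symm (hb t)
    · rw [e.1]
  rw [← pair fun J J' => oi (∑ t ∈ univ.filter fun t => a t ≠ a' t, e t (J t) =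
    ∑ t ∈ univ.filter fun t => a t ≠ a' t, e t (J' t)), ← marg h _ inj]
  refine sum_congr rfl fun s _ => ?_
  congr 2
  simp only [Sum.elim_inl, Sum.elim_inr]
  have e1 : ∑ t ∈ univ.filter fun t => a t ≠ a' t, e t (s (t, b t)) =
      ∑ t ∈ univ.filter fun t => a t ≠ a' t, e t (s (t, a' t)) :=
    sum_congr rfl fun t ht => by rw [hb' t (mem_filter.1 ht).2]
  have e2 : ∑ t ∈ univ.filter fun t => ¬ a t ≠ a' t, e t (s (t, a t)) =
      ∑ t ∈ univ.filter fun t => ¬ a t ≠ a' t, e t (s (t, a' t)) :=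
    sum_congr rfl fun t ht => by rw [not_not.1 (mem_filter.1 ht).2]
  rw [e1, ← sum_filter_add_sum_filter_not univ (fun t => a t ≠ a' t),
    ← sum_filter_add_sum_filter_not univ (fun t => a t ≠ a' t) fun t => e t (s (t, a' t)), e2,
    add_left_inj]

lemma rho {k : ℕ} {ρ : ℝ} (h0 : 0 ≤ ρ) (h1 : k * ρ ≤ 1) (a : L → Fin k) :
    ∑ a' : L → Fin k, ∏ t, (if a t ≠ a' t then ρ else 1) ≤ 2 ^ Fintype.card L := by
  rw [← Fintype.piFinset_univ,
    ← prod_univ_sum (fun _ => univ) fun t (b : Fin k) => if a t ≠ b then ρ else (1 : ℝ),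
    ← card_univ, ← prod_const]
  refine prod_le_prod (fun t _ => sum_nonneg fun b _ => by split_ifs <;> linarith) fun t _ => ?_
  calc ∑ b : Fin k, (if a t ≠ b then ρ else (1 : ℝ))
      ≤ ∑ b : Fin k, (ρ + if a t = b then 1 else 0) :=
        sum_le_sum fun b _ => by by_cases h : a t = b <;> simp [h, h0]
    _ ≤ 2 := by
        rw [sum_add_distrib, sum_ite_eq]
        simp
        linarith

end EnL

open EnL in
theorem en : EnS := by
  intro A I T _ _ _ _ _ k π e C ρ δ Gd h hC hρ hδ hk hkρ hc hN hG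
  have cN : (Fintype.card (T → Fin k) : ℝ) = (k : ℝ) ^ Fintype.card T := by simp
  have N0 : (0 : ℝ) < (k : ℝ) ^ Fintype.card T := pow_pos (by exact_mod_cast hk) _
  generalize (k : ℝ) ^ Fintype.card T = N at *
  have A0 : (0 : ℝ) < Fintype.card A := by exact_mod_cast Fintype.card_pos
  let gd : (T × Fin k → I) → ℝ := fun s => cnt fun a : T → Fin k => Gd fun t => s (t, a t)
  let eg : (T × Fin k → I) → ℝ := fun s => cnt fun p : (T → Fin k) × (T → Fin k) =>
    ∑ t, e t (s (t, p.1 t)) = ∑ t, e t (s (t, p.2 t))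
  have h1 : δ * N ≤ ∑ s, wt π s * gd s := by
    simp only [gd, cnt, mul_sum]
    rw [sum_comm, ← cN, mul_comm, ← card_univ, ← nsmul_eq_mul, ← sum_const]
    refine sum_le_sum fun a _ => hG.trans (le_of_eq ?_)
    exact (marg h (fun t => (t, a t)) (fun t u e => (Prod.mk.inj e).1) fun J => oi (Gd J)).symm
  have h2 : ∑ s, wt π s * eg s ≤ (C + 1) * N ^ 2 / Fintype.card A := by
    simp only [eg, cnt, mul_sum]
    rw [sum_comm]
    refine (sum_le_sum fun p _ => col h e hC hc p.1 p.2).trans ?_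
    rw [Fintype.sum_prod_type]
    calc _ ≤ ∑ a : T → Fin k, (N * (C / Fintype.card A) + N / Fintype.card A) := by
          refine sum_le_sum fun a _ => ?_
          rw [sum_add_distrib, sum_const, card_univ, nsmul_eq_mul, cN]
          exact add_le_add le_rfl ((rho hρ hkρ a).trans ((le_div_iff₀ A0).2 hN))
      _ = _ := by
          rw [sum_const, card_univ, nsmul_eq_mul, cN]
          ring
  have E0 : 0 < (C + 1) * N ^ 2 / Fintype.card A := by positivity
  have e0 : 2 * (C + 1) / δ * N ^ 2 / Fintype.card A =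
      2 * ((C + 1) * N ^ 2 / Fintype.card A) / δ := by ring
  rw [e0]
  generalize (C + 1) * N ^ 2 / Fintype.card A = E at *
  have ne : (univ : Finset (T × Fin k → I)).Nonempty :=
    nonempty_of_sum_ne_zero (by rw [wt1 h]; exact one_ne_zero)
  obtain ⟨s, -, hs⟩ := exists_max_image univ (fun s => 2 * E * gd s - δ * N * eg s) ne
  have h3 : ∑ s', wt π s' * (2 * E * gd s' - δ * N * eg s') ≤ 2 * E * gd s - δ * N * eg s := by
    refine (sum_le_sum fun s' _ =>
      mul_le_mul_of_nonneg_left (hs s' (mem_univ _)) (wt0 h.1 s')).trans ?_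
    rw [← sum_mul, wt1 h, one_mul]
  have h4 : ∑ s', wt π s' * (2 * E * gd s' - δ * N * eg s') =
      2 * E * ∑ s', wt π s' * gd s' - δ * N * ∑ s', wt π s' * eg s' := by
    rw [mul_sum, mul_sum, ← sum_sub_distrib]
    exact sum_congr rfl fun _ _ => by ring
  have dN : 0 < δ * N := by positivity
  have h5 : E * (δ * N) ≤ 2 * E * gd s - δ * N * eg s := by
    have a1 := mul_le_mul_of_nonneg_left h1 E0.le
    have a2 := mul_le_mul_of_nonneg_left h2 dN.le
    linarith
  have g1 : gd s ≤ N := by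
    rw [← cN, ← card_univ, card_eq_sum_ones]
    push_cast
    exact sum_le_sum fun _ _ => oi1 _
  have g0 : 0 ≤ eg s := sum_nonneg fun _ _ => oi0 _
  refine ⟨fun t b => s (t, b), ?_, ?_⟩
  · change _ ≤ gd s
    have := mul_nonneg dN.le g0
    refine le_of_mul_le_mul_left ?_ E0
    linarith
  · change eg s ≤ _
    rw [le_div_iff₀ hδ]
    have a1 := mul_le_mul_of_nonneg_left g1 E0.le
    have a2 := mul_pos E0 dN
    refine le_of_mul_le_mul_left ?_ N0
    linarith

end Pool.Agent.MP_154433_an.T7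

end
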