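import Pool.Agent.MP_154433_an.t7.SpecE

/-! The factor of one slot is invariant and contains the almost invariant sets. -/

set_option autoImplicit false
set_option linter.unusedVariables false

open MeasureTheory Filter
open scoped ComplexConjugate

noncomputable section

namespace Pool.Agent.MP_154433_an.T7

open T4S (Gm Act)

namespace FacL

variable {X : Type} [m0 : MeasurableSpace X] {μ : Measure X} {l : ℕ} {A : Gm l → X → X}
  {a b : Gm l}

lemma gen {φ : X → ℝ} (hφ : (fun x => (φ x : ℂ)) ∈ AA μ A a b) : Measurable[BB μ A a b] φ :=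
  measurable_iff_comap_le.2 (le_iSup₂ (f := fun φ (_ : φ ∈ {φ : X → ℝ |
    (fun x => (φ x : ℂ)) ∈ AA μ A a b}) => MeasurableSpace.comap φ inferInstance) φ hφ)

lemma re (h : AlgX μ A a b) {D : X → ℂ} (hD : D ∈ AA μ A a b) :
    (fun x => (((D x).re : ℝ) : ℂ)) ∈ AA μ A a b := by
  have e : (fun x => (((D x).re : ℝ) : ℂ)) = fun x => 2⁻¹ * (D x + conj (D x)) := by
    funext x
    rw [Complex.add_conj]
    push_cast
    ring
  rw [e]
  exact h.mul _ (h.const _) _ (h.add _ hD _ (h.cj _ hD))

lemma tz (h : AlgX μ A a b) (v : Gm l) : Measurable[BB μ A a b, BB μ A a b] (A v) := by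
  refine measurable_iff_comap_le.2 ?_
  conv_lhs => rw [BB]
  simp only [MeasurableSpace.comap_iSup, MeasurableSpace.comap_comp]
  exact iSup₂_le fun φ hφ => measurable_iff_comap_le.1 (gen (h.tz _ hφ v))

end FacL

theorem fac (hAlg : AlgS) : FacS := by
  intro l X m0 μ _ A hA a b
  have h := hAlg l X μ A hA a b
  refine ⟨⟨iSup₂_le fun φ hφ => measurable_iff_comap_le.1 ?_, fun v S hS => FacL.tz h v hS⟩,
    fun D hD => ?_, fun u hu S hS hI => ?_⟩
  · simpa [Function.comp_def] using Complex.measurable_re.comp hφ.1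
  · have h1 := FacL.gen (FacL.re h hD)
    have h2 : Measurable[BB μ A a b] fun x => (D x).im := by
      simpa using FacL.gen (FacL.re h (h.mul _ (h.const (-Complex.I)) _ hD))
    rw [show D = fun x => (((D x).re : ℝ) : ℂ) + (((D x).im : ℝ) : ℂ) * Complex.I from
      funext fun x => (Complex.re_add_im _).symm]
    let _ : MeasurableSpace X := BB μ A a b
    exact (Complex.measurable_ofReal.comp h1).add
      ((Complex.measurable_ofReal.comp h2).mul_const _)
  · have hi : (fun x => ((S.indicator (fun _ => (1 : ℝ)) (A u x) : ℝ) : ℂ)) =ᵐ[μ]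
        fun x => ((S.indicator (fun _ => (1 : ℝ)) x : ℝ) : ℂ) := by
      refine Eventually.mono (eventuallyEq_set.1 hI) fun x hx => ?_
      have hx' : A u x ∈ S ↔ x ∈ S := hx
      by_cases hxS : x ∈ S <;> simp [hx', hxS]
    have hφ := h.inv (fun x => ((S.indicator (fun _ => (1 : ℝ)) x : ℝ) : ℂ))
      ⟨Complex.measurable_ofReal.comp (measurable_const.indicator hS), fun x => by
        by_cases hx : x ∈ S <;> simp [hx]⟩ (by
        rcases hu with rfl | rfl
        exacts [Or.inl hi, Or.inr hi])
    have e : S = S.indicator (fun _ => (1 : ℝ)) ⁻¹' {1} := by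
      ext x
      by_cases hx : x ∈ S <;> simp [hx]
    rw [e]
    exact FacL.gen hφ (measurableSet_singleton 1)

end Pool.Agent.MP_154433_an.T7

end
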