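import Pool.Agent.MP_154433_an.t7.SpecF

/-! The finite part for pairs: the outer and the inner removal loops are glued. -/

set_option autoImplicit false

open Finset
open scoped BigOperators

noncomputable section

namespace Pool.Agent.MP_154433_an.T7

namespace FinL

theorem ok_mono {S : St} {π : S.I → ℝ} {B η η' C : ℝ} {t k : ℕ} (h : S.Ok π B η C t k)
    (hη : η ≤ η') : S.Ok π B η' C t k :=
  ⟨h.1, fun z hz => h.2.1 z (hη.trans hz), h.2.2⟩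

theorem b2_tw {S : St} {c : S.A → S.I → ℂ} (h : B2 c) (φ : S.A → S.Θ) : B2 (S.tw φ c) :=
  fun y i => by
    rw [St.tw, norm_mul, AddChar.norm_apply, one_mul]
    exact h y i

theorem size {k x Ca Cb Cg : ℝ} (e1 e2 : ℕ) (hk : 1 ≤ k) (hx : 1 ≤ x) (ha : 0 ≤ Ca)
    (hb : 0 ≤ Cb) (hg : 0 ≤ Cg) :
    Cg * (k * (x + Ca * (k * x ^ e1))) + x + Cb * (k * x ^ e2) ≤
      (Cg * (1 + Ca) + 1 + Cb) * (k ^ 2 * x ^ (e1 + e2 + 1)) := by
  have h0 : x ≤ x ^ (e1 + e2 + 1) := le_self_pow₀ hx (by omega)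
  have h1 : x ^ e1 ≤ x ^ (e1 + e2 + 1) := pow_le_pow_right₀ hx (by omega)
  have h2 : x ^ e2 ≤ x ^ (e1 + e2 + 1) := pow_le_pow_right₀ hx (by omega)
  have hk2 : k ≤ k ^ 2 := le_self_pow₀ hk (by omega)
  generalize x ^ (e1 + e2 + 1) = y at *
  have p1 : 0 ≤ x ^ e1 := by positivity
  have p2 : 0 ≤ x ^ e2 := by positivity
  have a0 : k * x ≤ k ^ 2 * y := by gcongr
  have a1 : k ^ 2 * x ^ e1 ≤ k ^ 2 * y := by gcongr
  have a2 : k * x ^ e2 ≤ k ^ 2 * y := by gcongr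
  have a3 : x ≤ k * x := le_mul_of_one_le_left (by linarith) hk
  have b1 := mul_le_mul_of_nonneg_left a0 hg
  have b2 := mul_le_mul_of_nonneg_left a1 (mul_nonneg hg ha)
  have b3 := mul_le_mul_of_nonneg_left a2 hb
  nlinarith

end FinL

open FinL in
theorem fin (hPred : PredS) (hSt : StS) (hCsg : CsgS) (hGam : GamS) (hLoop : LoopS)
    (hRefl : ReflS) : FinS := by
  classical
  intro δ B C1 r hδ hC1
  obtain ⟨η1, hη1, h1⟩ := hPred ((δ / 16) ^ 2 / 2) (by positivity) B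
  obtain ⟨δ1, Ca, e1, hδ1, hCa, h1⟩ := h1 C1 r hC1
  obtain ⟨δ', Cg, hδ', hCg, hG⟩ := hGam ((δ / 16) ^ 2 / 2 * δ1) (by positivity) r
  obtain ⟨η2, hη2, h2⟩ := hPred (δ * δ' / 2 / 16) (by positivity) B
  obtain ⟨δ2, Cb, e2, hδ2, hCb, h2⟩ := h2 C1 r hC1
  refine ⟨min η1 η2, δ * δ' / 2 * δ2 / 2, Cg * (1 + Ca) + 1 + Cb, e1 + e2 + 1, lt_min hη1 hη2,
    by positivity, by positivity, fun S x k0 hx hk hn => ?_⟩
  have hx0 : 0 ≤ x := zero_le_one.trans hx.1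
  obtain ⟨H1, c1, p1⟩ := h1 S x (fun _ _ => 1) k0 hx (fun _ _ => by simp) hk hn
  obtain ⟨Q, cQ, pQ⟩ := hG S x _ H1 k0 hx (by positivity) c1 hk hn
  have hb : ∀ p : (S.A → S.Θ) × S.A, B2 fun y i => S.χ i (p.1 (p.2 - y)) :=
    fun p y i => (AddChar.norm_apply _ _).le
  choose H cH pH using fun p : (S.A → S.Θ) × S.A => h2 S x _ k0 hx (hb p) hk hn
  refine ⟨(Q ×ˢ univ).biUnion fun p => (H p).image fun φ => S.tw φ fun y i => S.χ i (p.1 (p.2 - y)),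
    fun c hc => ?_, ?_, fun π π' o o' hop => ?_⟩
  · obtain ⟨p, -, hc⟩ := mem_biUnion.1 hc
    obtain ⟨φ, -, rfl⟩ := mem_image.1 hc
    exact b2_tw (hb p) φ
  · refine le_trans ?_ (Real.exp_le_exp.2 (size e1 e2 (by exact_mod_cast hk) hx.1 hCa hCb hCg))
    refine (Nat.cast_le.2 card_biUnion_le).trans ?_
    rw [Nat.cast_sum, Real.exp_add, Real.exp_add]
    refine (sum_le_card_nsmul _ _ _ fun p _ => (Nat.cast_le.2 card_image_le).trans (cH p)).trans ?_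
    rw [nsmul_eq_mul, card_product, Nat.cast_mul, card_univ]
    gcongr
    exact hx.2.1
  · have pg : ∀ π, S.Ok π B (min η1 η2) C1 (2 ^ r) k0 → S.PredG π Q (δ / 16) δ' := by
      intro π o G E ξ γ U hG hE hl
      obtain ⟨ψ, hψ, he⟩ := hCsg S π H1 (δ / 16) δ1 o.1 (by positivity) hδ1
        (p1 π (ok_mono o (min_le_left _ _))) G E ξ γ U hG hE hl
      exact pQ ψ U γ hψ he
    have e : δ = 8 * (δ / 16) + δ * δ' / 2 / δ' := by field_simp; ring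
    intro G u ξ γ hG hu
    conv_rhs => rw [e]
    refine hLoop S π π' Q _ δ' _ (by positivity) hδ' (by positivity) (pg π o) (pg π' o')
      (fun ψ hψ => hRefl S _ ψ _ fun a φ => ?_) G u ξ γ hG hu
    have e2 : δ * δ' / 2 = 8 * (δ * δ' / 2 / 16) + δ * δ' / 2 * δ2 / 2 / δ2 := by
      field_simp; ring
    rw [e2]
    exact hSt S π π' _ (H (ψ, a)) _ δ2 _ (by positivity) hδ2 (by positivity)
      (pH _ π (ok_mono o (min_le_right _ _))) (pH _ π' (ok_mono o' (min_le_right _ _)))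
      (fun φ' hφ' => hop _ (mem_biUnion.2 ⟨(ψ, a), mem_product.2 ⟨hψ, mem_univ _⟩,
        mem_image_of_mem _ hφ'⟩)) φ

end Pool.Agent.MP_154433_an.T7

end
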