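import Pool.Agent.MP_154433_an.t7.SpecE
import Pool.Agent.MP_154433_an.p4.A8

/-! Row `ForP`: the compact step in the slots that do not own the direction. -/

set_option autoImplicit false
set_option linter.unusedVariables false
set_option linter.unusedSectionVars false

open MeasureTheory ProbabilityTheory Filter Topology Function Finset ComplexConjugate
open scoped BigOperators
open Fib27 (BM)

noncomputable section

namespace T4x

open T3x GfL

variable [Grp]

theorem forP (F : Fd) (G : GfP) (hV : VanP) : ForP := by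
  intro ν ν' X ι _ _ r A B O i0 u hu hX hA hB hBA hg
  have ex : ∀ i, ∃ Z p, Pair X (A i) Z p := fun i =>
    F.rp Bool (fun _ => X) X (A i) (fun _ => id) false (fun _ => hX) (hA i)
      (fun _ => (F.t.emb_id X).mp) fun _ _ _ _ => EventuallyEq.rfl
  choose Z p hp using ex
  have st : ∀ i c, BM X.μ (A i) c → Star (p i) (fun _ => 1) c c := fun i c hc => by
    have e := (hp i).emb
    simp only [Star, one_mul]
    exact ((condExp_congr_ae (F.a.keq_fun (A i) (Z i).μ X.μ _ _ c (e true).mp (e false).mp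
      ((hp i).com true) hc.1)).trans (BM.ce_self (F.t.fpull _ X _ X.ms (e false) (F.t.top X)).le
        (F.a.bm_comp X.ms (Z i).μ X.μ _ c (e false).mp (hc.mono (hA i).le)))).symm
  refine G.dense ν ν' X ι r _ (fun i => {k | BM X.μ X.ms k ∧ (i = i0 → BM X.μ (A i) k) ∧
    ∃ H g, BM (Z i).μ (Inv (Z i) {u}) H ∧ BM X.μ X.ms g ∧ Star (p i) H g k}) (fun i => ?_)
    (fun _ _ h => h.1) (fun i k hk ε hε => ?_) fun f hf => ?_
  · rcases eq_or_ne i i0 with rfl | e
    · rw [update_self]
      exact (hA i).le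
    · rw [update_of_ne e]
      exact (F.kb.fac X u _ hX (hA i)).le
  · rcases eq_or_ne i i0 with rfl | e
    · rw [update_self] at hk
      have hk' := hk.mono (hA i).le
      exact ⟨1, fun _ => k, fun _ => ⟨hk', fun _ => hk, _, k, BM.const 1, hk', st i k hk⟩,
        by simpa using hε.le⟩
    · rw [update_of_ne e] at hk
      obtain ⟨n, H, g, k', h1, h2⟩ := F.kb.span X u _ _ _ hX (hA i) (hp i) k hk ε hε
      exact ⟨n, k', fun j => ⟨(h1 j).2.2.1, fun h => absurd h e, _, _, (h1 j).1, (h1 j).2.1,
        (h1 j).2.2.2⟩, h2⟩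
  · have b : ∀ i, BM X.μ X.ms (f i) := fun i => (hf i).1
    have hE := (b i0).ce B
    have hE' := hE.mono hB.fac.le
    have hd := ((hf i0).2.1 rfl).sub (hE.mono hBA)
    have b1 := bm_upd b i0 hE'
    have b2 := bm_upd b i0 (hd.mono (hA i0).le)
    have key : ∀ i, ∃ H g, (BM (Z i).μ (Inv (Z i) {u}) H ∧ BM X.μ X.ms g ∧ BM X.μ X.ms
        (update f i0 (fun x => f i0 x - (X.μ[f i0 | B]) x) i) ∧ Star (p i) H g
        (update f i0 (fun x => f i0 x - (X.μ[f i0 | B]) x) i)) ∧
        (i = i0 → X.μ[g | B] =ᵐ[X.μ] 0) := fun i => by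
      rcases eq_or_ne i i0 with rfl | e
      · rw [update_self]
        refine ⟨_, _, ⟨BM.const 1, (b i).sub hE', (b i).sub hE', st i _ hd⟩, fun _ => ?_⟩
        filter_upwards [condExp_sub (b i).integrable hE'.integrable B, BM.ce_self hB.fac.le hE]
          with x x1 x2
        exact x1.trans (by rw [Pi.sub_apply, x2, sub_self]; rfl)
      · obtain ⟨H, g, a1, a2, a3⟩ := (hf i).2.2
        rw [update_of_ne e]
        exact ⟨H, g, ⟨a1, a2, b i, a3⟩, fun h => absurd h e⟩
    choose H g a1 a2 using key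
    have s1 := hB.good (update f i0 (X.μ[f i0 | B])) fun i => by
      rcases eq_or_ne i i0 with rfl | e
      · rwa [update_self, update_self]
      · rw [update_of_ne e, update_of_ne e]
        exact b i
    have s2 := sm_of (hV ν' ν X ι r A B O i0 Z p u hu hA hp hg hB.g0 H g _ a1 (a2 i0 rfl))
      (hV ν' ν' X ι r A B O i0 Z p u hu hA hp (fun _ _ => by simp) hB.g0 H g _ a1 (a2 i0 rfl))
      fun M => n2_sub (bm_avg F.t b2 M) (bm_avg F.t b2 M)
    refine sm_of s1 s2 fun M => le_trans (le_of_eq ?_) (n2_add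
      ((bm_avg F.t b1 M).sub (bm_avg F.t b1 M)) ((bm_avg F.t b2 M).sub (bm_avg F.t b2 M)))
    refine integral_congr_ae (Eventually.of_forall fun x => ?_)
    have e := fun ν => avg_split (ν := ν) (r := r) (f := f) i0 (fun _ : Fin 1 => X.μ[f i0 | B]) M x
    simp only [Fin.sum_univ_one] at e
    simp only [e ν, e ν']
    congr 2
    ring

end T4x

end
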