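import Pool.Agent.MP_154433_an.t7.SpecF

/-! Row Gam: the increments predict the function on many points. -/

set_option autoImplicit false
set_option linter.unusedVariables false

open Finset
open scoped BigOperators

noncomputable section

namespace Pool.Agent.MP_154433_an.T7

namespace GamL

theorem fib {A G : Type} [AddCommGroup A] [Fintype A] [AddCommGroup G] [Fintype G] (f : G → A)
    (hf : ∀ J K, f (J + K) = f J + f K) (hs : ∀ b, ∃ K, f K = b) (c : A) :
    (Fintype.card A : ℝ) * ∑ J, oi (c = f J) = Fintype.card G := by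
  classical
  have h1 : ∀ b : A, ∑ J, oi (b = f J) = ∑ J, oi (c = f J) := fun b => by
    obtain ⟨K, hK⟩ := hs (b - c)
    refine (Fintype.sum_equiv (Equiv.addRight K) _ _ fun J => ?_).symm
    congr 1
    rw [Equiv.coe_addRight, hf, hK]
    exact propext ⟨fun h => by rw [← h]; abel, fun h => by
      have : c + b = c + (f J + (b - c)) := by rw [← h]
      have h2 : c + (f J + (b - c)) = f J + b := by abel
      exact add_right_cancel (this.trans h2)⟩
  have h2 : ∑ b : A, ∑ J, oi (b = f J) = Fintype.card G := by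
    rw [sum_comm]
    simp [oi]
  rw [← h2, sum_congr rfl fun b _ => h1 b]
  simp

theorem wt_unif {A T : Type} [Fintype A] [Fintype T] [DecidableEq T] (J : T → A) :
    wt (fun _ : A => ((Fintype.card A : ℝ))⁻¹) J = ((Fintype.card (T → A) : ℝ))⁻¹ := by
  simp [wt]

theorem col {A T : Type} [AddCommGroup A] [Fintype A] [Fintype T] [DecidableEq T]
    (e : T → A → A) (he : ∀ t, e t = (fun a => a) ∨ e t = fun a => -a) :
    Col (fun _ : A => ((Fintype.card A : ℝ))⁻¹) e 1 0 := by
  intro F ⟨t0, ht0⟩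
  have hA : (0 : ℝ) < Fintype.card A := by exact_mod_cast Fintype.card_pos
  have hG : (0 : ℝ) < Fintype.card (T → A) := by exact_mod_cast Fintype.card_pos
  have hadd : ∀ t a b, e t (a + b) = e t a + e t b := fun t a b => by
    rcases he t with h | h <;> rw [h]
    exact neg_add a b
  have h0 : ∀ t, e t 0 = 0 := fun t => by rcases he t with h | h <;> simp [h]
  have hee : ∀ t a, e t (e t a) = a := fun t a => by rcases he t with h | h <;> simp [h]
  have key : ∀ c : A, ∑ J : T → A, oi (c = ∑ t ∈ F, e t (J t)) =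
      Fintype.card (T → A) / Fintype.card A := fun c => by
    rw [eq_div_iff hA.ne', mul_comm]
    refine fib (fun J : T → A => ∑ t ∈ F, e t (J t)) (fun J K => ?_) (fun b => ?_) c
    · simp only [Pi.add_apply, hadd, sum_add_distrib]
    · refine ⟨Pi.single t0 (e t0 b), ?_⟩
      rw [sum_eq_single_of_mem t0 ht0 fun t _ ht => by rw [Pi.single_eq_of_ne ht, h0]]
      rw [Pi.single_eq_same, hee]
  simp only [wt_unif, ← mul_sum, key]
  rw [sum_const, card_univ, nsmul_eq_mul, zero_pow (card_pos.2 ⟨t0, ht0⟩).ne', add_zero]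
  apply le_of_eq
  field_simp

end GamL

theorem gam (hWalk : WalkS) (hWrap : WrapS) : GamS := by
  classical
  intro δ hδ r
  obtain ⟨δ', m, hδ', hm, hW⟩ := hWrap (δ ^ 2 ^ r) 1 (by positivity) zero_le_one
  refine ⟨δ', 2 + m + 2 * 2 ^ r, hδ', by positivity, ?_⟩
  intro S x y 𝓗 k0 hx hy hH hk hk2
  obtain ⟨T, _, _, e, Δ, hT, he, hΔ⟩ := hWalk r S.A S.Θ
  obtain ⟨pop, hpop⟩ := hW S.A S.Θ T k0 hk (by rw [hT]; exact hk2)
  let F : S.A × S.Θ × Fin m × (T → Fin k0 → S.A × S.A × 𝓗) → S.A → S.Θ := fun p =>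
    pop p.2.2.1 fun a => (p.1 + ∑ t, e t (p.2.2.2 t (a t)).1,
      p.2.1 + Δ (fun t => (p.2.2.2 t (a t)).1)
        (fun t z => (p.2.2.2 t (a t)).2.2.1 (z - (p.2.2.2 t (a t)).2.1)) p.1)
  have hA : (0 : ℝ) < Fintype.card S.A := by exact_mod_cast Fintype.card_pos
  refine ⟨univ.image F, ?_, fun ψ U γ hψ hE => ?_⟩
  · obtain ⟨h1, h2, -, h3⟩ := hx
    have hk' : (1 : ℝ) ≤ k0 := by exact_mod_cast hk
    have hc : ((univ.image F).card : ℝ) ≤ (Fintype.card S.A : ℝ) * (Fintype.card S.Θ * (m *
        ((Fintype.card S.A * (Fintype.card S.A * 𝓗.card)) ^ k0) ^ 2 ^ r)) := by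
      have := card_image_le (s := univ) (f := F)
      rw [card_univ] at this
      simp only [Fintype.card_prod, Fintype.card_pi, prod_const, card_univ, Fintype.card_fin,
        Fintype.card_coe, hT] at this
      exact_mod_cast this
    have hm' : (m : ℝ) ≤ Real.exp m := by linarith [Real.add_one_le_exp (m : ℝ)]
    refine hc.trans ?_
    calc _ ≤ Real.exp x * (Real.exp x * (Real.exp m *
          ((Real.exp x * (Real.exp x * Real.exp y)) ^ k0) ^ 2 ^ r)) := by gcongr
      _ = Real.exp (x + (x + (m + (2 ^ r : ℕ) * (k0 * (x + (x + y)))))) := by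
          rw [← Real.exp_add, ← Real.exp_add, ← Real.exp_nat_mul, ← Real.exp_nat_mul,
            ← Real.exp_add, ← Real.exp_add, ← Real.exp_add]
      _ ≤ _ := by
          refine Real.exp_le_exp.2 ?_
          push_cast
          have a1 : x ≤ k0 * (x + y) := by nlinarith
          have a2 : (m : ℝ) ≤ m * (k0 * (x + y)) :=
            le_mul_of_one_le_right (Nat.cast_nonneg m) (h1.trans a1)
          have a3 : (2 : ℝ) ^ r * (k0 * (x + (x + y))) ≤ 2 ^ r * (2 * (k0 * (x + y))) :=
            mul_le_mul_of_nonneg_left (by nlinarith) (by positivity)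
          nlinarith
  · choose a φ hφ hψ using hψ
    have h1 := hΔ ψ U γ δ hδ.le hE
    have hG : (0 : ℝ) < Fintype.card (T → S.A) := by exact_mod_cast Fintype.card_pos
    rw [cnt, Fintype.sum_prod_type] at h1
    obtain ⟨w, -, hw⟩ := exists_le_of_sum_le (s := univ) univ_nonempty
      (f := fun _ : S.A => δ ^ 2 ^ r * (Fintype.card (T → S.A) : ℝ)) (le_of_eq_of_le (by
        rw [sum_const, card_univ, nsmul_eq_mul]; ring) h1)
    obtain ⟨s, u, hs⟩ := hpop S.A (fun _ => ((Fintype.card S.A : ℝ))⁻¹) e 0 w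
      (fun J => γ w + Δ J (fun t => ψ (J t)) w) U γ
      ⟨fun _ => by positivity, by simp⟩ le_rfl (by simp) (GamL.col e he) (by
        simp only [GamL.wt_unif, ← mul_sum]
        rw [← div_eq_inv_mul, le_div_iff₀ hG]
        simpa only [sub_eq_iff_eq_add'] using hw)
    refine ⟨F (w, γ w, u, fun t j => (s t j, a (s t j), ⟨φ (s t j), hφ _⟩)),
      mem_image_of_mem _ (mem_univ _), ?_⟩
    obtain rfl : ψ = fun h z => φ h (z - a h) := funext hψ
    exact hs

end Pool.Agent.MP_154433_an.T7

end
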