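import Pool.Agent.MP_154433_an.t7.SpecE

/-! Row Gcs: the box functional in two directions decreases under conditional expectation. -/

set_option autoImplicit false
set_option linter.unusedVariables false
set_option warn.classDefReducibility false

noncomputable section

namespace Pool.Agent.MP_154433_an.T7

open MeasureTheory ProbabilityTheory Filter Topology Function Finset
open scoped BigOperators ComplexConjugate
open T3S (B1 MB1 meas_exp norm_exp_le_of integral_exp re_exp)
open T4S (Gm Act QX ln ddX)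

namespace GcsL

variable {X : Type} {C : MeasurableSpace X} [m0 : MeasurableSpace X] {μ : Measure X}
  [IsProbabilityMeasure μ] {l : ℕ} {A : Gm l → X → X} {I J : Type} [Fintype I] [Fintype J]

omit m0 in
def tm (A : Gm l → X → X) (a : I → Gm l) (b : J → Gm l) (g k : X → ℂ) (i i' : I) (j j' : J)
    (x : X) : ℂ := g (A (a i' + b j') x) * conj (g (A (a i + b j') x)) *
  conj (g (A (a i' + b j) x)) * k (A (a i + b j) x)

omit m0 in
def bx (A : Gm l → X → X) (a : I → Gm l) (b : J → Gm l) (g k : X → ℂ) (x : X) : ℂ :=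
  𝔼 i, 𝔼 i', 𝔼 j, 𝔼 j', tm A a b g k i i' j j' x

lemma mb_exp {ι : Type} [Fintype ι] {f : ι → X → ℂ} (h : ∀ i, MB1 (f i)) :
    MB1 fun x => 𝔼 i, f i x :=
  ⟨meas_exp _ fun i _ => (h i).1, fun x => norm_exp_le_of zero_le_one fun i _ => (h i).2 x⟩

omit [Fintype I] [Fintype J] [IsProbabilityMeasure μ] in
lemma tm_mb (hA : Act μ A) (a : I → Gm l) (b : J → Gm l) {g k : X → ℂ} (hg : MB1 g) (hk : MB1 k)
    (i i' : I) (j j' : J) : MB1 (tm A a b g k i i' j j') :=
  (((hA.tz hg _).mul (hA.tz hg _).cj).mul (hA.tz hg _).cj).mul (hA.tz hk _)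

lemma bx_int (hA : Act μ A) (a : I → Gm l) (b : J → Gm l) {g k : X → ℂ} (hg : MB1 g)
    (hk : MB1 k) : Integrable (fun x => (bx A a b g k x).re) μ ∧ ∫ x, (bx A a b g k x).re ∂μ =
      𝔼 i, 𝔼 i', 𝔼 j, 𝔼 j', (∫ x, tm A a b g k i i' j j' x ∂μ).re := by
  have h0 := tm_mb hA a b hg hk
  have h1 := fun i i' j => mb_exp (h0 i i' j)
  have h2 := fun i i' => mb_exp (h1 i i')
  have h3 := fun i => mb_exp (h2 i)
  have h4 : Integrable (bx A a b g k) μ := (mb_exp h3).integrable μ
  refine ⟨h4.re, (integral_re h4).trans ?_⟩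
  unfold bx
  rw [integral_exp _ fun i _ => (h3 i).integrable μ]
  simp only [integral_exp _ fun i' _ => (h2 _ i').integrable μ,
    integral_exp _ fun j _ => (h1 _ _ j).integrable μ,
    integral_exp _ fun j' _ => (h0 _ _ _ j').integrable μ, RCLike.re_to_complex, re_exp]

omit [Fintype I] [Fintype J] [IsProbabilityMeasure μ] in
lemma tm_dd (hA : Act μ A) (a : I → Gm l) (b : J → Gm l) {g : X → ℂ} (hg : MB1 g)
    (i i' : I) (j j' : J) : ∫ x, ddX A (b j' - b j) (ddX A (a i' - a i) g) x ∂μ =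
      ∫ x, tm A a b g g i i' j j' x ∂μ := by
  rw [← hA.integral (a i + b j) (hA.dd (hA.dd hg _) _).1.aestronglyMeasurable]
  refine integral_congr_ae (Eventually.of_forall fun x => ?_)
  simp only [ddX, tm, ← hA.add, map_mul, RCLike.conj_conj]
  rw [show a i' - a i + (b j' - b j + (a i + b j)) = a i' + b j' by abel,
    show b j' - b j + (a i + b j) = a i + b j' by abel,
    show a i' - a i + (a i + b j) = a i' + b j by abel]
  ring

omit [Fintype I] [Fintype J] in
lemma tm_ce (hA : Act μ A) (hC : Sub C m0 A) (a : I → Gm l) (b : J → Gm l) {h c : X → ℂ}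
    (hh : MB1 h) (hc : MB1 c) (e : c =ᵐ[μ] μ[h | C]) (i i' : I) (j j' : J) :
    ∫ x, tm A a b c c i i' j j' x ∂μ = ∫ x, tm A a b c h i i' j j' x ∂μ := by
  have bm : ∀ v, Fib27.BM μ C fun x => c (A v x) := fun v =>
    ⟨⟨fun x => (μ[h | C]) (A v x), stronglyMeasurable_condExp.comp_measurable
      (fun S hS => hC.2 v S hS), (hA.mp v).quasiMeasurePreserving.ae_eq_comp e⟩, 1,
      Eventually.of_forall fun x => hc.2 _⟩
  have sh : ∀ k : X → ℂ, MB1 k → ∫ x, tm A a b c k i i' j j' x ∂μ =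
      ∫ x, c (A (a i' + b j' - (a i + b j)) x) * conj (c (A (a i + b j' - (a i + b j)) x)) *
        conj (c (A (a i' + b j - (a i + b j)) x)) * k x ∂μ := fun k hk => by
    rw [← hA.integral (a i + b j) ((((hA.tz hc _).mul (hA.tz hc _).cj).mul
      (hA.tz hc _).cj).mul hk).1.aestronglyMeasurable]
    simp only [tm, ← hA.add, sub_add_cancel]
  rw [sh c hc, sh h hh, ← Fib27.int_mul_ce hC.1 (((bm _).mul (bm _).conj).mul (bm _).conj)
    ⟨hh.1.aestronglyMeasurable, 1, Eventually.of_forall hh.2⟩]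
  refine integral_congr_ae ?_
  filter_upwards [e] with x hx
  rw [hx]

end GcsL

open GcsL in
theorem gcs (hYg : YgS) : GcsS := by
  intro l X C m0 μ _ A hA hC u w L L' h c hh hc e
  have q : ∀ g : X → ℂ, MB1 g → QX μ A [ln u L, ln w L'] g =
      ∫ x, (bx A (ln u L).a (ln w L').a g g x).re ∂μ := fun g hg => by
    rw [(bx_int hA _ _ hg hg).2]
    simp only [QX, tm_dd hA _ _ hg]
  have q2 : ∫ x, (bx A (ln u L).a (ln w L').a c c x).re ∂μ =
      ∫ x, (bx A (ln u L).a (ln w L').a c h x).re ∂μ := by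
    rw [(bx_int hA _ _ hc hc).2, (bx_int hA _ _ hc hh).2]
    simp only [tm_ce hA hC _ _ hh hc e]
  have i1 := (bx_int hA (ln u L).a (ln w L').a hc hh).1
  have i2 := (bx_int hA (ln u L).a (ln w L').a hh hh).1
  have i3 := (bx_int hA (ln u L).a (ln w L').a hc hc).1
  have y := integral_mono (i1.const_mul 4) (i2.add (i3.const_mul 3)) fun x =>
    hYg _ _ (fun i j => h (A ((ln u L).a i + (ln w L').a j) x))
      fun i j => c (A ((ln u L).a i + (ln w L').a j) x)
  simp only [Pi.add_apply] at y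
  rw [integral_add i2 (i3.const_mul 3), integral_const_mul, integral_const_mul] at y
  rw [q c hc, q h hh]
  linarith

end Pool.Agent.MP_154433_an.T7

end
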