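import Pool.Agent.MP_154433_an.t7.SpecF

/-! Blocks of polynomial length. -/

open Filter Topology Finset

namespace Pool.Agent.MP_154433_an.T7

namespace GeoL

theorem dif (x : ℝ) (hx : 0 ≤ x) (g : ℕ) : (g + 1) * x ^ g ≤ (x + 1) ^ (g + 1) - x ^ (g + 1) ∧
    (x + 1) ^ (g + 1) - x ^ (g + 1) ≤ (g + 1) * (x + 1) ^ g := by
  induction g with
  | zero => simp
  | succ g ih =>
    have e : (x + 1) ^ (g + 1 + 1) - x ^ (g + 1 + 1) =
        (x + 1) * ((x + 1) ^ (g + 1) - x ^ (g + 1)) + x ^ (g + 1) := by ring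
    have h1 := mul_le_mul_of_nonneg_left ih.1 (show 0 ≤ x + 1 by linarith)
    have h2 := mul_le_mul_of_nonneg_left ih.2 (show 0 ≤ x + 1 by linarith)
    have h3 : x ^ (g + 1) ≤ (x + 1) ^ (g + 1) := by gcongr; linarith
    have h4 : 0 ≤ (g + 1 : ℝ) * x ^ g := by positivity
    have h5 : (x + 1) * ((g + 1) * x ^ g) = (g + 1) * x ^ (g + 1) + (g + 1) * x ^ g := by ring
    have h6 : (x + 1) * ((g + 1) * (x + 1) ^ g) = (g + 1) * (x + 1) ^ (g + 1) := by ring
    push_cast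
    constructor <;> linarith

theorem rat (g : ℕ) {η : ℝ} (hη : 0 < η) :
    ∀ᶠ j : ℕ in atTop, ((j : ℝ) + 2) ^ g ≤ (1 + η) * (j : ℝ) ^ g := by
  have h : Tendsto (fun j : ℕ => (1 + 2 / (j : ℝ)) ^ g) atTop (𝓝 ((1 + 0) ^ g)) :=
    (tendsto_const_nhds.add (tendsto_const_div_atTop_nhds_zero_nat 2)).pow g
  filter_upwards [h.eventually (ge_mem_nhds (show ((1 + 0) ^ g : ℝ) < 1 + η by simpa)),
    eventually_gt_atTop 0] with j hj h0
  have h0' : (0 : ℝ) < j := by exact_mod_cast h0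
  rw [show (j : ℝ) + 2 = (1 + 2 / j) * j by field_simp, mul_pow]
  gcongr

theorem len_eq (g j : ℕ) :
    (len (fun j => j ^ g) j : ℝ) = ((j : ℝ) + 1) ^ g - (j : ℝ) ^ g := by
  rw [len, Nat.cast_sub (Nat.pow_le_pow_left (Nat.le_succ j) g)]
  push_cast
  rfl

end GeoL

open GeoL in
theorem geo : GeoS := by
  rintro σ h0 hσ ⟨a, ha, ht⟩
  have b1 : max a 0 < 1 := max_lt ha one_pos
  obtain ⟨k, hk⟩ := exists_nat_ge (4 / (1 - max a 0))
  rw [div_le_iff₀ (by linarith)] at hk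
  have D := fun j : ℕ => dif j (Nat.cast_nonneg j) (k + 3)
  have L := len_eq (k + 3 + 1)
  have G0 : (2 : ℝ) ≤ ((k + 3 : ℕ) : ℝ) + 1 := by push_cast; linarith [Nat.cast_nonneg (α := ℝ) k]
  refine ⟨fun j => j ^ (k + 3 + 1), k + 3 + 1, ⟨by simp, Nat.pow_left_strictMono (by omega),
    fun η hη => ?_, fun η hη => ?_⟩, ?_⟩
  · filter_upwards [rat (k + 3) one_pos, tendsto_natCast_atTop_atTop.eventually_ge_atTop
      (2 * (((k + 3 : ℕ) : ℝ) + 1) / η)] with j h1 h2
    rw [div_le_iff₀ hη] at h2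
    have h3 : ((j : ℝ) + 1) ^ (k + 3) ≤ ((j : ℝ) + 2) ^ (k + 3) := by gcongr; norm_num
    have h4 : (0 : ℝ) ≤ (j : ℝ) ^ (k + 3) := by positivity
    rw [L, Nat.cast_pow]
    refine (D j).2.trans ((mul_le_mul_of_nonneg_left (h3.trans h1) (by linarith)).trans ?_)
    rw [pow_succ (j : ℝ) (k + 3)]
    nlinarith
  · filter_upwards [rat (k + 3) hη] with j h1
    rw [L, L]
    refine (D (j + 1)).2.trans (le_trans ?_ (mul_le_mul_of_nonneg_left (D j).1 (by linarith)))
    rw [Nat.cast_succ j, add_assoc, one_add_one_eq_two, mul_left_comm]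
    exact mul_le_mul_of_nonneg_left h1 (by linarith)
  · have tn : Tendsto (fun j : ℕ => (j + 1) ^ (k + 3 + 1)) atTop atTop :=
      (tendsto_pow_atTop (by omega)).comp (tendsto_add_atTop_nat 1)
    filter_upwards [rat k one_pos, tn.eventually (ht.eventually_ge_atTop 1),
      eventually_ge_atTop 2] with j h1 h2 h3
    have j2 : (2 : ℝ) ≤ j := by exact_mod_cast h3
    set s := σ ((j + 1) ^ (k + 3 + 1)) with hs
    have s0 : 0 ≤ s := h0 _
    have p1 : (((j + 1) ^ (k + 3 + 1) : ℕ) : ℝ) ^ a ≤ ((j : ℝ) + 2) ^ k := by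
      push_cast
      rw [← Real.rpow_natCast, ← Real.rpow_mul (by linarith), ← Real.rpow_natCast]
      refine (Real.rpow_le_rpow_of_exponent_le (by linarith) ?_).trans
        (Real.rpow_le_rpow (by linarith) (by linarith) (Nat.cast_nonneg k))
      push_cast
      nlinarith [le_max_left a 0, Nat.cast_nonneg (α := ℝ) k]
    have p2 : 1 ≤ 2 * (j : ℝ) ^ k * s :=
      h2.trans (mul_le_mul_of_nonneg_right (p1.trans (by linarith)) s0)
    have l1 : 2 * (j : ℝ) ^ (k + 3) ≤ len (fun j => j ^ (k + 3 + 1)) j := by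
      rw [L]
      exact (mul_le_mul_of_nonneg_right G0 (by positivity)).trans (D j).1
    have m1 : (len (fun j => j ^ (k + 3 + 1)) j : ℝ) * s ≤ mass σ (fun j => j ^ (k + 3 + 1)) j := by
      have := Finset.card_nsmul_le_sum univ (fun d : Fin (len (fun j => j ^ (k + 3 + 1)) j) =>
        σ (j ^ (k + 3 + 1) + d)) s fun d _ => hσ (by
          have h5 := d.2
          have h6 : j ^ (k + 3 + 1) ≤ (j + 1) ^ (k + 3 + 1) := Nat.pow_le_pow_left (by omega) _
          simp only [len] at h5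
          omega)
      simpa [mass] using this
    have m2 : (j : ℝ) ^ 2 ≤ mass σ (fun j => j ^ (k + 3 + 1)) j := by
      refine le_trans ?_ ((mul_le_mul_of_nonneg_right l1 s0).trans m1)
      have h5 : (j : ℝ) ^ 2 ≤ (j : ℝ) ^ 3 := pow_le_pow_right₀ (by linarith) (by norm_num)
      have h6 := mul_le_mul_of_nonneg_left p2 (show (0 : ℝ) ≤ (j : ℝ) ^ 3 by positivity)
      rw [pow_add]
      linarith
    refine ⟨?_, m2, ?_⟩
    · have h5 : (j : ℝ) ^ 1 ≤ (j : ℝ) ^ (k + 3) := pow_le_pow_right₀ (by linarith) (by omega)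
      exact_mod_cast (show (j : ℝ) ≤ _ by linarith : (j : ℝ) ≤ len (fun j => j ^ (k + 3 + 1)) j)
    · rw [L]
      refine (sub_le_self _ (by positivity)).trans ?_
      gcongr
      nlinarith

end Pool.Agent.MP_154433_an.T7
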