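import Pool.Agent.MP_154433_an.t7.SpecE
import Pool.Agent.MP_154433_an.t4.Gf

/-! Row GfP: good tuples of factors. -/

set_option autoImplicit false
set_option linter.unusedVariables false
set_option linter.unusedSectionVars false

open MeasureTheory ProbabilityTheory Filter Topology Function Finset ComplexConjugate
open scoped BigOperators
open Fib27 (BM)

noncomputable section

namespace T4x

open T3x GfL

variable [Grp]

namespace GfPL

variable {X : Sys} {ι : Type} [Fintype ι] [DecidableEq ι] {ν ν' : Wt} {r : ι → Γ}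

lemma dense (t : BasT) {C : ι → MeasurableSpace X.X} {T : ι → Set (X.X → ℂ)}
    (hC : ∀ i, C i ≤ X.ms) (hT : ∀ i, ∀ φ ∈ T i, BM X.μ X.ms φ)
    (h1 : ∀ i g, BM X.μ (C i) g → ∀ ε : ℝ, 0 < ε → ∃ (n : ℕ) (a : Fin n → X.X → ℂ),
      (∀ j, a j ∈ T i) ∧ ∫ x, ‖g x - ∑ j, a j x‖ ^ 2 ∂X.μ ≤ ε)
    (h2 : ∀ f : ι → X.X → ℂ, (∀ i, f i ∈ T i) →
      Sm X.μ fun M x => avg ν M X r f x - avg ν' M X r f x) : GoodP ν ν' X r C := by
  have key : ∀ (S : Finset ι) (f : ι → X.X → ℂ), (∀ i ∈ S, BM X.μ (C i) (f i)) →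
      (∀ i ∉ S, f i ∈ T i) → Sm X.μ fun M x => avg ν M X r f x - avg ν' M X r f x := by
    intro S
    induction S using Finset.induction_on with
    | empty => exact fun f _ h => h2 f fun i => h i (notMem_empty i)
    | insert i S hi ih =>
      intro f k1 k2
      have hf : ∀ j, BM X.μ X.ms (f j) := fun j =>
        (em _).elim (fun h => (k1 j h).mono (hC j)) fun h => hT _ _ (k2 j h)
      obtain ⟨K, hK, hc⟩ := contr (r := r) t hf i
      refine sm_apx fun ε hε => ?_
      obtain ⟨n, a, ha, hb⟩ := h1 i (f i) (k1 i (mem_insert_self _ _)) (ε / (4 * K))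
        (by positivity)
      have hd := (hf i).sub (bm_sum univ fun j _ => hT _ _ (ha j))
      have bm : ∀ j M, BM X.μ X.ms fun x => avg ν M X r (update f i (a j)) x -
          avg ν' M X r (update f i (a j)) x := fun j M =>
        (bm_avg t (bm_upd hf i (hT _ _ (ha j))) M).sub (bm_avg t (bm_upd hf i (hT _ _ (ha j))) M)
      refine ⟨_, fun M x => avg ν M X r (update f i fun y => f i y - ∑ j, a j y) x -
        avg ν' M X r (update f i fun y => f i y - ∑ j, a j y) x,
        sm_sum univ bm fun j => ih _ (fun k hk => ?_) fun k hk => ?_, fun M => ⟨bm_sum _ fun j _ =>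
          bm j M, (bm_avg t (bm_upd hf i hd) M).sub (bm_avg t (bm_upd hf i hd) M), ?_⟩,
        fun M x => ?_⟩
      · rw [update_of_ne (by rintro rfl; exact hi hk)]
        exact k1 k (mem_insert_of_mem hk)
      · rcases eq_or_ne k i with rfl | e
        · rw [update_self]; exact ha j
        · rw [update_of_ne e]; exact k2 k (by simp [e, hk])
      · have e1 := mul_le_mul_of_nonneg_left hb hK.le
        have e2 : K * (ε / (4 * K)) = ε / 4 := by field_simp
        linarith [n2_sub (bm_avg (ν := ν) (r := r) t (bm_upd hf i hd) M)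
          (bm_avg (ν := ν') (r := r) t (bm_upd hf i hd) M), hc ν M _ hd, hc ν' M _ hd]
      · rw [avg_split (ν := ν) i a, avg_split (ν := ν') i a, sum_sub_distrib]
        ring
  exact fun f hf => key univ f (fun i _ => hf i) fun i hi => absurd (mem_univ i) hi

end GfPL

theorem gfP (F : Fd) : GfP := by
  refine ⟨fun ν ν' X ι _ _ r A T hA hT h1 h2 => GfPL.dense F.t hA hT h1 h2,
    fun ν ν' X ι _ _ r B 𝒞 hB hne hch h => ?_⟩
  have hle : ∀ i, sSup 𝒞 ⊔ B i ≤ X.ms := fun i => sup_le (sSup_le fun C hC => (h C hC).1) (hB i)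
  refine GfPL.dense F.t (T := fun i => {φ | ∃ C ∈ 𝒞, BM X.μ (C ⊔ B i) φ}) hle
    (fun i φ ⟨C, hC, hφ⟩ => hφ.mono (sup_le (h C hC).1 (hB i))) (fun i g hg ε hε => ?_)
    fun f hf => ?_
  · have e : sSup ((fun C => C ⊔ B i) '' 𝒞) = sSup 𝒞 ⊔ B i := by
      rw [sSup_image, sSup_eq_iSup, biSup_sup hne]
    obtain ⟨_, ⟨C, hC, rfl⟩, k⟩ := F.d.chain ((fun C => C ⊔ B i) '' 𝒞) X.μ (hne.image _)
      (hch.directedOn.mono_comp fun _ _ q => sup_le_sup_right q _)
      (by rintro _ ⟨C, hC, rfl⟩; exact sup_le (h C hC).1 (hB i)) g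
      ((hg.mono (hle i)).memLp 2) ε hε
    refine ⟨1, fun _ => X.μ[g | C ⊔ B i], fun _ => ⟨C, hC, hg.ce _⟩, le_trans (le_of_eq ?_)
      (k _ ⟨C, hC, rfl⟩ le_rfl)⟩
    rw [e]
    refine integral_congr_ae ?_
    filter_upwards [BM.ce_self (hle i) hg] with x hx
    rw [hx, Fin.sum_univ_one]
  · choose C hC hC' using hf
    have := hne.to_subtype
    obtain ⟨z, hz⟩ := hch.directedOn.directed_val.finite_le fun i => ⟨C i, hC i⟩
    exact (h z z.2).2 f fun i => (hC' i).mono (sup_le_sup_right (hz i) _)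

end T4x

end
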