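import Pool.Agent.MP_154433_an.t7.SpecE
import Pool.Agent.MP_154433_an.p4.S1

/-! Row Good: the factor of one slot is good. -/

set_option autoImplicit false
set_option linter.unusedVariables false

noncomputable section

namespace Pool.Agent.MP_154433_an.T7

open MeasureTheory ProbabilityTheory Filter Topology Function
open scoped BigOperators ComplexConjugate
open T3S (B1 MB1 Bd)
open T4S (Gm Act wavg Van)
open T3S.GoodR (MB V V_of_sq rep prod_bd)
open T4S.GoodR (op op_MB slot V_mul)

namespace GoodL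

lemma wavg_op {X : Type} {l : ℕ} (A : Gm l → X → X) (w : ℕ → ℕ → ℝ) (r : Fin 2 → Gm l)
    (i : Fin 2) (F : Fin 2 → X → ℂ) : wavg A w r F =
      op A w (r i) (fun d x => F i.rev (A ((d : ℤ) • r i.rev) x)) (F i) := by
  funext M x
  refine Finset.sum_congr rfl fun d _ => congrArg _ ?_
  rw [Fin.prod_univ_two]
  fin_cases i
  · rfl
  · exact mul_comm _ _

end GoodL

open GoodL in
theorem good (hProd : ProdS) (hAlg : AlgS) (hFac : FacS) : GoodS := by
  intro w hs hw l X m0 μ _ A hA r i f hf hfi
  choose g h1 _ h3 using fun j => rep m0 le_rfl (hf j)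
  have hV : V μ (wavg A w r g) := by
    obtain ⟨hm, K, hK, hb⟩ := h1 i.rev
    have hg' : MB1 fun x => ((K + 1 : ℝ) : ℂ)⁻¹ * g i.rev x := ⟨hm.const_mul _, fun x => by
      rw [norm_mul, norm_inv, Complex.norm_real, Real.norm_of_nonneg (by linarith),
        inv_mul_le_iff₀ (by linarith)]
      linarith [hb x]⟩
    have hR := fun d : ℕ => hA.tz hg' ((d : ℤ) • r i.rev)
    have al := hAlg l X μ A hA (r i) (r i.rev)
    have hS : ∀ φ ∈ {φ : X → ℝ | (fun x => (φ x : ℂ)) ∈ AA μ A (r i) (r i.rev)},
        Measurable φ ∧ ∃ C : ℝ, ∀ x, |φ x| ≤ C := fun φ hφ =>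
      ⟨Complex.measurable_re.comp hφ.1, hφ.2.1.imp fun C hC x => by
        simpa only [Complex.norm_real, Real.norm_eq_abs] using hC x⟩
    have := V_mul ((K + 1 : ℝ) : ℂ) (slot (a := r i) hA hw zero_le_one (fun d => (hR d).1)
      (fun d => (hR d).2) _ (al.const 1) (fun φ hφ φ' hφ' => by
        simpa only [Set.mem_ofPred_eq, Pi.mul_apply, Complex.ofReal_mul] using al.mul _ hφ _ hφ')
      hS (fun φ hφ => ?_) (h1 i) (hfi.1.congr (h3 i)))
    · rw [wavg_op A w r i]
      convert this using 1
      funext M x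
      refine Finset.sum_congr rfl fun d _ => congrArg _ ?_
      have : ((K + 1 : ℝ) : ℂ) ≠ 0 := Complex.ofReal_ne_zero.2 (by linarith)
      field_simp
    · have ne : i.rev ≠ i := by fin_cases i <;> decide
      have := hProd w hs hw l X μ A hA r i
        (update (fun _ x => ((K + 1 : ℝ) : ℂ)⁻¹ * g i.rev x) i fun x => (φ x : ℂ))
        (by rw [update_self]; exact hφ) (by rw [update_of_ne ne]; exact hg')
      rw [Van, wavg_op A w r i, update_self, update_of_ne ne] at this
      exact V_of_sq (fun M => op_MB hA zero_le_one (fun d => (hR d).1) (fun d => (hR d).2)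
        (MB.ofReal (hS φ hφ)) M) this
  obtain ⟨K, hK, hb⟩ := prod_bd Finset.univ h1
  have h4 : ∀ᵐ x ∂μ, ∀ (i : Fin 2) (v : Gm l), f i (A v x) = g i (A v x) :=
    ae_all_iff.2 fun i => ae_all_iff.2 fun v => (hA.mp v).quasiMeasurePreserving.ae (h3 i)
  have h5 := hV.const_mul (3 * K)
  rw [mul_zero] at h5
  refine squeeze_zero' (Eventually.of_forall fun M => integral_nonneg fun x => sq_nonneg _) ?_ h5
  filter_upwards [hw] with M hM
  have hn : ∀ x, ‖wavg A w r g M x‖ ≤ 3 * K := fun x => by
    refine (norm_sum_le _ _).trans (le_trans (Finset.sum_le_sum fun d _ => ?_)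
      ((Finset.sum_mul _ _ K).ge.trans (mul_le_mul_of_nonneg_right hM hK)))
    rw [norm_mul, Complex.norm_real, Real.norm_eq_abs]
    exact mul_le_mul_of_nonneg_left (hb _) (abs_nonneg _)
  have hi : Integrable (fun x => ‖wavg A w r g M x‖) μ :=
    MB.intn ⟨hA.wavg_meas w r (fun i => (h1 i).1) M, 3 * K, by positivity, hn⟩ μ
  rw [← integral_const_mul]
  refine integral_mono_of_nonneg (Eventually.of_forall fun x => sq_nonneg _) (hi.const_mul _) ?_
  filter_upwards [h4] with x hx
  have e : wavg A w r f M x = wavg A w r g M x := by simp only [wavg, hx]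
  rw [e, sq]
  exact mul_le_mul_of_nonneg_right (hn x) (norm_nonneg _)

end Pool.Agent.MP_154433_an.T7

end
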