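import Pool.Agent.MP_154433_an.t7.SpecF

/-! Row Gr: the growth hypothesis gives `n * σ n → ∞`. -/

open Filter

namespace Pool.Agent.MP_154433_an.T7

theorem gr : GrS := by
  rintro σ h0 ⟨a, ha, h⟩
  refine tendsto_atTop_mono' _ ?_ h
  filter_upwards [eventually_ge_atTop 1] with n hn
  refine mul_le_mul_of_nonneg_right ?_ (h0 n)
  simpa using Real.rpow_le_rpow_of_exponent_le (Nat.one_le_cast.2 hn : (1 : ℝ) ≤ n) ha.le

end Pool.Agent.MP_154433_an.T7
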