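import Pool.Agent.MP_154433_an.t7.SpecF

/-! Row Iter: repeated doubling of the ancestors. -/

set_option autoImplicit false

noncomputable section

namespace Pool.Agent.MP_154433_an.T7

theorem iter (hR0 : R0S) (hDbl : DblS) : IterS := by
  intro δ hδ B
  obtain ⟨η0, δ1, C, h0, h1, hC, H⟩ := hR0 δ hδ B
  refine ⟨η0, h0, fun r => ?_⟩
  induction r with
  | zero =>
    refine ⟨δ1, C, 2, h1, hC, fun S x c hx hc => ?_⟩
    obtain ⟨𝓕, a, b⟩ := H S x c hx hc
    exact ⟨Unit, inferInstance, inferInstance, 𝓕, by simp, a, b⟩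
  | succ r ih =>
    obtain ⟨δ', C', e, d0, c0, K⟩ := ih
    obtain ⟨δ2, C2, d2, c2, D⟩ := hDbl δ' d0
    refine ⟨δ2, C2 * (C' + 2 ^ r) ^ 2, (e + 1) * 2, d2, by positivity, fun S x c hx hc => ?_⟩
    obtain ⟨T, i1, i2, 𝓕, a, b, k⟩ := K S x c hx hc
    have x1 := hx.1
    have p1 : (1 : ℝ) ≤ 2 ^ r := one_le_pow₀ one_le_two
    have p2 : x ≤ x ^ (e + 1) := le_self_pow₀ x1 (by omega)
    have p3 : x ^ e ≤ x ^ (e + 1) := pow_le_pow_right₀ x1 (by omega)
    have p4 := mul_le_mul_of_nonneg_left p2 (zero_le_one.trans p1)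
    have p5 := mul_le_mul_of_nonneg_left p3 c0
    have p6 : 0 ≤ C' * x ^ (e + 1) := by positivity
    obtain ⟨𝓖, g1, g2⟩ := D S T 𝓕 ((C' + 2 ^ r) * x ^ (e + 1)) (by nlinarith) (by
        rw [Fintype.card_fun, a, Nat.cast_pow]
        refine (pow_le_pow_left₀ (Nat.cast_nonneg _) hx.2.2.1 _).trans ?_
        rw [← Real.exp_nat_mul]
        push_cast
        exact Real.exp_le_exp.2 (by linarith))
      (b.trans (Real.exp_le_exp.2 (by nlinarith)))
    refine ⟨T ⊕ T, inferInstance, inferInstance, 𝓖, by rw [Fintype.card_sum, a]; ring,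
      g1.trans (le_of_eq ?_), fun π G E φ u1 u2 u3 u4 => g2 π E φ u1 (k π G E φ u1 u2 u3 u4)⟩
    congr 1
    ring

end Pool.Agent.MP_154433_an.T7

end
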