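import Pool.Agent.MP_154433_an.t7.SpecE

/-! Row Kcal: calculus of the bipolar of the atoms. -/

set_option autoImplicit false
set_option linter.unusedVariables false

open Filter Function Finset
open scoped BigOperators ComplexConjugate

noncomputable section

namespace Pool.Agent.MP_154433_an.T7

namespace KcalL

variable {N : ℕ} {L F α β : ℕ → ℕ → ℕ → ℂ} {t : ℝ}

lemma ee_add (s t : ℝ) : ee (s + t) = ee s * ee t := by
  unfold ee
  rw [← Complex.exp_add]
  congr 1
  push_cast
  ring

lemma ee_zero : ee 0 = 1 := by simp [ee]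

lemma ee_norm (s : ℝ) : ‖ee s‖ = 1 := Complex.norm_exp_ofReal_mul_I _

lemma ee_cj (s : ℝ) : conj (ee s) = ee (-s) := by
  unfold ee
  rw [← Complex.exp_conj, map_mul, Complex.conj_ofReal, Complex.conj_I]
  congr 1
  push_cast
  ring

lemma b2_mul {f g : ℕ → ℕ → ℂ} (hf : B2 f) (hg : B2 g) : B2 fun a b => f a b * g a b :=
  fun a b => by
    rw [norm_mul]
    exact mul_le_one₀ (hf a b) (norm_nonneg _) (hg a b)

lemma at_mul (h : Atom α) (h' : Atom β) : Atom fun n m d => α n m d * β n m d := by
  obtain ⟨G, u, ξ, γ, h1, h2, e⟩ := h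
  obtain ⟨G', u', ξ', γ', h1', h2', e'⟩ := h'
  refine ⟨_, _, fun m => ξ m + ξ' m, fun z => γ z + γ' z, b2_mul h1 h1', b2_mul h2 h2',
    fun n m d => ?_⟩
  have : (d : ℝ) * (ξ m + ξ' m) + d * (γ (n + m + d) + γ' (n + m + d)) =
      (d * ξ m + d * γ (n + m + d)) + (d * ξ' m + d * γ' (n + m + d)) := by ring
  simp only [e, e']
  rw [this, ee_add (d * ξ m + d * γ (n + m + d))]
  ring

lemma at_cj (h : Atom α) : Atom fun n m d => conj (α n m d) := by
  obtain ⟨G, u, ξ, γ, h1, h2, e⟩ := h
  refine ⟨fun a b => conj (G a b), fun a b => conj (u a b), fun m => -ξ m, fun z => -γ z,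
    fun a b => by rw [RCLike.norm_conj]; exact h1 a b,
    fun a b => by rw [RCLike.norm_conj]; exact h2 a b, fun n m d => ?_⟩
  simp only [e, map_mul, ee_cj]
  congr 2
  ring

lemma at_norm (h : Atom α) (n m d : ℕ) : ‖α n m d‖ ≤ 1 := by
  obtain ⟨G, u, ξ, γ, h1, h2, e⟩ := h
  rw [e, norm_mul, ee_norm, mul_one, norm_mul]
  exact mul_le_one₀ (h1 _ _) (norm_nonneg _) (h2 _ _)

/-- the indicator of a point -/
def dl (a b c : ℕ) : ℕ → ℕ → ℕ → ℂ := fun n m d =>
  (if n = a then 1 else 0) * ((if m = b then 1 else 0) * if d = c then 1 else 0)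

lemma at_dl (a b c : ℕ) : Atom (dl a b c) := by
  refine ⟨fun n m => (if n = a then 1 else 0) * if m = b then 1 else 0,
    fun _ z => if z = b + c then 1 else 0, fun _ => 0, fun _ => 0, fun n m => ?_, fun n z => ?_,
    fun n m d => ?_⟩
  · beta_reduce; split_ifs <;> simp
  · beta_reduce; split_ifs <;> simp
  · by_cases h : m = b
    · subst h; simp [dl, ee_zero]
    · simp [dl, h]

lemma pai_dl {a b c : ℕ} (ha : a < N) (hb : b < N) (hc : c < N) :
    pai N L (dl a b c) = L a b c := by
  unfold pai
  rw [sum_eq_single_of_mem a (mem_range.2 ha) fun n _ h => by simp [dl, h],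
    sum_eq_single_of_mem b (mem_range.2 hb) fun n _ h => by simp [dl, h],
    sum_eq_single_of_mem c (mem_range.2 hc) fun n _ h => by simp [dl, h]]
  simp [dl]

lemma pai_congr {L' F' : ℕ → ℕ → ℕ → ℂ}
    (h : ∀ n < N, ∀ m < N, ∀ d < N, L n m d * F n m d = L' n m d * F' n m d) :
    pai N L F = pai N L' F' :=
  sum_congr rfl fun n hn => sum_congr rfl fun m hm => sum_congr rfl fun d hd =>
    h n (mem_range.1 hn) m (mem_range.1 hm) d (mem_range.1 hd)

lemma pai_cj : pai N (fun n m d => conj (L n m d)) F =
    conj (pai N L fun n m d => conj (F n m d)) := by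
  simp only [pai, map_sum, map_mul, Complex.conj_conj]

lemma sum_cut {N' : ℕ} (h : N ≤ N') (f : ℕ → ℂ) :
    ∑ n ∈ range N', (if n < N then f n else 0) = ∑ n ∈ range N, f n := by
  rw [← sum_filter]
  refine sum_congr ?_ fun _ _ => rfl
  ext n
  simp only [mem_filter, mem_range]
  omega

lemma pai_cut {N' : ℕ} (h : N ≤ N') : pai N' (fun n m d =>
    if n < N then if m < N then if d < N then L n m d else 0 else 0 else 0) F = pai N L F := by
  simp only [pai, ite_mul, zero_mul, sum_ite_irrel, sum_const_zero, sum_cut h]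

lemma t_nonneg (h : ∀ α, Atom α → ‖pai N L α‖ ≤ t) : 0 ≤ t :=
  (norm_nonneg _).trans (h _ (at_dl 0 0 0))

end KcalL

open KcalL in
theorem kcal : KcalS where
  atom N α h L t hL := by rw [one_mul]; exact hL α h
  add N C C' F F' h h' L t hL := by
    have e : (pai N L fun n m d => F n m d + F' n m d) = pai N L F + pai N L F' := by
      simp only [pai, mul_add, sum_add_distrib]
    rw [e, add_mul]
    exact (norm_add_le _ _).trans (add_le_add (h L t hL) (h' L t hL))
  smul N C F z h L t hL := by
    have e : (pai N L fun n m d => z * F n m d) = z * pai N L F := by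
      simp only [pai, mul_sum, mul_left_comm]
    rw [e, norm_mul, mul_assoc]
    exact mul_le_mul_of_nonneg_left (h L t hL) (norm_nonneg _)
  mul N C C' F F' h h' L t hL := by
    have e := h (fun n m d => L n m d * F' n m d) (C' * t) fun α hα => by
      have e1 := h' (fun n m d => L n m d * α n m d) t fun β hβ => by
        have e2 := hL _ (at_mul hα hβ)
        rwa [pai_congr (L' := fun n m d => L n m d * α n m d) (F' := β)
          fun n _ m _ d _ => by ring] at e2
      rwa [pai_congr (L' := fun n m d => L n m d * F' n m d) (F' := α)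
        fun n _ m _ d _ => by ring] at e1
    rwa [pai_congr (L' := L) (F' := fun n m d => F n m d * F' n m d)
      (fun n _ m _ d _ => by ring), ← mul_assoc] at e
  cj N C F h L t hL := by
    have e := h (fun n m d => conj (L n m d)) t fun α hα => by
      rw [pai_cj, RCLike.norm_conj]; exact hL _ (at_cj hα)
    rwa [pai_cj, RCLike.norm_conj] at e
  bound N C F h n hn m hm d hd := by
    have c : ∀ G, pai N (dl n m d) G = G n m d := fun G => by
      rw [← pai_dl (L := G) hn hm hd]; exact pai_congr fun _ _ _ _ _ _ => mul_comm _ _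
    have e := h (dl n m d) 1 fun α hα => by rw [c]; exact at_norm hα _ _ _
    rwa [c, mul_one] at e
  mono N N' C C' F hN hC h L t hL := by
    have e := h _ t fun α hα => by rw [pai_cut (L := L) hN]; exact hL α hα
    rw [pai_cut hN] at e
    exact e.trans (mul_le_mul_of_nonneg_right hC (t_nonneg hL))
  congr N C F F' e h L t hL := by
    rw [← pai_congr (L := L) (F := F) fun n hn m hm d hd => by rw [e n hn m hm d hd]]
    exact h L t hL
  expect N C ι _ _ F h L t hL := by
    have e : (pai N L fun n m d => 𝔼 i, F i n m d) = 𝔼 i, pai N L (F i) := by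
      simp only [pai, mul_expect, expect_sum_comm]
    rw [e]
    exact T3S.norm_exp_le_of ((norm_nonneg _).trans (h (Classical.arbitrary ι) L t hL))
      fun i _ => h i L t hL
  small N η F h L t hL := by
    have b : ∀ (f : ℕ → ℂ) (c : ℝ), (∀ n < N, ‖f n‖ ≤ c) → ‖∑ n ∈ range N, f n‖ ≤ N * c :=
      fun f c hf => (norm_sum_le _ _).trans <| by
        simpa using sum_le_card_nsmul (range N) _ c fun n hn => hf n (mem_range.1 hn)
    have e : η * N ^ 3 * t = N * (N * (N * (t * η))) := by ring
    rw [e]
    refine b _ _ fun n hn => b _ _ fun m hm => b _ _ fun d hd => ?_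
    rw [norm_mul]
    refine mul_le_mul ?_ (h n hn m hm d hd) (norm_nonneg _) (t_nonneg hL)
    rw [← pai_dl (L := L) hn hm hd]
    exact hL _ (at_dl _ _ _)

end Pool.Agent.MP_154433_an.T7

end
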