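import Pool.Agent.MP_154433_an.t7.SpecE
import Pool.Agent.MP_154433_an.p4.A8

/-! Row KeyP: the key inequality of the compact step with one factor for each slot. -/

set_option autoImplicit false

open MeasureTheory ProbabilityTheory Filter Topology Function Finset ComplexConjugate
open scoped BigOperators
open Fib27 (BM)

noncomputable section

namespace T4x

open T3x CptA

variable [Grp]

namespace KeyPL

lemma rpInt (F : Fd) {X : Sys} {J : Type} [Fintype J] {j0 : J} {Z : J → Sys}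
    {q : ∀ j, (Z j).X → X.X} (hq : ∀ j, Emb (Z j) X (q j)) {W : Sys} {P : ∀ j, W.X → (Z j).X}
    (hW : IsRP Z X X.ms q j0 W P) (G : ∀ j, (Z j).X → ℂ) (u : J → X.X → ℂ)
    (hG : ∀ j, BM (Z j).μ (Z j).ms (G j)) (hu : ∀ j, BM X.μ X.ms (u j))
    (h : ∀ j, (fun z => u j (q j z)) =ᵐ[(Z j).μ] (Z j).μ[G j | pull (Z j).μ (q j) X.ms]) :
    ∫ w, ∏ j, G j (P j w) ∂W.μ = ∫ x, ∏ j, u j x ∂X.μ := by
  have hm : ∀ j, MeasurePreserving (q j ∘ P j) W.μ X.μ := fun j => (hq j).mp.comp (hW.emb j).mp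
  rw [← integral_condExp (F.a.pull_le X.ms W.μ X.μ _ (hm j0) le_rfl),
    integral_congr_ae (hW.ind univ G fun j _ => hG j),
    ← intc (hm j0) (bm_prod univ fun j _ => hu j)]
  refine integral_congr_ae ?_
  have h1 : ∀ j, ∀ᵐ w ∂W.μ,
      ((Z j).μ[G j | pull (Z j).μ (q j) X.ms]) (P j w) = u j ((q j0 ∘ P j0) w) := by
    intro j
    have h2 := (hW.emb j).mp.quasiMeasurePreserving.ae_eq_comp (h j)
    have h3 := F.a.keq_fun X.ms W.μ X.μ _ _ (u j) (hm j) (hm j0) (hW.com j) (hu j).1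
    exact h2.symm.trans h3
  filter_upwards [ae_all_iff.2 h1] with w hw
  exact Finset.prod_congr rfl fun j _ => hw j

end KeyPL

theorem keyP (F : Fd) : KeyP := by
  intro X J _ j0 C Z p u H g k hC hP h
  obtain ⟨W, P, hW⟩ := F.rp J Z X X.ms (fun j => p j false) j0 (fun j => (hP j).nice)
    (F.t.top X) (fun j => ((hP j).emb false).mp) fun j n =>
      F.t.emb_z (Z j) X _ n ((hP j).emb false)
  have hH : ∀ j, BM (Z j).μ (Z j).ms (H j) := fun j => (h j).1.mono (F.t.finv (Z j) _).le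
  choose K hK using fun j => (hH j).2
  refine ⟨(∏ j, max (K j) 0) ^ 2, sq_nonneg _, fun N hN ρ c hc hc' => ?_⟩
  have hΦ : BM W.μ W.ms fun w => ∏ j, H j ((Z j).Tz (ρ j) (P j w)) :=
    bm_prod univ fun j _ => bmc F (hW.emb j).mp (bmT F (hH j) (ρ j))
  have hΦK : ∀ᵐ w ∂W.μ, ‖∏ j, H j ((Z j).Tz (ρ j) (P j w))‖ ≤ ∏ j, max (K j) 0 := by
    filter_upwards [ae_all_iff.2 fun j =>
      (hW.emb j).mp.quasiMeasurePreserving.ae (aeP F (hK j) (ρ j))] with w hw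
    rw [norm_prod]
    exact Finset.prod_le_prod (fun j _ => norm_nonneg _) fun j _ => (hw j).trans (le_max_left _ _)
  have hgz : ∀ j (n : Γ), BM (Z j).μ (Z j).ms
      fun z => g j (X.Tz n (X.Tz (ρ j) (p j true z))) := fun j n =>
    bmc F ((hP j).emb true).mp (bmT F (bmT F (h j).2.1 n) (ρ j))
  let Ψ : ℕ → W.X → ℂ := fun n w =>
    ∏ j, g j (X.Tz ((n : ℤ) • u) (X.Tz (ρ j) (p j true (P j w))))
  have hΨ : ∀ n, BM W.μ W.ms (Ψ n) := fun n =>
    bm_prod univ fun j _ => bmc F (hW.emb j).mp (hgz j _)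
  have e1 : ∀ n : ℕ, ∫ w, Ψ n w * ∏ j, H j ((Z j).Tz (ρ j) (P j w)) ∂W.μ =
      ∫ x, ∏ j, k j (X.Tz (ρ j) x) ∂X.μ := by
    intro n
    have h1 := KeyPL.rpInt F (fun j => (hP j).emb false) hW
      (fun j z => H j ((Z j).Tz (ρ j) z) * g j (X.Tz ((n : ℤ) • u) (X.Tz (ρ j) (p j true z))))
      (fun j x => k j (X.Tz ((n : ℤ) • u) (X.Tz (ρ j) x)))
      (fun j => (bmT F (hH j) (ρ j)).mul (hgz j _))
      (fun j => bmT F (bmT F (h j).2.2.1 _) (ρ j)) fun j =>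
        starT F (hP j) (hH j) (bmT F (h j).2.1 _) (bmT F (h j).2.2.1 _)
          (starI F (hP j) (h j).1 (h j).2.1 (h j).2.2.1 (h j).2.2.2 n) (ρ j)
    simp only [Finset.prod_mul_distrib] at h1
    simp only [Ψ, mul_comm _ (∏ j, H j ((Z j).Tz (ρ j) (P j _)))]
    rw [h1, ← intc (F.t.mp X ((n : ℤ) • u)) (bm_prod univ fun j _ => bmT F (h j).2.2.1 (ρ j))]
    simp only [← F.t.add, add_comm]
  have e2 : ∀ n n' : ℕ, ∫ w, Ψ n w * conj (Ψ n' w) ∂W.μ =
      ∫ x, ∏ j, c n n' j (X.Tz (ρ j) x) ∂X.μ := by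
    intro n n'
    have hb : ∀ j, BM X.μ X.ms fun y =>
        g j (X.Tz ((n : ℤ) • u) y) * conj (g j (X.Tz ((n' : ℤ) • u) y)) := fun j =>
      (bmT F (h j).2.1 _).mul (bmT F (h j).2.1 _).conj
    have h1 := KeyPL.rpInt F (fun j => (hP j).emb false) hW
      (fun j z => g j (X.Tz ((n : ℤ) • u) (X.Tz (ρ j) (p j true z))) *
        conj (g j (X.Tz ((n' : ℤ) • u) (X.Tz (ρ j) (p j true z)))))
      (fun j x => c n n' j (X.Tz (ρ j) x)) (fun j => (hgz j _).mul (hgz j _).conj)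
      (fun j => bmT F (hc n n' j) (ρ j)) fun j => by
        refine EventuallyEq.trans ?_ (pairCE F (hC j) (hP j) (bmT F (hb j) (ρ j)))
        exact aec ((hP j).emb false).mp ((aeT F (hc' n n' j) (ρ j)).trans
          (F.t.ce X (C j) (ρ j) _ (hC j) (hb j).integrable).symm)
    rw [← h1]
    simp only [Ψ, map_prod, Finset.prod_mul_distrib]
  have hN' : (N : ℂ) ≠ 0 := by exact_mod_cast (by omega : N ≠ 0)
  have e3 : ∫ x, ∏ j, k j (X.Tz (ρ j) x) ∂X.μ =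
      ∫ w, (∑ n ∈ range N, (N : ℝ)⁻¹ • Ψ n w) * ∏ j, H j ((Z j).Tz (ρ j) (P j w)) ∂W.μ := by
    rw [int_wsum (range N) (fun _ => (N : ℝ)⁻¹) (fun n _ => hΨ n) hΦ]
    simp only [e1, Finset.sum_const, Finset.card_range, nsmul_eq_mul]
    push_cast
    rw [← mul_assoc, mul_inv_cancel₀ hN', one_mul]
  rw [e3]
  refine (cs (Finset.prod_nonneg fun j _ => le_max_right _ _) hΦK
    (bm_wsum (range N) (fun _ => (N : ℝ)⁻¹) fun n _ => hΨ n)).trans (le_of_eq ?_)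
  rw [sq_wsum (range N) (fun _ => (N : ℝ)⁻¹) fun n _ => hΨ n]
  simp only [e2]

end T4x

end
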