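import Pool.Agent.MP_154433_an.t7.SpecE

/-! The frequency may be chosen line by line. -/

set_option autoImplicit false
set_option linter.unusedVariables false

open Finset
open scoped BigOperators ComplexConjugate

noncomputable section

namespace Pool.Agent.MP_154433_an.T7

namespace LineL

lemma ee_add (a b : ℝ) : ee (a + b) = ee a * ee b := by
  simp only [ee, ← Complex.exp_add]
  congr 1
  push_cast
  ring

lemma ee_norm (a : ℝ) : ‖ee a‖ = 1 := Complex.norm_exp_ofReal_mul_I _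

lemma core {P ι : Type} [Fintype ι] [Nonempty ι] (S : Finset P) (κ : P → ℕ) (W : ι → P → ℂ)
    (c : ℕ → ι → ℂ) (C t : ℝ) (hc : ∀ z, ∑ i, ‖c z i‖ ≤ C)
    (h : ∀ (s : ℕ → ι) (ph : ℕ → ℂ), (∀ z, ‖ph z‖ ≤ 1) →
      ‖∑ p ∈ S, ph (κ p) * W (s (κ p)) p‖ ≤ t) :
    ‖∑ p ∈ S, ∑ i, c (κ p) i * W i p‖ ≤ C * t := by
  have key : ∀ F : ℕ → P → ℂ, ∑ p ∈ S, F (κ p) p =
      ∑ z ∈ S.image κ, ∑ p ∈ S with κ p = z, F z p := fun F => by
    rw [← sum_fiberwise_of_maps_to (fun p hp => mem_image_of_mem κ hp)]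
    exact sum_congr rfl fun z _ => sum_congr rfl fun p hp => by rw [(mem_filter.1 hp).2]
  set lam : ℕ → ι → ℂ := fun z i => ∑ p ∈ S with κ p = z, W i p with hl
  choose s hs using fun z => Finite.exists_max fun i => ‖lam z i‖
  choose ph h1 h2 using fun z => Complex.exists_norm_eq_mul_self (lam z (s z))
  have hC : 0 ≤ C := (sum_nonneg fun i _ => norm_nonneg _).trans (hc 0)
  have h3 := h s ph fun z => (h1 z).le
  rw [key fun z p => ph z * W (s z) p] at h3
  have h4 : ∑ z ∈ S.image κ, ∑ p ∈ S with κ p = z, ph z * W (s z) p =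
      ((∑ z ∈ S.image κ, ‖lam z (s z)‖ : ℝ) : ℂ) := by
    push_cast
    exact sum_congr rfl fun z _ => by rw [h2, hl, mul_sum]
  rw [h4, Complex.norm_real, Real.norm_eq_abs] at h3
  rw [key fun z p => ∑ i, c z i * W i p]
  refine (norm_sum_le _ _).trans (le_trans ?_
    (mul_le_mul_of_nonneg_left ((le_abs_self _).trans h3) hC))
  rw [mul_sum]
  refine sum_le_sum fun z _ => ?_
  rw [sum_comm]
  refine (norm_sum_le _ _).trans (le_trans (sum_le_sum fun i _ => ?_)
    ((sum_mul _ _ _).symm.trans_le (mul_le_mul_of_nonneg_right (hc z) (norm_nonneg _))))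
  rw [← mul_sum, norm_mul]
  exact mul_le_mul_of_nonneg_left (hs z i) (norm_nonneg _)

lemma pai_eq (N : ℕ) (L F : ℕ → ℕ → ℕ → ℂ) : pai N L F =
    ∑ p ∈ range N ×ˢ range N ×ˢ range N, L p.1 p.2.1 p.2.2 * F p.1 p.2.1 p.2.2 := by
  simp only [pai, sum_product]

lemma byLine (N : ℕ) (C : ℝ) {ι : Type} [Fintype ι] (κ : ℕ → ℕ → ℕ → ℕ)
    (E : ι → ℕ → ℕ → ℕ → ℂ) (c : ℕ → ι → ℂ) (hc : ∀ z, ∑ i, ‖c z i‖ ≤ C)
    (h : ∀ (s : ℕ → ι) (ph : ℕ → ℂ), (∀ z, ‖ph z‖ ≤ 1) →
      Atom fun n m d => ph (κ n m d) * E (s (κ n m d)) n m d) :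
    InK N C fun n m d => ∑ i, c (κ n m d) i * E i n m d := by
  intro L t ht
  rcases isEmpty_or_nonempty ι with hι | hι
  · have h0 := ht (fun _ _ _ => 0)
      ⟨fun _ _ => 0, fun _ _ => 0, 0, 0, fun _ _ => by simp, fun _ _ => by simp, by simp⟩
    have hC : 0 ≤ C := (sum_nonneg fun i _ => norm_nonneg _).trans (hc 0)
    simpa [pai] using mul_nonneg hC ((norm_nonneg _).trans h0)
  have h1 := core (range N ×ˢ range N ×ˢ range N) (fun p => κ p.1 p.2.1 p.2.2)
    (fun i p => L p.1 p.2.1 p.2.2 * E i p.1 p.2.1 p.2.2) c C t hc fun s ph hp => by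
      have h2 := ht _ (h s ph hp)
      rw [pai_eq] at h2
      simpa only [mul_left_comm] using h2
  rw [pai_eq]
  simpa only [mul_sum, mul_left_comm] using h1

end LineL

open LineL in
theorem line : LineS := by
  intro N C ι _ θ c hc
  refine ⟨byLine N C (fun _ m _ => m) (fun i n m d => ee (((n + m + d : ℕ) : ℝ) * θ i)) c hc
    fun s ph hp => ⟨fun n m => ph m * ee (((n + m : ℕ) : ℝ) * θ (s m)), fun _ _ => 1,
      fun m => θ (s m), fun _ => 0, fun n m => ?_, fun _ _ => by simp, fun n m d => ?_⟩,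
    byLine N C (fun n m d => n + m + d) (fun i n m d => ee (-(m : ℝ) * θ i)) c hc
    fun s ph hp => ⟨fun _ _ => 1, fun n y => ph (n + y) * ee (-(y : ℝ) * θ (s (n + y))),
      fun _ => 0, fun z => θ (s z), fun _ _ => by simp, fun n m => ?_, fun n m d => ?_⟩⟩
  · rw [norm_mul, ee_norm, mul_one]
    exact hp _
  · simp only [mul_one, mul_assoc, ← ee_add]
    congr 2
    push_cast
    ring
  · rw [norm_mul, ee_norm, mul_one]
    exact hp _
  · simp only [one_mul, mul_assoc, ← ee_add, ← add_assoc]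
    congr 2
    push_cast
    ring

end Pool.Agent.MP_154433_an.T7

end
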