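import Pool.Agent.MP_154433_an.t7.SpecE

/-! The box functional of three steps as a pairing with the cube. -/

set_option autoImplicit false
set_option linter.unusedVariables false

noncomputable section

namespace Pool.Agent.MP_154433_an.T7

open MeasureTheory ProbabilityTheory Filter Topology Function Finset
open scoped BigOperators ComplexConjugate
open T3S (B1 MB1)
open T4S (Gm Act QX ln ddX QX_ln)

namespace LinkL

variable {X : Type} [MeasurableSpace X]

lemma dE_mb (L : ℕ) {F : ℤ → X → ℂ} (hF : ∀ t, MB1 (F t)) : MB1 fun x => dE L fun t => F t x :=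
  ⟨T3S.meas_exp _ fun h _ => T3S.meas_exp _ fun h' _ => (hF _).1, fun x =>
    T3S.norm_exp_le_of zero_le_one fun h _ => T3S.norm_exp_le_of zero_le_one fun h' _ =>
      (hF _).2 x⟩

lemma dE_int (μ : Measure X) [IsProbabilityMeasure μ] (L : ℕ) {g : X → ℂ} (hg : MB1 g)
    {F : ℤ → X → ℂ} (hF : ∀ t, MB1 (F t)) :
    (∫ x, g x * dE L (fun t => F t x) ∂μ).re = 𝔼 h : Fin L, 𝔼 h' : Fin L,
      (∫ x, g x * F (((h' : ℕ) : ℤ) - ((h : ℕ) : ℤ)) x ∂μ).re := by
  simp only [dE, Finset.mul_expect]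
  rw [T3S.integral_exp, T3S.re_exp]
  · refine Finset.expect_congr rfl fun h _ => ?_
    rw [T3S.integral_exp _ fun h' _ => (hg.mul (hF _)).integrable μ, T3S.re_exp]
  · intro h _
    exact MB1.integrable ⟨T3S.meas_exp _ fun h' _ => (hg.mul (hF _)).1, fun x =>
      T3S.norm_exp_le_of zero_le_one fun h' _ => (hg.mul (hF _)).2 x⟩ μ

end LinkL

open LinkL in
theorem link : LinkS := by
  intro l X _ μ _ A hA u w L g hg
  obtain ⟨S, hS⟩ : ∃ S : ℤ → ℤ → ℤ → X → ℂ, S = fun t1 t2 t3 x =>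
      conj (g (A ((0 + t1) • u + (0 : ℤ) • w) x)) * conj (g (A ((0 + t2) • u + (0 : ℤ) • w) x)) *
        g (A ((0 + t1 + t2) • u + (0 : ℤ) • w) x) *
        (conj (g (A ((0 : ℤ) • u + (0 + t3) • w) x)) * g (A ((0 + t1) • u + (0 + t3) • w) x) *
          g (A ((0 + t2) • u + (0 + t3) • w) x) *
          conj (g (A ((0 + t1 + t2) • u + (0 + t3) • w) x))) := ⟨_, rfl⟩
  have hb : bk A u w L g = fun x => dE L fun t1 => dE L fun t2 => dE L fun t3 => S t1 t2 t3 x := by
    rw [hS]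
    rfl
  have m3 : ∀ t1 t2 t3, MB1 (S t1 t2 t3) := fun t1 t2 t3 => by
    rw [hS]
    exact (((hA.tz hg _).cj.mul (hA.tz hg _).cj).mul (hA.tz hg _)).mul
      ((((hA.tz hg _).cj.mul (hA.tz hg _)).mul (hA.tz hg _)).mul (hA.tz hg _).cj)
  have m2 : ∀ t1 t2, MB1 fun x => dE L fun t3 => S t1 t2 t3 x := fun t1 t2 => dE_mb L (m3 t1 t2)
  have m1 : ∀ t1, MB1 fun x => dE L fun t2 => dE L fun t3 => S t1 t2 t3 x :=
    fun t1 => dE_mb L (m2 t1)
  have key : ∀ t1 t2 t3 : ℤ, QX μ A [] (ddX A (t3 • w) (ddX A (t2 • u) (ddX A (t1 • u) g))) =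
      (∫ x, g x * S t1 t2 t3 x ∂μ).re := fun t1 t2 t3 => by
    rw [QX, ← Complex.conj_re, ← integral_conj]
    refine congrArg _ (integral_congr_ae (Eventually.of_forall fun x => ?_))
    simp only [hS, ddX, zero_add, zero_smul, add_zero, add_smul, hA.add, map_mul,
      Complex.conj_conj]
    ring
  rw [hb]
  refine ⟨dE_mb L m1, ?_⟩
  rw [dE_int μ L hg m1, QX_ln]
  refine Finset.expect_congr rfl fun a _ => Finset.expect_congr rfl fun a' _ => ?_
  rw [dE_int μ L hg (m2 _), QX_ln]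
  refine Finset.expect_congr rfl fun b _ => Finset.expect_congr rfl fun b' _ => ?_
  rw [dE_int μ L hg (m3 _ _), QX_ln]
  exact Finset.expect_congr rfl fun c _ => Finset.expect_congr rfl fun c' _ => key _ _ _

end Pool.Agent.MP_154433_an.T7

end
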