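import Pool.Agent.MP_154433_an.t7.SpecF

/-! The list of large twisted frequencies is short. -/

set_option autoImplicit false

open Finset
open scoped BigOperators ComplexConjugate

noncomputable section

namespace Pool.Agent.MP_154433_an.T7

open T3S (B1)

namespace ListL

theorem oi_nonneg (p : Prop) : 0 ≤ oi p := by unfold oi; split_ifs <;> norm_num

theorem jen {I : Type} [Fintype I] {π : I → ℝ} (h : PV π) (x : I → ℝ) :
    (∑ i, π i * x i) ^ 2 ≤ ∑ i, π i * x i ^ 2 := by
  have h0 : 0 ≤ ∑ i, π i * (x i - ∑ j, π j * x j) ^ 2 :=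
    sum_nonneg fun i _ => mul_nonneg (h.1 i) (sq_nonneg _)
  have e : ∀ m : ℝ, ∑ i, π i * (x i - m) ^ 2 =
      ∑ i, π i * x i ^ 2 - 2 * m * ∑ i, π i * x i + m ^ 2 * ∑ i, π i := fun m => by
    rw [mul_sum, mul_sum, ← sum_sub_distrib, ← sum_add_distrib]
    exact sum_congr rfl fun i _ => by ring
  rw [e, h.2] at h0
  nlinarith

end ListL

open ListL in
theorem list : ListS := by
  classical
  intro S π B η0 ρ a hπ hS hρ hη ha
  set F : S.Θ → ℂ := fun θ => ∑ i, (π i : ℂ) * (a i * S.χ i θ) with hF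
  set K : S.Θ → ℂ := fun θ => ∑ i, (π i : ℂ) * S.χ i θ with hK
  set T := univ.filter fun θ => ρ ≤ ‖F θ‖ with hT
  set η := ρ ^ 2 / 2 with hηd
  have η0' : 0 < η := by positivity
  have hc := hS η hη
  have hN : cnt (fun θ => ρ ≤ ‖F θ‖) = T.card := by
    rw [cnt, hT, card_filter]
    push_cast
    exact sum_congr rfl fun θ _ => by unfold oi; congr
  have nπ : ∀ i, ‖(π i : ℂ)‖ = π i := fun i => by rw [Complex.norm_real, Real.norm_of_nonneg (hπ.1 i)]
  have K1 : ∀ θ, ‖K θ‖ ≤ η + oi (η < ‖K θ‖) := fun θ => by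
    unfold oi
    split_ifs with c
    · have : ‖K θ‖ ≤ ∑ i, π i := (norm_sum_le _ _).trans (le_of_eq (sum_congr rfl fun i _ => by
        rw [norm_mul, nπ, AddChar.norm_apply, mul_one]))
      rw [hπ.2] at this
      linarith
    · linarith [not_lt.1 c]
  choose u hu1 hu using fun θ => Complex.exists_norm_eq_mul_self (F θ)
  set g : S.I → ℂ := fun i => ∑ θ ∈ T, u θ * S.χ i θ with hg
  have h1 : (T.card : ℝ) * ρ ≤ ∑ i, π i * ‖g i‖ := by
    have e : ((∑ θ ∈ T, ‖F θ‖ : ℝ) : ℂ) = ∑ i, (π i : ℂ) * (a i * g i) := by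
      push_cast
      simp only [hu]
      simp only [hF, hg, mul_sum]
      rw [sum_comm]
      exact sum_congr rfl fun i _ => sum_congr rfl fun θ _ => by ring
    calc (T.card : ℝ) * ρ ≤ ∑ θ ∈ T, ‖F θ‖ := by
          rw [← nsmul_eq_mul]
          exact card_nsmul_le_sum _ _ _ fun θ hθ => (mem_filter.1 hθ).2
      _ ≤ ‖((∑ θ ∈ T, ‖F θ‖ : ℝ) : ℂ)‖ := by rw [Complex.norm_real]; exact le_abs_self _
      _ ≤ _ := by
          rw [e]
          refine (norm_sum_le _ _).trans (sum_le_sum fun i _ => ?_)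
          rw [norm_mul, nπ, norm_mul]
          exact mul_le_mul_of_nonneg_left (mul_le_of_le_one_left (norm_nonneg _) (ha i)) (hπ.1 i)
  have h2 : ∑ i, π i * ‖g i‖ ^ 2 ≤ T.card * (T.card * η + B / η ^ 2) := by
    have e : ((∑ i, π i * ‖g i‖ ^ 2 : ℝ) : ℂ) =
        ∑ θ ∈ T, ∑ θ' ∈ T, u θ * conj (u θ') * K (θ - θ') := by
      push_cast
      simp only [← Complex.mul_conj', hg, hK, map_sum, sum_mul_sum]
      simp only [mul_sum]
      rw [sum_comm]
      refine sum_congr rfl fun θ _ => ?_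
      rw [sum_comm]
      refine sum_congr rfl fun θ' _ => sum_congr rfl fun i _ => ?_
      rw [sub_eq_add_neg, AddChar.map_add_eq_mul, AddChar.map_neg_eq_conj, map_mul]
      ring
    calc _ ≤ ‖((∑ i, π i * ‖g i‖ ^ 2 : ℝ) : ℂ)‖ := by rw [Complex.norm_real]; exact le_abs_self _
      _ ≤ ∑ θ ∈ T, (T.card * η + B / η ^ 2) := by
          rw [e]
          refine (norm_sum_le _ _).trans (sum_le_sum fun θ _ => (norm_sum_le _ _).trans ?_)
          have h3 : ∑ θ' ∈ T, oi (η < ‖K (θ - θ')‖) ≤ B / η ^ 2 := by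
            refine le_trans (sum_le_univ_sum_of_nonneg fun _ => oi_nonneg _) (le_trans ?_ hc)
            exact le_of_eq ((Equiv.subLeft θ).sum_comp fun θ' => oi (η < ‖K θ'‖))
          refine (sum_le_sum (g := fun θ' => η + oi (η < ‖K (θ - θ')‖)) fun θ' _ => ?_).trans ?_
          · rw [norm_mul, norm_mul, Complex.norm_conj, hu1, hu1, one_mul, one_mul]
            exact K1 _
          · rw [sum_add_distrib, sum_const, nsmul_eq_mul]
            linarith
      _ = _ := by rw [sum_const, nsmul_eq_mul]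
  have h3 := (pow_le_pow_left₀ (by positivity) h1 2).trans ((jen hπ _).trans h2)
  have h0 : 0 ≤ B / η ^ 2 := le_trans (sum_nonneg fun _ _ => oi_nonneg _) hc
  have e : 8 * B / ρ ^ 6 = B / η ^ 2 / η := by rw [hηd]; field_simp; ring
  rw [hN, e, le_div_iff₀ η0']
  rcases (Nat.cast_nonneg (α := ℝ) T.card).eq_or_lt with c | c
  · rw [← c, zero_mul]; exact h0
  · refine le_of_mul_le_mul_left ?_ c
    have : ρ ^ 2 = 2 * η := by rw [hηd]; ring
    rw [mul_pow, this] at h3
    nlinarith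

end Pool.Agent.MP_154433_an.T7

end
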