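import Pool.Agent.MP_154433_an.t7.SpecF

/-! Removal of the predicted pieces for the second frequency. -/

set_option autoImplicit false

open Finset

noncomputable section

namespace Pool.Agent.MP_154433_an.T7

namespace LoopL

theorem four {P : Type} [Fintype P] (c u : P → ℂ) (W : Set P) (hu : ∀ p, ‖u p‖ ≤ 1)
    (hW : ∀ p, p ∉ W → u p = 0) {t : ℝ} (h : ∀ E ⊆ W, ‖∑ p, one E p * c p‖ ≤ t) :
    ‖∑ p, u p * c p‖ ≤ 4 * t := by
  have key : ∀ ω : ℂ, ‖ω‖ = 1 → ∑ p, oi (p ∈ W) * max (ω * c p).re 0 ≤ t := by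
    intro ω hω
    have h1 := h {p | p ∈ W ∧ 0 ≤ (ω * c p).re} fun p hp => hp.1
    rw [← one_mul ‖_‖, ← hω, ← norm_mul] at h1
    refine le_trans (le_of_eq ?_) ((Complex.re_le_norm _).trans h1)
    rw [mul_sum, Complex.re_sum]
    refine sum_congr rfl fun p _ => ?_
    rw [mul_left_comm, one, Complex.re_ofReal_mul]
    simp only [oi, Set.mem_ofPred_eq]
    by_cases h2 : p ∈ W <;> by_cases h3 : 0 ≤ (ω * c p).re
    · rw [if_pos h2, if_pos ⟨h2, h3⟩, max_eq_left h3]
    · rw [if_pos h2, if_neg fun a => h3 a.2, max_eq_right (not_le.1 h3).le, mul_zero, zero_mul]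
    · rw [if_neg h2, if_neg fun a => h2 a.1, zero_mul, zero_mul]
    · rw [if_neg h2, if_neg fun a => h2 a.1, zero_mul, zero_mul]
  have h1 := key 1 (by simp)
  have h2 := key (-1) (by simp)
  have h3 := key Complex.I (by simp)
  have h4 := key (-Complex.I) (by simp)
  have h5 := add_le_add (add_le_add h1 h2) (add_le_add h3 h4)
  simp only [← sum_add_distrib] at h5
  refine (norm_sum_le _ _).trans (le_trans (sum_le_sum fun p _ => ?_) (h5.trans (by linarith)))
  by_cases hp : p ∈ W
  · have a1 : ‖u p * c p‖ ≤ ‖c p‖ := by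
      rw [norm_mul]
      exact mul_le_of_le_one_left (norm_nonneg _) (hu p)
    have a2 := Complex.norm_le_abs_re_add_abs_im (c p)
    simp only [oi, if_pos hp, one_mul, neg_mul, Complex.neg_re, Complex.I_mul_re, neg_neg]
    rw [max_zero_add_max_neg_zero_eq_abs_self, add_comm (max _ _),
      max_zero_add_max_neg_zero_eq_abs_self]
    linarith
  · simp [oi, hp, hW p hp]

variable (S : St)

def cf (v : S.I → ℝ) (G : S.A → S.A → ℂ) (ξ : S.A → S.Θ) (θ : S.Θ) (p : S.A × S.A) : ℂ :=
  ∑ i, (v i : ℂ) * (G p.1 (p.2 - S.ι i) * S.χ i (ξ (p.2 - S.ι i)) * S.χ i θ)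

theorem rep (v : S.I → ℝ) (G u : S.A → S.A → ℂ) (ξ γ : S.A → S.Θ) :
    S.form2 v G u ξ γ = ∑ p : S.A × S.A, u p.1 p.2 * cf S v G ξ (γ (p.1 + p.2)) p := by
  rw [St.form2, Fintype.sum_prod_type]
  refine sum_congr rfl fun a _ => ?_
  simp only [cf, mul_sum]
  refine sum_comm.trans (Eq.trans ?_ sum_comm)
  refine sum_congr rfl fun i _ => ?_
  refine Fintype.sum_equiv (Equiv.addRight (S.ι i)) _ _ fun m => ?_
  simp only [Equiv.coe_addRight, add_sub_cancel_right, add_assoc]
  ring

theorem cf_sub (v w : S.I → ℝ) (G : S.A → S.A → ℂ) (ξ : S.A → S.Θ) (θ : S.Θ) (p : S.A × S.A) :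
    cf S (v - w) G ξ θ p = cf S v G ξ θ p - cf S w G ξ θ p := by
  simp only [cf, ← sum_sub_distrib, Pi.sub_apply, Complex.ofReal_sub, sub_mul]

end LoopL

open LoopL Classical in
theorem loop : LoopS := by
  intro S π π' 𝓠 δ δ' τ hδ hδ' hτ h1 h2 hQ G u ξ γ hG hu
  have hn : 0 < S.n := Nat.cast_pos.2 Fintype.card_pos
  have main : ∀ (U : Finset S.A) (u : S.A → S.A → ℂ), B2 u → (∀ a z, a + z ∉ U → u a z = 0) →
      ‖S.form2 (π - π') G u ξ γ‖ ≤ 8 * δ * S.n ^ 2 + τ / δ' * S.n * U.card := by
    intro U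
    induction U using Finset.strongInduction with
    | H U ih =>
    intro u hu hU
    by_cases hc : ∃ ψ ∈ 𝓠, δ' * S.n ≤ cnt fun z => z ∈ (U : Set S.A) ∧ γ z = ψ z
    · obtain ⟨ψ, hψ, hV⟩ := hc
      set V := U.filter fun z => γ z = ψ z with hVd
      have e1 : cnt (fun z => z ∈ (U : Set S.A) ∧ γ z = ψ z) = V.card := by
        have : ∀ z, oi (z ∈ (U : Set S.A) ∧ γ z = ψ z) = if z ∈ V then 1 else 0 := fun z => by
          simp only [oi, hVd, mem_filter, mem_coe]
        simp only [cnt, this]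
        simp
      rw [e1] at hV
      have hVU : V ⊆ U := filter_subset _ _
      have hne : V.Nonempty := card_pos.1 (Nat.cast_pos.1 ((mul_pos hδ' hn).trans_le hV))
      have b1 : B2 fun a z => if a + z ∈ V then u a z else 0 := fun a z => by
        dsimp only
        split_ifs
        exacts [hu a z, by simp]
      have b2 : B2 fun a z => if a + z ∈ V then 0 else u a z := fun a z => by
        dsimp only
        split_ifs
        exacts [by simp, hu a z]
      have i1 := hQ ψ hψ G _ ξ hG b1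
      have i2 := ih (U \ V) (sdiff_ssubset hVU hne) _ b2 fun a z h => by
        split_ifs with h'
        exacts [rfl, hU a z fun h'' => h (mem_sdiff.2 ⟨h'', h'⟩)]
      have e2 : S.form2 (π - π') G u ξ γ =
          S.form2 (π - π') G (fun a z => if a + z ∈ V then u a z else 0) ξ ψ +
          S.form2 (π - π') G (fun a z => if a + z ∈ V then 0 else u a z) ξ γ := by
        simp only [rep, ← sum_add_distrib]
        refine sum_congr rfl fun p _ => ?_
        split_ifs with h
        · rw [(mem_filter.1 h).2, zero_mul, add_zero]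
        · rw [zero_mul, zero_add]
      have e3 : ((U \ V).card : ℝ) + V.card = U.card := by
        exact_mod_cast card_sdiff_add_card_eq_card hVU
      have e4 : τ * S.n ^ 2 ≤ τ / δ' * S.n * V.card := by
        calc τ * S.n ^ 2 = τ / δ' * S.n * (δ' * S.n) := by field_simp
          _ ≤ _ := mul_le_mul_of_nonneg_left hV (by positivity)
      rw [e2, ← e3]
      refine (norm_add_le _ _).trans ?_
      linarith
    · have small : ∀ v, S.PredG v 𝓠 δ δ' → ‖S.form2 v G u ξ γ‖ ≤ 4 * (δ * S.n ^ 2) := by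
        intro v hv
        rw [rep]
        refine four _ (fun p : S.A × S.A => u p.1 p.2) {p | p.1 + p.2 ∈ U} (fun p => hu _ _)
          (fun p hp => hU _ _ hp) fun E hE => ?_
        by_contra h
        refine hc (hv G E ξ γ U hG (fun p hp => hE hp) ?_)
        rw [rep]
        exact (not_le.1 h).le
      have e2 : S.form2 (π - π') G u ξ γ = S.form2 π G u ξ γ - S.form2 π' G u ξ γ := by
        simp only [rep, cf_sub, mul_sub, sum_sub_distrib]
      have e3 : 0 ≤ τ / δ' * S.n * U.card := by positivity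
      rw [e2]
      refine (norm_sub_le _ _).trans ?_
      linarith [small π h1, small π' h2]
  refine (main univ u hu fun a z h => absurd (mem_univ _) h).trans (le_of_eq ?_)
  rw [card_univ, St.n]
  ring

end Pool.Agent.MP_154433_an.T7

end
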