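import Mathlib

/-! Trace moment bound for a random sum of matrices with centred Bernoulli coefficients. -/

set_option autoImplicit false
set_option linter.unusedVariables false
set_option linter.unusedSectionVars false

open Finset Matrix
open scoped BigOperators ComplexConjugate

noncomputable section

namespace T7M

variable {ι : Type} [Fintype ι] [DecidableEq ι]

/-- product weight -/
def wt (s : ι → ℝ) (x : ι → Bool) : ℝ := ∏ d, (if x d then s d else 1 - s d)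

/-- centred coordinate -/
def rr (s : ι → ℝ) (x : ι → Bool) (d : ι) : ℝ := (if x d then 1 else 0) - s d

lemma wt_nonneg {s : ι → ℝ} (hs : ∀ d, 0 ≤ s d ∧ s d ≤ 1) (x : ι → Bool) : 0 ≤ wt s x :=
  prod_nonneg fun d _ => by
    split_ifs
    · exact (hs d).1
    · linarith [(hs d).2]

lemma fact (s : ι → ℝ) (g : ι → ℝ → ℝ) :
    ∑ x : ι → Bool, wt s x * ∏ d, g d (rr s x d) =
      ∏ d, (s d * g d (1 - s d) + (1 - s d) * g d (-s d)) := by
  have h := Finset.prod_univ_sum (fun _ : ι => (univ : Finset Bool))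
    (fun d b => (if b then s d else 1 - s d) * g d ((if b then 1 else 0) - s d))
  rw [Fintype.piFinset_univ] at h
  simp only [wt, rr, ← prod_mul_distrib]
  rw [← h]
  refine prod_congr rfl fun d _ => ?_
  simp

lemma wt_sum (s : ι → ℝ) : ∑ x : ι → Bool, wt s x = 1 := by
  have h := fact s (fun _ _ => 1)
  simpa using h

lemma half_nonneg {s : ℝ} (h0 : 0 ≤ s) (h1 : s ≤ 1 / 2) (m : ℕ) :
    0 ≤ s * (1 - s) ^ m + (1 - s) * (-s) ^ m := by
  rcases m with _ | k
  · simp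
  · have h2 : |(-s) ^ k| ≤ (1 - s) ^ k := by
      rw [abs_pow, abs_neg, abs_of_nonneg h0]
      exact pow_le_pow_left₀ h0 (by linarith) k
    have h3 : 0 ≤ (1 - s) ^ k - (-s) ^ k := by linarith [le_abs_self ((-s) ^ k)]
    have h4 : s * (1 - s) ^ (k + 1) + (1 - s) * (-s) ^ (k + 1) =
        (s * (1 - s)) * ((1 - s) ^ k - (-s) ^ k) := by ring
    rw [h4]
    exact mul_nonneg (mul_nonneg h0 (by linarith)) h3

/-- the sign which makes all moments nonnegative -/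
def sg (s : ℝ) : ℝ := if s ≤ 1 / 2 then 1 else -1

lemma abs_sg (s : ℝ) : |sg s| = 1 := by
  unfold sg
  split_ifs <;> simp

lemma abs_mom {s : ℝ} (h0 : 0 ≤ s) (h1 : s ≤ 1) (m : ℕ) :
    |s * (1 - s) ^ m + (1 - s) * (-s) ^ m| =
      s * (sg s * (1 - s)) ^ m + (1 - s) * (sg s * (-s)) ^ m := by
  unfold sg
  split_ifs with h
  · simp only [one_mul]
    exact abs_of_nonneg (half_nonneg h0 h m)
  · have h2 := half_nonneg (s := 1 - s) (by linarith) (by linarith [not_le.mp h]) m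
    have h3 : s * (-1 * (1 - s)) ^ m + (1 - s) * (-1 * (-s)) ^ m =
        (-1) ^ m * (s * (1 - s) ^ m + (1 - s) * (-s) ^ m) := by
      rw [mul_pow, mul_pow]; ring
    have h4 : (1 - s) * (1 - (1 - s)) ^ m + (1 - (1 - s)) * (-(1 - s)) ^ m =
        s * (-1 * (1 - s)) ^ m + (1 - s) * (-1 * (-s)) ^ m := by
      have e1 : (1 - (1 - s)) = s := by ring
      have e2 : -(1 - s) = -1 * (1 - s) := by ring
      have e3 : -1 * (-s) = s := by ring
      rw [e1, e2, e3]; ring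
    rw [h4] at h2
    rw [← abs_of_nonneg h2, h3, abs_mul, abs_pow, abs_neg, abs_one, one_pow, one_mul]

lemma prod_word {J : Type} [Fintype J] (g : J → ι) (F : ι → ℝ) :
    ∏ j, F (g j) = ∏ d, F d ^ (univ.filter fun j => g j = d).card := by
  rw [← Finset.prod_fiberwise' univ g F]
  exact prod_congr rfl fun d _ => by rw [prod_const]

lemma word_le {s : ι → ℝ} (hs : ∀ d, 0 ≤ s d ∧ s d ≤ 1) {J : Type} [Fintype J] (g : J → ι) :
    |∑ x : ι → Bool, wt s x * ∏ j, rr s x (g j)| =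
      ∑ x : ι → Bool, wt s x * ∏ j, (sg (s (g j)) * rr s x (g j)) := by
  have h1 : ∀ x : ι → Bool, ∏ j, rr s x (g j) =
      ∏ d, rr s x d ^ (univ.filter fun j => g j = d).card := fun x => prod_word g _
  have h2 : ∀ x : ι → Bool, ∏ j, (sg (s (g j)) * rr s x (g j)) =
      ∏ d, (sg (s d) * rr s x d) ^ (univ.filter fun j => g j = d).card := fun x =>
    prod_word g (fun d => sg (s d) * rr s x d)
  simp only [h1, h2]
  rw [fact s (fun d v => v ^ (univ.filter fun j => g j = d).card),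
    fact s (fun d v => (sg (s d) * v) ^ (univ.filter fun j => g j = d).card), Finset.abs_prod]
  exact prod_congr rfl fun d _ => abs_mom (hs d).1 (hs d).2 _

lemma mgf {s : ι → ℝ} (hs : ∀ d, 0 ≤ s d ∧ s d ≤ 1) (c : ι → ℝ) (hc : ∀ d, |c d| ≤ 1) :
    ∑ x : ι → Bool, wt s x * Real.exp (∑ d, c d * rr s x d) ≤
      Real.exp (∑ d, c d ^ 2 * s d) := by
  simp only [Real.exp_sum]
  rw [fact s (fun d v => Real.exp (c d * v))]
  refine prod_le_prod (fun d _ => ?_) fun d _ => ?_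
  · have := hs d
    have h1 : 0 ≤ 1 - s d := by linarith [this.2]
    exact add_nonneg (mul_nonneg this.1 (Real.exp_pos _).le) (mul_nonneg h1 (Real.exp_pos _).le)
  · obtain ⟨h0, h1⟩ := hs d
    have h2 : 0 ≤ 1 - s d := by linarith
    have a1 : |c d * (1 - s d)| ≤ 1 := by
      rw [abs_mul, abs_of_nonneg h2]
      exact mul_le_one₀ (hc d) h2 (by linarith)
    have a2 : |c d * (-s d)| ≤ 1 := by
      rw [abs_mul, abs_neg, abs_of_nonneg h0]
      exact mul_le_one₀ (hc d) h0 h1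
    have b1 := (abs_le.mp (Real.abs_exp_sub_one_sub_id_le a1)).2
    have b2 := (abs_le.mp (Real.abs_exp_sub_one_sub_id_le a2)).2
    have c1 := mul_le_mul_of_nonneg_left b1 h0
    have c2 := mul_le_mul_of_nonneg_left b2 h2
    have e := Real.add_one_le_exp (c d ^ 2 * s d)
    have c3 : 0 ≤ c d ^ 2 * s d * s d := by positivity
    nlinarith

/-- scalar moments -/
lemma mom {s : ι → ℝ} (hs : ∀ d, 0 ≤ s d ∧ s d ≤ 1) (c : ι → ℝ) (hc : ∀ d, |c d| ≤ 1)
    (k : ℕ) {t W : ℝ} (ht : 0 < t) (ht1 : t ≤ 1) (hW : ∑ d, s d ≤ W) :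
    ∑ x : ι → Bool, wt s x * (∑ d, c d * rr s x d) ^ k ≤
      2 * (k.factorial : ℝ) * Real.exp (W * t ^ 2) / t ^ k := by
  have key : ∀ a : ℝ, |a| = t →
      ∑ x : ι → Bool, wt s x * Real.exp (a * ∑ d, c d * rr s x d) ≤ Real.exp (W * t ^ 2) := by
    intro a ha
    have h := mgf hs (fun d => a * c d) fun d => by
      rw [abs_mul, ha]; exact mul_le_one₀ ht1 (abs_nonneg _) (hc d)
    simp only [mul_sum, ← mul_assoc]
    refine h.trans (Real.exp_le_exp.mpr ?_)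
    have h2 : ∀ d, (a * c d) ^ 2 * s d ≤ t ^ 2 * s d := fun d => by
      refine mul_le_mul_of_nonneg_right ?_ (hs d).1
      rw [mul_pow, ← sq_abs a, ha]
      have : c d ^ 2 ≤ 1 := by rw [← sq_abs]; exact pow_le_one₀ (abs_nonneg _) (hc d)
      nlinarith [sq_nonneg t]
    calc ∑ d, (a * c d) ^ 2 * s d ≤ ∑ d, t ^ 2 * s d := sum_le_sum fun d _ => h2 d
      _ = t ^ 2 * ∑ d, s d := by rw [mul_sum]
      _ ≤ W * t ^ 2 := by nlinarith [sq_nonneg t]
  have k1 := key t (abs_of_pos ht)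
  have k2 := key (-t) (by rw [abs_neg, abs_of_pos ht])
  have hf : (0 : ℝ) < k.factorial := by exact_mod_cast k.factorial_pos
  rw [le_div_iff₀ (pow_pos ht k), sum_mul]
  have pt : ∀ z : ℝ, z ^ k * t ^ k ≤ (k.factorial : ℝ) * (Real.exp (t * z) + Real.exp (-t * z)) := by
    intro z
    have h1 := Real.pow_div_factorial_le_exp |t * z| (abs_nonneg _) k
    rw [div_le_iff₀ hf] at h1
    have h2 : z ^ k * t ^ k ≤ |t * z| ^ k := by
      rw [← mul_pow, ← abs_pow, mul_comm z t]; exact le_abs_self _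
    have h3 : Real.exp |t * z| ≤ Real.exp (t * z) + Real.exp (-t * z) := by
      rcases abs_cases (t * z) with h | h
      · rw [h.1]; linarith [Real.exp_pos (-t * z)]
      · rw [h.1, neg_mul]; linarith [Real.exp_pos (t * z)]
    nlinarith
  calc ∑ x : ι → Bool, wt s x * (∑ d, c d * rr s x d) ^ k * t ^ k
      ≤ ∑ x : ι → Bool, (k.factorial : ℝ) * (wt s x * Real.exp (t * ∑ d, c d * rr s x d) +
          wt s x * Real.exp (-t * ∑ d, c d * rr s x d)) := by
        refine sum_le_sum fun x _ => ?_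
        have := mul_le_mul_of_nonneg_left (pt (∑ d, c d * rr s x d)) (wt_nonneg hs x)
        nlinarith
    _ = (k.factorial : ℝ) * (∑ x : ι → Bool, wt s x * Real.exp (t * ∑ d, c d * rr s x d) +
          ∑ x : ι → Bool, wt s x * Real.exp (-t * ∑ d, c d * rr s x d)) := by
        rw [← mul_sum, sum_add_distrib]
    _ ≤ 2 * (k.factorial : ℝ) * Real.exp (W * t ^ 2) := by nlinarith

variable {n : Type} [Fintype n] [DecidableEq n]

/-- all row sums are at most one -/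
def Row (A : Matrix n n ℂ) : Prop := ∀ i, ∑ j, ‖A i j‖ ≤ 1

lemma Row.one : Row (1 : Matrix n n ℂ) := fun i => by
  have : ∀ j, ‖(1 : Matrix n n ℂ) i j‖ = if i = j then 1 else 0 := fun j => by
    rw [Matrix.one_apply]; split_ifs <;> simp
  simp [this]

lemma Row.mul {A B : Matrix n n ℂ} (hA : Row A) (hB : Row B) : Row (A * B) := fun i => by
  calc ∑ k, ‖(A * B) i k‖ ≤ ∑ k, ∑ j, ‖A i j‖ * ‖B j k‖ := by
        refine sum_le_sum fun k _ => ?_
        rw [Matrix.mul_apply]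
        exact (norm_sum_le _ _).trans (le_of_eq (sum_congr rfl fun j _ => norm_mul _ _))
    _ = ∑ j, ‖A i j‖ * ∑ k, ‖B j k‖ := by rw [sum_comm]; simp only [mul_sum]
    _ ≤ ∑ j, ‖A i j‖ := sum_le_sum fun j _ => mul_le_of_le_one_right (norm_nonneg _) (hB j)
    _ ≤ 1 := hA i

lemma Row.trace {A : Matrix n n ℂ} (hA : Row A) : ‖A.trace‖ ≤ Fintype.card n := by
  calc ‖A.trace‖ ≤ ∑ i, ‖A i i‖ := norm_sum_le _ _
    _ ≤ ∑ _i : n, (1 : ℝ) := sum_le_sum fun i _ =>
        (single_le_sum (f := fun j => ‖A i j‖) (fun j _ => norm_nonneg _) (mem_univ i)).trans (hA i)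
    _ = Fintype.card n := by simp

lemma expand {J : Type} [Fintype J] (C : J → Matrix n n ℂ) (hC : ∀ j, Row (C j)) (m : ℕ) :
    ∃ V : (Fin m → J) → Matrix n n ℂ, (∀ f, Row (V f)) ∧ ∀ c : J → ℂ,
      (∑ j, c j • C j) ^ m = ∑ f : Fin m → J, (∏ i, c (f i)) • V f := by
  induction m with
  | zero => exact ⟨fun _ => 1, fun _ => Row.one, fun c => by simp⟩
  | succ m ih =>
    obtain ⟨V, hV, he⟩ := ih
    refine ⟨fun f => C (f 0) * V (Fin.tail f), fun f => (hC _).mul (hV _), fun c => ?_⟩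
    rw [pow_succ', he, sum_mul_sum, ← Fintype.sum_prod_type']
    refine Fintype.sum_equiv (Fin.consEquiv fun _ : Fin (m + 1) => J) _ _ fun p => ?_
    simp [Fin.consEquiv, Fin.prod_univ_succ, smul_smul, mul_comm]

/-- squared length -/
def N2 (v : n → ℂ) : ℝ := ∑ i, ‖v i‖ ^ 2

lemma N2_nonneg (v : n → ℂ) : 0 ≤ N2 v := sum_nonneg fun _ _ => sq_nonneg _

lemma cs (a b : n → ℂ) : ‖∑ i, a i * b i‖ ^ 2 ≤ N2 a * N2 b := by
  have h1 : ‖∑ i, a i * b i‖ ≤ ∑ i, ‖a i‖ * ‖b i‖ :=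
    (norm_sum_le _ _).trans (le_of_eq (sum_congr rfl fun j _ => norm_mul _ _))
  exact (pow_le_pow_left₀ (norm_nonneg _) h1 2).trans (sum_mul_sq_le_sq_mul_sq _ _ _)

lemma N2_eq (v : n → ℂ) : ((N2 v : ℝ) : ℂ) = star v ⬝ᵥ v := by
  simp only [N2, dotProduct, Pi.star_apply]
  push_cast
  exact sum_congr rfl fun i _ => by
    rw [Complex.star_def, Complex.conj_mul']

lemma N2_star (v : n → ℂ) : N2 (star v) = N2 v := by simp [N2]

lemma N2_mulVec (Y : Matrix n n ℂ) (v : n → ℂ) :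
    N2 (Y *ᵥ v) ^ 2 ≤ N2 v * N2 ((Yᴴ * Y) *ᵥ v) := by
  have h1 : ((N2 (Y *ᵥ v) : ℝ) : ℂ) = star v ⬝ᵥ ((Yᴴ * Y) *ᵥ v) := by
    rw [N2_eq, star_mulVec, ← mulVec_mulVec, dotProduct_mulVec (star v)]
  have h2 := cs (star v) ((Yᴴ * Y) *ᵥ v)
  have h3 : ‖star v ⬝ᵥ ((Yᴴ * Y) *ᵥ v)‖ = N2 (Y *ᵥ v) := by
    rw [← h1, Complex.norm_real, Real.norm_of_nonneg (N2_nonneg _)]
  rw [N2_star] at h2
  rw [← h3]
  exact h2

lemma logconv (a : ℕ → ℝ) (h0 : ∀ m, 0 ≤ a m) (h : ∀ m, a (m + 1) ^ 2 ≤ a m * a (m + 2))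
    (m : ℕ) : a 1 ^ m * a 0 ≤ a m * a 0 ^ m := by
  have h1 : ∀ m, a 1 * a m ≤ a 0 * a (m + 1) := by
    intro m
    induction m with
    | zero => simp [mul_comm]
    | succ m ih =>
      rcases (h0 m).eq_or_lt with e | e
      · have h2 := h m
        rw [← e, zero_mul] at h2
        have h3 : a (m + 1) = 0 := by nlinarith [h0 (m + 1)]
        rw [h3, mul_zero]
        exact mul_nonneg (h0 _) (h0 _)
      · refine le_of_mul_le_mul_left ?_ e
        have h2 := mul_le_mul_of_nonneg_left (h m) (h0 0)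
        have h3 := mul_le_mul_of_nonneg_right ih (h0 (m + 1))
        nlinarith
  induction m with
  | zero => simp
  | succ m ih =>
    have h2 := mul_le_mul_of_nonneg_left ih (h0 1)
    have h3 := mul_le_mul_of_nonneg_right (h1 m) (pow_nonneg (h0 0) m)
    rw [pow_succ, pow_succ]
    nlinarith

/-- squared Frobenius norm -/
def Fr (B : Matrix n n ℂ) : ℝ := ∑ i, N2 (B i)

lemma Fr_nonneg (B : Matrix n n ℂ) : 0 ≤ Fr B := sum_nonneg fun _ _ => N2_nonneg _

lemma N2_le_Fr (B : Matrix n n ℂ) (v : n → ℂ) : N2 (B *ᵥ v) ≤ Fr B * N2 v := by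
  rw [Fr, sum_mul]
  exact sum_le_sum fun i _ => cs (B i) v

lemma Fr_eq (B : Matrix n n ℂ) : ((Fr B : ℝ) : ℂ) = (B * Bᴴ).trace := by
  simp only [Fr, N2, Matrix.trace, Matrix.diag_apply, Matrix.mul_apply, conjTranspose_apply]
  push_cast
  exact sum_congr rfl fun i _ => sum_congr rfl fun j _ => by
    rw [Complex.star_def, Complex.mul_conj']

lemma op_le (Y : Matrix n n ℂ) (v : n → ℂ) {q : ℕ} (hq : 1 ≤ q) :
    N2 (Y *ᵥ v) ^ (2 * q) ≤ Fr ((Yᴴ * Y) ^ q) * N2 v ^ (2 * q) := by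
  set P := Yᴴ * Y with hP
  have hH : Pᴴ = P := by rw [hP, conjTranspose_mul, conjTranspose_conjTranspose]
  have h1 := logconv (fun m => N2 ((P ^ m) *ᵥ v)) (fun _ => N2_nonneg _) (fun m => by
    have h := N2_mulVec P ((P ^ m) *ᵥ v)
    rw [hH, mulVec_mulVec, mulVec_mulVec, ← pow_succ', mul_assoc, ← pow_succ', ← pow_succ'] at h
    exact h) q
  simp only [pow_zero, one_mulVec, pow_one] at h1
  have h2 := N2_le_Fr (P ^ q) v
  have h3 := N2_mulVec Y v
  rw [← hP] at h3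
  have h0 := N2_nonneg v
  rcases h0.eq_or_lt with e | e
  · rw [← e, zero_mul] at h3
    have h4 : N2 (Y *ᵥ v) = 0 := by nlinarith [N2_nonneg (Y *ᵥ v)]
    rw [h4, ← e, zero_pow (by omega), mul_zero]
  · have h5 : N2 (P *ᵥ v) ^ q ≤ Fr (P ^ q) * N2 v ^ q := by
      refine le_of_mul_le_mul_right ?_ e
      have := mul_le_mul_of_nonneg_right h2 (pow_nonneg h0 q)
      nlinarith
    calc N2 (Y *ᵥ v) ^ (2 * q) = (N2 (Y *ᵥ v) ^ 2) ^ q := pow_mul _ _ _
      _ ≤ (N2 v * N2 (P *ᵥ v)) ^ q := pow_le_pow_left₀ (sq_nonneg _) h3 q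
      _ = N2 v ^ q * N2 (P *ᵥ v) ^ q := mul_pow _ _ _
      _ ≤ N2 v ^ q * (Fr (P ^ q) * N2 v ^ q) := mul_le_mul_of_nonneg_left h5 (pow_nonneg h0 q)
      _ = Fr (P ^ q) * N2 v ^ (2 * q) := by ring

/-- the random matrix -/
def YY (s : ι → ℝ) (A : ι → Matrix n n ℂ) (x : ι → Bool) : Matrix n n ℂ :=
  ∑ d, ((rr s x d : ℝ) : ℂ) • A d

theorem trace_mom {s : ι → ℝ} (hs : ∀ d, 0 ≤ s d ∧ s d ≤ 1) (A : ι → Matrix n n ℂ)
    (hA : ∀ d, Row (A d)) (hA' : ∀ d, Row (A d)ᴴ) (q : ℕ) {t W : ℝ} (ht : 0 < t) (ht1 : t ≤ 1)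
    (hW : ∑ d, s d ≤ W) :
    ∑ x : ι → Bool, wt s x * Fr (((YY s A x)ᴴ * YY s A x) ^ q) ≤
      Fintype.card n * (2 * ((4 * q).factorial : ℝ) * Real.exp (W * t ^ 2) / t ^ (4 * q)) := by
  obtain ⟨V, hV, he⟩ := expand (fun p : ι × ι => (A p.1)ᴴ * A p.2)
    (fun p => (hA' _).mul (hA _)) (2 * q)
  have h1 : ∀ x : ι → Bool, ((Fr (((YY s A x)ᴴ * YY s A x) ^ q) : ℝ) : ℂ) =
      ∑ f : Fin (2 * q) → ι × ι,
        ((∏ i, (rr s x (f i).1 * rr s x (f i).2) : ℝ) : ℂ) * (V f).trace := by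
    intro x
    have e1 : (YY s A x)ᴴ * YY s A x =
        ∑ p : ι × ι, ((rr s x p.1 * rr s x p.2 : ℝ) : ℂ) • ((A p.1)ᴴ * A p.2) := by
      rw [YY, conjTranspose_sum, sum_mul_sum, ← Fintype.sum_prod_type']
      refine sum_congr rfl fun p _ => ?_
      rw [conjTranspose_smul, smul_mul_smul_comm]
      simp
    have hH : ((YY s A x)ᴴ * YY s A x)ᴴ = (YY s A x)ᴴ * YY s A x := by
      rw [conjTranspose_mul, conjTranspose_conjTranspose]
    rw [Fr_eq, conjTranspose_pow, hH, ← pow_add, ← two_mul, e1, he, trace_sum]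
    refine sum_congr rfl fun f _ => ?_
    rw [trace_smul, smul_eq_mul]
    push_cast
    rfl
  have h2 : ((∑ x : ι → Bool, wt s x * Fr (((YY s A x)ᴴ * YY s A x) ^ q) : ℝ) : ℂ) =
      ∑ f : Fin (2 * q) → ι × ι,
        ((∑ x : ι → Bool, wt s x * ∏ i, (rr s x (f i).1 * rr s x (f i).2) : ℝ) : ℂ) *
          (V f).trace := by
    rw [Complex.ofReal_sum]
    simp only [Complex.ofReal_mul, h1, mul_sum]
    rw [sum_comm]
    refine sum_congr rfl fun f _ => ?_
    rw [Complex.ofReal_sum, sum_mul]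
    refine sum_congr rfl fun x _ => ?_
    rw [Complex.ofReal_mul, mul_assoc]
  have h3 : ∀ f : Fin (2 * q) → ι × ι,
      |∑ x : ι → Bool, wt s x * ∏ i, (rr s x (f i).1 * rr s x (f i).2)| =
        ∑ x : ι → Bool, wt s x *
          ∏ i, ((sg (s (f i).1) * rr s x (f i).1) * (sg (s (f i).2) * rr s x (f i).2)) := by
    intro f
    have h := word_le hs (Sum.elim (fun i => (f i).1) (fun i => (f i).2))
    simp only [Fintype.prod_sum_type, Sum.elim_inl, Sum.elim_inr, ← prod_mul_distrib] at h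
    exact h
  have h4 := mom hs (fun d => sg (s d)) (fun d => (abs_sg _).le) (4 * q) ht ht1 hW
  have h5 : ∀ x : ι → Bool, (∑ d, sg (s d) * rr s x d) ^ (4 * q) =
      ∑ f : Fin (2 * q) → ι × ι,
        ∏ i, ((sg (s (f i).1) * rr s x (f i).1) * (sg (s (f i).2) * rr s x (f i).2)) := by
    intro x
    have e : 4 * q = 2 * (2 * q) := by ring
    rw [e, pow_mul, sq, sum_mul_sum, ← Fintype.sum_prod_type', Fintype.sum_pow]
  calc ∑ x : ι → Bool, wt s x * Fr (((YY s A x)ᴴ * YY s A x) ^ q)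
      ≤ ‖((∑ x : ι → Bool, wt s x * Fr (((YY s A x)ᴴ * YY s A x) ^ q) : ℝ) : ℂ)‖ := by
        rw [Complex.norm_real]; exact le_abs_self _
    _ ≤ ∑ f : Fin (2 * q) → ι × ι, (∑ x : ι → Bool, wt s x *
          ∏ i, ((sg (s (f i).1) * rr s x (f i).1) * (sg (s (f i).2) * rr s x (f i).2))) *
            Fintype.card n := by
        rw [h2]
        refine (norm_sum_le _ _).trans (sum_le_sum fun f _ => ?_)
        rw [norm_mul, Complex.norm_real, Real.norm_eq_abs, ← h3 f]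
        exact mul_le_mul_of_nonneg_left (hV f).trace (abs_nonneg _)
    _ = Fintype.card n * ∑ x : ι → Bool, wt s x * (∑ d, sg (s d) * rr s x d) ^ (4 * q) := by
        rw [← sum_mul, mul_comm, sum_comm]
        simp only [h5, mul_sum]
    _ ≤ _ := mul_le_mul_of_nonneg_left h4 (Nat.cast_nonneg _)

open Classical in
/-- tail bound for the operator norm -/
theorem mat_tail {s : ι → ℝ} (hs : ∀ d, 0 ≤ s d ∧ s d ≤ 1) (A : ι → Matrix n n ℂ)
    (hA : ∀ d, Row (A d)) (hA' : ∀ d, Row (A d)ᴴ) {q : ℕ} (hq : 1 ≤ q) {t W τ : ℝ} (ht : 0 < t)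
    (ht1 : t ≤ 1) (hW : ∑ d, s d ≤ W) (hτ : 0 < τ) :
    ∑ x : ι → Bool, (if ∃ v : n → ℂ, τ ^ 2 * N2 v < N2 (YY s A x *ᵥ v) then wt s x else 0) ≤
      Fintype.card n * (2 * ((4 * q).factorial : ℝ) * Real.exp (W * t ^ 2) / (t * τ) ^ (4 * q)) := by
  have h := trace_mom hs A hA hA' q ht ht1 hW
  have hp : 0 < τ ^ (4 * q) := pow_pos hτ _
  have e : (Fintype.card n : ℝ) *
      (2 * ((4 * q).factorial : ℝ) * Real.exp (W * t ^ 2) / (t * τ) ^ (4 * q)) =
      Fintype.card n * (2 * ((4 * q).factorial : ℝ) * Real.exp (W * t ^ 2) / t ^ (4 * q)) /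
        τ ^ (4 * q) := by
    rw [mul_pow]; field_simp
  rw [e, le_div_iff₀ hp, sum_mul]
  refine le_trans (sum_le_sum fun x _ => ?_) h
  split_ifs with hx
  · obtain ⟨v, hv⟩ := hx
    refine mul_le_mul_of_nonneg_left ?_ (wt_nonneg hs x)
    have h1 := op_le (YY s A x) v hq
    have h0 := N2_nonneg v
    have h2 := pow_le_pow_left₀ (mul_nonneg (sq_nonneg τ) h0) hv.le (2 * q)
    have h3 : 0 < N2 v := by
      rcases h0.eq_or_lt with e | e
      · have := N2_le_Fr (YY s A x) v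
        rw [← e] at this hv
        simp only [mul_zero] at this hv
        linarith
      · exact e
    have e2 : (τ ^ 2 * N2 v) ^ (2 * q) = τ ^ (4 * q) * N2 v ^ (2 * q) := by ring
    rw [e2] at h2
    exact le_of_mul_le_mul_right (h2.trans h1) (pow_pos h3 _)
  · rw [zero_mul]
    exact mul_nonneg (wt_nonneg hs x) (Fr_nonneg _)

end T7M

end
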