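import Pool.Agent.MP_154433_an.t7.SpecE

/-! Row MixR: characters are atoms. -/

set_option autoImplicit false
set_option linter.unusedVariables false

open Filter Finset
open scoped BigOperators

noncomputable section

namespace Pool.Agent.MP_154433_an.T7

theorem mix : MixS := by
  intro w hw ε hε
  filter_upwards [hw ε hε, eventually_ge_atTop 1] with M ⟨L, hL, h⟩ hM χ
  have : NeZero (2 * M) := ⟨by omega⟩
  obtain ⟨t, ht⟩ := (Complex.norm_eq_one_iff (χ 1)).1 (χ.norm_apply 1)
  have hπ : Real.pi ≠ 0 := Real.pi_ne_zero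
  have e : ∀ d : ℕ, χ (d : ZMod (2 * M)) = ee (d * (t / (2 * Real.pi)) + d * 0) := fun d => by
    rw [← nsmul_one, AddChar.map_nsmul_eq_pow, ← ht, ← Complex.exp_nat_mul, ee,
      show 2 * Real.pi * (d * (t / (2 * Real.pi)) + d * 0) = d * t by field_simp; ring]
    push_cast
    rw [mul_assoc]
  refine le_of_eq_of_le ?_ (h (fun _ _ d => 1 * 1 * ee (d * (t / (2 * Real.pi)) + d * 0))
    ⟨fun _ _ => 1, fun _ _ => 1, fun _ => t / (2 * Real.pi), fun _ => 0, fun _ _ => norm_one.le,
      fun _ _ => norm_one.le, fun _ _ _ => rfl⟩)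
  refine congrArg _ (sum_congr rfl fun d _ => ?_)
  have hn : (range (L d)).Nonempty := nonempty_range_iff.2 (by have := hL d; omega)
  rw [win, expect_const hn, expect_const hn, e, one_mul, one_mul]

end Pool.Agent.MP_154433_an.T7

end
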