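import Pool.Agent.MP_154433_an.t7.SpecF

/-! Row NEAR: the property `RF` passes to nearby weights. -/

set_option autoImplicit false

open Filter Topology Finset
open scoped BigOperators

noncomputable section

namespace Pool.Agent.MP_154433_an.T7

namespace NearL

lemma norm_ee (t : ℝ) : ‖ee t‖ = 1 := Complex.norm_exp_ofReal_mul_I _

lemma win_le (L : ℕ) {α : ℕ → ℕ → ℕ → ℂ} (h : Atom α) (d : ℕ) : ‖win L α d‖ ≤ 1 := by
  obtain ⟨G, u, ξ, γ, hG, hu, h⟩ := h
  refine T3S.norm_exp_le_of zero_le_one fun n _ => T3S.norm_exp_le_of zero_le_one fun m _ => ?_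
  rw [h, norm_mul, norm_mul, norm_ee, mul_one]
  exact mul_le_one₀ (hG _ _) (norm_nonneg _) (hu _ _)

end NearL

theorem near : NearS := by
  intro w w' hN hR δ hδ
  filter_upwards [hR (δ / 2) (half_pos hδ), hN.eventually (gt_mem_nhds (half_pos hδ))]
    with M ⟨L, hL, h1⟩ h2
  refine ⟨L, hL, fun α hα => ?_⟩
  have h3 : ∑ d ∈ range M, (w M d : ℂ) * win (L d) α d =
      ∑ d ∈ range M, (w' M d : ℂ) * win (L d) α d +
        ∑ d ∈ range M, ((w M d - w' M d : ℝ) : ℂ) * win (L d) α d := by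
    rw [← sum_add_distrib]
    refine sum_congr rfl fun d _ => ?_
    push_cast
    ring
  have h4 : ‖∑ d ∈ range M, ((w M d - w' M d : ℝ) : ℂ) * win (L d) α d‖ ≤
      ∑ d ∈ range M, |w M d - w' M d| := by
    refine (norm_sum_le _ _).trans (sum_le_sum fun d _ => ?_)
    rw [norm_mul, Complex.norm_real, Real.norm_eq_abs]
    exact mul_le_of_le_one_right (abs_nonneg _) (NearL.win_le _ hα d)
  rw [h3]
  refine (norm_add_le _ _).trans ?_
  linarith [h1 α hα]

end Pool.Agent.MP_154433_an.T7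

end
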