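import Pool.Agent.MP_154433_an.t7.SpecF

/-! Row Ok: a weight with Fourier coefficients close to those of a flat weight is admissible. -/

set_option autoImplicit false

open Finset
open scoped BigOperators ComplexConjugate

noncomputable section

namespace Pool.Agent.MP_154433_an.T7

namespace OkL

open Classical in
theorem pars {X Θ K : Type} [Fintype X] [Fintype Θ] (w : X → ℝ) (s : X → K) (c : K → Θ → ℂ)
    (N : ℝ) (h : ∀ a b, ∑ θ, c a θ * conj (c b θ) = if a = b then (N : ℂ) else 0) :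
    ∑ θ, ‖∑ x, (w x : ℂ) * c (s x) θ‖ ^ 2 = N * ∑ x, ∑ x', w x * w x' * oi (s x = s x') := by
  have e : ∀ θ, ((‖∑ x, (w x : ℂ) * c (s x) θ‖ ^ 2 : ℝ) : ℂ) =
      ∑ x, ∑ x', (w x * w x' : ℂ) * (c (s x) θ * conj (c (s x') θ)) := by
    intro θ
    rw [Complex.ofReal_pow, ← Complex.mul_conj', map_sum, sum_mul_sum]
    refine sum_congr rfl fun x _ => sum_congr rfl fun x' _ => ?_
    rw [map_mul, Complex.conj_ofReal]
    ring
  apply Complex.ofReal_injective
  rw [Complex.ofReal_sum, sum_congr rfl fun θ _ => e θ, sum_comm]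
  push_cast
  rw [mul_sum]
  refine sum_congr rfl fun x _ => ?_
  rw [sum_comm, mul_sum]
  refine sum_congr rfl fun x' _ => ?_
  rw [← mul_sum, h]
  unfold oi
  split_ifs <;> simp [mul_comm]

open Classical in
theorem orthA {A : Type} [AddCommGroup A] [Fintype A] (a b : A) :
    ∑ ψ : AddChar A ℂ, ψ a * conj (ψ b) =
      if a = b then ((Fintype.card A : ℝ) : ℂ) else 0 := by
  simp only [← AddChar.map_neg_eq_conj, ← AddChar.map_add_eq_mul, ← sub_eq_add_neg,
    AddChar.sum_apply_eq_ite, sub_eq_zero, Complex.ofReal_natCast]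

open Classical in
theorem orthZ {N : ℕ} [NeZero N] (a b : ZMod N) :
    ∑ θ : ZMod N, ZMod.stdAddChar (a * θ) * conj (ZMod.stdAddChar (b * θ)) =
      if a = b then ((N : ℝ) : ℂ) else 0 := by
  have h := AddChar.sum_mulShift (a - b) (ZMod.isPrimitive_stdAddChar N)
  have e : ∀ θ : ZMod N, ZMod.stdAddChar (a * θ) * conj (ZMod.stdAddChar (b * θ)) =
      ZMod.stdAddChar (θ * (a - b)) := fun θ => by
    rw [← AddChar.map_neg_eq_conj, ← AddChar.map_add_eq_mul]
    congr 1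
    ring
  rw [sum_congr rfl fun θ _ => e θ, h]
  by_cases hab : a = b
  · simp [hab]
  · simp [hab, sub_eq_zero]

theorem diag {L N : ℕ} (hN : L ≤ N) (w : Fin L → ℝ) (hw : PV w) (h2 : ∀ i, w i * L ≤ 2) :
    (L : ℝ) * ∑ i, ∑ j, w i * w j * oi (((i : ℕ) : ZMod N) = ((j : ℕ) : ZMod N)) ≤ 2 := by
  have e : ∀ i : Fin L, ∑ j : Fin L, w i * w j * oi (((i : ℕ) : ZMod N) = ((j : ℕ) : ZMod N)) =
      w i * w i := by
    intro i
    rw [sum_eq_single i]
    · simp [oi]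
    · intro j _ hj
      have : ¬ (((i : ℕ) : ZMod N) = ((j : ℕ) : ZMod N)) := fun h => hj (Fin.ext
        (Nat.ModEq.eq_of_lt_of_lt ((ZMod.natCast_eq_natCast_iff _ _ _).1 h)
          (i.2.trans_le hN) (j.2.trans_le hN)).symm)
      simp [oi, this]
    · simp
  rw [sum_congr rfl fun i _ => e i, mul_sum]
  calc ∑ i, (L : ℝ) * (w i * w i) ≤ ∑ i, 2 * w i :=
        sum_le_sum fun i _ => by nlinarith [h2 i, hw.1 i]
    _ = 2 := by rw [← mul_sum, hw.2, mul_one]

theorem near {I : Type} [Fintype I] (π π' : I → ℝ) (c : I → ℂ) {ρ : ℝ}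
    (h : ‖∑ i, ((π i - π' i : ℝ) : ℂ) * c i‖ ≤ ρ) :
    ‖∑ i, (π i : ℂ) * c i‖ ≤ ‖∑ i, (π' i : ℂ) * c i‖ + ρ := by
  have e : ∑ i, (π i : ℂ) * c i = ∑ i, (π' i : ℂ) * c i + ∑ i, ((π i - π' i : ℝ) : ℂ) * c i := by
    rw [← sum_add_distrib]
    exact sum_congr rfl fun i _ => by push_cast; ring
  rw [e]
  exact (norm_add_le _ _).trans (by linarith)

theorem pw {a b ρ : ℝ} (ha : 0 ≤ a) (hb : 0 ≤ b) (hb1 : b ≤ 1) (hρ : 0 ≤ ρ) (h : a ≤ b + ρ)
    {j t : ℕ} (hj : 1 ≤ j) (ht : j ≤ t) : (a ^ j) ^ 2 ≤ 4 ^ t * b ^ 2 + (4 * ρ ^ 2) ^ j := by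
  rw [← pow_mul, mul_comm j 2, pow_mul]
  rcases le_total b ρ with h1 | h1
  · have : (a ^ 2) ^ j ≤ (4 * ρ ^ 2) ^ j := pow_le_pow_left₀ (by positivity) (by nlinarith) j
    have : (0 : ℝ) ≤ 4 ^ t * b ^ 2 := by positivity
    linarith
  · have h2 : (a ^ 2) ^ j ≤ (4 * b ^ 2) ^ j := pow_le_pow_left₀ (by positivity) (by nlinarith) j
    have h3 : (b ^ 2) ^ j ≤ b ^ 2 :=
      pow_le_of_le_one (by positivity) (by nlinarith) (by omega)
    have h4 : (4 : ℝ) ^ j ≤ 4 ^ t := pow_le_pow_right₀ (by norm_num) ht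
    have h5 : (0 : ℝ) ≤ (4 * ρ ^ 2) ^ j := by positivity
    rw [mul_pow] at h2
    have := mul_le_mul h4 h3 (by positivity) (by positivity)
    linarith

theorem map_sum' {A T : Type} [AddCommGroup A] [DecidableEq T] (ψ : AddChar A ℂ) (F : Finset T)
    (f : T → A) : ψ (∑ t ∈ F, f t) = ∏ t ∈ F, ψ (f t) := by
  induction F using Finset.induction_on with
  | empty => simp
  | insert a s ha ih => rw [sum_insert ha, prod_insert ha, AddChar.map_add_eq_mul, ih]

theorem fac {A I T : Type} [AddCommGroup A] [Fintype I] [Fintype T] [DecidableEq T]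
    (ψ : AddChar A ℂ) (F : Finset T) (π : I → ℝ) (hπ : PV π) (ι : I → A) :
    ∑ J : T → I, (wt π J : ℂ) * ψ (∑ t ∈ F, ι (J t)) = (∑ i, (π i : ℂ) * ψ (ι i)) ^ F.card := by
  have e := Fintype.prod_sum fun (t : T) (i : I) => (π i : ℂ) * if t ∈ F then ψ (ι i) else 1
  have e1 : ∀ t : T, ∑ i, (π i : ℂ) * (if t ∈ F then ψ (ι i) else 1) =
      if t ∈ F then ∑ i, (π i : ℂ) * ψ (ι i) else 1 := by
    intro t
    split_ifs
    · rfl
    · simp only [mul_one]
      exact_mod_cast hπ.2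
  rw [prod_congr rfl fun t _ => e1 t, Fintype.prod_ite_mem, prod_const] at e
  rw [e]
  refine sum_congr rfl fun J _ => ?_
  rw [prod_mul_distrib, Fintype.prod_ite_mem, map_sum', wt, Complex.ofReal_prod]

end OkL

open OkL in
theorem ok : OkS := by
  intro L Q _ _ t k0 π π' ρ η0 hπ hπ' h2 hρ hη h3 h4 h5 h6
  have hL : (0 : ℝ) < L := Nat.cast_pos.2 (NeZero.pos L)
  refine ⟨hπ, fun η hη' => ?_, 4 * ρ ^ 2, by positivity, h4, fun T _ _ hT F hF => ?_⟩
  · have hη0 : 0 < η := hη.trans_le hη'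
    have p := pars π' (fun i : Fin L => ((i : ℕ) : ZMod (L * Q)))
      (fun a θ => ZMod.stdAddChar (a * θ)) ((L * Q : ℕ) : ℝ) (fun a b => by convert orthZ a b)
    have d := diag (Nat.le_mul_of_pos_right L (NeZero.pos Q)) π' hπ' h2
    have hQ : (0 : ℝ) ≤ Q := Nat.cast_nonneg Q
    calc cnt (fun θ : ZMod (L * Q) => η < ‖∑ i, (π i : ℂ) * (st L Q).χ i θ‖)
        ≤ ∑ θ : ZMod (L * Q), 4 / η ^ 2 * ‖∑ i, (π' i : ℂ) * (st L Q).χ i θ‖ ^ 2 := by
          refine sum_le_sum fun θ _ => ?_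
          unfold oi
          split_ifs with h
          · have := near π π' _ (h5 θ)
            have h7 : η / 2 ≤ ‖∑ i, (π' i : ℂ) * (st L Q).χ i θ‖ := by linarith
            have := pow_le_pow_left₀ (by positivity) h7 2
            rw [div_mul_eq_mul_div, le_div_iff₀ (by positivity)]
            linarith
          · positivity
      _ = 4 / η ^ 2 * (Q * (L * ∑ i, ∑ j, π' i * π' j *
            oi (((i : ℕ) : ZMod (L * Q)) = ((j : ℕ) : ZMod (L * Q))))) := by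
          rw [← mul_sum]
          congr 1
          refine p.trans ?_
          push_cast
          ring
      _ ≤ 4 / η ^ 2 * (Q * 2) := by gcongr
      _ = 8 * Q / η ^ 2 := by ring
  · have hA : (Fintype.card (ZMod (3 * L)) : ℝ) = 3 * L := by simp
    have p := pars (wt π) (fun J : T → Fin L => ∑ t ∈ F, ((J t : ℕ) : ZMod (3 * L)))
      (fun a (ψ : AddChar (ZMod (3 * L)) ℂ) => ψ a) _ (fun a b => by convert orthA a b)
    have p' := pars π' (fun i : Fin L => ((i : ℕ) : ZMod (3 * L)))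
      (fun a (ψ : AddChar (ZMod (3 * L)) ℂ) => ψ a) _ (fun a b => by convert orthA a b)
    have d := diag (by omega : L ≤ 3 * L) π' hπ' h2
    have b : ∑ ψ : AddChar (ZMod (3 * L)) ℂ,
        ‖∑ J : T → Fin L, (wt π J : ℂ) * ψ (∑ t ∈ F, ((J t : ℕ) : ZMod (3 * L)))‖ ^ 2 ≤
        ∑ ψ : AddChar (ZMod (3 * L)) ℂ, (4 ^ t * ‖∑ i : Fin L, (π' i : ℂ) *
          ψ ((i : ℕ) : ZMod (3 * L))‖ ^ 2 + (4 * ρ ^ 2) ^ F.card) := by
      refine sum_le_sum fun ψ _ => ?_
      rw [fac ψ F π hπ fun i : Fin L => ((i : ℕ) : ZMod (3 * L)), norm_pow]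
      refine pw (norm_nonneg _) (norm_nonneg _) ?_ hρ (near π π' _ (h6 ψ)) hF.card_pos
        (hT ▸ card_le_univ F)
      refine (norm_sum_le _ _).trans (le_of_eq (Eq.trans ?_ hπ'.2))
      exact sum_congr rfl fun i _ => by simp [abs_of_nonneg (hπ'.1 i)]
    rw [p, sum_add_distrib, ← mul_sum, p', sum_const, card_univ, AddChar.card_eq, nsmul_eq_mul,
      hA] at b
    have e : ∑ J : T → Fin L, ∑ J' : T → Fin L, wt π J * wt π J' *
        oi (∑ t ∈ F, -((J t : ℕ) : ZMod (3 * L)) = ∑ t ∈ F, -((J' t : ℕ) : ZMod (3 * L))) ≤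
        6 * 4 ^ t / (Fintype.card (ZMod (3 * L)) : ℝ) + (4 * ρ ^ 2) ^ F.card := by
      simp only [sum_neg_distrib, neg_inj]
      rw [hA, div_add' _ _ _ (by positivity), le_div_iff₀ (by positivity)]
      have h8 : (0 : ℝ) ≤ 4 ^ t := by positivity
      nlinarith [mul_le_mul_of_nonneg_left d h8]
    exact e

end Pool.Agent.MP_154433_an.T7

end
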