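import Pool.Agent.MP_154433_an.t7.SpecE
import Pool.Agent.MP_154433_an.p4.A8

/-! Row `OwnP`: the compact step in the slot that owns the direction. -/

set_option autoImplicit false
set_option linter.unusedVariables false
set_option linter.unusedSectionVars false

open MeasureTheory ProbabilityTheory Filter Topology Function Finset ComplexConjugate
open scoped BigOperators
open Fib27 (BM)

noncomputable section

namespace T4x

open T3x GfL

variable [Grp]

namespace OwnPL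

variable (F : Fd) {X Z : Sys} {C : MeasurableSpace X.X} {p : Bool → Z.X → X.X}

include F

lemma sw (hp : Pair X C Z p) (c : X.X → ℂ) (hc : BM X.μ C c) :
    (fun z => c (p true z)) =ᵐ[Z.μ] fun z => c (p false z) :=
  F.a.keq_fun C Z.μ X.μ _ _ c (hp.emb true).mp (hp.emb false).mp (hp.com true) hc.1

lemma star1 (hC : Fac X C) (hp : Pair X C Z p) (c : X.X → ℂ) (hc : BM X.μ C c) :
    Star p (fun _ => 1) c c := by
  simp only [Star, one_mul]
  exact ((condExp_congr_ae (sw F hp c hc)).trans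
    (BM.ce_self (F.t.fpull Z X (p false) X.ms (hp.emb false) (F.t.top X)).le
      (F.a.bm_comp X.ms Z.μ X.μ _ c (hp.emb false).mp (hc.mono hC.le)))).symm

lemma split {u : Γ} (hX : Nice X) (hC : Fac X C) (hp : Pair X C Z p) (hI : Inv X {u} ≤ C)
    (k : X.X → ℂ) (hk : BM X.μ (KK X u C) k) (ε : ℝ) (hε : 0 < ε) :
    ∃ (n : ℕ) (a : Fin n → X.X → ℂ), (∀ j, BM X.μ X.ms (a j) ∧ (BM X.μ C (a j) ∨
      ∃ H g, BM Z.μ (Inv Z {u}) H ∧ BM X.μ X.ms g ∧ Star p H g (a j) ∧ X.μ[g | C] =ᵐ[X.μ] 0)) ∧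
      ∫ x, ‖k x - ∑ j, a j x‖ ^ 2 ∂X.μ ≤ ε := by
  have mp : ∀ b, @MeasurePreserving _ _ Z.ms X.ms (p b) Z.μ X.μ := fun b => (hp.emb b).mp
  have hP := F.t.fpull Z X (p false) X.ms (hp.emb false) (F.t.top X)
  have b0 : ∀ c, BM X.μ X.ms c → BM Z.μ (pull Z.μ (p false) X.ms) fun z => c (p false z) :=
    fun c hc => F.a.bm_comp X.ms Z.μ X.μ _ c (mp false) hc
  obtain ⟨n, H, g, k', h1, h2⟩ := F.kb.span X u C Z p hX hC hp k hk ε hε
  have key : ∀ i, ∃ k1 k2 : X.X → ℂ, BM X.μ C k1 ∧ (BM X.μ X.ms k2 ∧ ∃ g', BM X.μ X.ms g' ∧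
      Star p (H i) g' k2 ∧ X.μ[g' | C] =ᵐ[X.μ] 0) ∧ k' i =ᵐ[X.μ] fun x => k1 x + k2 x := by
    intro i
    obtain ⟨a1, a2, a3, a4⟩ := h1 i
    have aH := a1.mono (F.t.finv Z {u}).le
    have hc := a2.ce C
    have hc' := hc.mono hC.le
    obtain ⟨k0, c1, c2⟩ := F.ka.star X C Z p hC hp _ _ aH (BM.const 1)
    obtain ⟨k2, d1, d2⟩ := F.ka.star X C Z p hC hp _ _ aH (a2.sub hc')
    simp only [Star, mul_one] at c2
    have hk0 : BM X.μ C k0 := by
      refine (c1.of_aesm ((F.t.inv_iff X {u} k0 c1.1).2 fun h hh => desc (mp false)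
        (bm_comp (X.mp h) c1) c1 ?_)).mono hI
      have e1 := F.a.keq_fun X.ms Z.μ X.μ _ _ k0 (mpc (mp false) (Z.mp h))
        (mpc (X.mp h) (mp false)) ((hp.emb false).eqv h) c1.1
      have e2 := F.t.ce Z _ h (H i) hP aH.integrable
      filter_upwards [e1, (Z.mp h).quasiMeasurePreserving.ae c2, e2, c2, condExp_congr_ae
        (m := pull Z.μ (p false) X.ms) ((F.t.inv_iff Z {u} _ aH.1).1 a1.1 h hh)]
        with z z1 z2 z3 z4 z5
      exact z1.symm.trans (z2.trans (z3.symm.trans (z5.trans z4.symm)))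
    refine ⟨fun x => (X.μ[g i | C]) x * k0 x, k2, hc.mul hk0, ⟨d1, _, a2.sub hc', d2, ?_⟩,
      desc (mp false) a3 ((hc'.mul c1).add d1) ?_⟩
    · filter_upwards [condExp_sub a2.integrable hc'.integrable C, BM.ce_self hC.le hc]
        with x x1 x2
      exact x1.trans (by rw [Pi.sub_apply, x2, sub_self]; rfl)
    · have e1 : (fun z => H i z * g i (p true z)) =ᵐ[Z.μ]
          (fun z => (X.μ[g i | C]) (p false z) * H i z) +
            fun z => H i z * (g i (p true z) - (X.μ[g i | C]) (p true z)) := by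
        filter_upwards [sw F hp _ hc] with z hz
        rw [Pi.add_apply, hz]
        ring
      filter_upwards [a4, condExp_congr_ae (m := pull Z.μ (p false) X.ms) e1, condExp_add
        ((bm_comp (mp false) hc').mul aH).integrable
        (aH.mul (bm_comp (mp true) (a2.sub hc'))).integrable (pull Z.μ (p false) X.ms),
        Fib27.ce_mul hP.le (b0 _ hc') aH, c2, d2] with z z1 z2 z3 z4 z5 z6
      rw [z1, z2, z3, Pi.add_apply, z4, z5, z6]
  choose k1 k2 a1 a2 a3 using key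
  refine ⟨n + n, Fin.append k1 k2, fun i => ?_, le_trans (le_of_eq (integral_congr_ae ?_)) h2⟩
  · refine Fin.addCases (fun j => ?_) (fun j => ?_) i
    · rw [Fin.append_left]; exact ⟨(a1 j).mono hC.le, Or.inl (a1 j)⟩
    · rw [Fin.append_right]; exact ⟨(a2 j).1, Or.inr ⟨H j, (a2 j).2.imp fun _ h =>
        ⟨(h1 j).1, h⟩⟩⟩
  · filter_upwards [ae_all_iff.2 a3] with x hx
    simp only [Fin.sum_univ_add, Fin.append_left, Fin.append_right, hx, sum_add_distrib]

end OwnPL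

open OwnPL in
theorem ownP (F : Fd) (G : GfP) (hV : VanP) : OwnP := by
  intro ν ν' X ι _ _ r A B O i0 u hu hX hA hB hBA hg
  have ex : ∀ i, ∃ Z p, Pair X (A i) Z p := fun i =>
    F.rp Bool (fun _ => X) X (A i) (fun _ => id) false (fun _ => hX) (hA i)
      (fun _ => (F.t.emb_id X).mp) fun _ _ _ _ => EventuallyEq.rfl
  choose Z p hp using ex
  refine G.dense ν ν' X ι r _ (fun i => {k | BM X.μ X.ms k ∧ (BM X.μ (A i) k ∨ (i = i0 ∧
    ∃ H g, BM (Z i).μ (Inv (Z i) {u}) H ∧ BM X.μ X.ms g ∧ Star (p i) H g k ∧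
      X.μ[g | A i] =ᵐ[X.μ] 0))}) (fun i => ?_) (fun _ _ h => h.1) (fun i k hk ε hε => ?_)
    fun f hf => ?_
  · rcases eq_or_ne i i0 with rfl | e
    · rw [update_self]
      exact (F.kb.fac X u _ hX (hA i)).le
    · rw [update_of_ne e]
      exact (hA i).le
  · rcases eq_or_ne i i0 with rfl | e
    · rw [update_self] at hk
      obtain ⟨n, a, h1, h2⟩ :=
        split F hX (hA i) (hp i) ((hB.inv u hu).trans hBA) k hk ε hε
      exact ⟨n, a, fun j => ⟨(h1 j).1, (h1 j).2.imp_right fun h => ⟨rfl, h⟩⟩, h2⟩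
    · rw [update_of_ne e] at hk
      exact ⟨1, fun _ => k, fun _ => ⟨hk.mono (hA i).le, Or.inl hk⟩, by simpa using hε.le⟩
  · by_cases hall : ∀ i, BM X.μ (A i) (f i)
    · exact hg f hall
    obtain ⟨i1, hi1⟩ := not_forall.1 hall
    obtain rfl : i1 = i0 := ((hf i1).2.resolve_left hi1).1
    have key : ∀ i, ∃ H g, (BM (Z i).μ (Inv (Z i) {u}) H ∧ BM X.μ X.ms g ∧ BM X.μ X.ms (f i) ∧
        Star (p i) H g (f i)) ∧ (¬ BM X.μ (A i) (f i) → X.μ[g | A i] =ᵐ[X.μ] 0) := fun i => by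
      rcases (hf i).2 with h | ⟨-, H, g, a1, a2, a3, a4⟩
      · exact ⟨fun _ => 1, f i, ⟨BM.const 1, (hf i).1, (hf i).1, star1 F (hA i) (hp i) _ h⟩,
          fun h' => absurd h h'⟩
      · exact ⟨H, g, ⟨a1, a2, (hf i).1, a3⟩, fun _ => a4⟩
    choose H g a1 a2 using key
    have h0 : X.μ[g i1 | B] =ᵐ[X.μ] 0 := by
      refine (condExp_condExp_of_le hBA (hA i1).le).symm.trans
        ((condExp_congr_ae (a2 i1 hi1)).trans ?_)
      rw [condExp_zero]
    exact sm_of (hV ν' ν X ι r A B O i1 Z p u hu hA hp hg hB.g0 H g f a1 h0)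
      (hV ν' ν' X ι r A B O i1 Z p u hu hA hp (fun _ _ => by simp) hB.g0 H g f a1 h0)
      fun M => n2_sub (bm_avg F.t (fun i => (hf i).1) M) (bm_avg F.t (fun i => (hf i).1) M)

end T4x

end
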