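import Pool.Agent.MP_154433_an.t7.SpecF

/-! Popular values over the points of a set with small energy. -/

set_option autoImplicit false

open Finset
open scoped BigOperators

noncomputable section

namespace Pool.Agent.MP_154433_an.T7

namespace PopL

theorem o1 {p : Prop} (h : p) : oi p = 1 := if_pos h

theorem o0 {p : Prop} (h : ¬ p) : oi p = 0 := if_neg h

theorem nn (p : Prop) : 0 ≤ oi p := by
  by_cases h : p
  · rw [o1 h]; exact zero_le_one
  · rw [o0 h]

theorem mono {p q : Prop} (h : p → q) : oi p ≤ oi q := by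
  by_cases c : p
  · rw [o1 c, o1 (h c)]
  · rw [o0 c]; exact nn q

theorem fib {A : Type} [Fintype A] (y : A) (p : A → Prop) : ∑ z, oi (y = z ∧ p z) = oi (p y) := by
  rw [sum_eq_single y (fun z _ h => o0 fun c => h c.1.symm) fun h => (h (mem_univ y)).elim]
  simp only [true_and]

theorem fib_le {Θ : Type} (S : Finset Θ) (y : Θ) (p : Prop) : ∑ θ ∈ S, oi (p ∧ y = θ) ≤ oi p := by
  by_cases h : y ∈ S
  · rw [sum_eq_single y (fun z _ h => o0 fun c => h c.2.symm) fun c => (c h).elim]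
    exact mono And.left
  · rw [sum_eq_zero fun z hz => o0 fun c : p ∧ y = z => h (c.2 ▸ hz)]
    exact nn p

/-- a small set is enumerated -/
theorem enum {Θ : Type} [Nonempty Θ] (S : Finset Θ) (m : ℕ) (h : S.card ≤ m) :
    ∃ f : Fin m → Θ, ∀ θ ∈ S, ∃ u, f u = θ := by
  obtain ⟨e⟩ : Nonempty (S ↪ Fin m) := Function.Embedding.nonempty_of_card_le (by simpa using h)
  exact ⟨Function.extend e Subtype.val fun _ => Classical.arbitrary Θ, fun θ hθ =>
    ⟨e ⟨θ, hθ⟩, e.injective.extend_apply _ _ _⟩⟩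

end PopL

open PopL in
theorem pop : PopS := by
  classical
  intro δ K hδ hK
  have hm : (0 : ℝ) < (⌈2 / δ⌉₊ + 1 : ℕ) := by positivity
  refine ⟨δ ^ 2 / (4 * K) / (⌈2 / δ⌉₊ + 1 : ℕ), ⌈2 / δ⌉₊ + 1, by positivity, by omega, ?_⟩
  intro A Θ X _ _ _ _
  set m := ⌈2 / δ⌉₊ + 1
  have h1 : ∀ (v : X → A × Θ) (z : A), ∃ f : Fin m → Θ, 0 < ∑ a, oi ((v a).1 = z) → ∀ a,
      δ / 2 * ∑ b, oi ((v b).1 = z) ≤ ∑ b, oi ((v b).1 = z ∧ (v b).2 = (v a).2) →
      ∃ u, f u = (v a).2 := by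
    intro v z
    by_cases c : 0 < ∑ a, oi ((v a).1 = z)
    swap
    · exact ⟨fun _ => Classical.arbitrary Θ, fun h => (c h).elim⟩
    let S := (univ.image fun a => (v a).2).filter fun θ =>
      δ / 2 * ∑ b, oi ((v b).1 = z) ≤ ∑ b, oi ((v b).1 = z ∧ (v b).2 = θ)
    have a1 : (S.card : ℝ) * (δ / 2 * ∑ b, oi ((v b).1 = z)) ≤ ∑ b, oi ((v b).1 = z) := by
      rw [← nsmul_eq_mul]
      refine (card_nsmul_le_sum S _ _ fun θ hθ => (mem_filter.1 hθ).2).trans ?_
      rw [sum_comm]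
      exact sum_le_sum fun b _ => fib_le S _ _
    have a2 : (S.card : ℝ) ≤ 2 / δ := by
      rw [le_div_iff₀ hδ]
      nlinarith
    have a3 : S.card ≤ ⌈2 / δ⌉₊ := by exact_mod_cast a2.trans (Nat.le_ceil _)
    obtain ⟨f, hf⟩ := enum S m (by omega)
    exact ⟨f, fun _ a h => hf _ (mem_filter.2 ⟨mem_image_of_mem _ (mem_univ a), h⟩)⟩
  choose f hf using h1
  refine ⟨fun u v z => f v z u, fun v E φ hg he => ?_⟩
  have hN : (0 : ℝ) < Fintype.card X := by exact_mod_cast Fintype.card_pos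
  have : Nonempty A := ⟨(v (Classical.arbitrary X)).1⟩
  have hA : (0 : ℝ) < Fintype.card A := by exact_mod_cast Fintype.card_pos
  set r : A → ℝ := fun z => ∑ a, oi ((v a).1 = z) with hr
  set g : A → ℝ := fun z => ∑ a, oi ((v a).1 = z ∧ z ∈ E ∧ φ z = (v a).2) with hg'
  have s1 : ∑ z, r z = Fintype.card X := by
    rw [sum_comm, sum_congr rfl fun a _ => (show ∑ z, oi ((v a).1 = z) = 1 by
      simpa only [and_true, o1 trivial] using fib (v a).1 fun _ => True)]
    simp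
  have s2 : δ * Fintype.card X ≤ ∑ z, g z := by
    rw [sum_comm, sum_congr rfl fun a _ => fib (v a).1 fun z => z ∈ E ∧ φ z = (v a).2]
    exact hg
  have s3 : ∑ z, r z ^ 2 ≤ K * (Fintype.card X : ℝ) ^ 2 / Fintype.card A := by
    refine le_trans (le_of_eq ?_) he
    rw [cnt, Fintype.sum_prod_type]
    simp only [hr, sq, sum_mul_sum]
    rw [sum_comm]
    refine sum_congr rfl fun a _ => ?_
    rw [sum_comm]
    refine sum_congr rfl fun b _ => ?_
    rw [← fib (v a).1 fun z => z = (v b).1]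
    refine sum_congr rfl fun z _ => ?_
    by_cases c : (v a).1 = z
    · simp only [c, true_and, o1 trivial, one_mul, eq_comm]
    · rw [o0 c, zero_mul, o0 fun h => c h.1]
  have gr : ∀ z, g z ≤ r z := fun z => sum_le_sum fun a _ => mono And.left
  have r0 : ∀ z, 0 ≤ r z := fun z => sum_nonneg fun a _ => nn _
  let R : A → Prop := fun z => 0 < g z ∧ δ / 2 * r z ≤ g z
  have s4 : ∑ z, g z ≤ ∑ z, (oi (R z) * r z + δ / 2 * r z) := sum_le_sum fun z _ => by
    have := mul_nonneg (half_pos hδ).le (r0 z)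
    by_cases c : R z
    · rw [o1 c]
      linarith [gr z]
    · rw [o0 c]
      rcases not_and_or.1 c with c | c <;> linarith [not_lt.1 (show ¬ δ / 2 * r z < g z from
        fun h => c (by linarith))]
  rw [sum_add_distrib, ← mul_sum, s1] at s4
  have s5 := sum_mul_sq_le_sq_mul_sq univ (fun z => oi (R z)) r
  rw [sum_congr rfl fun z _ => (show oi (R z) ^ 2 = oi (R z) by
    by_cases c : R z
    · rw [o1 c, one_pow]
    · rw [o0 c, zero_pow two_ne_zero])] at s5
  have p0 : 0 ≤ ∑ z, oi (R z) := sum_nonneg fun z _ => nn _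
  have s6 : δ ^ 2 / (4 * K) * Fintype.card A ≤ ∑ z, oi (R z) := by
    have b1 : (δ / 2 * Fintype.card X) ^ 2 ≤ (∑ z, oi (R z) * r z) ^ 2 :=
      pow_le_pow_left₀ (by positivity) (by linarith) 2
    have b2 := b1.trans (s5.trans (mul_le_mul_of_nonneg_left s3 p0))
    rw [← mul_div_assoc, le_div_iff₀ hA] at b2
    rw [div_mul_eq_mul_div, div_le_iff₀ (by positivity)]
    refine le_of_mul_le_mul_right ?_ (pow_pos hN 2)
    nlinarith
  have s7 : ∑ z, oi (R z) ≤ ∑ u, cnt fun z => z ∈ E ∧ φ z = f v z u := by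
    simp only [cnt]
    rw [sum_comm]
    refine sum_le_sum fun z _ => ?_
    by_cases c : R z
    swap
    · rw [o0 c]
      exact sum_nonneg fun u _ => nn _
    obtain ⟨a, -, ha⟩ := exists_ne_zero_of_sum_ne_zero c.1.ne'
    obtain ⟨-, a2, a3⟩ : (v a).1 = z ∧ z ∈ E ∧ φ z = (v a).2 := by_contra fun h => ha (o0 h)
    obtain ⟨u, hu⟩ := hf v z (c.1.trans_le (gr z)) a (c.2.trans
      (sum_le_sum fun b _ => mono fun h => ⟨h.1, h.2.2.symm.trans a3⟩))
    exact (mono fun _ => ⟨a2, a3.trans hu.symm⟩).trans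
      (single_le_sum (f := fun u => oi (z ∈ E ∧ φ z = f v z u)) (fun u _ => nn _) (mem_univ u))
  obtain ⟨u, -, hu⟩ := exists_le_of_sum_le (s := (univ : Finset (Fin m))) univ_nonempty
    (f := fun _ => δ ^ 2 / (4 * K) / m * Fintype.card A)
    (g := fun u => cnt fun z => z ∈ E ∧ φ z = f v z u) (by
      refine le_trans (le_of_eq ?_) (s6.trans s7)
      rw [sum_const, card_univ, Fintype.card_fin, nsmul_eq_mul]
      field_simp)
  exact ⟨u, hu⟩

end Pool.Agent.MP_154433_an.T7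

end
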