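import Pool.Agent.MP_154433_an.t7.SpecF

/-! Row Pred: a small family of functions predicts the frequency. -/

set_option autoImplicit false

open Finset

noncomputable section

namespace Pool.Agent.MP_154433_an.T7

theorem pred (hIter : IterS) (hWrap : WrapS) : PredS := by
  classical
  intro δ hδ B
  obtain ⟨η0, hη0, hI⟩ := hIter δ hδ B
  refine ⟨η0, hη0, fun C1 r hC1 => ?_⟩
  obtain ⟨δ1, C, e, hδ1, hC, hI⟩ := hI r
  obtain ⟨δ', m, hδ', -, hW⟩ := hWrap δ1 C1 hδ1 hC1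
  refine ⟨δ', 1 + C + 2 ^ r + m, e + 1, hδ', by positivity, fun S x c k0 hS hc hk hn => ?_⟩
  obtain ⟨T, _, _, 𝓕, hT, hF, hR⟩ := hI S x c hS hc
  obtain ⟨pop, hP⟩ := hW S.A S.Θ T k0 hk (by rw [hT]; exact hn)
  refine ⟨(univ ×ˢ 𝓕 ×ˢ univ ×ˢ univ).image
    fun p : S.A × ((T → S.I) → S.Θ) × (T → Fin k0 → S.I) × Fin m => pop p.2.2.2 fun a =>
      (p.1 + ∑ t, -S.ι (p.2.2.1 t (a t)), p.2.1 fun t => p.2.2.1 t (a t)), ?_, ?_⟩
  · obtain ⟨x1, hA, hI', -⟩ := hS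
    have k1 : (1 : ℝ) ≤ k0 := by exact_mod_cast hk
    have p1 : x ≤ x ^ (e + 1) := le_self_pow₀ x1 (by omega)
    have p2 : x ^ e ≤ x ^ (e + 1) := pow_le_pow_right₀ x1 (by omega)
    have p3 : x ^ (e + 1) ≤ k0 * x ^ (e + 1) := le_mul_of_one_le_left (by linarith) k1
    have p4 : k0 * x ≤ k0 * x ^ (e + 1) := by gcongr
    have h1 : (((Fintype.card S.I : ℝ) ^ k0) ^ 2 ^ r) ≤ Real.exp (2 ^ r * (k0 * x)) := by
      have := Real.exp_nat_mul (k0 * x) (2 ^ r)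
      push_cast at this
      rw [this, Real.exp_nat_mul]
      gcongr
    have h2 : (m : ℝ) ≤ Real.exp m := by linarith [Real.add_one_le_exp (m : ℝ)]
    refine le_trans (Nat.cast_le.2 card_image_le) ?_
    simp only [card_product, card_univ, Fintype.card_fun, Fintype.card_fin, hT]
    push_cast
    refine le_trans (b := Real.exp x * (Real.exp (C * x ^ e) *
      (Real.exp (2 ^ r * (k0 * x)) * Real.exp m))) (by gcongr) ?_
    rw [← Real.exp_add, ← Real.exp_add, ← Real.exp_add]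
    refine Real.exp_le_exp.2 ?_
    have q1 : C * x ^ e ≤ C * (k0 * x ^ (e + 1)) := by gcongr; linarith
    have q2 : (2 : ℝ) ^ r * (k0 * x) ≤ 2 ^ r * (k0 * x ^ (e + 1)) := by gcongr
    have q3 : (m : ℝ) ≤ m * (k0 * x ^ (e + 1)) :=
      le_mul_of_one_le_right (by positivity) (by linarith)
    linarith
  · rintro π ⟨hπ, hSp, ρ, hρ, hkρ, hCol⟩ G E φ hG h
    obtain ⟨Λ, hΛ, hw⟩ := hR π G E φ hπ hSp hG h
    have hs : ∑ _w : S.A, δ1 = δ1 * S.n := by
      rw [sum_const, card_univ, nsmul_eq_mul, mul_comm, St.n]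
    rw [← hs] at hw
    obtain ⟨w, -, hw⟩ := exists_le_of_sum_le univ_nonempty hw
    obtain ⟨s, u, hu⟩ := hP S.I π (fun _ i => -S.ι i) ρ w (Λ w) E φ hπ hρ hkρ (hCol T hT) (by
      simpa only [sum_neg_distrib, ← sub_eq_add_neg] using hw)
    exact ⟨_, mem_image.2 ⟨(w, Λ w, s, u), by simp [hΛ w], rfl⟩, hu⟩

end Pool.Agent.MP_154433_an.T7

end
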