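import Pool.Agent.MP_154433_an.t7.SpecE

/-! The weighted average vanishes when one slot lies in the algebra of that slot. -/

set_option autoImplicit false
set_option linter.unusedVariables false
set_option linter.unusedSectionVars false

open MeasureTheory Filter Topology Finset
open scoped BigOperators ComplexConjugate

noncomputable section

namespace Pool.Agent.MP_154433_an.T7

open T3S (B1 MB1 Bd integral_exp meas_exp norm_exp_le_of)
open T4S (Gm Act wavg Van)

namespace ProdL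

lemma cut {L N : ℕ} (h : L ≤ N) (g : ℕ → ℂ) :
    ∑ n ∈ range N, (if n < L then g n else 0) = ∑ n ∈ range L, g n := by
  rw [← sum_filter]
  refine sum_congr ?_ fun _ _ => rfl
  ext n
  simp only [mem_filter, mem_range]
  omega

lemma fun_bound {w : ℕ → ℝ} {M N : ℕ} {L : ℕ → ℕ} (hM : M ≤ N) (hL : ∀ d < M, L d ≤ N)
    {C δ : ℝ} {F : ℕ → ℕ → ℕ → ℂ} (hF : InK N C F)
    (h : ∀ α, Atom α → ‖∑ d ∈ range M, (w d : ℂ) * win (L d) α d‖ ≤ δ) :
    ‖∑ d ∈ range M, (w d : ℂ) * win (L d) F d‖ ≤ C * δ := by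
  have e : ∀ α : ℕ → ℕ → ℕ → ℂ, pai N (fun n m d => if d < M then if n < L d then
      if m < L d then (w d : ℂ) / L d / L d else 0 else 0 else 0) α =
      ∑ d ∈ range M, (w d : ℂ) * win (L d) α d := fun α => by
    simp only [pai, ite_mul, zero_mul]
    rw [sum_congr rfl fun n _ => sum_congr rfl fun m _ => cut hM _,
      sum_congr rfl fun n _ => sum_comm, sum_comm]
    refine sum_congr rfl fun d hd => ?_
    have hd' := hL d (mem_range.1 hd)
    have e1 : ∀ n, ∑ m ∈ range N, (if n < L d then if m < L d then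
        (w d : ℂ) / L d / L d * α n m d else 0 else 0) = if n < L d then
        ∑ m ∈ range (L d), (w d : ℂ) / L d / L d * α n m d else 0 := fun n => by
      split_ifs
      · exact cut hd' _
      · exact sum_const_zero
    simp only [e1, cut hd', win, expect_eq_sum_div_card, card_range, sum_div, mul_sum]
    exact sum_congr rfl fun n _ => sum_congr rfl fun m _ => by ring
  rw [← e]
  exact hF _ _ fun α hα => by rw [e]; exact h α hα

variable {l : ℕ} {X : Type} [MeasurableSpace X] {μ : Measure X} [IsProbabilityMeasure μ]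
  {A : Gm l → X → X}

/-- the triple product -/
def tp (A : Gm l → X → X) (a b : Gm l) (p g q : X → ℂ) (d : ℕ) (x : X) : ℂ :=
  p x * (g (A ((d : ℤ) • a) x) * q (A ((d : ℤ) • b) x))

lemma tp_meas (hA : Act μ A) (a b : Gm l) {p g q : X → ℂ} (hp : MB1 p) (hg : Measurable g)
    (hq : MB1 q) (d : ℕ) : Measurable (tp A a b p g q d) :=
  hp.1.mul ((hg.comp (hA.meas _)).mul (hq.1.comp (hA.meas _)))

lemma tp_le (a b : Gm l) {p q : X → ℂ} (g : X → ℂ) (hp : MB1 p) (hq : MB1 q) (d : ℕ) (x : X) :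
    ‖tp A a b p g q d x‖ ≤ ‖g (A ((d : ℤ) • a) x)‖ := by
  rw [tp, norm_mul, norm_mul]
  exact (mul_le_of_le_one_left (by positivity) (hp.2 x)).trans
    (mul_le_of_le_one_right (norm_nonneg _) (hq.2 _))

lemma tp_int (hA : Act μ A) (a b : Gm l) {p g q : X → ℂ} (hp : MB1 p) (hg : Measurable g)
    (hq : MB1 q) {K : ℝ} (hK : ∀ x, ‖g x‖ ≤ K) (d : ℕ) (v : Gm l) :
    Integrable (fun x => tp A a b p g q d (A v x)) μ :=
  Integrable.of_bound ((tp_meas hA a b hp hg hq d).comp (hA.meas v)).aestronglyMeasurable K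
    (Eventually.of_forall fun x => (tp_le a b g hp hq d _).trans (hK _))

lemma KX_le (hK : KcalS) (hA : Act μ A) {a b : Gm l} {N : ℕ} {C : ℝ} {u : X → ℂ}
    (hu : u ∈ KX A a b N C) (x : X) : ‖u x‖ ≤ C := by
  simpa [Orb, hA.zero] using hK.bound _ _ _ (hu.2 x) 0 N.succ_pos 0 N.succ_pos 0 N.succ_pos

lemma key (hK : KcalS) (hA : Act μ A) (a b : Gm l) {p u q : X → ℂ} (hp : MB1 p) (hq : MB1 q)
    {w : ℕ → ℝ} {M N : ℕ} {L : ℕ → ℕ} (hM : M ≤ N + 1) (hL : ∀ d < M, L d ≤ N + 1)
    (h1 : ∀ d, 1 ≤ L d) {C δ : ℝ} (hu : u ∈ KX A a b N C)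
    (h : ∀ α, Atom α → ‖∑ d ∈ range M, (w d : ℂ) * win (L d) α d‖ ≤ δ) :
    ‖∑ d ∈ range M, (w d : ℂ) * ∫ x, tp A a b p u q d x ∂μ‖ ≤ C * δ := by
  have hi := tp_int hA a b hp hu.1 hq (KX_le hK hA hu)
  let F : X → ℕ → ℕ → ℕ → ℂ := fun x n m d => tp A a b p u q d (A ((n : ℤ) • a + (m : ℤ) • b) x)
  have hi2 : ∀ d n, Integrable (fun x => 𝔼 m ∈ range (L d), F x n m d) μ := fun d n => by
    simp only [expect_eq_sum_div_card]
    exact (integrable_finsetSum _ fun m _ => hi d _).div_const _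
  have hi3 : ∀ d, Integrable (fun x => win (L d) (F x) d) μ := fun d => by
    simp only [win, expect_eq_sum_div_card (s := range (L d)) (f := fun n => 𝔼 m ∈ _, _)]
    exact (integrable_finsetSum _ fun n _ => hi2 d n).div_const _
  have e : ∀ d, ∫ x, tp A a b p u q d x ∂μ = ∫ x, win (L d) (F x) d ∂μ := fun d => by
    have hne : (range (L d)).Nonempty := nonempty_range_iff.2 (Nat.one_le_iff_ne_zero.1 (h1 d))
    simp only [win]
    rw [integral_exp _ fun n _ => hi2 d n, expect_congr rfl fun n _ =>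
      integral_exp _ fun m _ => hi d _]
    simp only [hA.integral _ (tp_meas hA a b hp hu.1 hq d).aestronglyMeasurable,
      expect_const hne]
  simp only [e, ← integral_const_mul]
  rw [← integral_finsetSum _ fun d _ => (hi3 d).const_mul _]
  refine (norm_integral_le_of_norm_le_const (C := C * δ)
    (Eventually.of_forall fun x => fun_bound hM hL ?_ h)).trans (by simp)
  have ha : Atom fun n m d => p (A ((n : ℤ) • a + (m : ℤ) • b) x) *
      q (A ((n : ℤ) • a + ((m + d : ℕ) : ℤ) • b) x) :=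
    ⟨fun n m => p (A ((n : ℤ) • a + (m : ℤ) • b) x), fun n z => q (A ((n : ℤ) • a + (z : ℤ) • b) x),
      0, 0, fun _ _ => hp.2 _, fun _ _ => hq.2 _, fun n m d => by simp [ee]⟩
  have h2 := hK.mul _ _ _ _ _ (hK.atom (N + 1) _ ha) (hu.2 x)
  rw [one_mul] at h2
  refine hK.congr _ _ _ _ (fun n _ m _ d _ => ?_) h2
  have e1 : (d : ℤ) • a + ((n : ℤ) • a + (m : ℤ) • b) = ((n + d : ℕ) : ℤ) • a + (m : ℤ) • b := by
    push_cast
    module
  have e2 : (d : ℤ) • b + ((n : ℤ) • a + (m : ℤ) • b) = (n : ℤ) • a + ((m + d : ℕ) : ℤ) • b := by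
    push_cast
    module
  simp only [F, tp, Orb, ← hA.add, e1, e2]
  ring

end ProdL

open ProdL in
theorem prod (hKcal : KcalS) : ProdS := by
  intro w hR hB l X _ μ _ A hA r i f ⟨hm, ⟨K0, hK0⟩, C, hC⟩ hq
  obtain ⟨K, hK1, hK⟩ : ∃ K : ℝ, 0 < K ∧ ∀ x, ‖f i x‖ ≤ K :=
    ⟨|K0| + 1, by positivity, fun x => by linarith [hK0 x, le_abs_self K0]⟩
  have hf : ∀ j, Measurable (f j) := fun j => by
    rcases (by fin_cases i <;> fin_cases j <;> simp : j = i ∨ j = i.rev) with rfl | rfl
    exacts [hm, hq.1]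
  have ep : ∀ g : Fin 2 → ℂ, ∏ j, g j = g i * g i.rev := fun g => by
    fin_cases i <;> simp [Fin.prod_univ_two, mul_comm]
  refine (tendsto_order.2 ⟨fun c hc => Eventually.of_forall fun M =>
    hc.trans_le (integral_nonneg fun x => sq_nonneg _), fun c hc => ?_⟩)
  obtain ⟨δ, hδ, hc'⟩ : ∃ δ : ℝ, 0 < δ ∧ 3 * K * ((|C| + 3) * δ) < c :=
    ⟨c / 2 / (3 * K * (|C| + 3)), by positivity, by
      rw [← mul_assoc, mul_div_cancel₀ _ (by positivity)]; linarith⟩
  filter_upwards [hR δ hδ, hB] with M ⟨L, h1, hL⟩ hM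
  obtain ⟨u, hu, hε⟩ := hC (M + (range M).sup L) δ hδ
  set S := wavg A w r f M with hS
  have hS3 : ∀ x, ‖S x‖ ≤ 3 * K := fun x => by
    refine (norm_sum_le _ _).trans ((sum_le_sum fun d _ => ?_).trans
      ((sum_mul _ _ K).symm.le.trans (mul_le_mul_of_nonneg_right hM hK1.le)))
    rw [norm_mul, Complex.norm_real, Real.norm_eq_abs, ep, norm_mul]
    exact mul_le_mul_of_nonneg_left ((mul_le_of_le_one_right (norm_nonneg _) (hq.2 _)).trans
      (hK _)) (abs_nonneg _)
  let p : X → ℂ := fun x => conj (S x) / ((3 * K : ℝ) : ℂ)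
  have hp : MB1 p := ⟨(Complex.continuous_conj.measurable.comp (hA.wavg_meas w r hf M)).div_const _,
    fun x => by
      rw [norm_div, RCLike.norm_conj, Complex.norm_real, Real.norm_of_nonneg (by positivity)]
      exact (div_le_one (by positivity)).2 (hS3 x)⟩
  have hi : ∀ d, Integrable (tp A (r i) (r i.rev) p (f i) (f i.rev) d) μ := fun d => by
    simpa [hA.zero] using tp_int hA (r i) (r i.rev) hp hm hq hK d 0
  have hi' : ∀ d, Integrable (tp A (r i) (r i.rev) p u (f i.rev) d) μ := fun d => by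
    simpa [hA.zero] using tp_int hA (r i) (r i.rev) hp hu.1 hq (KX_le hKcal hA hu) d 0
  have e : ∑ d ∈ range M, (w M d : ℂ) * ∫ x, tp A (r i) (r i.rev) p (f i) (f i.rev) d x ∂μ =
      (((∫ x, ‖S x‖ ^ 2 ∂μ) / (3 * K) : ℝ) : ℂ) := by
    simp only [← integral_const_mul]
    rw [← integral_finsetSum _ fun d _ => (hi d).const_mul _, ← integral_div,
      ← integral_complex_ofReal]
    refine integral_congr_ae (Eventually.of_forall fun x => ?_)
    have e1 : ∑ d ∈ range M, (w M d : ℂ) * tp A (r i) (r i.rev) p (f i) (f i.rev) d x =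
        p x * S x := by
      simp only [hS, wavg, ep, tp, mul_sum]
      exact sum_congr rfl fun d _ => by ring
    simp only [e1, p]
    rw [div_mul_eq_mul_div, Complex.conj_mul']
    push_cast
    rfl
  have hd : ∀ d, ‖∫ x, tp A (r i) (r i.rev) p (f i) (f i.rev) d x ∂μ -
      ∫ x, tp A (r i) (r i.rev) p u (f i.rev) d x ∂μ‖ ≤ δ := fun d => by
    have hm' : Measurable fun x => ‖f i x - u x‖ := (hm.sub hu.1).norm
    rw [← integral_sub (hi d) (hi' d)]
    refine (norm_integral_le_of_norm_le (g := fun x => ‖f i (A ((d : ℤ) • r i) x) -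
      u (A ((d : ℤ) • r i) x)‖) (Integrable.of_bound (hm'.comp (hA.meas _)).aestronglyMeasurable
      (K + C) (Eventually.of_forall fun x => ?_)) (Eventually.of_forall fun x => ?_)).trans
      ((hA.integral _ hm'.aestronglyMeasurable).le.trans hε)
    · rw [norm_norm]
      exact (norm_sub_le _ _).trans (add_le_add (hK _) (KX_le hKcal hA hu _))
    · refine le_of_eq_of_le ?_ (tp_le (A := A) (r i) (r i.rev) (fun y => f i y - u y) hp hq d x)
      simp only [tp]
      ring_nf
  have h2 := key hKcal hA (r i) (r i.rev) hp hq (w := w M) (by omega)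
    (fun d hd => by have := le_sup (f := L) (mem_range.2 hd); omega) h1 hu hL
  have h3 : ‖∑ d ∈ range M, (w M d : ℂ) * ∫ x, tp A (r i) (r i.rev) p (f i) (f i.rev) d x ∂μ -
      ∑ d ∈ range M, (w M d : ℂ) * ∫ x, tp A (r i) (r i.rev) p u (f i.rev) d x ∂μ‖ ≤ 3 * δ := by
    rw [← sum_sub_distrib]
    refine (norm_sum_le _ _).trans ((sum_le_sum fun d _ => ?_).trans
      ((sum_mul _ _ δ).symm.le.trans (mul_le_mul_of_nonneg_right hM hδ.le)))
    rw [← mul_sub, norm_mul, Complex.norm_real, Real.norm_eq_abs]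
    exact mul_le_mul_of_nonneg_left (hd d) (abs_nonneg _)
  have h4 := (norm_le_insert' _ _).trans (add_le_add h2 h3)
  rw [e, Complex.norm_real, Real.norm_eq_abs] at h4
  have h5 := (div_le_iff₀' (by positivity)).1 ((le_abs_self _).trans h4)
  have h6 : C * δ ≤ |C| * δ := mul_le_mul_of_nonneg_right (le_abs_self C) hδ.le
  refine (h5.trans (mul_le_mul_of_nonneg_left ?_ (by positivity))).trans_lt hc'
  linarith

end Pool.Agent.MP_154433_an.T7

end
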