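import Pool.Agent.MP_154433_an.t7.SpecF
import Pool.Agent.MP_154433_an.t7w.AgA
import Pool.Agent.MP_154433_an.h31.Samp

/-! Row R0: the first prediction. -/

set_option autoImplicit false
set_option linter.unusedVariables false

open Finset
open scoped BigOperators ComplexConjugate

noncomputable section

namespace Pool.Agent.MP_154433_an.T7

open T3S (B1)
open T7W.Ag (PW sq_cast list pig)

namespace R0L

lemma oi_nn (p : Prop) : 0 ≤ oi p := by
  unfold oi
  split_ifs <;> norm_num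

lemma oi_le (p : Prop) : oi p ≤ 1 := by
  unfold oi
  split_ifs <;> norm_num

lemma norm_one {α : Type} (E : Set α) (a : α) : ‖one E a‖ = oi (a ∈ E) := by
  rw [one, Complex.norm_real, Real.norm_of_nonneg (oi_nn _)]

variable (S : St) (c : S.A → S.I → ℂ)

lemma nrm (i : S.I) (θ : S.Θ) : ‖S.χ i θ‖ = 1 := AddChar.norm_apply _ _

/-- the coefficient at the label `i`, from the two values at `w - i` -/
def co (w : S.A) (j i : S.I) (b : ℂ) (θ : S.Θ) : ℂ :=
  c (w - S.ι i - S.ι j) i * conj (b * (S.χ j θ * c (w - S.ι i - S.ι j) j))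

lemma co_le (hc : B2 c) (w : S.A) (j i : S.I) {b : ℂ} (hb : ‖b‖ ≤ 1) (θ : S.Θ) :
    ‖co S c w j i b θ‖ ≤ 1 := by
  rw [co, norm_mul, Complex.norm_conj, norm_mul, norm_mul, nrm, one_mul]
  exact mul_le_one₀ (hc _ _) (by positivity) (mul_le_one₀ hb (norm_nonneg _) (hc _ _))

def K (π : S.I → ℝ) (E : Set S.A) (φ : S.A → S.Θ) (w : S.A) (j : S.I) (θ : S.Θ) : ℂ :=
  ∑ i, (π i : ℂ) * (co S c w j i (one E (w - S.ι i)) (φ (w - S.ι i)) * S.χ i θ)

lemma cs {π : S.I → ℝ} (hπ : PW π) {G : S.A → ℂ} (hG : B1 G) (E : Set S.A) (φ : S.A → S.Θ)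
    {δ : ℝ} (hδ : 0 < δ) (h : δ * S.n ≤ ‖S.form π G (one E) (S.tw φ c)‖) :
    δ ^ 2 * S.n ≤ ∑ w, ∑ j, π j * (oi (w - S.ι j ∈ E) * ‖K S c π E φ w j (φ (w - S.ι j))‖) := by
  have n0 : 0 < S.n := Nat.cast_pos.2 Fintype.card_pos
  let F : S.A → ℂ := fun y => ∑ i, (π i : ℂ) * (one E (y + S.ι i) * S.tw φ c y i)
  have a1 : δ * S.n ≤ ∑ y, ‖F y‖ := by
    refine h.trans ((norm_sum_le _ _).trans (sum_le_sum fun y _ => ?_))
    have : ∑ i, (π i : ℂ) * (G y * one E (y + S.ι i) * S.tw φ c y i) = G y * F y := by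
      simp only [F, mul_sum]
      exact sum_congr rfl fun i _ => by ring
    rw [this, norm_mul]
    exact mul_le_of_le_one_left (norm_nonneg _) (hG y)
  have a2 := sq_sum_le_card_mul_sum_sq (s := univ) (f := fun y => ‖F y‖)
  rw [card_univ] at a2
  have a3 : δ ^ 2 * S.n ≤ ∑ y, ‖F y‖ ^ 2 := by
    refine le_of_mul_le_mul_left ?_ n0
    calc S.n * (δ ^ 2 * S.n) = (δ * S.n) ^ 2 := by ring
      _ ≤ _ := pow_le_pow_left₀ (by positivity) a1 2
      _ ≤ _ := a2
  calc δ ^ 2 * S.n ≤ ∑ y, ‖F y‖ ^ 2 := a3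
    _ ≤ ‖((∑ y, ‖F y‖ ^ 2 : ℝ) : ℂ)‖ := by
        rw [Complex.norm_real]
        exact le_abs_self _
    _ = ‖∑ w, ∑ j, (π j : ℂ) * (one E (w - S.ι j) * K S c π E φ w j (φ (w - S.ι j)))‖ := by
        congr 1
        rw [Complex.ofReal_sum]
        simp only [sq_cast, F, map_sum, sum_mul_sum]
        simp only [K, mul_sum]
        rw [sum_comm]
        conv_rhs => rw [sum_congr rfl fun w _ => sum_comm, sum_comm]
        refine sum_congr rfl fun i _ => ?_
        rw [sum_comm]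
        conv_rhs => rw [sum_comm]
        refine sum_congr rfl fun j _ => ?_
        refine Fintype.sum_equiv (Equiv.addRight (S.ι i + S.ι j)) _ _ fun y => ?_
        simp only [Equiv.coe_addRight, co, St.tw, map_mul, Complex.conj_ofReal,
          show y + (S.ι i + S.ι j) - S.ι j = y + S.ι i by abel,
          show y + (S.ι i + S.ι j) - S.ι i = y + S.ι j by abel, add_sub_cancel_right]
        ring
    _ ≤ _ := (norm_sum_le _ _).trans (sum_le_sum fun w _ => (hπ.norm_le _).trans (le_of_eq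
        (sum_congr rfl fun j _ => by rw [norm_mul, norm_one])))

end R0L

open R0L in
theorem r0 (hSamp : SampS) (hList : ListS) : R0S := by
  classical
  intro δ hδ B
  obtain ⟨τ, hτ⟩ : ∃ τ, τ = δ ^ 2 := ⟨_, rfl⟩
  have τ0 : 0 < τ := by rw [hτ]; positivity
  obtain ⟨η, η0, η1, η2⟩ : ∃ η : ℝ, 0 < η ∧ η ≤ 1 ∧ η ≤ τ / 8 :=
    ⟨min 1 (τ / 8), by positivity, min_le_left _ _, min_le_right _ _⟩
  obtain ⟨L, L0, hL⟩ : ∃ L : ℕ, 0 < L ∧ 8 * B / (τ / 4) ^ 6 ≤ L :=
    ⟨⌈8 * B / (τ / 4) ^ 6⌉₊ + 1, Nat.succ_pos _, (Nat.le_ceil _).trans (by push_cast; linarith)⟩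
  have L0' : (0 : ℝ) < L := by exact_mod_cast L0
  refine ⟨(τ / 4) ^ 2 / 2, τ / (2 * L), 1 + 3 * (256 / η ^ 2 + 1) + L, by positivity,
    by positivity, by positivity, fun S x c ⟨x1, xA, xI, xT⟩ hc => ?_⟩
  obtain ⟨m, m0, hm, hm'⟩ : ∃ m : ℕ, 0 < m ∧ 64 * (2 * x + 2) ≤ η ^ 2 * m ∧
      (m : ℝ) ≤ (256 / η ^ 2 + 1) * x := by
    have a1 := Nat.le_ceil (256 / η ^ 2 * x)
    have a0 : 0 < 256 / η ^ 2 * x := by positivity
    refine ⟨⌈256 / η ^ 2 * x⌉₊, Nat.ceil_pos.2 a0, ?_, ?_⟩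
    · calc 64 * (2 * x + 2) ≤ 256 * x := by linarith
        _ = η ^ 2 * (256 / η ^ 2 * x) := by field_simp
        _ ≤ _ := by gcongr
    · have := (Nat.ceil_lt_add_one a0.le).le
      linarith
  let P : (S.A × (Fin m → S.I × Bool × S.Θ)) × S.I → Finset S.Θ := fun z => univ.filter fun θ =>
    3 * τ / 8 ≤ ‖(m : ℂ)⁻¹ * ∑ r, co S c z.1.1 z.2 (z.1.2 r).1 (if (z.1.2 r).2.1 then 1 else 0)
      (z.1.2 r).2.2 * S.χ (z.1.2 r).1 θ‖
  obtain ⟨f, hf⟩ := list P L
  refine ⟨univ.image fun z : (S.A × (Fin m → S.I × Bool × S.Θ)) × Fin L =>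
    fun J => f z.2 (z.1, J ()), ?_, fun π G E φ hπ hS hG h => ?_⟩
  · have a1 : (Fintype.card (S.I × Bool × S.Θ) : ℝ) ≤ Real.exp (3 * x) := by
      have : (2 : ℝ) ≤ Real.exp x := by linarith [Real.add_one_le_exp x]
      rw [Fintype.card_prod, Fintype.card_prod, Fintype.card_bool, show 3 * x = x + (x + x) by ring,
        Real.exp_add, Real.exp_add]
      push_cast
      gcongr
    have x2 : x ≤ x ^ 2 := le_self_pow₀ x1 two_ne_zero
    calc _ ≤ (Fintype.card ((S.A × (Fin m → S.I × Bool × S.Θ)) × Fin L) : ℝ) := by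
          exact_mod_cast card_image_le
      _ = Fintype.card S.A * (Fintype.card (S.I × Bool × S.Θ) : ℝ) ^ m * L := by
          rw [Fintype.card_prod, Fintype.card_prod, Fintype.card_fun, Fintype.card_fin,
            Fintype.card_fin]
          push_cast
          rfl
      _ ≤ Real.exp x * Real.exp (3 * x) ^ m * Real.exp L := by
          gcongr
          linarith [Real.add_one_le_exp (L : ℝ)]
      _ = Real.exp (x + m * (3 * x) + L) := by rw [Real.exp_add, Real.exp_add, Real.exp_nat_mul]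
      _ ≤ _ := by
          refine Real.exp_le_exp.2 ?_
          have b1 := mul_le_mul_of_nonneg_right hm' (show 0 ≤ 3 * x by linarith)
          have b2 := mul_le_mul_of_nonneg_left (x1.trans x2) L0'.le
          calc x + m * (3 * x) + L ≤ x ^ 2 + (256 / η ^ 2 + 1) * x * (3 * x) + L * x ^ 2 := by
                linarith
            _ = _ := by ring
  have hw : PW π := ⟨hπ.1, hπ.2⟩
  have o1 : ∀ a, ‖one E a‖ ≤ 1 := fun a => (norm_one E a).trans_le (oi_le _)
  have k1 : ∀ w j i θ, ‖co S c w j i (one E (w - S.ι i)) (φ (w - S.ι i)) * S.χ i θ‖ ≤ 1 :=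
    fun w j i θ => by rw [norm_mul, nrm, mul_one]; exact co_le S c hc w j i (o1 _) _
  have a1 := cs S c hw hG E φ hδ h
  choose t _ ht using fun w => Mau.samp (P := S.I × S.Θ) π hπ.1 hπ.2
    (fun z i => co S c w z.1 i (one E (w - S.ι i)) (φ (w - S.ι i)) * S.χ i z.2)
    (fun z i => k1 w _ _ _) η0 η1 (L := 2 * x) (by
      rw [Fintype.card_prod, two_mul, Real.exp_add]
      push_cast
      gcongr) m m0 hm
  let t' : S.A → Fin m → S.I × Bool × S.Θ := fun w r =>
    (t w r, decide (w - S.ι (t w r) ∈ E), φ (w - S.ι (t w r)))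
  have a2 : ∀ w j θ, τ / 2 ≤ ‖K S c π E φ w j θ‖ → ∃ i, f i ((w, t' w), j) = θ := by
    intro w j θ ha
    have c1 : ∀ b, ‖(m : ℂ)⁻¹ * ∑ r, co S c w j (t' w r).1 (if (t' w r).2.1 then 1 else 0)
        (t' w r).2.2 * S.χ (t' w r).1 b - K S c π E φ w j b‖ ≤ τ / 8 := by
      intro b
      refine le_trans (le_of_eq ?_) ((ht w (j, b)).trans η2)
      congr 4
      funext r
      congr 2
      by_cases q : w - S.ι (t w r) ∈ E <;> simp [t', one, oi, q]
    refine hf _ ?_ θ (mem_filter.2 ⟨mem_univ _, ?_⟩)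
    · have c4 := hList S π B _ (τ / 4)
        (fun i => co S c w j i (one E (w - S.ι i)) (φ (w - S.ι i))) hπ hS (by positivity) le_rfl
        fun i => co_le S c hc w j i (o1 _) _
      have c5 : ((P ((w, t' w), j)).card : ℝ) ≤ L := by
        refine le_trans ?_ (c4.trans hL)
        rw [card_filter]
        push_cast
        refine sum_le_sum fun b _ => ?_
        split_ifs with c2
        · have c3 := (norm_sub_norm_le _ _).trans (c1 b)
          exact (if_pos (show τ / 4 ≤ ‖K S c π E φ w j b‖ by linarith)).ge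
        · exact oi_nn _
      exact_mod_cast c5
    · have c3 := (norm_sub_norm_le _ _).trans ((norm_sub_rev _ _).trans_le (c1 θ))
      linarith
  choose i hi using fun w => pig π hπ.1 L0
    (fun j => w - S.ι j ∈ E ∧ τ / 2 ≤ ‖K S c π E φ w j (φ (w - S.ι j))‖)
    (fun i j => w - S.ι j ∈ E ∧ φ (w - S.ι j) = f i ((w, t' w), j))
    fun j hj => (a2 w j _ hj.2).imp fun i hi => ⟨hj.1, hi.symm⟩
  refine ⟨fun w J => f (i w) ((w, t' w), J ()),
    fun w => mem_image.2 ⟨((w, t' w), i w), mem_univ _, rfl⟩, ?_⟩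
  have a3 : ∀ w, ∑ j, π j * (oi (w - S.ι j ∈ E) * ‖K S c π E φ w j (φ (w - S.ι j))‖) ≤
      τ / 2 + L * ∑ J : Unit → S.I, wt π J * oi (w - ∑ t, S.ι (J t) ∈ E ∧
        φ (w - ∑ t, S.ι (J t)) = f (i w) ((w, t' w), J ())) := by
    intro w
    have e : ∀ g : S.I → ℝ, τ / 2 + ∑ j, π j * g j = ∑ j, π j * (τ / 2 + g j) := fun g => by
      simp only [mul_add, sum_add_distrib, ← sum_mul, hπ.2, one_mul]
    refine le_trans ?_ (add_le_add le_rfl ((hi w).trans_eq (congrArg _ ?_)))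
    · rw [e]
      refine sum_le_sum fun j _ => mul_le_mul_of_nonneg_left ?_ (hπ.1 j)
      have c1 : ‖K S c π E φ w j (φ (w - S.ι j))‖ ≤ 1 := hw.norm_le_one fun i => k1 w j i _
      by_cases q1 : w - S.ι j ∈ E
      · rw [show oi (w - S.ι j ∈ E) = 1 from if_pos q1, one_mul]
        by_cases q2 : τ / 2 ≤ ‖K S c π E φ w j (φ (w - S.ι j))‖
        · rw [if_pos ⟨q1, q2⟩]
          linarith
        · rw [if_neg fun h => q2 h.2]
          linarith
      · rw [show oi (w - S.ι j ∈ E) = 0 from if_neg q1, if_neg fun h => q1 h.1]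
        linarith
    · refine (Fintype.sum_equiv (Equiv.funUnique Unit S.I) _ _ fun J => ?_).symm
      simp only [wt, oi, Fintype.prod_unique, Fintype.sum_unique, Equiv.funUnique_apply]
  have a4 := a1.trans (sum_le_sum fun w _ => a3 w)
  rw [sum_add_distrib, sum_const, card_univ, nsmul_eq_mul, ← mul_sum, ← hτ] at a4
  rw [div_mul_eq_mul_div, div_le_iff₀ (by positivity)]
  unfold St.n at a4 ⊢
  linarith

end Pool.Agent.MP_154433_an.T7

end
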