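import Pool.Agent.MP_154433_an.t7.SpecF

/-! Row Refl: the two-parameter form is a sum of reflected forms. -/

set_option autoImplicit false

open Finset
open scoped BigOperators

namespace Pool.Agent.MP_154433_an.T7

theorem refl : ReflS := by
  intro S v γ τ h G u ξ hG hu
  have e : S.form2 v G u ξ γ = ∑ a, S.form v (fun y => u a (-y)) (fun z => G a (-z))
      (S.tw (fun z => ξ (-z)) fun y i => S.χ i (γ (a - y))) := by
    refine sum_congr rfl fun a _ => ?_
    rw [St.form, sum_comm, sum_comm (γ := S.A)]
    refine sum_congr rfl fun i _ =>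
      Fintype.sum_equiv ((Equiv.addRight (S.ι i)).trans (Equiv.neg _)) _ _ fun m => ?_
    simp only [St.tw, Equiv.trans_apply, Equiv.coe_addRight, Equiv.neg_apply, neg_neg, neg_add_rev,
      add_assoc, add_comm (-m) (S.ι i), neg_add_cancel_left, sub_eq_add_neg]
    ring
  rw [e]
  refine (norm_sum_le _ _).trans ((sum_le_sum fun a _ =>
    h a _ _ _ (fun y => hu a _) fun z => hG a _).trans_eq ?_)
  rw [sum_const, card_univ, nsmul_eq_mul, St.n]
  ring

end Pool.Agent.MP_154433_an.T7
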