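import Pool.Agent.MP_154433_an.t7.SpecF
import Pool.Agent.MP_154433_an.h31.Samp

/-! Samples with almost correct means. -/

set_option autoImplicit false

open Finset

namespace Pool.Agent.MP_154433_an.T7

theorem samp : SampS := by
  intro η hη
  obtain ⟨e, e0, e1, e2⟩ : ∃ e : ℝ, 0 < e ∧ e ≤ 1 ∧ e ≤ η :=
    ⟨min η 1, by positivity, min_le_right _ _, min_le_left _ _⟩
  refine ⟨32 / e ^ 2 + 1, by have : 0 ≤ 32 / e ^ 2 := by positivity
                             linarith, ?_⟩
  intro X Φ _ _ π f y s hπ hf hy hΦ hs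
  have h1 : 32 / e ^ 2 * y + 1 ≤ s := by rw [add_mul] at hs; linarith
  have h2 : 0 ≤ 32 / e ^ 2 * y := by positivity
  have s0 : 0 < s := by exact_mod_cast (show (0 : ℝ) < s by linarith)
  obtain ⟨t, -, ht⟩ := Mau.sampR (P := Φ × Bool) π hπ.1 hπ.2
    (fun p x => (bif p.2 then 1 else -1) * f p.1 x)
    (fun p x => by rcases p with ⟨φ, _ | _⟩ <;> simpa using hf φ x) (L := y + 1) e0 e1 (by
      rw [Fintype.card_prod, Fintype.card_bool, Real.exp_add]
      push_cast
      exact mul_le_mul hΦ (by linarith [Real.add_one_le_exp 1]) (by norm_num)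
        (Real.exp_pos _).le) s s0 (by
      have h3 : 32 * y ≤ e ^ 2 * s := by
        rw [div_mul_eq_mul_div, ← le_sub_iff_add_le, div_le_iff₀ (by positivity)] at h1
        nlinarith [sq_nonneg e]
      linarith)
  refine ⟨t, fun φ => ?_⟩
  have k1 := ht (φ, true)
  have k2 := ht (φ, false)
  simp only [cond_true, cond_false, one_mul, neg_mul, mul_neg, sum_neg_distrib] at k1 k2
  exact abs_le.2 ⟨by linarith, by linarith⟩

end Pool.Agent.MP_154433_an.T7
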