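import Pool.Agent.MP_154433_an.t7.SpecE
import Pool.Agent.MP_154433_an.t3s.Shift

/-! Row Shift: the cube average is almost invariant under short shifts. -/

set_option autoImplicit false
set_option linter.unusedVariables false

noncomputable section

namespace Pool.Agent.MP_154433_an.T7

open Finset
open scoped BigOperators ComplexConjugate
open T3S (B1 norm_exp_le_of)

namespace ShiftL

variable {L : ℕ} {F F' : ℤ → ℂ}

lemma b1 (hF : B1 F) : ‖dE L F‖ ≤ 1 :=
  norm_exp_le_of zero_le_one fun _ _ => norm_exp_le_of zero_le_one fun _ _ => hF _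

lemma two (hL : 1 ≤ L) (hF : B1 F') (c : ℤ) {e : ℝ} (h : ∀ t, ‖F t - F' (c + t)‖ ≤ e) :
    ‖dE L F - dE L F'‖ ≤ e + 2 * |(c : ℝ)| / L := by
  have he : 0 ≤ e := (norm_nonneg _).trans (h 0)
  refine (norm_sub_le_norm_sub_add_norm_sub _ (dE L fun t => F' (c + t)) _).trans
    (add_le_add ?_ ?_)
  · simp only [dE, ← expect_sub_distrib]
    exact norm_exp_le_of he fun _ _ => norm_exp_le_of he fun _ _ => h _
  · rw [dE, dE, ← expect_sub_distrib]
    refine norm_exp_le_of (by positivity) fun a _ => ?_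
    have := T3S.Shift.one (M := c.natAbs) hL (hF.comp fun t => t - ((a : ℕ) : ℤ)) (s := c)
      (Int.natCast_natAbs c).ge
    rw [Nat.cast_natAbs, Int.cast_abs] at this
    simpa only [add_sub_assoc, add_comm _ c] using this

lemma prod : dE L F = 𝔼 p : Fin L × Fin L, F (((p.2 : ℕ) : ℤ) - ((p.1 : ℕ) : ℤ)) := by
  rw [← univ_product_univ, expect_product]
  rfl

lemma comm (G : ℤ → ℤ → ℂ) :
    (dE L fun s => dE L fun t => G s t) = dE L fun t => dE L fun s => G s t := by
  simp only [prod]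
  exact expect_comm _ _ _

lemma mul (z : ℂ) : z * dE L F = dE L fun t => z * F t := by
  simp only [dE, mul_expect]

end ShiftL

open ShiftL in
theorem shift : ShiftS := by
  intro L φ y k hL hφ
  let G : ℤ → ℤ → ℤ → ℂ := fun t1 t2 t3 => conj (φ t1 k) * conj (φ t2 k) * φ (t1 + t2 - y) k *
    (conj (φ y t3) * φ t1 t3 * φ t2 t3 * conj (φ (t1 + t2 - y) t3))
  have hG : ∀ t1 t2, B1 (G t1 t2) := fun t1 t2 t3 => by
    have m : ∀ {a b : ℂ}, ‖a‖ ≤ 1 → ‖b‖ ≤ 1 → ‖a * b‖ ≤ 1 := fun ha hb =>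
      (norm_mul_le _ _).trans (mul_le_one₀ ha (norm_nonneg _) hb)
    have c : ∀ a b, ‖conj (φ a b)‖ ≤ 1 := fun a b => (RCLike.norm_conj _).trans_le (hφ a b)
    exact m (m (m (c _ _) (c _ _)) (hφ _ _)) (m (m (m (c _ _) (hφ _ _)) (hφ _ _)) (c _ _))
  have e1 : cu2 L φ y k = dE L fun t1 => dE L fun t2 => dE L fun t3 => G t1 t2 t3 := by
    simp only [cu2, mul]
    rw [comm]
    refine congrArg _ (funext fun t1 => ?_)
    rw [comm]
    refine congrArg _ (funext fun t2 => congrArg _ (funext fun t3 => ?_))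
    simp only [G, map_mul, RCLike.conj_conj]
    ring
  have e2 : (4 * |(y : ℝ)| + 2 * |(k : ℝ)|) / L =
      0 + 2 * |(k : ℝ)| / L + 2 * |(y : ℝ)| / L + 2 * |(y : ℝ)| / L := by ring
  rw [e1, e2]
  refine two hL (fun t1 => b1 fun t2 => b1 (hG t1 t2)) y fun t1 =>
    two hL (fun t2 => b1 (hG _ t2)) y fun t2 => two hL (hG _ _) k fun t3 => le_of_eq ?_
  simp only [G, show y + t1 + (y + t2) - y = y + t1 + t2 by ring, sub_self, norm_zero]

end Pool.Agent.MP_154433_an.T7

end
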