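import Pool.Agent.MP_154433_an.t4s.Basic
import Pool.Agent.MP_154433_an.t4.Spec
import Pool.Agent.MP_154433_an.t7.SpecF

/-! Ergodic part for pairs of commuting maps (note 154433_PAIR_h92): definitions and statements
of the rows. -/

set_option autoImplicit false
set_option linter.unusedVariables false
set_option warn.classDefReducibility false

noncomputable section

namespace T4x

open MeasureTheory ProbabilityTheory Filter Topology Function Finset ComplexConjugate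
open scoped BigOperators
open Fib27 (BM)
open T3x

variable [Grp]

/-- goodness with one factor for each slot -/
def GoodP (ν ν' : Wt) (X : Sys) {ι : Type} [Fintype ι] (r : ι → Γ)
    (A : ι → MeasurableSpace X.X) : Prop := ∀ f : ι → X.X → ℂ, (∀ i, BM X.μ (A i) (f i)) →
  Tendsto (fun M => ∫ x, ‖avg ν M X r f x - avg ν' M X r f x‖ ^ 2 ∂X.μ) atTop (𝓝 0)

/-- one van der Corput step in the slot `i0` along the directions of `O` -/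
def G0P (ν' : Wt) (X : Sys) {ι : Type} [Fintype ι] (r : ι → Γ) (i0 : ι) (O : Set Γ)
    (B : MeasurableSpace X.X) : Prop :=
  ∀ u ∈ O, ∀ g : X.X → ℂ, BM X.μ X.ms g → (∀ᵐ x ∂X.μ, ‖g x‖ ≤ 1) → X.μ[g | B] =ᵐ[X.μ] 0 →
    ∀ ε : ℝ, 0 < ε → ∃ (H : ℕ) (a : ℕ → ℕ → ℝ), 1 ≤ H ∧
      ∑ n ∈ range H, ∑ n' ∈ range H, a n n' ≤ ε * H ^ 2 ∧
      ∀ C, Fac X C → ∀ (n n' : ℕ) (c : ι → X.X → ℂ) (η : ℝ), (∀ i, BM X.μ X.ms (c i)) →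
        (∀ i, ∀ᵐ x ∂X.μ, ‖c i x‖ ≤ 1) → c i0 =ᵐ[X.μ] X.μ[fun y =>
          g (X.Tz ((n : ℤ) • u) y) * conj (g (X.Tz ((n' : ℤ) • u) y)) | C] → 0 < η →
        ∀ᶠ M in atTop, ∫ x, ‖avg ν' M X r c x‖ ^ 2 ∂X.μ ≤ a n n' + η

/-- the factor `B` serves the slot `i` and the directions of `O` -/
structure OwnF (ν ν' : Wt) (X : Sys) {ι : Type} [Fintype ι] [DecidableEq ι] (r : ι → Γ) (i : ι)
    (O : Set Γ) (B : MeasurableSpace X.X) : Prop where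
  fac : Fac X B
  inv : ∀ u ∈ O, Inv X {u} ≤ B
  good : GoodP ν ν' X r (update (fun _ => X.ms) i B)
  g0 : G0P ν' X r i O B

def KeyP : Prop := ∀ (X : Sys) (J : Type) [Fintype J] (j0 : J) (C : J → MeasurableSpace X.X)
  (Z : J → Sys) (p : ∀ j, Bool → (Z j).X → X.X) (u : Γ) (H : ∀ j, (Z j).X → ℂ)
  (g k : J → X.X → ℂ), (∀ j, Fac X (C j)) → (∀ j, Pair X (C j) (Z j) (p j)) →
  (∀ j, BM (Z j).μ (Inv (Z j) {u}) (H j) ∧ BM X.μ X.ms (g j) ∧ BM X.μ X.ms (k j) ∧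
    Star (p j) (H j) (g j) (k j)) →
  ∃ K : ℝ, 0 ≤ K ∧ ∀ (N : ℕ), 1 ≤ N → ∀ (ρ : J → Γ) (c : ℕ → ℕ → J → X.X → ℂ),
    (∀ n n' j, BM X.μ X.ms (c n n' j)) →
    (∀ (n n' : ℕ) j, c n n' j =ᵐ[X.μ]
      X.μ[fun y => g j (X.Tz ((n : ℤ) • u) y) * conj (g j (X.Tz ((n' : ℤ) • u) y)) | C j]) →
    ‖∫ x, ∏ j, k j (X.Tz (ρ j) x) ∂X.μ‖ ^ 2 ≤ K * ∑ n ∈ range N, ∑ n' ∈ range N,
      (N : ℝ)⁻¹ * (N : ℝ)⁻¹ * (∫ x, ∏ j, c n n' j (X.Tz (ρ j) x) ∂X.μ).re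

def VanP : Prop := ∀ (ν' ν'' : Wt) (X : Sys) (ι : Type) [Fintype ι] [DecidableEq ι] (r : ι → Γ)
  (A : ι → MeasurableSpace X.X) (B : MeasurableSpace X.X) (O : Set Γ) (i0 : ι) (Z : ι → Sys)
  (p : ∀ i, Bool → (Z i).X → X.X), ∀ u ∈ O, (∀ i, Fac X (A i)) →
  (∀ i, Pair X (A i) (Z i) (p i)) → GoodP ν'' ν' X r A → G0P ν' X r i0 O B →
  ∀ (H : ∀ i, (Z i).X → ℂ) (g k : ι → X.X → ℂ),
  (∀ i, BM (Z i).μ (Inv (Z i) {u}) (H i) ∧ BM X.μ X.ms (g i) ∧ BM X.μ X.ms (k i) ∧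
    Star (p i) (H i) (g i) (k i)) →
  X.μ[g i0 | B] =ᵐ[X.μ] 0 → Tendsto (fun M => ∫ x, ‖avg ν'' M X r k x‖ ^ 2 ∂X.μ) atTop (𝓝 0)

structure GfP : Prop where
  dense : ∀ (ν ν' : Wt) (X : Sys) (ι : Type) [Fintype ι] [DecidableEq ι] (r : ι → Γ)
    (A : ι → MeasurableSpace X.X) (T : ι → Set (X.X → ℂ)), (∀ i, A i ≤ X.ms) →
    (∀ i, ∀ φ ∈ T i, BM X.μ X.ms φ) →
    (∀ i g, BM X.μ (A i) g → ∀ ε : ℝ, 0 < ε → ∃ (n : ℕ) (a : Fin n → X.X → ℂ),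
      (∀ j, a j ∈ T i) ∧ ∫ x, ‖g x - ∑ j, a j x‖ ^ 2 ∂X.μ ≤ ε) →
    (∀ f : ι → X.X → ℂ, (∀ i, f i ∈ T i) → Tendsto
      (fun M => ∫ x, ‖avg ν M X r f x - avg ν' M X r f x‖ ^ 2 ∂X.μ) atTop (𝓝 0)) →
    GoodP ν ν' X r A
  chain : ∀ (ν ν' : Wt) (X : Sys) (ι : Type) [Fintype ι] [DecidableEq ι] (r : ι → Γ)
    (B : ι → MeasurableSpace X.X) (𝒞 : Set (MeasurableSpace X.X)), (∀ i, B i ≤ X.ms) →
    𝒞.Nonempty → IsChain (· ≤ ·) 𝒞 → (∀ C ∈ 𝒞, C ≤ X.ms ∧ GoodP ν ν' X r fun i => C ⊔ B i) →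
    GoodP ν ν' X r fun i => sSup 𝒞 ⊔ B i

/-- the step in the slot that owns the direction -/
def OwnP : Prop := ∀ (ν ν' : Wt) (X : Sys) (ι : Type) [Fintype ι] [DecidableEq ι] (r : ι → Γ)
  (A : ι → MeasurableSpace X.X) (B : MeasurableSpace X.X) (O : Set Γ) (i0 : ι), ∀ u ∈ O, Nice X →
  (∀ i, Fac X (A i)) → OwnF ν ν' X r i0 O B → B ≤ A i0 → GoodP ν ν' X r A →
  GoodP ν ν' X r (update A i0 (KK X u (A i0)))

/-- the step in the other slots -/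
def ForP : Prop := ∀ (ν ν' : Wt) (X : Sys) (ι : Type) [Fintype ι] [DecidableEq ι] (r : ι → Γ)
  (A : ι → MeasurableSpace X.X) (B : MeasurableSpace X.X) (O : Set Γ) (i0 : ι), ∀ u ∈ O, Nice X →
  (∀ i, Fac X (A i)) → OwnF ν ν' X r i0 O B → B ≤ A i0 → GoodP ν ν' X r A →
  GoodP ν ν' X r (update (fun i => KK X u (A i)) i0 (A i0))

def DETP : Prop := ∀ (ν ν' : Wt) (ι : Type) [Fintype ι] [DecidableEq ι] [Nonempty ι] (r : ι → Γ)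
  (O : ι → Set Γ), ERG ν → ERG ν' → SPR ν → SPR ν' → CovR r → (∀ u ∈ 𝒰, ∃ i, u ∈ O i) →
  (∀ (X : Sys) (i : ι), ∃ B, OwnF ν ν' X r i (O i) B) → ∀ X : Sys, Good ν ν' X r X.ms

end T4x

namespace Pool.Agent.MP_154433_an.T7

open MeasureTheory ProbabilityTheory Filter Topology Function Finset
open scoped BigOperators ComplexConjugate
open SG (ABM)
open T3S (B1 MB1 PW AsInv Erg Mix Bd Near)
open T4S (Gm Act wavg Van QX ln Spr Concl)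

/-! ### the bipolar of the atoms -/

def pai (N : ℕ) (L F : ℕ → ℕ → ℕ → ℂ) : ℂ :=
  ∑ n ∈ range N, ∑ m ∈ range N, ∑ d ∈ range N, L n m d * F n m d

def InK (N : ℕ) (C : ℝ) (F : ℕ → ℕ → ℕ → ℂ) : Prop :=
  ∀ (L : ℕ → ℕ → ℕ → ℂ) (t : ℝ), (∀ α, Atom α → ‖pai N L α‖ ≤ t) → ‖pai N L F‖ ≤ C * t

structure KcalS : Prop where
  atom : ∀ N α, Atom α → InK N 1 α
  add : ∀ N C C' F F', InK N C F → InK N C' F' → InK N (C + C') fun n m d => F n m d + F' n m d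
  smul : ∀ N C F (z : ℂ), InK N C F → InK N (‖z‖ * C) fun n m d => z * F n m d
  mul : ∀ N C C' F F', InK N C F → InK N C' F' → InK N (C * C') fun n m d => F n m d * F' n m d
  cj : ∀ N C F, InK N C F → InK N C fun n m d => conj (F n m d)
  bound : ∀ N C F, InK N C F → ∀ n < N, ∀ m < N, ∀ d < N, ‖F n m d‖ ≤ C
  mono : ∀ N N' C C' F, N ≤ N' → C ≤ C' → InK N' C F → InK N C' F
  congr : ∀ N C F F', (∀ n < N, ∀ m < N, ∀ d < N, F n m d = F' n m d) → InK N C F → InK N C F'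
  expect : ∀ N C (ι : Type) [Fintype ι] [Nonempty ι] (F : ι → ℕ → ℕ → ℕ → ℂ),
    (∀ i, InK N C (F i)) → InK N C fun n m d => 𝔼 i, F i n m d
  small : ∀ (N : ℕ) (η : ℝ) (F : ℕ → ℕ → ℕ → ℂ), (∀ n < N, ∀ m < N, ∀ d < N, ‖F n m d‖ ≤ η) →
    InK N (η * N ^ 3) F

/-- the frequency may be chosen line by line -/
def LineS : Prop := ∀ (N : ℕ) (C : ℝ) (ι : Type) [Fintype ι] (θ : ι → ℝ) (c : ℕ → ι → ℂ),
  (∀ m, ∑ i, ‖c m i‖ ≤ C) →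
  InK N C (fun n m d => ∑ i, c m i * ee (((n + m + d : ℕ) : ℝ) * θ i)) ∧
    InK N C fun n m d => ∑ i, c (n + m + d) i * ee (-(m : ℝ) * θ i)

/-- average over differences -/
def dE (L : ℕ) (F : ℤ → ℂ) : ℂ := 𝔼 h : Fin L, 𝔼 h' : Fin L, F (((h' : ℕ) : ℤ) - ((h : ℕ) : ℤ))

def WieS : Prop := ∀ L : ℕ, 1 ≤ L → ∃ θ : Fin (4 * L) → ℝ, ∀ g1 g2 g3 : ℤ → ℂ, B1 g1 → B1 g2 →
  B1 g3 → ∃ c : Fin (4 * L) → ℂ, ∑ i, ‖c i‖ ≤ 4 ∧ ∀ y : ℤ, |y| ≤ L →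
    (dE L fun t1 => dE L fun t2 => g1 t1 * g2 t2 * g3 (t1 + t2 - y)) = ∑ i, c i * ee (y * θ i)

def cube (L : ℕ) (φ : ℤ → ℤ → ℂ) (y k : ℤ) : ℂ := dE L fun t1 => dE L fun t2 => dE L fun t3 =>
  conj (φ (y + t1) k) * conj (φ (y + t2) k) * φ (y + t1 + t2) k * (conj (φ y (k + t3)) *
    φ (y + t1) (k + t3) * φ (y + t2) (k + t3) * conj (φ (y + t1 + t2) (k + t3)))

def cu2 (L : ℕ) (φ : ℤ → ℤ → ℂ) (y k : ℤ) : ℂ := dE L fun t3 => conj (φ y t3) *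
  dE L fun t1 => dE L fun t2 => conj (φ t1 k * conj (φ t1 t3)) * conj (φ t2 k * conj (φ t2 t3)) *
    (φ (t1 + t2 - y) k * conj (φ (t1 + t2 - y) t3))

def ShiftS : Prop := ∀ (L : ℕ) (φ : ℤ → ℤ → ℂ) (y k : ℤ), 1 ≤ L → B2 φ →
  ‖cube L φ y k - cu2 L φ y k‖ ≤ (4 * |(y : ℝ)| + 2 * |(k : ℝ)|) / L

def CubS : Prop := ∀ N : ℕ, ∀ᶠ L : ℕ in atTop, ∀ φ : ℤ → ℤ → ℂ, B2 φ →
  InK N 5 (fun n m d => cube L φ ((n + m + d : ℕ) : ℤ) (-(m : ℤ))) ∧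
    InK N 5 fun n m d => cube L φ (-(m : ℤ)) ((n + m + d : ℕ) : ℤ)

/-- a finite form of the inequality of Young -/
def YgS : Prop := ∀ (I J : Type) [Fintype I] [Fintype J] (V W : I → J → ℂ),
  4 * (𝔼 i, 𝔼 i', 𝔼 j, 𝔼 j', W i' j' * conj (W i j') * conj (W i' j) * V i j).re ≤
    (𝔼 i, 𝔼 i', 𝔼 j, 𝔼 j', V i' j' * conj (V i j') * conj (V i' j) * V i j).re +
      3 * (𝔼 i, 𝔼 i', 𝔼 j, 𝔼 j', W i' j' * conj (W i j') * conj (W i' j) * W i j).re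

/-! ### the factor of one slot -/

section Sys

variable {X : Type} [m0 : MeasurableSpace X] {l : ℕ}

omit m0 in
def Orb (A : Gm l → X → X) (a b : Gm l) (u : X → ℂ) (x : X) : ℕ → ℕ → ℕ → ℂ :=
  fun n m d => u (A (((n + d : ℕ) : ℤ) • a + (m : ℤ) • b) x)

def KX (A : Gm l → X → X) (a b : Gm l) (N : ℕ) (C : ℝ) : Set (X → ℂ) :=
  {u | Measurable u ∧ ∀ x, InK (N + 1) C (Orb A a b u x)}

def AA (μ : Measure X) (A : Gm l → X → X) (a b : Gm l) : Set (X → ℂ) :=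
  {f | Measurable f ∧ (∃ K : ℝ, ∀ x, ‖f x‖ ≤ K) ∧ ∃ C : ℝ, ∀ (N : ℕ) (ε : ℝ), 0 < ε →
    ∃ u ∈ KX A a b N C, ∫ x, ‖f x - u x‖ ∂μ ≤ ε}

def BB (μ : Measure X) (A : Gm l → X → X) (a b : Gm l) : MeasurableSpace X :=
  ⨆ φ ∈ {φ : X → ℝ | (fun x => (φ x : ℂ)) ∈ AA μ A a b}, MeasurableSpace.comap φ inferInstance

omit m0 in
def bk (A : Gm l → X → X) (u w : Gm l) (L : ℕ) (g : X → ℂ) (x : X) : ℂ :=
  cube L (fun y k => g (A (y • u + k • w) x)) 0 0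

structure AlgX (μ : Measure X) (A : Gm l → X → X) (a b : Gm l) : Prop where
  const : ∀ z : ℂ, (fun _ => z) ∈ AA μ A a b
  add : ∀ f ∈ AA μ A a b, ∀ f' ∈ AA μ A a b, (fun x => f x + f' x) ∈ AA μ A a b
  mul : ∀ f ∈ AA μ A a b, ∀ f' ∈ AA μ A a b, (fun x => f x * f' x) ∈ AA μ A a b
  cj : ∀ f ∈ AA μ A a b, (fun x => conj (f x)) ∈ AA μ A a b
  tz : ∀ f ∈ AA μ A a b, ∀ v, (fun x => f (A v x)) ∈ AA μ A a b
  inv : ∀ f, MB1 f → (fun x => f (A a x)) =ᵐ[μ] f ∨ (fun x => f (A (a - b) x)) =ᵐ[μ] f →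
    f ∈ AA μ A a b

end Sys

/-- an invariant sub-sigma-algebra -/
def Sub {X : Type} (C : MeasurableSpace X) (m0 : MeasurableSpace X) {l : ℕ}
    (A : Gm l → X → X) : Prop :=
  C ≤ m0 ∧ ∀ v S, MeasurableSet[C] S → MeasurableSet[C] (A v ⁻¹' S)

def UnifP {X : Type} (B : MeasurableSpace X) {m0 : MeasurableSpace X} (μ : Measure X) {l : ℕ}
    (A : Gm l → X → X) (w : ℕ → ℕ → ℝ) (r : Fin 2 → Gm l) (i0 : Fin 2) : Prop :=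
  ∀ u, u = r i0 ∨ u = r i0 - r i0.rev → ∀ g : X → ℂ, MB1 g → μ[g | B] =ᵐ[μ] 0 → ∀ ε : ℝ, 0 < ε →
    ∃ (H : ℕ) (a : ℕ → ℕ → ℝ), 1 ≤ H ∧ ∑ n ∈ range H, ∑ n' ∈ range H, a n n' ≤ ε * H ^ 2 ∧
      ∀ C : MeasurableSpace X, Sub C m0 A → ∀ (m m' : ℕ) (c : Fin 2 → X → ℂ),
        (∀ i, @MB1 X m0 (c i)) → c i0 =ᵐ[μ] μ[fun y =>
          g (A ((m : ℤ) • u) y) * conj (g (A ((m' : ℤ) • u) y)) | C] → ∀ η : ℝ, 0 < η →
        ∀ᶠ M in atTop, ∫ x, ‖wavg A w r c M x‖ ^ 2 ∂μ ≤ a m m' + η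

structure Own {X : Type} (B : MeasurableSpace X) {m0 : MeasurableSpace X} (μ : Measure X) {l : ℕ}
    (A : Gm l → X → X) (ν ν' : ℕ → ℕ → ℝ) (r : Fin 2 → Gm l) (i : Fin 2) : Prop where
  sub : Sub B m0 A
  own : ∀ u, u = r i ∨ u = r i - r i.rev → ∀ S, MeasurableSet[m0] S → A u ⁻¹' S =ᵐ[μ] S →
    MeasurableSet[B] S
  good : ∀ f : Fin 2 → X → ℂ, (∀ j, ABM m0 μ (f j)) → ABM B μ (f i) →
    Van μ A (fun M d => ν M d - ν' M d) r f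
  unif : UnifP B μ A ν' r i

def AlgS : Prop := ∀ (l : ℕ) (X : Type) [MeasurableSpace X] (μ : Measure X)
  [IsProbabilityMeasure μ] (A : Gm l → X → X), Act μ A → ∀ a b : Gm l, AlgX μ A a b

def FacS : Prop := ∀ (l : ℕ) (X : Type) [m0 : MeasurableSpace X] (μ : Measure X)
  [IsProbabilityMeasure μ] (A : Gm l → X → X), Act μ A → ∀ a b : Gm l,
  Sub (BB μ A a b) m0 A ∧ (∀ D ∈ AA μ A a b, Measurable[BB μ A a b] D) ∧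
    ∀ u, u = a ∨ u = a - b → ∀ S, MeasurableSet[m0] S → A u ⁻¹' S =ᵐ[μ] S →
      MeasurableSet[BB μ A a b] S

def LinkS : Prop := ∀ (l : ℕ) (X : Type) [MeasurableSpace X] (μ : Measure X)
  [IsProbabilityMeasure μ] (A : Gm l → X → X), Act μ A → ∀ (u w : Gm l) (L : ℕ) (g : X → ℂ),
  MB1 g → MB1 (bk A u w L g) ∧
    QX μ A [ln u L, ln u L, ln w L] g = (∫ x, g x * bk A u w L g x ∂μ).re

def BlkS : Prop := ∀ (l : ℕ) (X : Type) [MeasurableSpace X] (μ : Measure X)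
  [IsProbabilityMeasure μ] (A : Gm l → X → X), Act μ A → ∀ (a b : Gm l) (g : X → ℂ), MB1 g →
  ∀ N : ℕ, ∀ᶠ L : ℕ in atTop, bk A a (a - b) L g ∈ KX A a b N 5 ∧ bk A (a - b) a L g ∈ KX A a b N 5

def ZeroS : Prop := ∀ (l : ℕ) (X : Type) [MeasurableSpace X] (μ : Measure X)
  [IsProbabilityMeasure μ] (A : Gm l → X → X), Act μ A → ∀ (a b : Gm l) (g : X → ℂ) (C : ℝ)
  (β : ℕ → X → ℂ), MB1 g → (∀ L, MB1 (β L)) → (∀ N, ∀ᶠ L in atTop, β L ∈ KX A a b N C) →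
  (∀ D ∈ AA μ A a b, MB1 D → ∫ x, g x * D x ∂μ = 0) → ∀ ε : ℝ, 0 < ε →
  ∃ L, 1 ≤ L ∧ (∫ x, g x * β L x ∂μ).re ≤ ε

def GcsS : Prop := ∀ (l : ℕ) (X : Type) (C : MeasurableSpace X) [m0 : MeasurableSpace X]
  (μ : Measure X) [IsProbabilityMeasure μ] (A : Gm l → X → X), Act μ A → Sub C m0 A →
  ∀ (u w : Gm l) (L L' : ℕ) (h c : X → ℂ), MB1 h → MB1 c → c =ᵐ[μ] μ[h | C] →
  QX μ A [ln u L, ln w L'] c ≤ QX μ A [ln u L, ln w L'] h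

def UnifS : Prop := ∀ w : ℕ → ℕ → ℝ, PW w → AsInv w →
  ∀ (l : ℕ) (X : Type) [MeasurableSpace X] (μ : Measure X) [IsProbabilityMeasure μ]
  (A : Gm l → X → X), Act μ A → ∀ (r : Fin 2 → Gm l) (i : Fin 2),
  UnifP (BB μ A (r i) (r i.rev)) μ A w r i

def ProdS : Prop := ∀ w : ℕ → ℕ → ℝ, RF w → Bd w →
  ∀ (l : ℕ) (X : Type) [MeasurableSpace X] (μ : Measure X) [IsProbabilityMeasure μ]
  (A : Gm l → X → X), Act μ A → ∀ (r : Fin 2 → Gm l) (i : Fin 2) (f : Fin 2 → X → ℂ),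
  f i ∈ AA μ A (r i) (r i.rev) → MB1 (f i.rev) → Van μ A w r f

def GoodS : Prop := ∀ w : ℕ → ℕ → ℝ, RF w → Bd w →
  ∀ (l : ℕ) (X : Type) [m0 : MeasurableSpace X] (μ : Measure X) [IsProbabilityMeasure μ]
  (A : Gm l → X → X), Act μ A → ∀ (r : Fin 2 → Gm l) (i : Fin 2) (f : Fin 2 → X → ℂ),
  (∀ j, ABM m0 μ (f j)) → ABM (BB μ A (r i) (r i.rev)) μ (f i) → Van μ A w r f

def MixS : Prop := ∀ w : ℕ → ℕ → ℝ, RF w → Mix w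

/-- the deterministic theorem for pairs -/
def DetS : Prop := ∀ ν ν' : ℕ → ℕ → ℝ, PW ν → PW ν' → Erg ν → Erg ν' → Spr ν → Spr ν' →
  ∀ (l : ℕ) (r : Fin 2 → Gm l),
  (∀ (X : Type) [MeasurableSpace X] (μ : Measure X) [IsProbabilityMeasure μ] (A : Gm l → X → X),
    Act μ A → ∀ i, ∃ B, Own B μ A ν ν' r i) →
  ∀ (X : Type) [MeasurableSpace X] (μ : Measure X) [IsProbabilityMeasure μ] (A : Gm l → X → X),
  Act μ A → ∀ f : Fin 2 → X → ℂ, (∀ i, MB1 (f i)) → Van μ A (fun M d => ν M d - ν' M d) r f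

def MainS : Prop := ∀ (σ : ℕ → ℝ), (∀ n, 0 ≤ σ n ∧ σ n ≤ 1) → Antitone σ → Poly σ →
  ∀ (Ω : Type) [MeasurableSpace Ω] (P : Measure Ω) [IsProbabilityMeasure P]
    (E : ℕ → Set Ω), (∀ n, MeasurableSet (E n)) → iIndepSet E P →
    (∀ n, P (E n) = ENNReal.ofReal (σ n)) →
  ∀ᵐ ω ∂P, ∀ (X : Type) [MeasurableSpace X] (μ : Measure X) [IsProbabilityMeasure μ]
    (T : Fin 2 → X ≃ᵐ X) (f : Fin 2 → X → ℝ),
    (∀ i, MeasurePreserving (⇑(T i)) μ μ) → (∀ i j, Function.Commute ⇑(T i) ⇑(T j)) →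
    (∀ i, MemLp (f i) ⊤ μ) → Concl (fun m => ω ∈ E m) μ T f

end Pool.Agent.MP_154433_an.T7

end
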