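import Pool.Agent.MP_154433_an.t7.SpecF

/-! Row St: removal of the predicted parts. -/

set_option autoImplicit false

open Finset
open scoped BigOperators

noncomputable section

namespace Pool.Agent.MP_154433_an.T7

open T3S (B1)

namespace StL

/-- the coefficient of the target point -/
def kk (S : St) (v : S.I → ℝ) (G : S.A → ℂ) (c : S.A → S.I → ℂ) (z : S.A) : ℂ :=
  ∑ i, (v i : ℂ) * (G (z - S.ι i) * c (z - S.ι i) i)

theorem lin (S : St) (v : S.I → ℝ) (G W : S.A → ℂ) (c : S.A → S.I → ℂ) :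
    S.form v G W c = ∑ z, W z * kk S v G c z := by
  simp only [St.form, kk, mul_sum]
  rw [sum_comm, sum_comm (γ := S.A)]
  refine sum_congr rfl fun i _ => ?_
  rw [← (Equiv.subRight (S.ι i)).sum_comp]
  refine sum_congr rfl fun z _ => ?_
  simp only [Equiv.subRight_apply, sub_add_cancel]
  ring

theorem kk_sub (S : St) (v v' : S.I → ℝ) (G : S.A → ℂ) (c : S.A → S.I → ℂ) (z : S.A) :
    kk S (v - v') G c z = kk S v G c z - kk S v' G c z := by
  simp only [kk, Pi.sub_apply, Complex.ofReal_sub, sub_mul, sum_sub_distrib]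

theorem kk_tw (S : St) (v : S.I → ℝ) (G : S.A → ℂ) (c : S.A → S.I → ℂ) {φ ψ : S.A → S.Θ}
    {z : S.A} (h : φ z = ψ z) : kk S v G (S.tw φ c) z = kk S v G (S.tw ψ c) z := by
  simp only [kk, St.tw, sub_add_cancel, h]

theorem two {A : Type} (E : Finset A) (f : A → ℝ) {t : ℝ}
    (h : ∀ E' ⊆ E, |∑ z ∈ E', f z| ≤ t) : ∑ z ∈ E, |f z| ≤ 2 * t := by
  classical
  rw [← sum_filter_add_sum_filter_not E fun z => 0 ≤ f z]
  have h1 := (abs_le.1 (h _ (filter_subset (fun z => 0 ≤ f z) E))).2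
  have h2 := (abs_le.1 (h _ (filter_subset (fun z => ¬ 0 ≤ f z) E))).1
  rw [sum_congr rfl fun z hz => abs_of_nonneg (mem_filter.1 hz).2,
    sum_congr rfl fun z hz => abs_of_neg (not_le.1 (mem_filter.1 hz).2), sum_neg_distrib]
  linarith

theorem four {A : Type} (E : Finset A) (k : A → ℂ) {t : ℝ}
    (h : ∀ E' ⊆ E, ‖∑ z ∈ E', k z‖ ≤ t) : ∑ z ∈ E, ‖k z‖ ≤ 4 * t := by
  have h1 := two E (fun z => (k z).re) (t := t) fun E' hE => by
    rw [← Complex.re_sum]; exact (Complex.abs_re_le_norm _).trans (h E' hE)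
  have h2 := two E (fun z => (k z).im) (t := t) fun E' hE => by
    rw [← Complex.im_sum]; exact (Complex.abs_im_le_norm _).trans (h E' hE)
  have h3 : ∑ z ∈ E, ‖k z‖ ≤ ∑ z ∈ E, (|(k z).re| + |(k z).im|) :=
    sum_le_sum fun z _ => Complex.norm_le_abs_re_add_abs_im _
  rw [sum_add_distrib] at h3
  linarith

theorem cut (S : St) (v : S.I → ℝ) (G W : S.A → ℂ) (c : S.A → S.I → ℂ) (V : Finset S.A) :
    S.form v G (fun z => W z * one (V : Set S.A) z) c = ∑ z ∈ V, W z * kk S v G c z := by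
  classical
  rw [lin, ← sum_subset (subset_univ V) fun z _ hz => by simp [one, oi, hz]]
  exact sum_congr rfl fun z hz => by simp [one, oi, hz]

end StL

open StL in
theorem stp : StS := by
  classical
  intro S π π' c 𝓗 δ δ' τ hδ hδ' hτ hP hP' hO φ G W hG hW
  have hn : 0 < S.n := Nat.cast_pos.2 Fintype.card_pos
  have pred : ∀ v : S.I → ℝ, S.Pred v c 𝓗 δ δ' → ∀ E : Finset S.A,
      ¬ (∀ E' ⊆ E, ‖∑ z ∈ E', kk S v G (S.tw φ c) z‖ ≤ δ * S.n) →
      ∃ V ⊆ E, δ' * S.n ≤ V.card ∧ ∃ ψ ∈ 𝓗, ∀ z ∈ V, φ z = ψ z := by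
    intro v hv E h
    push Not at h
    obtain ⟨E', h1, h2⟩ := h
    have e := cut S v G (fun _ => 1) (S.tw φ c) E'
    simp only [one_mul] at e
    obtain ⟨ψ, h3, h4⟩ := hv G (E' : Set S.A) φ hG (by rw [e]; exact h2.le)
    refine ⟨E'.filter fun z => φ z = ψ z, (filter_subset _ _).trans h1, h4.trans_eq ?_, ψ, h3,
      fun z hz => (mem_filter.1 hz).2⟩
    simp only [cnt, oi, sum_boole, mem_coe]
    congr 2
    ext z
    simp
  have main : ∀ (m : ℕ) (E : Finset S.A), E.card = m →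
      ‖∑ z ∈ E, W z * kk S (π - π') G (S.tw φ c) z‖ ≤ 8 * δ * S.n + τ / δ' * E.card := by
    intro m
    induction m using Nat.strong_induction_on with
    | _ m ih =>
    intro E hE
    by_cases h : (∀ E' ⊆ E, ‖∑ z ∈ E', kk S π G (S.tw φ c) z‖ ≤ δ * S.n) ∧
        ∀ E' ⊆ E, ‖∑ z ∈ E', kk S π' G (S.tw φ c) z‖ ≤ δ * S.n
    · have h1 := four E _ h.1
      have h2 := four E _ h.2
      have h3 : ‖∑ z ∈ E, W z * kk S (π - π') G (S.tw φ c) z‖ ≤
          ∑ z ∈ E, (‖kk S π G (S.tw φ c) z‖ + ‖kk S π' G (S.tw φ c) z‖) := by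
        refine (norm_sum_le _ _).trans (sum_le_sum fun z _ => ?_)
        rw [norm_mul, kk_sub]
        exact (mul_le_of_le_one_left (norm_nonneg _) (hW z)).trans (norm_sub_le _ _)
      rw [sum_add_distrib] at h3
      have : 0 ≤ τ / δ' * E.card := by positivity
      linarith
    · obtain ⟨V, h1, h2, ψ, h3, h4⟩ : ∃ V ⊆ E, δ' * S.n ≤ V.card ∧ ∃ ψ ∈ 𝓗, ∀ z ∈ V, φ z = ψ z :=
        (not_and_or.1 h).elim (pred π hP E) (pred π' hP' E)
      have hV : 0 < V.card := Nat.cast_pos.1 ((mul_pos hδ' hn).trans_le h2)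
      have hc := card_sdiff_add_card_eq_card h1
      have h5 := ih _ (by omega) (E \ V) rfl
      have h6 : ‖∑ z ∈ V, W z * kk S (π - π') G (S.tw φ c) z‖ ≤ τ / δ' * V.card := by
        rw [sum_congr rfl fun z hz => by rw [kk_tw S _ G c (h4 z hz)], ← cut]
        refine (hO ψ h3 G _ hG fun z => ?_).trans ?_
        · rw [norm_mul]
          refine mul_le_one₀ (hW z) (norm_nonneg _) ?_
          by_cases hz : z ∈ V <;> simp [one, oi, hz]
        · calc τ * S.n = τ / δ' * (δ' * S.n) := by field_simp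
            _ ≤ _ := mul_le_mul_of_nonneg_left h2 (by positivity)
      rw [← sum_sdiff h1, ← hc, Nat.cast_add, mul_add]
      refine (norm_add_le _ _).trans ?_
      linarith
  rw [lin, add_mul]
  exact main _ univ rfl

end Pool.Agent.MP_154433_an.T7

end
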