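import Pool.Agent.MP_154433_an.t7.SpecF

/-! Row `SumS`: from the estimates on the flat blocks to the estimate on the whole sum. -/

set_option autoImplicit false
set_option linter.unusedVariables false

open Filter Topology Finset
open scoped BigOperators

noncomputable section

namespace Pool.Agent.MP_154433_an.T7

open T3S (B1 Wt yw ind Near)

namespace SumL

lemma ee_add (s t : ℝ) : ee (s + t) = ee s * ee t := by
  unfold ee
  rw [← Complex.exp_add]
  congr 1
  push_cast
  ring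

lemma norm_ee (t : ℝ) : ‖ee t‖ = 1 := Complex.norm_exp_ofReal_mul_I _

lemma shift {α : ℕ → ℕ → ℕ → ℂ} (h : Atom α) (a : ℕ) : Atom fun n m d => α n m (a + d) := by
  obtain ⟨G, u, ξ, γ, hG, hu, e⟩ := h
  refine ⟨fun n m => G n m * ee (a * ξ m), fun n k => u n (k + a) * ee (a * γ (n + k + a)), ξ,
    fun k => γ (k + a), fun n m => ?_, fun n k => ?_, fun n m d => ?_⟩
  · rw [norm_mul, norm_ee, mul_one]
    exact hG n m
  · rw [norm_mul, norm_ee, mul_one]
    exact hu n _
  · have e1 : m + (a + d) = m + d + a := by omega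
    have e2 : n + m + (a + d) = n + m + d + a := by omega
    have e3 : n + (m + d) + a = n + m + d + a := by omega
    have e4 : ((a + d : ℕ) : ℝ) * ξ m + ((a + d : ℕ) : ℝ) * γ (n + m + d + a) =
        a * ξ m + (a * γ (n + m + d + a) + (d * ξ m + d * γ (n + m + d + a))) := by
      push_cast
      ring
    simp only
    rw [e n m (a + d), e1, e2, e3, e4, ee_add (a * ξ m), ee_add (a * γ (n + m + d + a))]
    ring

lemma win_le {α : ℕ → ℕ → ℕ → ℂ} (h : Atom α) (L d : ℕ) : ‖win L α d‖ ≤ 1 := by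
  obtain ⟨G, u, ξ, γ, hG, hu, e⟩ := h
  refine T3S.norm_exp_le_of zero_le_one fun n _ => T3S.norm_exp_le_of zero_le_one fun m _ => ?_
  rw [e, norm_mul, norm_mul, norm_ee, mul_one]
  exact mul_le_one₀ (hG n m) (norm_nonneg _) (hu n _)

lemma ex_block {a : ℕ → ℕ} (h : Blocks a) (d : ℕ) : ∃ j, a j ≤ d ∧ d < a (j + 1) := by
  induction d with
  | zero => exact ⟨0, h.zero.le, lt_of_eq_of_lt h.zero.symm (h.mono (Nat.lt_succ_self 0))⟩
  | succ d ih =>
    obtain ⟨j, h1, h2⟩ := ih
    by_cases h3 : d + 1 < a (j + 1)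
    · exact ⟨j, by omega, h3⟩
    · have := h.mono (Nat.lt_succ_self (j + 1))
      exact ⟨j + 1, by omega, by simp only [Nat.succ_eq_add_one] at this; omega⟩

lemma succ_eq {a : ℕ → ℕ} (h : Blocks a) (j : ℕ) : a (j + 1) = a j + len a j := by
  have : a j < a (j + 1) := h.mono (Nat.lt_succ_self j)
  unfold len
  omega

lemma mass_eq (σ : ℕ → ℝ) (a : ℕ → ℕ) (j : ℕ) :
    mass σ a j = ∑ d ∈ range (len a j), σ (a j + d) :=
  Fin.sum_univ_eq_sum_range (fun d => σ (a j + d)) (len a j)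

lemma mass_bd {σ : ℕ → ℝ} {a : ℕ → ℕ} (hσ : Antitone σ) (h : Blocks a) (j : ℕ) :
    σ (a (j + 1)) * len a j ≤ mass σ a j ∧ mass σ a j ≤ σ (a j) * len a j := by
  rw [mass_eq]
  constructor
  · have := Finset.card_nsmul_le_sum (range (len a j)) (fun d => σ (a j + d)) (σ (a (j + 1)))
      fun d hd => hσ (by rw [succ_eq h]; have := mem_range.1 hd; omega)
    rwa [card_range, nsmul_eq_mul, mul_comm] at this
  · have := Finset.sum_le_card_nsmul (range (len a j)) (fun d => σ (a j + d)) (σ (a j))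
      fun d _ => hσ (Nat.le_add_right _ _)
    rwa [card_range, nsmul_eq_mul, mul_comm] at this

lemma ind_nonneg (p : ℕ → Prop) (d : ℕ) : 0 ≤ ind p d := by
  unfold ind
  split_ifs <;> norm_num

lemma triv {σ : ℕ → ℝ} (h0 : ∀ n, 0 ≤ σ n) (p : ℕ → Prop) (w : ℕ → ℂ) (hw : ∀ d, ‖w d‖ ≤ 1)
    (b r l : ℕ) (hr : r ≤ l) :
    ‖∑ d ∈ range r, ((ind p (b + d) - σ (b + d) : ℝ) : ℂ) * w (b + d)‖ ≤
      ∑ d ∈ range l, ind p (b + d) + ∑ d ∈ range l, σ (b + d) := by
  rw [← sum_add_distrib]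
  refine (norm_sum_le _ _).trans (le_trans (sum_le_sum fun d _ => ?_)
    (sum_le_sum_of_subset_of_nonneg (range_subset_range.2 hr)
      fun d _ _ => add_nonneg (ind_nonneg p _) (h0 _)))
  rw [norm_mul, Complex.norm_real, Real.norm_eq_abs]
  refine (mul_le_of_le_one_right (abs_nonneg _) (hw _)).trans (abs_le.2 ⟨?_, ?_⟩)
  · linarith [ind_nonneg p (b + d)]
  · linarith [h0 (b + d)]

end SumL

open SumL in
theorem sum : SumS := by
  intro σ p a h0 hσ hW hB h1 h2 δ hδ
  choose bl hb1 hb2 using ex_block hB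
  have hbl : ∀ j d, d < len a j → bl (a j + d) = j := by
    intro j d hd
    have e1 := hb1 (a j + d)
    have e2 := hb2 (a j + d)
    have e3 := succ_eq hB j
    have e4 : bl (a j + d) < j + 1 := hB.mono.lt_iff_lt.1 (by omega)
    have e5 : j < bl (a j + d) + 1 := hB.mono.lt_iff_lt.1 (by omega)
    omega
  have hη : 0 < δ / 8 := by positivity
  obtain ⟨J₀, hJ⟩ := eventually_atTop.1 ((h1.and (h2 _ hη)).and (hB.slow _ hη))
  set C : ℝ := ∑ d ∈ range (a J₀), ind p (0 + d) + ∑ d ∈ range (a J₀), σ (0 + d) +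
    3 * (σ (a J₀) * len a J₀) with hC
  filter_upwards [hW.eventually_ge_atTop (2 * C / δ), hW.eventually_gt_atTop 0,
    eventually_ge_atTop (a J₀)] with M hM1 hM2 hM3
  refine ⟨fun d => len a (bl d), fun d => ?_, fun α hα => ?_⟩
  · have e1 : a (bl d) < a (bl d + 1) := hB.mono (Nat.lt_succ_self _)
    exact Nat.sub_pos_of_lt e1
  set w : ℕ → ℂ := fun d => win (len a (bl d)) α d with hw
  have hw1 : ∀ d, ‖w d‖ ≤ 1 := fun d => win_le hα _ _
  set F : ℕ → ℂ := fun d => ((ind p d - σ d : ℝ) : ℂ) * w d with hF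
  have part : ∀ j, J₀ ≤ j → ∀ r, r ≤ len a j →
      ‖∑ d ∈ range r, F (a j + d)‖ ≤ 3 * mass σ a j := by
    intro j hj r hr
    have e1 := triv h0 p w hw1 (a j) r _ hr
    have e2 := (hJ j hj).1.1
    rw [Fin.sum_univ_eq_sum_range (fun d => ind p (a j + d)) (len a j)] at e2
    rw [← mass_eq σ] at e1
    exact e1.trans (by linarith)
  have full : ∀ j, J₀ ≤ j → ‖∑ d ∈ range (len a j), F (a j + d)‖ ≤
      δ / 8 * mass σ a j + 3 * (σ (a j) * len a j - σ (a (j + 1)) * len a j) := by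
    intro j hj
    obtain ⟨m1, m2⟩ := mass_bd hσ hB j
    have m0 : 0 ≤ mass σ a j := le_trans (mul_nonneg (h0 _) (Nat.cast_nonneg _)) m1
    by_cases hf : σ (a j) * len a j ≤ 2 * mass σ a j
    · have e1 := (hJ j hj).1.2 hf _ (shift hα (a j))
      have e2 : ∑ d ∈ range (len a j), F (a j + d) =
          ∑ d : Fin (len a j), ((ind p (a j + d) - σ (a j + d) : ℝ) : ℂ) *
            win (len a j) (fun n m d => α n m (a j + d)) d := by
        rw [← Fin.sum_univ_eq_sum_range (fun d => F (a j + d)) (len a j)]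
        refine sum_congr rfl fun d _ => ?_
        simp only [hF, hw]
        rw [hbl j d d.2]
        rfl
      rw [e2]
      linarith
    · have e1 := part j hj _ le_rfl
      have e2 := mul_nonneg hη.le m0
      linarith
  have main : ∀ j, J₀ ≤ j → ‖∑ d ∈ range (a j), F d‖ + 3 * (σ (a j) * len a j) ≤
      C + δ / 2 * Wt σ (a j) := by
    intro j hj
    induction j, hj using Nat.le_induction with
    | base =>
      have e1 := triv h0 p w hw1 0 (a J₀) _ le_rfl
      have e2 : 0 ≤ δ / 2 * Wt σ (a J₀) :=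
        mul_nonneg (by positivity) (sum_nonneg fun d _ => h0 d)
      simp only [zero_add] at e1 hC
      simp only [hF]
      linarith
    | succ j hj ih =>
      have e1 : ∑ d ∈ range (a (j + 1)), F d =
          ∑ d ∈ range (a j), F d + ∑ d ∈ range (len a j), F (a j + d) := by
        rw [succ_eq hB j, sum_range_add]
      have e2 : Wt σ (a (j + 1)) = Wt σ (a j) + mass σ a j := by
        rw [mass_eq, succ_eq hB j]
        exact sum_range_add σ _ _
      have e3 := mul_le_mul_of_nonneg_left (hJ j hj).2 (h0 (a (j + 1)))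
      have e4 := mul_le_mul_of_nonneg_left (mass_bd hσ hB j).1 hη.le
      have e5 := norm_add_le (∑ d ∈ range (a j), F d) (∑ d ∈ range (len a j), F (a j + d))
      have e6 := full j hj
      rw [e1, e2]
      nlinarith
  have hj : J₀ ≤ bl M := Nat.lt_succ_iff.1 (hB.mono.lt_iff_lt.1 (lt_of_le_of_lt hM3 (hb2 M)))
  obtain ⟨r, hr⟩ := Nat.exists_eq_add_of_le (hb1 M)
  have hr2 : r ≤ len a (bl M) := by
    have e1 := hb2 M
    have e2 := succ_eq hB (bl M)
    omega
  have e1 : ∑ d ∈ range M, F d =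
      ∑ d ∈ range (a (bl M)), F d + ∑ d ∈ range r, F (a (bl M) + d) := by
    rw [← sum_range_add, ← hr]
  have e2 : Wt σ (a (bl M)) ≤ Wt σ M :=
    sum_le_sum_of_subset_of_nonneg (range_subset_range.2 (hb1 M)) fun d _ _ => h0 d
  have e3 : ‖∑ d ∈ range M, F d‖ ≤ δ * Wt σ M := by
    have b1 := norm_add_le (∑ d ∈ range (a (bl M)), F d) (∑ d ∈ range r, F (a (bl M) + d))
    have b2 := part _ hj r hr2
    have b3 := (mass_bd hσ hB (bl M)).2
    have b4 := main _ hj
    have b5 := mul_le_mul_of_nonneg_left e2 (half_pos hδ).le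
    have b6 := (div_le_iff₀ hδ).1 hM1
    rw [e1]
    linarith
  have e4 : ∑ d ∈ range M, (yw σ p M d : ℂ) * win (len a (bl d)) α d =
      (∑ d ∈ range M, F d) / (Wt σ M : ℂ) := by
    rw [sum_div]
    refine sum_congr rfl fun d _ => ?_
    simp only [hF, hw, yw]
    push_cast
    ring
  rw [e4, norm_div, Complex.norm_real, Real.norm_eq_abs, abs_of_pos hM2]
  exact (div_le_iff₀ hM2).2 e3

end Pool.Agent.MP_154433_an.T7

end
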