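import Pool.Agent.MP_154433_an.t7.SpecF

/-! Symmetrisation of two predictions. -/

set_option autoImplicit false

open scoped BigOperators
open Finset

noncomputable section

namespace Pool.Agent.MP_154433_an.T7

namespace SymL

/-- a tuple with maximal coverage: any further set adds at most the part `1 / m` -/
lemma exch {F A : Type} [Fintype A] [DecidableEq A] {m : ℕ} (C : F → Finset A) (b : Fin m → F)
    (hb : ∀ b' : Fin m → F, (univ.biUnion fun u => C (b' u)).card ≤
      (univ.biUnion fun u => C (b u)).card) (l : F) :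
    m * (C l \ univ.biUnion fun u => C (b u)).card ≤ Fintype.card A := by
  classical
  let R : Fin m → Finset A := fun u => (univ.erase u).biUnion fun v => C (b v)
  have h1 : ∀ u, (C l \ univ.biUnion fun u => C (b u)).card ≤ (C (b u) \ R u).card := fun u => by
    have e1 : (univ.biUnion fun v => C (b v)) = C (b u) \ R u ∪ R u := by
      rw [sdiff_union_self_eq_union]
      ext a
      simp only [mem_biUnion, mem_univ, true_and, mem_union, R, mem_erase, and_true]
      constructor
      · rintro ⟨v, hv⟩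
        by_cases h : v = u
        · exact Or.inl (h ▸ hv)
        · exact Or.inr ⟨v, h, hv⟩
      · rintro (h | ⟨v, -, hv⟩)
        · exact ⟨u, h⟩
        · exact ⟨v, hv⟩
    have e2 : (C l \ univ.biUnion fun u => C (b u)) ∪ R u ⊆
        univ.biUnion fun v => C (Function.update b u l v) := by
      intro a ha
      simp only [mem_biUnion, mem_univ, true_and, mem_union, R, mem_erase, and_true,
        mem_sdiff] at ha ⊢
      rcases ha with ⟨h, -⟩ | ⟨v, hv, h⟩
      · exact ⟨u, by rwa [Function.update_self]⟩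
      · exact ⟨v, by rwa [Function.update_of_ne hv]⟩
    have e3 : Disjoint (C l \ univ.biUnion fun u => C (b u)) (R u) := by
      refine disjoint_left.2 fun a ha hr => (mem_sdiff.1 ha).2 ?_
      obtain ⟨v, -, hv⟩ := mem_biUnion.1 hr
      exact mem_biUnion.2 ⟨v, mem_univ _, hv⟩
    have e4 := (card_le_card e2).trans (hb (Function.update b u l))
    rw [card_union_of_disjoint e3] at e4
    have e5 := card_union_le (C (b u) \ R u) (R u)
    rw [← e1] at e5
    omega
  have h2 : ∑ u, (C (b u) \ R u).card ≤ Fintype.card A := by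
    rw [← card_biUnion]
    · exact card_le_univ _
    · intro u _ v _ huv
      refine disjoint_left.2 fun a ha hv => (mem_sdiff.1 hv).2 ?_
      exact mem_biUnion.2 ⟨u, mem_erase.2 ⟨huv, mem_univ _⟩, (mem_sdiff.1 ha).1⟩
  refine le_trans ?_ h2
  have := sum_le_sum (s := univ) fun u _ => h1 u
  rwa [sum_const, card_univ, Fintype.card_fin, smul_eq_mul] at this

open Classical in
/-- the symmetrisation step -/
theorem core {X Θ F : Type} [Fintype X] [Fintype F] [Nonempty F] (ev : F → X → Θ) (m n : ℕ)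
    (hm : 0 < m) (hn : 0 < n) {η : ℝ}
    (hs : ∀ (π : X → ℝ) (f : Bool × X × (Fin m → F) → X → ℝ), PV π → (∀ φ x, |f φ x| ≤ 1) →
      ∃ a : Fin n → X, ∀ φ, |∑ x, π x * f φ x - (n : ℝ)⁻¹ * ∑ j, f φ (a j)| ≤ η) :
    ∃ ev' : (Fin n → X × F) × Fin m → X → X → Θ, ∀ (π : X → ℝ), (∀ x, 0 ≤ π x) → ∑ x, π x = 1 →
      ∀ (Λ : X → F) (Gd : X → X → Prop), (∀ J J', Gd J J' → ev (Λ J') J = ev (Λ J) J') →
      ∃ q, (∑ J', ∑ J, π J' * (π J * if Gd J J' then 1 else 0) - 1 / m - 2 * η) / m ≤
        ∑ J', ∑ J, π J' * (π J * if Gd J J' ∧ ev' q J J' = ev (Λ J) J' then 1 else 0) := by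
  let C : (Fin n → X × F) → X → F → Finset (Fin n) := fun t J' l =>
    univ.filter fun a => ev l (t a).1 = ev (t a).2 J'
  have hb : ∀ (t : Fin n → X × F) (J' : X), ∃ b : Fin m → F, ∀ b' : Fin m → F,
      (univ.biUnion fun u => C t J' (b' u)).card ≤ (univ.biUnion fun u => C t J' (b u)).card :=
    fun t J' => Finite.exists_max fun b : Fin m → F => (univ.biUnion fun u => C t J' (b u)).card
  choose B hB using hb
  refine ⟨fun q J J' => ev (B q.1 J' q.2) J, fun π h0 h1 Λ Gd hG => ?_⟩
  obtain ⟨s, hs'⟩ := hs π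
    (fun p J => if p.1 then (if Gd J p.2.1 ∧ ∃ u, ev (p.2.2 u) J = ev (Λ J) p.2.1 then 1 else 0)
      else if Gd J p.2.1 then 1 else 0) ⟨h0, h1⟩ fun p J => by split_ifs <;> simp
  let t : Fin n → X × F := fun a => (s a, Λ (s a))
  have m3 : (0 : ℝ) < m := by exact_mod_cast hm
  have n3 : (0 : ℝ) < n := by exact_mod_cast hn
  have key : ∀ J', ∑ J, π J * (if Gd J J' then 1 else 0) - 1 / m - 2 * η ≤
      ∑ u, ∑ J, π J * if Gd J J' ∧ ev (B t J' u) J = ev (Λ J) J' then 1 else 0 := fun J' => by
    have a1 := (abs_le.1 (hs' (true, J', B t J'))).1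
    have a2 := (abs_le.1 (hs' (false, J', B t J'))).2
    simp only [if_true, Bool.false_eq_true, if_false] at a1 a2
    have a3 := exch (C t J') (B t J') (hB t J') (Λ J')
    rw [Fintype.card_fin] at a3
    have a4 : ∑ a, (if Gd (s a) J' then (1 : ℝ) else 0) ≤
        ∑ a, (if Gd (s a) J' ∧ ∃ u, ev (B t J' u) (s a) = ev (Λ (s a)) J' then (1 : ℝ) else 0) +
          ((C t J' (Λ J') \ univ.biUnion fun u => C t J' (B t J' u)).card : ℝ) := by
      set N := C t J' (Λ J') \ univ.biUnion fun u => C t J' (B t J' u) with hN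
      have e : (N.card : ℝ) = ∑ a, if a ∈ N then (1 : ℝ) else 0 := by simp
      rw [e, ← sum_add_distrib]
      refine sum_le_sum fun a _ => ?_
      by_cases g1 : Gd (s a) J'
      · by_cases g2 : ∃ u, ev (B t J' u) (s a) = ev (Λ (s a)) J'
        · rw [if_pos g1, if_pos ⟨g1, g2⟩]
          split_ifs <;> norm_num
        · have g3 : a ∈ N := by
            simp only [hN, C, t, mem_sdiff, mem_filter, mem_univ, true_and, mem_biUnion]
            exact ⟨hG _ _ g1, g2⟩
          rw [if_pos g1, if_neg fun h => g2 h.2, if_pos g3, zero_add]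
      · rw [if_neg g1]
        split_ifs <;> norm_num
    have a5 : ∑ J, π J * (if Gd J J' ∧ ∃ u, ev (B t J' u) J = ev (Λ J) J' then (1 : ℝ) else 0) ≤
        ∑ u, ∑ J, π J * if Gd J J' ∧ ev (B t J' u) J = ev (Λ J) J' then 1 else 0 := by
      rw [sum_comm]
      refine sum_le_sum fun J _ => ?_
      rw [← mul_sum]
      refine mul_le_mul_of_nonneg_left ?_ (h0 J)
      split_ifs with g
      · obtain ⟨g1, u, g2⟩ := g
        refine le_trans ?_ (single_le_sum (fun v _ => by split_ifs <;> norm_num) (mem_univ u))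
        rw [if_pos ⟨g1, g2⟩]
      · exact sum_nonneg fun v _ => by split_ifs <;> norm_num
    have a6 : (n : ℝ)⁻¹ * ((C t J' (Λ J') \ univ.biUnion fun u => C t J' (B t J' u)).card : ℝ) ≤
        1 / m := by
      rw [inv_mul_le_iff₀ n3, mul_one_div, le_div_iff₀ m3, mul_comm]
      exact_mod_cast a3
    have a7 := mul_le_mul_of_nonneg_left a4 (inv_pos.2 n3).le
    rw [mul_add] at a7
    linarith
  have tot : ∑ J', ∑ J, π J' * (π J * if Gd J J' then 1 else 0) - 1 / m - 2 * η ≤
      ∑ u, ∑ J', ∑ J, π J' *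
        (π J * if Gd J J' ∧ ev (B t J' u) J = ev (Λ J) J' then 1 else 0) := by
    have := sum_le_sum (s := univ) fun J' _ => mul_le_mul_of_nonneg_left (key J') (h0 J')
    simp only [mul_sub, sum_sub_distrib, ← sum_mul, h1, one_mul, mul_sum] at this
    rwa [sum_comm (s := (univ : Finset (Fin m)))]
  by_contra hc
  push Not at hc
  have : Nonempty (Fin m) := ⟨⟨0, hm⟩⟩
  have := sum_lt_sum_of_nonempty (s := (univ : Finset (Fin m))) univ_nonempty fun u _ => hc (t, u)
  rw [sum_const, card_univ, Fintype.card_fin, nsmul_eq_mul, mul_div_cancel₀ _ m3.ne'] at this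
  exact absurd tot (not_le.2 this)

end SymL

theorem sym (hSamp : SampS) : SymS := by
  classical
  intro η η0
  obtain ⟨m, hm⟩ := exists_nat_ge (2 / η + 1)
  have q0 : 0 < 2 / η := by positivity
  have m1 : (1 : ℝ) ≤ m := by linarith
  have m0 : 0 < m := by exact_mod_cast zero_lt_one.trans_le m1
  obtain ⟨K, K1, hK⟩ := hSamp (η / 4) (by positivity)
  refine ⟨2 * (K * (m + 2) + 2) + m, m, by positivity, m0, fun X Θ _ 𝓕 y y1 hX hF => ?_⟩
  rcases 𝓕.eq_empty_or_nonempty with rfl | hne
  · refine ⟨∅, by simpa using (Real.exp_pos _).le, fun π Λ Gd hπ hΛ _ => ?_⟩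
    rcases isEmpty_or_nonempty X with hx | ⟨⟨x⟩⟩
    · exact absurd hπ.2 (by simp)
    · exact absurd (hΛ x) (notMem_empty _)
  have : Nonempty 𝓕 := hne.to_subtype
  set n : ℕ := ⌈K * ((m + 2) * y)⌉₊ + 1 with hn
  have n1 : K * ((m + 2) * y) ≤ n := by
    have := Nat.le_ceil (K * ((m + 2) * y))
    rw [hn]
    push_cast
    linarith
  have n2 : (n : ℝ) ≤ (K * (m + 2) + 2) * y := by
    have := Nat.ceil_lt_add_one (a := K * ((m + 2) * y)) (by positivity)
    rw [hn]
    push_cast
    linarith
  have cF : (Fintype.card 𝓕 : ℝ) ≤ Real.exp y := by rwa [Fintype.card_coe]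
  obtain ⟨ev, hev⟩ := SymL.core (X := X) (F := 𝓕) (fun l => l.1) m n m0 (Nat.succ_pos _)
    fun π f hπ hf => hK X _ π f ((m + 2) * y) n hπ hf (by nlinarith) (by
      have a1 : (2 : ℝ) ≤ Real.exp y := by linarith [Real.add_one_le_exp y]
      have a3 : Real.exp ((m + 2) * y) = Real.exp y * (Real.exp y * Real.exp y ^ m) := by
        rw [← Real.exp_nat_mul, ← Real.exp_add, ← Real.exp_add]
        congr 1
        ring
      rw [a3, Fintype.card_prod, Fintype.card_prod, Fintype.card_bool, Fintype.card_fun,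
        Fintype.card_fin]
      push_cast
      gcongr) n1
  refine ⟨univ.image ev, ?_, fun π Λ Gd hπ hΛ hG => ?_⟩
  · have a1 : ((univ.image ev).card : ℝ) ≤ ((Fintype.card X : ℝ) * Fintype.card 𝓕) ^ n * m := by
      have := card_image_le (s := univ) (f := ev)
      rw [card_univ, Fintype.card_prod, Fintype.card_fun, Fintype.card_prod, Fintype.card_fin,
        Fintype.card_fin] at this
      exact_mod_cast this
    have a2 : (m : ℝ) ≤ Real.exp m := by linarith [Real.add_one_le_exp (m : ℝ)]
    have a3 : ((Fintype.card X : ℝ) * Fintype.card 𝓕) ^ n * m ≤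
        (Real.exp y * Real.exp y) ^ n * Real.exp m := by gcongr
    refine a1.trans (a3.trans ?_)
    rw [← Real.exp_add, ← Real.exp_nat_mul, ← Real.exp_add, Real.exp_le_exp]
    have a4 := mul_le_mul_of_nonneg_right n2 (by linarith : 0 ≤ y + y)
    have a5 : (m : ℝ) * 1 ≤ m * y ^ 2 := mul_le_mul_of_nonneg_left (one_le_pow₀ y1) (by linarith)
    linarith
  · obtain ⟨q, hq⟩ := hev π hπ.1 hπ.2 (fun J => ⟨Λ J, hΛ J⟩) Gd hG
    refine ⟨ev q, mem_image_of_mem _ (mem_univ _), le_trans ?_ (hq.trans (le_of_eq ?_))⟩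
    · refine div_le_div_of_nonneg_right ?_ (by linarith)
      have a1 : 1 / (m : ℝ) ≤ η / 2 := by
        rw [div_le_iff₀ (by linarith)]
        have := (div_le_iff₀ η0).1 (by linarith : 2 / η ≤ m)
        linarith
      have a2 : ∑ J, ∑ J', π J * π J' * oi (Gd J J') =
          ∑ J', ∑ J, π J' * (π J * if Gd J J' then 1 else 0) := by
        rw [sum_comm]
        refine sum_congr rfl fun J' _ => sum_congr rfl fun J _ => ?_
        unfold oi
        split_ifs <;> ring
      rw [a2]
      linarith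
    · rw [sum_comm]
      refine sum_congr rfl fun J _ => sum_congr rfl fun J' _ => ?_
      unfold oi
      by_cases g : Gd J J'
      · rw [hG J J' g]
        split_ifs <;> ring
      · simp [g]

end Pool.Agent.MP_154433_an.T7

end
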