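import Pool.Agent.MP_154433_an.t7.SpecF

/-! Row Tr: transfer from the probability space to the finite cube. -/

set_option autoImplicit false

open MeasureTheory ProbabilityTheory Finset

namespace Pool.Agent.MP_154433_an.T7

open Classical in
theorem tr : TrS := by
  intro σ hσ Ω _ P _ E hE hI hP a L bad
  let C : (Fin L → Bool) → Set Ω := fun β => ⋂ i : Fin L, if β i then E (a + i) else (E (a + i))ᶜ
  have mem : ∀ β ω, ω ∈ C β ↔ (fun i : Fin L => decide (ω ∈ E (a + i))) = β := fun β ω => by
    simp only [C, Set.mem_iInter, funext_iff]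
    refine forall_congr' fun i => ?_
    cases β i <;> simp
  have hm : ∀ β, MeasurableSet (C β) := fun β => MeasurableSet.iInter fun i => by
    split_ifs
    exacts [hE _, (hE _).compl]
  have hr : ∀ n, P.real (E n) = σ n := fun n => by
    rw [Measure.real, hP, ENNReal.toReal_ofReal (hσ n).1]
  have hI' := ((iIndepSet_iff_iIndep _ _).1 hI).precomp (g := fun i : Fin L => a + (i : ℕ))
    fun i j h => Fin.ext (Nat.add_left_cancel h)
  have hp : ∀ β, P.real (C β) = bw (fun i : Fin L => σ (a + i)) β := fun β => by
    have h0 : ∀ n, MeasurableSet[MeasurableSpace.generateFrom {E n}] (E n) := fun n =>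
      MeasurableSpace.measurableSet_generateFrom rfl
    rw [Measure.real, hI'.meas_iInter fun i => by
      split_ifs
      exacts [h0 _, (h0 _).compl], ENNReal.toReal_prod]
    refine prod_congr rfl fun i _ => ?_
    split_ifs
    · exact hr _
    · exact (probReal_compl_eq_one_sub (hE _)).trans (congrArg _ (hr _))
  have e : {ω | bad fun i : Fin L => decide (ω ∈ E (a + i))} = ⋃ β ∈ univ.filter bad, C β := by
    ext ω
    simp [mem]
  rw [e, measureReal_biUnion_finset (fun β _ β' _ hn => Set.disjoint_left.2 fun ω h h' =>
    hn (((mem _ _).1 h).symm.trans ((mem _ _).1 h'))) fun β _ => hm β, sum_filter]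
  refine sum_congr rfl fun β _ => ?_
  rw [hp, oi]
  split_ifs <;> simp

end Pool.Agent.MP_154433_an.T7
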