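import Pool.Agent.MP_154433_an.t7.SpecE
import Pool.Agent.MP_154433_an.t3s.Unif

set_option autoImplicit false
set_option linter.unusedVariables false

open MeasureTheory Filter Topology Function
open scoped BigOperators ComplexConjugate

noncomputable section

namespace Pool.Agent.MP_154433_an.T7

open T3S (B1 MB1 PW AsInv)
open T4S (Gm Act wavg QX ln ddX QX_ln)
open T3S.UnifAux (int_zero le_pow_div sum_eq)

namespace UnifL

lemma step (h5 : GcsS) (h4 : T4S.GvnS) {w : ℕ → ℕ → ℝ} (hw : PW w) (hinv : AsInv w) {l : ℕ}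
    {X : Type} (C : MeasurableSpace X) [m0 : MeasurableSpace X] {μ : Measure X}
    [IsProbabilityMeasure μ] {A : Gm l → X → X} (hA : Act μ A) (hC : Sub C m0 A)
    (r : Fin 2 → Gm l) (i : Fin 2) (u : Gm l) {g : X → ℂ} (hg : MB1 g) {L : ℕ} (hL : 1 ≤ L)
    (a a' : ℕ) (c : Fin 2 → X → ℂ) (hc : ∀ i, MB1 (c i))
    (he : c i =ᵐ[μ] μ[fun y => g (A ((a : ℤ) • u) y) * conj (g (A ((a' : ℤ) • u) y)) | C])
    {s η : ℝ} (hs : 0 < s) (hη : 0 < η) :
    ∀ᶠ M in atTop, ∫ x, ‖wavg A w r c M x‖ ^ 2 ∂μ ≤ s + QX μ A [ln (r i) L, ln (r i - r i.rev) L]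
      (ddX A (((a : ℤ) - (a' : ℤ)) • u) g) / s ^ 1 + η := by
  have hFe : (fun y => g (A ((a : ℤ) • u) y) * conj (g (A ((a' : ℤ) • u) y))) =
      fun y => ddX A (((a : ℤ) - (a' : ℤ)) • u) g (A ((a' : ℤ) • u) y) := by
    funext y
    simp only [ddX, ← hA.add, ← add_smul, sub_add_cancel]
  have h1 := h5 l X C μ A hA hC (r i) (r i - r i.rev) L L _ _
    ((hA.tz hg _).mul (hA.tz hg _).cj) (hc i) he
  rw [hFe, hA.QX_tz _ _ (hA.dd hg _)] at h1
  have e : ∀ M, wavg A w ![r i, r i.rev] ![c i, c i.rev] M = wavg A w r c M := by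
    intro M
    funext x
    refine Finset.sum_congr rfl fun d _ => ?_
    rw [Fin.prod_univ_two, Fin.prod_univ_two]
    fin_cases i
    · rfl
    · exact congrArg _ (mul_comm _ _)
  filter_upwards [h4 w hw hinv l X μ A hA 1 (fun _ => L) (fun _ => hL) ![r i, r i.rev]
    ![c i, c i.rev] (Fin.forall_fin_two.2 ⟨hc _, hc _⟩) (η * s ^ 1) (by positivity)] with M hM
  rw [e] at hM
  have h6 := le_pow_div (t := ∫ x, ‖wavg A w r c M x‖ ^ 2 ∂μ)
    (integral_nonneg fun x => sq_nonneg _) hs 1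
  have h7 : (∫ x, ‖wavg A w r c M x‖ ^ 2 ∂μ) ^ (1 + 1) / s ^ 1 ≤ QX μ A
      [ln (r i) L, ln (r i - r i.rev) L] (ddX A (((a : ℤ) - (a' : ℤ)) • u) g) / s ^ 1 + η := by
    rw [div_le_iff₀ (by positivity), add_mul, div_mul_cancel₀ _ (by positivity)]
    exact hM.trans (add_le_add h1 le_rfl)
  linarith

end UnifL

theorem unif (hFac : FacS) (hZero : ZeroS) (hLink : LinkS) (hBlk : BlkS) (hGcs : GcsS)
    (hT4SGvn : T4S.GvnS) (hT4SPerm : T4S.PermS) : UnifS := by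
  intro w hw hinv l X m0 μ _ A hA r i u hu g hg h0 ε hε
  obtain ⟨hF, hD, -⟩ := hFac l X μ A hA (r i) (r i.rev)
  have hs : 0 < ε / 2 := by positivity
  have hz := fun β h1 h2 => hZero l X μ A hA (r i) (r i.rev) g 5 β hg h1 h2
    (fun D hD' hm => int_zero hF.1 hg hm (hD D hD') h0) (ε / 2 * (ε / 2) ^ 1) (by positivity)
  have hb := hBlk l X μ A hA (r i) (r i.rev) g hg
  obtain ⟨L, hL, hQ⟩ : ∃ L, 1 ≤ L ∧
      QX μ A [ln u L, ln (r i) L, ln (r i - r i.rev) L] g ≤ ε / 2 * (ε / 2) ^ 1 := by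
    rcases hu with rfl | rfl
    · obtain ⟨L, hL, h⟩ := hz _ (fun L => (hLink l X μ A hA _ _ L g hg).1)
        fun N => (hb N).mono fun L h => h.1
      exact ⟨L, hL, (hLink l X μ A hA _ _ L g hg).2.trans_le h⟩
    · obtain ⟨L, hL, h⟩ := hz _ (fun L => (hLink l X μ A hA _ _ L g hg).1)
        fun N => (hb N).mono fun L h => h.2
      exact ⟨L, hL, ((hT4SPerm l X μ A hA _ _ ((List.Perm.swap _ _ _).cons _) g).trans
        (hLink l X μ A hA _ _ L g hg).2).trans_le h⟩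
  let p : ℕ → ℕ → ℝ := fun a a' => QX μ A [ln (r i) L, ln (r i - r i.rev) L]
    (ddX A (((a : ℤ) - (a' : ℤ)) • u) g)
  refine ⟨L, fun a a' => ε / 2 + p a a' / (ε / 2) ^ 1, hL, ?_, fun C hC a a' c hc he η hη =>
    UnifL.step (m0 := m0) hGcs hT4SGvn hw hinv C hA hC r i u hg hL a a' c hc he hs hη⟩
  simp only [Finset.sum_add_distrib, Finset.sum_const, Finset.card_range, nsmul_eq_mul,
    ← Finset.sum_div]
  rw [QX_ln] at hQ
  rw [sum_eq L hL p, add_comm, ← le_sub_iff_add_le, div_le_iff₀ (by positivity)]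
  have := mul_le_mul_of_nonneg_right hQ (sq_nonneg (L : ℝ))
  exact this.trans (le_of_eq (by ring))

end Pool.Agent.MP_154433_an.T7

end
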