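import Pool.Agent.MP_154433_an.t7.SpecE
import Pool.Agent.MP_154433_an.p4.A8

/-! The compact step for pairs: averages of convolutions vanish when one function is orthogonal
to the factor of its slot. -/

set_option autoImplicit false
set_option linter.unusedVariables false

noncomputable section

namespace T4x

open MeasureTheory ProbabilityTheory Filter Topology Function Finset ComplexConjugate
open scoped BigOperators
open Fib27 (BM)
open T3x

variable [Grp]

namespace VanPL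

open CptA

/-- two copies of a family of functions, the second one conjugated -/
def dbl {ι : Type} {Z : ι → Sys} (H : ∀ i, (Z i).X → ℂ) :
    ∀ j : ι ⊕ ι, (Z (Sum.elim id id j)).X → ℂ
  | Sum.inl i => H i
  | Sum.inr i => fun z => conj (H i z)

lemma core (F : Fd) (hKP : KeyP) {X : Sys} {ι : Type} [Fintype ι] [DecidableEq ι] (r : ι → Γ)
    {ν' ν'' : Wt} {A : ι → MeasurableSpace X.X} {B : MeasurableSpace X.X} {O : Set Γ} {i0 : ι}
    {Z : ι → Sys} {p : ∀ i, Bool → (Z i).X → X.X} {u : Γ} (hu : u ∈ O) (hC : ∀ i, Fac X (A i))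
    (hP : ∀ i, Pair X (A i) (Z i) (p i)) (hGood : GoodP ν'' ν' X r A) (hG0 : G0P ν' X r i0 O B)
    (H : ∀ i, (Z i).X → ℂ) (g k : ι → X.X → ℂ)
    (h : ∀ i, BM (Z i).μ (Inv (Z i) {u}) (H i) ∧ BM X.μ X.ms (g i) ∧ BM X.μ X.ms (k i) ∧
      Star (p i) (H i) (g i) (k i)) (hg1 : ∀ i, ∀ᵐ x ∂X.μ, ‖g i x‖ ≤ 1)
    (h0 : X.μ[g i0 | B] =ᵐ[X.μ] 0) :
    Tendsto (fun M => ∫ x, ‖avg ν'' M X r k x‖ ^ 2 ∂X.μ) atTop (𝓝 0) := by
  obtain ⟨K, hK, hkey⟩ := hKP X (ι ⊕ ι) (Sum.inl i0) (fun j => A (Sum.elim id id j))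
    (fun j => Z (Sum.elim id id j)) (fun j => p (Sum.elim id id j)) u (dbl H)
    (Sum.elim g fun i y => conj (g i y)) (Sum.elim k fun i y => conj (k i y)) (fun j => hC _)
    (fun j => hP _) (by
      rintro (i | i)
      · exact h i
      · exact ⟨(h i).1.conj, (h i).2.1.conj, (h i).2.2.1.conj,
          starC F (hP i) ((h i).1.mono (F.t.finv (Z i) _).le) (h i).2.1 (h i).2.2.2⟩)
  let G : ℕ → ℕ → ι → X.X → ℂ := fun n n' i y =>
    g i (X.Tz ((n : ℤ) • u) y) * conj (g i (X.Tz ((n' : ℤ) • u) y))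
  have hG : ∀ n n' i, BM X.μ X.ms (G n n' i) := fun n n' i =>
    (bmT F (h i).2.1 _).mul (bmT F (h i).2.1 _).conj
  let c : ℕ → ℕ → ι → X.X → ℂ := fun n n' i => X.μ[G n n' i | A i]
  have hc : ∀ n n' i, BM X.μ (A i) (c n n' i) := fun n n' i => (hG n n' i).ce (A i)
  have hc' : ∀ n n' i, BM X.μ X.ms (c n n' i) := fun n n' i => (hc n n' i).mono (hC i).le
  have hc1 : ∀ n n' i, ∀ᵐ x ∂X.μ, ‖c n n' i x‖ ≤ 1 := fun n n' i => by
    refine ae_bdd_norm_condExp_of_ae_bdd_norm ?_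
    filter_upwards [aeP F (hg1 i) ((n : ℤ) • u), aeP F (hg1 i) ((n' : ℤ) • u)] with x h1 h2
    rw [norm_mul, Complex.norm_conj]
    exact mul_le_one₀ h1 (norm_nonneg _) h2
  have main : ∀ N M, 1 ≤ N → (∫ x, ‖avg ν'' M X r k x‖ ^ 2 ∂X.μ) ^ 2 ≤
      K * ∑ n ∈ range N, ∑ n' ∈ range N,
        (N : ℝ)⁻¹ * (N : ℝ)⁻¹ * ∫ x, ‖avg ν'' M X r (c n n') x‖ ^ 2 ∂X.μ := by
    intro N M hN
    rw [sq_avg F r ν'' M fun i => (h i).2.2.1]
    refine (jensen _ _ (ν''.nn M) (ν''.one M) _ _ fun d d' => le_trans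
      ((sq_abs _).symm.trans_le (pow_le_pow_left₀ (abs_nonneg _) (Complex.abs_re_le_norm _) 2))
      (hkey N hN (Sum.elim (fun i => d • r i) (fun i => d' • r i))
        (fun n n' => Sum.elim (c n n') fun i y => conj (c n n' i y)) ?_ ?_)).trans (le_of_eq ?_)
    · rintro n n' (i | i)
      · exact hc' n n' i
      · exact (hc' n n' i).conj
    · rintro n n' (i | i)
      · exact EventuallyEq.rfl
      · have := Fib27.ce_conj (hC i).le (hG n n' i)
        simp only [G, map_mul] at this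
        exact this.symm
    · simp only [sq_avg F r ν'' M (hc' _ _), Finset.mul_sum]
      simp only [Finset.sum_comm (s := ν''.sp M) (t := range N)]
      refine Finset.sum_congr rfl fun n _ => Finset.sum_congr rfl fun n' _ =>
        Finset.sum_congr rfl fun d _ => Finset.sum_congr rfl fun d' _ => by ring
  refine tendsto_order.2 ⟨fun a ha => Eventually.of_forall fun M =>
    ha.trans_le (integral_nonneg fun x => by positivity), fun ε hε => ?_⟩
  have hδ : 0 < ε ^ 2 / (6 * K + 1) := by positivity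
  obtain ⟨N, a, hN, ha, hs⟩ := hG0 u hu (g i0) (h i0).2.1 (hg1 i0) h0 _ hδ
  have hev : ∀ n ∈ range N, ∀ n' ∈ range N, ∀ᶠ M in atTop,
      ∫ x, ‖avg ν'' M X r (c n n') x‖ ^ 2 ∂X.μ ≤ 4 * (ε ^ 2 / (6 * K + 1)) + 2 * a n n' := by
    intro n _ n' _
    filter_upwards [(tendsto_order.1 (hGood (c n n') (hc n n'))).2 _ hδ,
      hs (A i0) (hC i0) n n' (c n n') _ (hc' n n') (hc1 n n') EventuallyEq.rfl hδ] with M h1 h2
    have h3 := sq_le_two (bm_avg F r (F.t.top X) ν'' M (hc' n n'))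
      (bm_avg F r (F.t.top X) ν' M (hc' n n'))
    linarith
  filter_upwards [(Finset.eventually_all _).2 fun n hn => (Finset.eventually_all _).2 (hev n hn)]
    with M hM
  have hN' : (0 : ℝ) < N := by exact_mod_cast hN
  have h5 : ∑ n ∈ range N, ∑ n' ∈ range N,
      (N : ℝ)⁻¹ * (N : ℝ)⁻¹ * ∫ x, ‖avg ν'' M X r (c n n') x‖ ^ 2 ∂X.μ ≤
      6 * (ε ^ 2 / (6 * K + 1)) := by
    refine (Finset.sum_le_sum fun n hn => Finset.sum_le_sum fun n' hn' =>
      mul_le_mul_of_nonneg_left (hM n hn n' hn') (by positivity)).trans ?_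
    simp only [← Finset.mul_sum, Finset.sum_add_distrib, Finset.sum_const, Finset.card_range,
      nsmul_eq_mul]
    calc _ = (N : ℝ)⁻¹ * (N : ℝ)⁻¹ * (N * (N * (4 * (ε ^ 2 / (6 * K + 1)))) +
          2 * ∑ n ∈ range N, ∑ n' ∈ range N, a n n') := by ring
      _ ≤ (N : ℝ)⁻¹ * (N : ℝ)⁻¹ * (N * (N * (4 * (ε ^ 2 / (6 * K + 1)))) +
          2 * (ε ^ 2 / (6 * K + 1) * N ^ 2)) := by gcongr
      _ = _ := by
        field_simp
        ring
  have h6 := (main N M hN).trans (mul_le_mul_of_nonneg_left h5 hK)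
  have h7 : K * (6 * (ε ^ 2 / (6 * K + 1))) < ε ^ 2 := by
    have : ε ^ 2 = (6 * K + 1) * (ε ^ 2 / (6 * K + 1)) := by field_simp
    linarith
  exact lt_of_pow_lt_pow_left₀ 2 hε.le (h6.trans_lt h7)

end VanPL

theorem vanP (F : Fd) (hK : KeyP) : VanP := by
  intro ν' ν'' X ι _ _ r A B O i0 Z p u hu hC hP hGood hG0 H g k h h0
  have hb : ∀ i, ∃ L : ℝ, 0 < L ∧ ∀ᵐ x ∂X.μ, ‖g i x‖ ≤ L := fun i => by
    obtain ⟨L, hL⟩ := (h i).2.1.2
    exact ⟨max L 1, lt_max_of_lt_right one_pos, hL.mono fun x hx => hx.trans (le_max_left _ _)⟩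
  choose L hL hLg using hb
  have hL' : ∀ i, (L i : ℂ) ≠ 0 := fun i => by exact_mod_cast (hL i).ne'
  refine VanPL.core F hK r hu hC hP hGood hG0 (fun i z => (L i : ℂ) * H i z)
    (fun i x => (L i : ℂ)⁻¹ * g i x) k (fun i => ⟨(h i).1.cmul _, (h i).2.1.cmul _,
      (h i).2.2.1, ?_⟩) (fun i => ?_) ?_
  · have e : (fun z => (L i : ℂ) * H i z * ((L i : ℂ)⁻¹ * g i (p i true z))) =
        fun z => H i z * g i (p i true z) := by
      funext z
      have := hL' i
      field_simp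
    unfold Star
    rw [e]
    exact (h i).2.2.2
  · filter_upwards [hLg i] with x hx
    rw [norm_mul, norm_inv, Complex.norm_real, Real.norm_of_nonneg (hL i).le,
      inv_mul_le_iff₀ (hL i), mul_one]
    exact hx
  · refine (condExp_smul ((L i0 : ℂ)⁻¹) (g i0) B).trans ?_
    filter_upwards [h0] with x hx
    simp [hx]

end T4x

end
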