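import Pool.Agent.MP_154433_an.t7.SpecF

/-! Row Walk: walks double by the Cauchy-Schwarz inequality. -/

open Finset

noncomputable section

namespace Pool.Agent.MP_154433_an.T7

namespace WalkL

theorem oi_nonneg (p : Prop) : 0 ≤ oi p := by
  unfold oi
  split_ifs <;> norm_num

theorem oi_mul_le {p q r : Prop} (h : p → q → r) : oi p * oi q ≤ oi r := by
  by_cases hp : p
  · by_cases hq : q
    · simp [oi, hp, hq, h hp hq]
    · simpa [oi, hq] using oi_nonneg r
  · simpa [oi, hp] using oi_nonneg r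

/-- restart two walks from the end of the first -/
def eqv {A T : Type} [AddCommGroup A] (s : (T → A) → A) :
    A × (T → A) × (T → A) ≃ A × (T ⊕ T → A) where
  toFun p := (p.1 + s p.2.1, Sum.elim p.2.1 p.2.2)
  invFun q := (q.1 - s (q.2 ∘ Sum.inl), q.2 ∘ Sum.inl, q.2 ∘ Sum.inr)
  left_inv p := by simp
  right_inv q := by simp

theorem dbl {A X : Type} [Fintype A] [Nonempty A] [Fintype X] (P : A × X → Prop) {d : ℝ}
    (hd : 0 ≤ d) (h : d * Fintype.card A * Fintype.card X ≤ cnt P) :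
    d ^ 2 * Fintype.card A * (Fintype.card X : ℝ) ^ 2 ≤
      ∑ p : A × X × X, oi (P (p.1, p.2.1)) * oi (P (p.1, p.2.2)) := by
  have hn : (0 : ℝ) < Fintype.card A := by exact_mod_cast Fintype.card_pos
  have e : ∑ p : A × X × X, oi (P (p.1, p.2.1)) * oi (P (p.1, p.2.2)) =
      ∑ x, (∑ J, oi (P (x, J))) ^ 2 := by
    simp only [Fintype.sum_prod_type, sq, sum_mul_sum]
  have cs := sq_sum_le_card_mul_sum_sq (s := (univ : Finset A)) (f := fun x => ∑ J, oi (P (x, J)))
  rw [cnt, Fintype.sum_prod_type] at h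
  rw [e]
  rw [card_univ] at cs
  refine le_of_mul_le_mul_left (le_trans ?_ cs) hn
  refine le_trans (le_of_eq ?_) (pow_le_pow_left₀ (by positivity) h 2)
  ring

end WalkL

open WalkL in
theorem walk : WalkS := by
  intro r A Θ _ _ _
  induction r with
  | zero =>
    refine ⟨Unit, inferInstance, inferInstance, fun _ a => a, fun _ ps x => ps () x, by simp,
      fun _ => Or.inl rfl, fun ψ U γ δ _ h => ?_⟩
    have e : edg ψ U γ = cnt fun p : A × (Unit → A) => p.1 + ∑ t, p.2 t ∈ U ∧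
        γ (p.1 + ∑ t, p.2 t) - γ p.1 = ψ (p.2 ()) p.1 := by
      refine Fintype.sum_equiv ((Equiv.prodComm A A).trans
        ((Equiv.refl A).prodCongr (Equiv.funUnique Unit A).symm)) _ _ fun p => ?_
      simp
    rw [← e]
    refine le_trans (le_of_eq ?_) h
    simp [sq, mul_assoc]
  | succ r ih =>
    obtain ⟨T, _, _, e, Δ, hT, he, H⟩ := ih
    refine ⟨T ⊕ T, inferInstance, inferInstance, Sum.elim (fun t a => -e t a) e,
      fun J ps z => Δ (J ∘ Sum.inr) (ps ∘ Sum.inr) (z - ∑ t, e t (J (Sum.inl t))) -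
        Δ (J ∘ Sum.inl) (ps ∘ Sum.inl) (z - ∑ t, e t (J (Sum.inl t))), ?_, ?_,
      fun ψ U γ δ hδ h => ?_⟩
    · rw [Fintype.card_sum, hT, pow_succ, mul_two]
    · rintro (t | t)
      · rcases he t with h | h
        · exact Or.inr (by simp [h])
        · exact Or.inl (by simp [h])
      · exact he t
    · have k := dbl _ (pow_nonneg hδ _) (H ψ U γ δ hδ h)
      have c : (Fintype.card (T ⊕ T → A) : ℝ) = (Fintype.card (T → A) : ℝ) ^ 2 := by
        rw [Fintype.card_congr (Equiv.sumArrowEquivProdArrow T T A), Fintype.card_prod]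
        push_cast
        ring
      rw [c, pow_succ 2 r, pow_mul, cnt, ← (eqv fun J : T → A => ∑ t, e t (J t)).sum_comp]
      refine k.trans (sum_le_sum fun p _ => oi_mul_le ?_)
      rintro ⟨-, h1⟩ ⟨h2, h3⟩
      have s : ((eqv fun J : T → A => ∑ t, e t (J t)) p).1 + ∑ t : T ⊕ T,
          Sum.elim (fun t a => -e t a) e t (((eqv fun J : T → A => ∑ t, e t (J t)) p).2 t) =
          p.1 + ∑ t, e t (p.2.2 t) := by
        simp [eqv, Fintype.sum_sum_type]
      rw [s]
      refine ⟨h2, ?_⟩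
      change _ - γ (p.1 + ∑ t, e t (p.2.1 t)) =
        Δ p.2.2 (fun t => ψ (p.2.2 t)) (p.1 + ∑ t, e t (p.2.1 t) - ∑ t, e t (p.2.1 t)) -
          Δ p.2.1 (fun t => ψ (p.2.1 t)) (p.1 + ∑ t, e t (p.2.1 t) - ∑ t, e t (p.2.1 t))
      rw [add_sub_cancel_right, ← h1, ← h3]
      abel

end Pool.Agent.MP_154433_an.T7

end
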