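import Pool.Agent.MP_154433_an.t7.SpecE

/-! Fourier expansion of a trilinear average in the shift. -/

set_option autoImplicit false

noncomputable section

namespace Pool.Agent.MP_154433_an.T7

open Finset
open scoped BigOperators ComplexConjugate
open T3S (B1)

namespace WieL

lemma ee_add (s t : ℝ) : ee (s + t) = ee s * ee t := by
  unfold ee; rw [← Complex.exp_add]; congr 1; push_cast; ring

lemma norm_ee (t : ℝ) : ‖ee t‖ = 1 := Complex.norm_exp_ofReal_mul_I _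

lemma ee_cj (t : ℝ) : conj (ee t) = ee (-t) := by
  unfold ee; rw [← Complex.exp_conj]; congr 1; simp [Complex.conj_ofReal, map_ofNat]

lemma ee_nat (n : ℕ) (t : ℝ) : ee (n * t) = ee t ^ n := by
  unfold ee; rw [← Complex.exp_nat_mul]; congr 1; push_cast; ring

lemma ee_one {t : ℝ} : ee t = 1 ↔ ∃ k : ℤ, t = k := by
  unfold ee
  rw [Complex.exp_eq_one_iff]
  refine exists_congr fun k => ⟨fun h => ?_, fun h => by rw [h]; push_cast; ring⟩
  have h2 : ((2 * Real.pi * t : ℝ) : ℂ) = ((2 * Real.pi * k : ℝ) : ℂ) :=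
    mul_right_cancel₀ Complex.I_ne_zero (by rw [h]; push_cast; ring)
  exact mul_left_cancel₀ (by positivity : (2 * Real.pi) ≠ 0) (Complex.ofReal_injective h2)

lemma orth {M : ℕ} (a : ℤ) (ha : |a| < M) :
    ∑ ξ : Fin M, ee (a * ((ξ : ℕ) / M : ℝ)) = if a = 0 then (M : ℂ) else 0 := by
  have hM : (0 : ℝ) < M := by exact_mod_cast (abs_nonneg a).trans_lt ha
  have e : ∀ ξ : Fin M, ee (a * ((ξ : ℕ) / M : ℝ)) = ee (a / M) ^ (ξ : ℕ) := fun ξ => by
    rw [← ee_nat]; congr 1; ring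
  simp only [e]
  rw [Fin.sum_univ_eq_sum_range (fun i => ee (a / M) ^ i)]
  split_ifs with h
  · have : ee ((a : ℝ) / M) = 1 := ee_one.2 ⟨0, by simp [h]⟩
    simp [this]
  · have h1 : ee ((a : ℝ) / M) ≠ 1 := fun h1 => by
      obtain ⟨k, hk⟩ := ee_one.1 h1
      have : a = M * k := by
        have : (a : ℝ) = M * k := by rw [← hk]; field_simp
        exact_mod_cast this
      exact h (Int.eq_zero_of_abs_lt_dvd ⟨k, this⟩ ha)
    rw [geom_sum_eq h1, ← ee_nat, ee_one.2 ⟨a, by field_simp⟩]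
    simp

/-- transform of a function on an interval -/
def G (L : ℕ) (g : ℤ → ℂ) (t : ℝ) : ℂ := 𝔼 i : Fin L, g (i : ℕ) * ee (((i : ℕ) : ℤ) * t)

lemma pars {L : ℕ} (hL : 1 ≤ L) {g : ℤ → ℂ} (hg : B1 g) :
    ∑ ξ : Fin (4 * L), ‖G L g ((ξ : ℕ) / (4 * L : ℕ))‖ ^ 2 ≤ 4 := by
  have hL' : (0 : ℝ) < L := by exact_mod_cast hL
  have hc : (L : ℂ) ≠ 0 := by exact_mod_cast hL'.ne'
  have key : ((∑ ξ : Fin (4 * L), ‖G L g ((ξ : ℕ) / (4 * L : ℕ))‖ ^ 2 : ℝ) : ℂ) =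
      ((4 / L * ∑ i : Fin L, ‖g (i : ℕ)‖ ^ 2 : ℝ) : ℂ) := by
    have e1 : ∀ t : ℝ, ((‖G L g t‖ : ℂ)) ^ 2 = ∑ i : Fin L, ∑ j : Fin L,
        (L : ℂ)⁻¹ ^ 2 * (g (i : ℕ) * conj (g (j : ℕ))) *
          ee (((((i : ℕ) : ℤ) - ((j : ℕ) : ℤ) : ℤ) : ℝ) * t) := fun t => by
      rw [← Complex.mul_conj']
      simp only [G, expect_eq_sum_div_card, card_univ, Fintype.card_fin, map_div₀, map_sum,
        map_mul, map_natCast, ee_cj, div_mul_div_comm, sum_mul_sum, sum_div]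
      refine sum_congr rfl fun i _ => sum_congr rfl fun j _ => ?_
      rw [Int.cast_sub, sub_mul, sub_eq_add_neg, ee_add]; field_simp
    push_cast
    simp only [← Nat.cast_ofNat (R := ℝ) (n := 4), ← Nat.cast_mul, e1]
    rw [sum_comm, mul_sum]
    refine sum_congr rfl fun i _ => ?_
    rw [sum_comm, sum_eq_single i]
    · rw [← mul_sum, orth _ (by simp; omega), if_pos (sub_self _), Complex.mul_conj']
      push_cast; field_simp
    · intro j _ hj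
      have := i.2; have := j.2
      have h3 : (j : ℕ) ≠ i := fun h => hj (Fin.ext h)
      rw [← mul_sum, orth _ (by rw [abs_lt]; push_cast; omega), if_neg (by omega), mul_zero]
    · simp
  rw [Complex.ofReal_injective key]
  have : ∑ i : Fin L, ‖g (i : ℕ)‖ ^ 2 ≤ ∑ _i : Fin L, (1 : ℝ) :=
    sum_le_sum fun i _ => pow_le_one₀ (norm_nonneg _) (hg _)
  simp only [sum_const, card_univ, Fintype.card_fin, nsmul_eq_mul, mul_one] at this
  calc _ ≤ 4 / L * (L : ℝ) := by gcongr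
    _ = 4 := by field_simp

lemma inv {L : ℕ} (g : ℤ → ℂ) (t : ℤ) (h1 : -L ≤ t) (h2 : t < 3 * L) :
    g t = ∑ ξ : Fin (4 * L), G (4 * L) (fun s => g (s - L)) (-((ξ : ℕ) / (4 * L : ℕ))) *
      ee ((t + L : ℤ) * ((ξ : ℕ) / (4 * L : ℕ) : ℝ)) := by
  have hc : ((4 * L : ℕ) : ℂ) ≠ 0 := by exact_mod_cast (by omega : 4 * L ≠ 0)
  have e : ∀ (s : Fin (4 * L)) (x : ℝ), g (((s : ℕ) : ℤ) - L) * ee (((s : ℕ) : ℤ) * -x) /
      ((4 * L : ℕ) : ℂ) * ee ((t + L : ℤ) * x) = g (((s : ℕ) : ℤ) - L) / ((4 * L : ℕ) : ℂ) *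
        ee ((t + L - (s : ℕ) : ℤ) * x) := fun s x => by
    rw [Int.cast_sub, sub_mul, sub_eq_add_neg (_ * x), ee_add, mul_neg]; ring
  simp only [G, expect_eq_sum_div_card, card_univ, Fintype.card_fin, sum_div, sum_mul, e]
  rw [sum_comm, sum_eq_single (⟨(t + L).toNat, by omega⟩ : Fin (4 * L))]
  · have h3 : (((t + L).toNat : ℕ) : ℤ) = t + L := by omega
    rw [← mul_sum, orth _ (by simp only [h3]; simp; omega), if_pos (by simp only [h3]; ring)]
    simp only [h3, add_sub_cancel_right]; field_simp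
  · intro j _ hj
    have := j.2
    have h3 : (j : ℕ) ≠ (t + L).toNat := fun h => hj (Fin.ext h)
    rw [← mul_sum, orth _ (by rw [abs_lt]; push_cast; omega), if_neg (by omega), mul_zero]
  · simp

lemma norm_G {L : ℕ} (hL : 1 ≤ L) {g : ℤ → ℂ} (hg : B1 g) (t : ℝ) : ‖G L g t‖ ≤ 1 := by
  have : Nonempty (Fin L) := ⟨⟨0, hL⟩⟩
  refine (RCLike.norm_expect_le (K := ℂ)).trans (expect_le univ_nonempty fun i _ => ?_)
  rw [norm_mul, norm_ee, mul_one]; exact hg _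

lemma plain {L : ℕ} (hL : 1 ≤ L) {g1 g2 g3 : ℤ → ℂ} (h1 : B1 g1) (h2 : B1 g2) (h3 : B1 g3) :
    ∃ c : Fin (4 * L) → ℂ, ∑ i, ‖c i‖ ≤ 4 ∧ ∀ y : ℤ, |y| ≤ L →
      (𝔼 i : Fin L, 𝔼 j : Fin L, g1 (i : ℕ) * g2 (j : ℕ) * g3 ((i : ℕ) + (j : ℕ) - y)) =
        ∑ ξ, c ξ * ee (y * -((ξ : ℕ) / (4 * L : ℕ) : ℝ)) := by
  refine ⟨fun ξ => G L g1 ((ξ : ℕ) / (4 * L : ℕ)) * G L g2 ((ξ : ℕ) / (4 * L : ℕ)) *
    (G (4 * L) (fun s => g3 (s - L)) (-((ξ : ℕ) / (4 * L : ℕ))) *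
      ee (L * ((ξ : ℕ) / (4 * L : ℕ) : ℝ))), ?_, fun y hy => ?_⟩
  · have p1 := pars hL h1
    have p2 := pars hL h2
    refine le_trans (sum_le_sum (g := fun ξ : Fin (4 * L) =>
      (‖G L g1 ((ξ : ℕ) / (4 * L : ℕ))‖ ^ 2 + ‖G L g2 ((ξ : ℕ) / (4 * L : ℕ))‖ ^ 2) / 2)
        fun ξ _ => ?_) (by rw [← sum_div, sum_add_distrib]; linarith)
    have := norm_G (L := 4 * L) (by omega) (g := fun s => g3 (s - L)) (fun s => h3 _)
      (-((ξ : ℕ) / (4 * L : ℕ)))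
    simp only [norm_mul, norm_ee, mul_one]
    refine (mul_le_of_le_one_right (by positivity) this).trans ?_
    nlinarith [sq_nonneg (‖G L g1 ((ξ : ℕ) / (4 * L : ℕ))‖ - ‖G L g2 ((ξ : ℕ) / (4 * L : ℕ))‖)]
  · rw [abs_le] at hy
    have e : ∀ i j : Fin L, g3 ((i : ℕ) + (j : ℕ) - y) = _ := fun i j =>
      inv (L := L) g3 _ (by omega) (by have := i.2; have := j.2; omega)
    simp only [e, mul_sum, expect_sum_comm]
    refine sum_congr rfl fun ξ _ => ?_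
    generalize G (4 * L) _ _ = z
    generalize (((ξ : ℕ) : ℝ) / (4 * L : ℕ)) = x
    rw [G, G, expect_mul_expect]
    simp only [expect_mul]
    refine expect_congr rfl fun i _ => expect_congr rfl fun j _ => ?_
    rw [show (((i : ℕ) + (j : ℕ) - y + L : ℤ) : ℝ) * x = (((i : ℕ) : ℤ) : ℝ) * x +
      (((j : ℕ) : ℤ) : ℝ) * x + L * x + y * -x by push_cast; ring, ee_add, ee_add, ee_add]
    ring

end WieL

open WieL in
theorem wie : WieS := by
  intro L hL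
  have : Nonempty (Fin L) := ⟨⟨0, hL⟩⟩
  refine ⟨fun ξ => -((ξ : ℕ) / (4 * L : ℕ) : ℝ), fun g1 g2 g3 h1 h2 h3 => ?_⟩
  choose c hc he using fun a b : Fin L => plain hL (g1 := fun s => g1 (s - (a : ℕ)))
    (g2 := fun s => g2 (s - (b : ℕ))) (g3 := fun s => g3 (s - (a : ℕ) - (b : ℕ)))
    (fun _ => h1 _) (fun _ => h2 _) fun _ => h3 _
  refine ⟨fun ξ => 𝔼 a, 𝔼 b, c a b ξ, ?_, fun y hy => ?_⟩
  · refine le_trans (sum_le_sum (g := fun ξ => 𝔼 a, 𝔼 b, ‖c a b ξ‖) fun ξ _ =>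
      (RCLike.norm_expect_le (K := ℂ)).trans
        (expect_le_expect fun a _ => RCLike.norm_expect_le (K := ℂ))) ?_
    simp only [← expect_sum_comm]
    exact expect_le univ_nonempty fun a _ => expect_le univ_nonempty fun b _ => hc a b
  · simp only [expect_mul, ← expect_sum_comm, ← he _ _ y hy, dE]
    refine expect_congr rfl fun a _ => ?_
    rw [expect_comm]
    refine expect_congr rfl fun b _ => expect_congr rfl fun i _ => expect_congr rfl fun j _ => ?_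
    congr 2; ring

end Pool.Agent.MP_154433_an.T7

end
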