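import Pool.Agent.MP_154433_an.t7.SpecF

/-! Row Wrap: popular values on a product of samples. -/

set_option autoImplicit false

open Finset

namespace Pool.Agent.MP_154433_an.T7

theorem wrap (hEn : EnS) (hPop : PopS) : WrapS := by
  intro δ C hδ hC
  obtain ⟨δ', m, h1, h2, h3⟩ := hPop (δ / 2) (2 * (C + 1) / δ) (by positivity) (by positivity)
  refine ⟨δ', m, h1, h2, fun A Θ T _ _ _ _ _ k0 hk hn => ?_⟩
  have : Nonempty (T → Fin k0) := ⟨fun _ => ⟨0, hk⟩⟩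
  obtain ⟨pop, hp⟩ := h3 A Θ (T → Fin k0)
  refine ⟨pop, fun I _ π e ρ w lam E φ hπ hρ hk' hc hg => ?_⟩
  obtain ⟨s, s1, s2⟩ := hEn A I T k0 π e C ρ δ _ hπ hC hρ hδ hk hk' hc hn hg
  have e1 : (Fintype.card (T → Fin k0) : ℝ) = (k0 : ℝ) ^ Fintype.card T := by
    rw [Fintype.card_fun, Fintype.card_fin, Nat.cast_pow]
  refine ⟨s, hp (fun a => (w + ∑ t, e t (s t (a t)), lam fun t => s t (a t))) E φ ?_ ?_⟩
  · rw [e1]
    exact s1
  · rw [e1]
    simpa only [add_right_inj] using s2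

end Pool.Agent.MP_154433_an.T7
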