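import Pool.Agent.MP_154433_an.t7.SpecE

/-! Row Yg: a finite form of the inequality of Young. -/

set_option autoImplicit false
set_option linter.unusedVariables false

noncomputable section

namespace Pool.Agent.MP_154433_an.T7

open Finset
open scoped BigOperators ComplexConjugate

namespace YgL

variable {I J : Type} [Fintype I] [Fintype J]

def La (A B C D : I → J → ℂ) : ℂ :=
  𝔼 i, 𝔼 i', 𝔼 j, 𝔼 j', A i' j' * conj (B i j') * conj (C i' j) * D i j

theorem split (A B C D : I → J → ℂ) : La A B C D =
    𝔼 i, 𝔼 i', (𝔼 j, A i' j * conj (B i j)) * conj (𝔼 j, C i' j * conj (D i j)) := by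
  refine expect_congr rfl fun i _ => expect_congr rfl fun i' _ => ?_
  rw [T3S.conj_exp, mul_expect]
  refine expect_congr rfl fun j _ => ?_
  rw [expect_mul]
  refine expect_congr rfl fun j' _ => ?_
  rw [map_mul, Complex.conj_conj, mul_assoc]

theorem tr (A B C D : I → J → ℂ) : La A B C D = La (fun j i => A i j) (fun j i => C i j)
    (fun j i => B i j) fun j i => D i j := by
  refine (expect_congr rfl fun i _ => expect_comm _ _ _).trans ((expect_comm _ _ _).trans
    (expect_congr rfl fun j _ => ?_))
  refine (expect_congr rfl fun i _ => expect_comm _ _ _).trans ((expect_comm _ _ _).trans ?_)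
  exact expect_congr rfl fun j' _ => expect_congr rfl fun i _ => expect_congr rfl fun i' _ => by
    ring

theorem am (A B C D : I → J → ℂ) :
    2 * (La A B C D).re ≤ (La A B A B).re + (La C D C D).re := by
  simp only [split, T3S.re_exp, mul_expect _ _ (2 : ℝ), ← expect_add_distrib]
  refine expect_le_expect fun i _ => expect_le_expect fun i' _ => ?_
  generalize (𝔼 j, A i' j * conj (B i j)) = p
  generalize (𝔼 j, C i' j * conj (D i j)) = q
  simp only [Complex.mul_re, Complex.conj_re, Complex.conj_im]
  nlinarith [sq_nonneg (p.re - q.re), sq_nonneg (p.im - q.im)]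

end YgL

theorem yg : YgS := by
  intro I J _ _ V W
  have h1 := YgL.am W W W V
  have h2 := YgL.am (fun j i => W i j) (fun j i => W i j) (fun j i => V i j) fun j i => V i j
  rw [← YgL.tr W V W V, ← YgL.tr W W W W, ← YgL.tr V V V V] at h2
  change 4 * (YgL.La W W W V).re ≤ (YgL.La V V V V).re + 3 * (YgL.La W W W W).re
  linarith

end Pool.Agent.MP_154433_an.T7

end
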