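import Pool.Agent.MP_154433_an.t7.SpecE
import Pool.Agent.MP_154433_an.t3s.Zero

/-! A function orthogonal to the algebra is nearly orthogonal to some member of the sequence. -/

set_option autoImplicit false
set_option linter.unusedVariables false

open MeasureTheory ProbabilityTheory Filter Topology Function
open scoped BigOperators ComplexConjugate InnerProductSpace

noncomputable section

namespace Pool.Agent.MP_154433_an.T7

open T3S (B1 MB1)

open T3S.Zero in
theorem zero (hKcal : KcalS) (hT3SNest : T3S.NestS) : ZeroS := by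
  intro l X _ μ _ A hA a b g C β hg hβ hK h0 ε hε
  by_contra hn
  push Not at hn
  obtain ⟨F, hF⟩ := hT3SNest (Lp ℂ 2 μ)
    (fun N => {F | ∃ u ∈ KX A a b N C, MB1 u ∧ ε ≤ (∫ x, g x * u x ∂μ).re ∧ F =ᵐ[μ] u}) 1
    (fun N N' hN F ⟨u, hu, h⟩ =>
      ⟨u, ⟨hu.1, fun x => hKcal.mono _ _ _ _ _ (Nat.succ_le_succ hN) le_rfl (hu.2 x)⟩, h⟩)
    (fun N => by
      obtain ⟨L, h1, h2⟩ := ((hK N).and (eventually_ge_atTop 1)).exists
      exact ⟨(MemLp.of_bound (hβ L).1.aestronglyMeasurable 1 (Eventually.of_forall (hβ L).2)).toLp _,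
        _, h1, hβ L, (hn L h2).le, MemLp.coeFn_toLp _⟩)
    (fun N F ⟨u, hu, mu, e1, e2⟩ F' ⟨u', hu', mu', e1', e2'⟩ s c ha hc hac => by
      have m : MB1 (s • u + c • u') := MB1.convex mu mu' ha hc hac
      refine ⟨s • u + c • u', ⟨m.1, fun x => ?_⟩, m, ?_, ?_⟩
      · have h := hKcal.add _ _ _ _ _ (hKcal.smul _ _ _ (s : ℂ) (hu.2 x))
          (hKcal.smul _ _ _ (c : ℂ) (hu'.2 x))
        rw [Complex.norm_of_nonneg ha, Complex.norm_of_nonneg hc, ← add_mul, hac, one_mul] at h
        exact hKcal.congr _ _ _ _ (fun _ _ _ _ _ _ => by simp [Orb]) h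
      · have e : ∀ x, g x * (s • u + c • u') x = s * (g x * u x) + c * (g x * u' x) := fun x => by
          simp only [Pi.add_apply, Pi.smul_apply, Complex.real_smul]
          ring
        simp only [e]
        rw [integral_add (((hg.mul mu).integrable μ).const_mul _)
          (((hg.mul mu').integrable μ).const_mul _), integral_const_mul,
          integral_const_mul, Complex.add_re, Complex.re_ofReal_mul, Complex.re_ofReal_mul]
        have := mul_le_mul_of_nonneg_left e1 ha
        have := mul_le_mul_of_nonneg_left e1' hc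
        calc ε = s * ε + c * ε := by rw [← add_mul, hac, one_mul]
          _ ≤ _ := by linarith
      · filter_upwards [Lp.coeFn_add (s • F) (c • F'), Lp.coeFn_smul s F, Lp.coeFn_smul c F', e2,
          e2'] with x p1 p2 p3 p4 p5
        simp only [p1, Pi.add_apply, p2, p3, Pi.smul_apply, p4, p5])
    (fun N F ⟨u, hu, mu, _, e⟩ => by
      have := Lp.norm_le_of_ae_bound (f := F) zero_le_one (by
        filter_upwards [e] with x h
        rw [h]
        exact mu.2 x)
      simpa [measureUnivNNReal] using this)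
  have key : ∀ N δ, 0 < δ → ∃ u ∈ KX A a b N C, MB1 u ∧ ε ≤ (∫ x, g x * u x ∂μ).re ∧
      ∫ x, ‖clip (F x) - u x‖ ∂μ ≤ δ := fun N δ hδ => by
    obtain ⟨F', ⟨u, hu, mu, e1, e2⟩, hd⟩ :=
      Metric.mem_closure_iff.1 (hF N) (δ / 2) (half_pos hδ)
    exact ⟨u, hu, mu, e1, (close F F' mu e2).trans (by linarith)⟩
  have m : MB1 fun x => clip (F x) :=
    ⟨clip_meas.comp (Lp.stronglyMeasurable F).measurable, fun x => norm_clip _⟩
  have z := h0 _ ⟨m.1, ⟨1, m.2⟩, C, fun N δ hδ => (key N δ hδ).imp fun u h => ⟨h.1, h.2.2.2⟩⟩ m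
  obtain ⟨u, -, mu, e1, e2⟩ := key 0 (ε / 2) (half_pos hε)
  have e3 : ‖∫ x, g x * clip (F x) - g x * u x ∂μ‖ ≤ ∫ x, ‖clip (F x) - u x‖ ∂μ :=
    norm_integral_le_of_norm_le ((m.integrable μ).sub (mu.integrable μ)).norm
      (Eventually.of_forall fun x => by
        rw [← mul_sub, norm_mul]
        exact mul_le_of_le_one_left (norm_nonneg _) (hg.2 x))
  rw [integral_sub ((hg.mul m).integrable μ) ((hg.mul mu).integrable μ), z, zero_sub,
    norm_neg] at e3
  linarith [Complex.re_le_norm (∫ x, g x * u x ∂μ)]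

end Pool.Agent.MP_154433_an.T7

end
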